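import Pool.Agent.MP_154433_an.t4.Defs

/-! Statements of the rows (note 154433_EC_h6). -/

set_option autoImplicit false
set_option linter.unusedVariables false
set_option warn.classDefReducibility false

open MeasureTheory ProbabilityTheory Filter Topology Function Finset ComplexConjugate
open scoped BigOperators
open Fib27 (BM sup pr Oc Orow F23 LInd Mem)
open Pool.Agent.MP_154433_an.SG (Uni ufn)

noncomputable section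

namespace T4x

open T3x

variable [Grp]

/-! ### basic calculus -/

/-- the action, factors, embeddings -/
structure BasT : Prop where
  mp : ∀ (X : Sys) (n : Γ), MeasurePreserving (X.Tz n) X.μ X.μ
  zero : ∀ (X : Sys) x, X.Tz 0 x = x
  add : ∀ (X : Sys) (n m : Γ) x, X.Tz (n + m) x = X.Tz n (X.Tz m x)
  res : ∀ (X : Sys) (u : Γ) (n : ℤ), (X.res u).Tz n = X.Tz (n • u)
  inv : ∀ (X : Sys) B (n : Γ), Fac X B → B.comap (X.Tz n) = B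
  bm : ∀ (X : Sys) B (n : Γ) f, Fac X B → BM X.μ B f → BM X.μ B fun x => f (X.Tz n x)
  ce : ∀ (X : Sys) B (n : Γ) (f : X.X → ℂ), Fac X B → Integrable f X.μ →
    X.μ[fun x => f (X.Tz n x) | B] =ᵐ[X.μ] fun x => (X.μ[f | B]) (X.Tz n x)
  emb_z : ∀ (Y X : Sys) p (n : Γ), Emb Y X p → KEq Y.μ X.ms (p ∘ Y.Tz n) (X.Tz n ∘ p)
  emb_id : ∀ X : Sys, Emb X X id
  emb_comp : ∀ (Z Y X : Sys) p q, Emb Z Y p → Emb Y X q → Emb Z X (q ∘ p)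
  top : ∀ X : Sys, Fac X X.ms
  bot : ∀ X : Sys, Fac X (nul X.μ)
  finv : ∀ (X : Sys) (H : Set Γ), Fac X (Inv X H)
  fpull : ∀ (Y X : Sys) p B, Emb Y X p → Fac X B → Fac Y (pull Y.μ p B)
  fsup : ∀ (X : Sys) B C, Fac X B → Fac X C → Fac X (B ⊔ C)
  fisup : ∀ (X : Sys) (ι : Type) (B : MeasurableSpace X.X) (C : ι → MeasurableSpace X.X),
    Fac X B → (∀ i, Fac X (C i)) → Fac X (B ⊔ ⨆ i, C i)
  fsSup : ∀ (X : Sys) (𝒞 : Set (MeasurableSpace X.X)), 𝒞.Nonempty → (∀ C ∈ 𝒞, Fac X C) →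
    Fac X (sSup 𝒞)
  fsp : ∀ (X : Sys) (ι : Type) (B : MeasurableSpace X.X) (C : ι → MeasurableSpace X.X)
    (S : Finset ι), Fac X B → (∀ i, Fac X (C i)) → Fac X (sup C S ⊔ B)
  inv_iff : ∀ (X : Sys) (H : Set Γ) (f : X.X → ℂ), AEStronglyMeasurable f X.μ →
    (AEStronglyMeasurable[Inv X H] f X.μ ↔ ∀ h ∈ H, (fun x => f (X.Tz h x)) =ᵐ[X.μ] f)
  inv_anti : ∀ (X : Sys) (H H' : Set Γ), H ⊆ H' → Inv X H' ≤ Inv X H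
  inv_cl : ∀ (X : Sys) (H : Set Γ), Inv X (AddSubgroup.closure H : Set Γ) = Inv X H
  inv_res : ∀ (X : Sys) (u : Γ), Inv X {u} = T3x.Inv (X.res u)
  /-- the projections on the invariant functions commute -/
  inv_ce : ∀ (X : Sys) (H H' : Set Γ) (f : X.X → ℂ), BM X.μ X.ms f →
    X.μ[X.μ[f | Inv X H] | Inv X H'] =ᵐ[X.μ] X.μ[f | Inv X (H ∪ H')]

/-- the mean ergodic theorem in terms of conditional expectations -/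
def MetS : Prop := ∀ (X : Sys) (u : Γ) (f : X.X → ℂ), MemLp f 2 X.μ → Tendsto (fun N : ℕ =>
  ∫ x, ‖(N : ℂ)⁻¹ * ∑ n ∈ range N, f (X.Tz ((n : ℤ) • u) x) - (X.μ[f | Inv X {u}]) x‖ ^ 2 ∂X.μ)
    atTop (𝓝 0)

/-- correlations along ergodic weights -/
structure Mix (ν : Wt) : Prop where
  zero : ∀ (X : Sys) (u : Γ) (f : X.X → ℂ), MemLp f 2 X.μ →
    (∀ g : X.X → ℂ, MemLp g 2 X.μ → (fun x => g (X.Tz u x)) =ᵐ[X.μ] g → ∫ x, f x * g x ∂X.μ = 0) →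
    Tendsto (fun M => ∫ x, ‖ν.av M fun d => f (X.Tz (d • u) x)‖ ^ 2 ∂X.μ) atTop (𝓝 0)
  /-- two slots are coupled along the invariant factor of their group -/
  pair : ∀ (X : Sys) (s s' : Slot) (f g : X.X → ℂ), BM X.μ X.ms f → BM X.μ X.ms g →
    Tendsto (fun M => ν.av2 M fun l => ∫ x, f (X.Tz (rho s l) x) * g (X.Tz (rho s' l) x) ∂X.μ) atTop
      (𝓝 (∫ x, (X.μ[f | Inv X (pg s s')]) x * (X.μ[g | Inv X (pg s s')]) x ∂X.μ))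

def MixS : Prop := ∀ ν, ERG ν → Mix ν

/-! ### constructions -/

def RealS : Prop := ∀ (S : Type) (A : Set (S → ℂ)) (Λ : (S → ℂ) → ℂ) (t : Γ → S → S), SAlg A →
  (∀ F ∈ A, ∀ G ∈ A, Λ (fun s => F s + G s) = Λ F + Λ G) →
  (∀ (c : ℂ), ∀ F ∈ A, Λ (fun s => c * F s) = c * Λ F) → Λ (fun _ => 1) = 1 →
  (∀ F ∈ A, (∀ s, 0 ≤ (F s).re ∧ (F s).im = 0) → 0 ≤ (Λ F).re ∧ (Λ F).im = 0) →
  (∀ s, t 0 s = s) → (∀ n m s, t (n + m) s = t n (t m s)) →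
  (∀ n, ∀ F ∈ A, (fun s => F (t n s)) ∈ A) → (∀ n, ∀ F ∈ A, Λ (fun s => F (t n s)) = Λ F) →
  ∃ (W : Sys) (hat : (S → ℂ) → W.X → ℂ), Realz A Λ t W hat

def Nice0S : Prop := ∀ X : Sys, ∃ (X' : Sys) (e : X.X → X'.X), Nice X' ∧ Emb X X' e ∧
  ∀ f ∈ Bdd X.X, ∃ f' ∈ Bdd X'.X, ∀ x, f' (e x) = f x

def LimS : Prop := ∀ (X : ℕ → Sys) (p : ∀ k, (X (k + 1)).X → (X k).X), (∀ k, Nice (X k)) →
  (∀ k, Emb (X (k + 1)) (X k) (p k)) → ∃ (Z : Sys) (e : ∀ k, Z.X → (X k).X), Nice Z ∧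
    (∀ k, Emb Z (X k) (e k)) ∧ (∀ k, KEq Z.μ (X k).ms (p k ∘ e (k + 1)) (e k)) ∧
    Z.ms ≤ ⨆ k, pull Z.μ (e k) (X k).ms

def RPS : Prop := ∀ (ι : Type) (X : ι → Sys) (C : Sys) (D : MeasurableSpace C.X)
  (q : ∀ i, (X i).X → C.X) (i0 : ι), (∀ i, Nice (X i)) → Fac C D →
  (∀ i, @MeasurePreserving _ _ (X i).ms C.ms (q i) (X i).μ C.μ) →
  (∀ i n, KEq (X i).μ D (q i ∘ (X i).Tz n) (C.Tz n ∘ q i)) →
  ∃ (Z : Sys) (p : ∀ i, Z.X → (X i).X), IsRP X C D q i0 Z p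

def LineS : Prop := ∀ (ν : Wt) (U : Ultrafilter ℕ) (X : Sys), Nice X → Nonempty (Ln ν U X)

/-- lifts of embeddings to the lines -/
structure LfA : Prop where
  ex : ∀ {ν U} {X' X : Sys} (L' : Ln ν U X') (L : Ln ν U X) p, Emb X' X p → ∃ Lp, IsLift L' L p Lp
  slot : ∀ {ν U} {X' X : Sys} (L' : Ln ν U X') (L : Ln ν U X) p Lp s, Emb X' X p →
    IsLift L' L p Lp → KEq L'.W.μ X.ms (L.π s ∘ Lp) (p ∘ L'.π s)
  shp : ∀ {ν U} {X' X : Sys} (L' : Ln ν U X') (L : Ln ν U X) p Lp B B', Emb X' X p →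
    IsLift L' L p Lp → Fac X B → Fac X' B' → pull X'.μ p B ≤ B' →
    pull L'.W.μ Lp (L.shp B) ≤ L'.shp B'
  uniq : ∀ {ν U} {X' X : Sys} (L' : Ln ν U X') (L : Ln ν U X) p p' Lp Lp', Emb X' X p →
    Emb X' X p' → KEq X'.μ X.ms p p' → IsLift L' L p Lp → IsLift L' L p' Lp' →
    KEq L'.W.μ L.W.ms Lp Lp'
  comp : ∀ {ν U} {X'' X' X : Sys} (L'' : Ln ν U X'') (L' : Ln ν U X') (L : Ln ν U X) q p Lq Lp,
    Emb X'' X' q → Emb X' X p → IsLift L'' L' q Lq → IsLift L' L p Lp →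
    IsLift L'' L (p ∘ q) (Lp ∘ Lq)

/-- internal functions and internal sets -/
structure LfB : Prop where
  congr : ∀ {ν U} {X : Sys} (L : Ln ν U X), ∀ F ∈ FamS X.ms, ∀ F' ∈ FamS X.ms,
    (∀ l, (fun x => F (l, x)) =ᵐ[X.μ] fun x => F' (l, x)) → L.hat F =ᵐ[L.W.μ] L.hat F'
  nrm : ∀ {ν U} {X : Sys} (L : Ln ν U X), ∀ F ∈ FamS X.ms, ∀ w,
    L.hat (fun z => (‖F z‖ : ℂ)) w = (‖L.hat F w‖ : ℂ)
  fac : ∀ {ν U} {X : Sys} (L : Ln ν U X) B, Fac X B → Fac L.W (L.shp B)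
  top : ∀ {ν U} {X : Sys} (L : Ln ν U X), L.shp X.ms = L.W.ms
  mono : ∀ {ν U} {X : Sys} (L : Ln ν U X) (B B' : MeasurableSpace X.X), B ≤ B' →
    L.shp B ≤ L.shp B'
  slot : ∀ {ν U} {X : Sys} (L : Ln ν U X) B s, Fac X B → pull L.W.μ (L.π s) B ≤ L.shp B
  ce : ∀ {ν U} {X : Sys} (L : Ln ν U X) B, Fac X B → ∀ F ∈ FamS X.ms, ∀ F' ∈ FamS B,
    (∀ l, (fun x => F' (l, x)) =ᵐ[X.μ] X.μ[fun x => F (l, x) | B]) →
    L.W.μ[L.hat F | L.shp B] =ᵐ[L.W.μ] L.hat F'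
  cex : ∀ (X : Sys) B, Fac X B → ∀ F ∈ FamS X.ms, ∃ F' ∈ FamS B,
    ∀ l, (fun x => F' (l, x)) =ᵐ[X.μ] X.μ[fun x => F (l, x) | B]
  apx : ∀ {ν U} {X : Sys} (L : Ln ν U X) B, Fac X B → ∀ (g : L.W.X → ℂ) (C ε : ℝ), 0 ≤ C → 0 < ε →
    AEStronglyMeasurable[L.shp B] g L.W.μ → (∀ᵐ w ∂L.W.μ, ‖g w‖ ≤ C) →
    ∃ F ∈ FamS B, (∀ z, ‖F z‖ ≤ C) ∧ ∫ w, ‖g w - L.hat F w‖ ^ 2 ∂L.W.μ ≤ ε
  inv : ∀ {ν U} {X : Sys} (L : Ln ν U X) s s', KEq L.W.μ (Inv X Set.univ) (L.π s) (L.π s')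

structure LfC : Prop where
  hs_ind : ∀ {ν U} {X : Sys} (L : Ln ν U X) (A : Lab → Set X.X), (∀ l, MeasurableSet (A l)) → ∀ w,
    L.hat (fun z => (A z.1).indicator (fun _ => (1 : ℂ)) z.2) w =
      (L.hs A).indicator (fun _ => (1 : ℂ)) w
  hs_meas : ∀ {ν U} {X : Sys} (L : Ln ν U X) B (A : Lab → Set X.X), Fac X B →
    (∀ l, MeasurableSet[B] (A l)) → MeasurableSet[L.shp B] (L.hs A)
  hs_lim : ∀ {ν U} {X : Sys} (L : Ln ν U X) (A : Lab → Set X.X), (∀ l, MeasurableSet (A l)) →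
    Tendsto (fun M => ν.av2 M fun l => X.μ.real (A l)) U (𝓝 (L.W.μ.real (L.hs A)))
  hs_inter : ∀ {ν U} {X : Sys} (L : Ln ν U X) (A A' : Lab → Set X.X), (∀ l, MeasurableSet (A l)) →
    (∀ l, MeasurableSet (A' l)) → L.hs (fun l => A l ∩ A' l) = L.hs A ∩ L.hs A'
  hs_compl : ∀ {ν U} {X : Sys} (L : Ln ν U X) (A : Lab → Set X.X), (∀ l, MeasurableSet (A l)) →
    L.hs (fun l => (A l)ᶜ) = (L.hs A)ᶜ
  hs_slot : ∀ {ν U} {X : Sys} (L : Ln ν U X) s (A : Set X.X), MeasurableSet A →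
    L.hs (fun l => X.Tz (rho s l) ⁻¹' A) =ᵐ[L.W.μ] L.π s ⁻¹' A
  hs_T : ∀ {ν U} {X : Sys} (L : Ln ν U X) (n : Γ) (A : Lab → Set X.X),
    (∀ l, MeasurableSet (A l)) → L.hs (fun l => X.Tz n ⁻¹' A l) = L.W.Tz n ⁻¹' L.hs A
  hs_lift : ∀ {ν U} {X' X : Sys} (L' : Ln ν U X') (L : Ln ν U X) p Lp (A : Lab → Set X.X),
    Emb X' X p → IsLift L' L p Lp → (∀ l, MeasurableSet (A l)) →
    L'.hs (fun l => p ⁻¹' A l) =ᵐ[L'.W.μ] Lp ⁻¹' L.hs A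
  satu : ∀ {ν U} {X : Sys} (L : Ln ν U X) B, (U : Filter ℕ) ≤ atTop → Fac X B →
    ∀ E : Set L.W.X, MeasurableSet[L.shp B] E →
    ∃ A : Lab → Set X.X, (∀ l, MeasurableSet[B] (A l)) ∧ E =ᵐ[L.W.μ] L.hs A

/-- commuting squares -/
structure LfD : Prop where
  cs : ∀ {ν U} {X' X : Sys} (L' : Ln ν U X') (L : Ln ν U X) p Lp s, Emb X' X p →
    IsLift L' L p Lp → ∀ g g0, BM X'.μ X'.ms g → BM X.μ X.ms g0 →
    (fun x => g0 (p x)) =ᵐ[X'.μ] X'.μ[g | pull X'.μ p X.ms] →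
    L'.W.μ[fun w => g (L'.π s w) | pull L'.W.μ Lp L.W.ms] =ᵐ[L'.W.μ] fun w => g0 (p (L'.π s w))
  cs' : ∀ {ν U} {X' X : Sys} (L' : Ln ν U X') (L : Ln ν U X) p Lp s, Emb X' X p →
    IsLift L' L p Lp → ∀ g g0, BM L.W.μ L.W.ms g → BM X.μ X.ms g0 →
    (fun w => g0 (L.π s w)) =ᵐ[L.W.μ] L.W.μ[g | L.P s] →
    L'.W.μ[fun w => g (Lp w) | L'.P s] =ᵐ[L'.W.μ] fun w => g0 (p (L'.π s w))
  /-- a lift is independent of the internal base when the embedding is independent of the base -/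
  base : ∀ {ν U} {X' X : Sys} (L' : Ln ν U X') (L : Ln ν U X) p Lp B B', Emb X' X p →
    IsLift L' L p Lp → Fac X B → Fac X' B' → pull X'.μ p B ≤ B' →
    CP (pull X'.μ p X.ms) (pull X'.μ p B) B' X'.μ →
    CP (pull L'.W.μ Lp L.W.ms) (pull L'.W.μ Lp (L.shp B)) (L'.shp B') L'.W.μ
  /-- independence over the base passes to the lifts label by label -/
  cind : ∀ {ν U} {X' X : Sys} (L' : Ln ν U X') (L : Ln ν U X) {ι : Type} (p : ι → X'.X → X.X)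
    (Lp : ι → L'.W.X → L.W.X) (S : Finset ι) B', (∀ i, Emb X' X (p i)) →
    (∀ i, IsLift L' L (p i) (Lp i)) → Fac X' B' →
    CInd B' (fun i => pull X'.μ (p i) X.ms) S X'.μ →
    CInd (L'.shp B') (fun i => pull L'.W.μ (Lp i) L.W.ms) S L'.W.μ

/-! ### weak mixing and the hull -/

structure KfA : Prop where
  /-- in a relative square: orthogonality to all convolutions is weak mixing -/
  wm_iff : ∀ (X : Sys) (u : Γ) C Z p, Fac X C → Pair X C Z p → ∀ f : X.X → ℂ, MemLp f 2 X.μ →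
    (WM X u C f ↔ ∀ (H : Z.X → ℂ) (g : X.X → ℂ), BM Z.μ (Inv Z {u}) H → BM X.μ X.ms g →
      ∫ z, f (p false z) * H z * g (p true z) ∂Z.μ = 0)
  star : ∀ (X : Sys) C Z p, Fac X C → Pair X C Z p → ∀ (H : Z.X → ℂ) (g : X.X → ℂ),
    BM Z.μ Z.ms H → BM X.μ X.ms g → ∃ k, BM X.μ X.ms k ∧ Star p H g k
  mul : ∀ (X : Sys) (u : Γ) C Z p, Nice X → Fac X C → Pair X C Z p → ∀ (f : X.X → ℂ) (H : Z.X → ℂ)
    (g k : X.X → ℂ), WM X u C f → BM Z.μ (Inv Z {u}) H → BM X.μ X.ms g → BM X.μ X.ms k → Star p H g k →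
    WM X u C fun x => f x * k x
  weak : ∀ (X : Sys) (u : Γ) C, Nice X → Fac X C → ∀ f, BM X.μ X.ms f →
    (∀ ε : ℝ, 0 < ε → ∃ᶠ N : ℕ in atTop, (N : ℝ)⁻¹ * ∑ n ∈ range N,
      ∫ x, ‖(X.μ[fun y => f (X.Tz ((n : ℤ) • u) y) * conj (f y) | C]) x‖ ∂X.μ ≤ ε) →
    WM X u C f

structure KfB : Prop where
  fac : ∀ (X : Sys) (u : Γ) C, Nice X → Fac X C → Fac X (KK X u C)
  le : ∀ (X : Sys) (u : Γ) C, Nice X → Fac X C → C ≤ KK X u C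
  inv : ∀ (X : Sys) (u : Γ) C, Nice X → Fac X C → Inv X {u} ≤ KK X u C
  mono : ∀ (X : Sys) (u : Γ) C C', Nice X → Fac X C → Fac X C' → C ≤ C' → KK X u C ≤ KK X u C'
  wm : ∀ (X : Sys) (u : Γ) C, Nice X → Fac X C → ∀ f : X.X → ℂ, MemLp f 2 X.μ →
    (WM X u C f ↔ X.μ[f | KK X u C] =ᵐ[X.μ] 0)
  mem : ∀ (X : Sys) (u : Γ) C, Nice X → Fac X C → ∀ g, BM X.μ X.ms g →
    (∀ f, WM X u C f → ∫ x, f x * g x ∂X.μ = 0) → BM X.μ (KK X u C) g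
  span : ∀ (X : Sys) (u : Γ) C Z p, Nice X → Fac X C → Pair X C Z p → ∀ k, BM X.μ (KK X u C) k →
    ∀ ε : ℝ, 0 < ε → ∃ (n : ℕ) (H : Fin n → Z.X → ℂ) (g k' : Fin n → X.X → ℂ),
      (∀ i, BM Z.μ (Inv Z {u}) (H i) ∧ BM X.μ X.ms (g i) ∧ BM X.μ X.ms (k' i) ∧
        Star p (H i) (g i) (k' i)) ∧ ∫ x, ‖k x - ∑ i, k' i x‖ ^ 2 ∂X.μ ≤ ε
  /-- closure properties of weakly mixing functions -/
  lin : ∀ (X : Sys) (u : Γ) C, Nice X → Fac X C → ∀ f : X.X → ℂ, MemLp f 2 X.μ →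
    (∀ ε : ℝ, 0 < ε → ∃ (n : ℕ) (a : Fin n → X.X → ℂ), (∀ i, WM X u C (a i)) ∧
      ∫ x, ‖f x - ∑ i, a i x‖ ^ 2 ∂X.μ ≤ ε) → WM X u C f

structure Hf : Prop where
  kc : ∀ (X : Sys) B, Nice X → Fac X B → KC X (hull X B)
  le : ∀ (X : Sys) B, B ≤ hull X B
  min : ∀ (X : Sys) B C, B ≤ C → KC X C → hull X B ≤ C
  mono : ∀ (X : Sys) B C, B ≤ C → hull X B ≤ hull X C
  ind : ∀ (X : Sys) B (Q : MeasurableSpace X.X → Prop), Nice X → Fac X B → Q B →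
    (∀ u ∈ 𝒰, ∀ C, Fac X C → B ≤ C → Q C → Q (KK X u C)) →
    (∀ 𝒞 : Set (MeasurableSpace X.X), 𝒞.Nonempty → IsChain (· ≤ ·) 𝒞 →
      (∀ C ∈ 𝒞, Fac X C ∧ B ≤ C ∧ Q C) → Q (sSup 𝒞)) → Q (hull X B)
  disj : ∀ (X : Sys) Y D C, Nice X → Fac X Y → Fac X D → Fac X C → D ≤ Y → D ≤ C → RWM X Y D →
    CP Y D C X.μ → CP Y D (hull X C) X.μ
  rwm : ∀ (X' X : Sys) p B, Nice X' → Nice X → Emb X' X p → KC X B →
    RWM X' (pull X'.μ p X.ms) (pull X'.μ p B)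
  fn : ∀ (X' X : Sys) p B, Nice X' → Nice X → Emb X' X p → Fac X B →
    pull X'.μ p (hull X B) ≤ hull X' (pull X'.μ p B)
  adm : ∀ (X' X : Sys) p B C, Nice X' → Nice X → Emb X' X p → KC X B → Fac X' C →
    pull X'.μ p B ≤ C → CP (pull X'.μ p X.ms) (pull X'.μ p B) C X'.μ → Adm X' (hull X' C) X B p
  trans : ∀ (X'' X' X : Sys) B'' B' B q p, Fac X B → Adm X'' B'' X' B' q → Adm X' B' X B p →
    Adm X'' B'' X B (p ∘ q)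

/-- independent relatively weakly mixing extensions stay independent over the hull -/
def ProdS : Prop := ∀ (Z : Sys) (ι : Type) (Y D : ι → MeasurableSpace Z.X) (S : Finset ι)
  (C : MeasurableSpace Z.X), Nice Z → Fac Z C → (∀ i, Fac Z (Y i)) → (∀ i, Fac Z (D i)) →
  (∀ i, D i ≤ Y i) → (∀ i ∈ S, D i ≤ C) → (∀ i, RWM Z (Y i) (D i)) →
  (∀ i ∈ S, CP (Y i) (D i) C Z.μ) → CInd C Y S Z.μ →
  CInd (hull Z C) Y S Z.μ ∧ CP (sup Y S ⊔ C) C (hull Z C) Z.μ ∧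
    ∀ i ∈ S, CP (Y i) (D i) (hull Z C) Z.μ

structure Bas : Prop where
  a : BasA
  t : BasT
  d : BasD
  c : BasC

/-- all foundations -/
structure Fd : Prop where
  a : BasA
  t : BasT
  d : BasD
  c : BasC
  met : MetS
  mix : MixS
  nice0 : Nice0S
  lim : LimS
  rp : RPS
  line : LineS
  la : LfA
  lb : LfB
  lc : LfC
  ld : LfD
  ka : KfA
  kb : KfB
  h : Hf
  prod : ProdS

/-- what is known for one map -/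
structure One : Prop where
  b : T3x.Bas
  met : T3x.MetS
  mix : T3x.MixS
  ka : T3x.KfA
  kb : T3x.KfB

def BasTS : Prop := BasA → T3x.BasT → BasT
def MetR : Prop := Bas → One → MetS
def MixR : Prop := Bas → One → MixS
def RealR : Prop := Bas → RealS
def Nice0R : Prop := Bas → RealS → Nice0S
def LimR : Prop := Bas → RealS → LimS
def RPR : Prop := Bas → RealS → RPS
def LineR : Prop := Bas → RealS → LineS
def LfBR : Prop := Bas → LfB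
def LfAR : Prop := Bas → LfB → LfA
def LfCR : Prop := Bas → LfB → LfC
def LfDR : Prop := Bas → LfA → LfB → LfD
def KfAR : Prop := Bas → One → KfA
def KfBR : Prop := Bas → One → KfB
def HfR : Prop := Bas → KfA → KfB → Hf
def ProdR : Prop := Bas → KfA → KfB → Hf → ProdS

/-! ### the induction step -/

def Ind2R : Prop := Fd → ∀ (ν : Wt) (U : Ultrafilter ℕ), (U : Filter ℕ) ≤ atTop → ERG ν → IND ν U 2

/-- the energy grows under admissible extensions and failure of independence is inherited -/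
structure SatA : Prop where
  ob : ∀ {ν U} {X' X : Sys} (L' : Ln ν U X') (L : Ln ν U X) B' B p Lp {ι : Type} [Fintype ι]
    [DecidableEq ι] (sl : ι → Slot) (q : ι), Fac X B → Fac X' B' → Emb X' X p →
    pull X'.μ p B ≤ B' →
    IsLift L' L p Lp → pull L'.W.μ Lp (L.OB B sl q) ≤ L'.OB B' sl q ∧
      pull L'.W.μ Lp (L.B2 B) ≤ L'.B2 B'
  fail : ∀ {ν U} {X' X : Sys} (L' : Ln ν U X') (L : Ln ν U X) B' B p {ι : Type} [Fintype ι]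
    (sl : ι → Slot), Nice X → KC X B → Adm X' B' X B p →
    IndOver L' B' (L'.shp B') sl univ → IndOver L B (L.shp B) sl univ
  /-- amalgamation of any family of admissible extensions -/
  amal : ∀ (X : Sys) B (κ : Type) (Y : κ → Sys) (D : ∀ k, MeasurableSpace (Y k).X)
    (p : ∀ k, (Y k).X → X.X), Nice X → KC X B → (∀ k, Adm (Y k) (D k) X B (p k)) →
    ∃ (Z : Sys) (C : MeasurableSpace Z.X) (q : Z.X → X.X) (e : ∀ k, Z.X → (Y k).X),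
      Adm Z C X B q ∧ ∀ k, Emb Z (Y k) (e k) ∧ pull Z.μ (e k) (D k) ≤ C ∧
        KEq Z.μ X.ms (p k ∘ e k) q
  lim : ∀ (X : ℕ → Sys) (B : ∀ k, MeasurableSpace (X k).X) (p : ∀ k, (X (k + 1)).X → (X k).X),
    Nice (X 0) → KC (X 0) (B 0) → (∀ k, Adm (X (k + 1)) (B (k + 1)) (X k) (B k) (p k)) →
    ∃ (Z : Sys) (C : MeasurableSpace Z.X) (e : ∀ k, Z.X → (X k).X),
      (∀ k, Adm Z C (X k) (B k) (e k)) ∧ (∀ k, KEq Z.μ (X k).ms (p k ∘ e (k + 1)) (e k)) ∧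
      Z.ms ≤ ⨆ k, pull Z.μ (e k) (X k).ms

def SatS : Prop := ∀ (ν : Wt) (U : Ultrafilter ℕ) (X : Sys) (B : MeasurableSpace X.X) (ι : Type)
  [Fintype ι] [DecidableEq ι] (sl : ι → Slot), Nice X → KC X B →
  ∃ (X' : Sys) (B' : MeasurableSpace X'.X) (p : X'.X → X.X) (L' : Ln ν U X'),
    Adm X' B' X B p ∧ SAT L' B' sl

def SatAR : Prop := Fd → SatA
def SatR : Prop := Fd → SatA → SatS
def GIR : Prop := Fd → ∀ c : Ctx, c.GI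
def F3R : Prop := Fd → ∀ c : Ctx, c.GI → c.Sat → c.F3
/-- two columns and one row -/
def R2P (c : Ctx) : Prop := ∀ (q j k : c.ι) (h Y u : c.W.X → ℂ), j ≠ k → BM c.W.μ c.W.ms h →
  BM c.W.μ c.W.ms Y → BM c.W.μ c.W.ms u → c.W.μ[h | c.P q ⊔ c.L.shp c.B] =ᵐ[c.W.μ] 0 →
  ∫ x, h (c.Bc j x) * Y (c.Bc k x) * u (c.A q x) ∂c.W2.μ = 0
def R2PR : Prop := Fd → ∀ c : Ctx, c.GI → R2P c
def F2R : Prop := Fd → ∀ c : Ctx, c.GI → c.Sat → R2P c → c.F2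
def HGR : Prop := Fd → HGXS → ∀ c : Ctx, c.GI → c.F2 → c.F3 → HG c.β c.G c.W2.μ ∧
  (c.Fail → ∃ (j : c.ι) (h : c.W2.X → ℂ), VV c.β c.G j j c.W2.μ h ∧ ¬ h =ᵐ[c.W2.μ] 0 ∧
    c.W2.μ[h | c.β] =ᵐ[c.W2.μ] 0)
def GSp1R : Prop := Fd → Rc → SelS → GGS → ∀ c : Ctx, c.GI → HG c.β c.G c.W2.μ → c.GSp c.Tup1
def FullR : Prop := Fd → Rc → HGXS → ∀ (c : Ctx) (C : (c.ι → c.W.X → ℂ) → Prop), c.GI →
  HG c.β c.G c.W2.μ → (∀ φ, C φ → c.Tup1 φ) → c.GSp C → c.Full C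
/-- a member of a column tuple that is also a member of a row tuple is a function of the point -/
def Rep (c : Ctx) : Prop := ∀ (j k : c.ι) (Φ : c.ι → c.ι → c.W.X → ℂ) (E : Set c.W2.X),
  (∀ i, c.Tup1 (Φ i)) → MeasurableSet[c.β] E → c.W2.μ E ≠ 0 → E ≤ᵐ[c.W2.μ] c.Bc j ⁻¹' c.Θ (Φ j) →
  E ≤ᵐ[c.W2.μ] (Th c.β c.W2.μ fun x => ∏ i, Φ i k (c.Bc i x)) →
  ∃ (E' : Set c.W2.X) (g : Uni c.X.X), MeasurableSet[c.β] E' ∧ E' ⊆ E ∧ c.W2.μ E' ≠ 0 ∧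
    E' ≤ᵐ[c.W2.μ] Th c.β c.W2.μ fun x => Φ j k (c.Bc j x) * conj (ufn g (c.π k (c.Bc j x)))
def RepR : Prop := Fd → Rc → SelS → ApxS → ∀ c : Ctx, c.GI → c.Full c.Tup1 → Rep c
def GSpUR : Prop := Fd → Rc → ∀ c : Ctx, c.GI → HG c.β c.G c.W2.μ → c.GSp c.Tup1 →
  c.Full c.Tup1 → Rep c → c.GSp c.TupU
def T5R : Prop := Fd → Rc → ∀ c : Ctx, c.GI → c.GSp c.TupU → c.Full c.TupU → c.CL ∧
  ((∃ (j : c.ι) (h : c.W2.X → ℂ), VV c.β c.G j j c.W2.μ h ∧ ¬ h =ᵐ[c.W2.μ] 0 ∧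
    c.W2.μ[h | c.β] =ᵐ[c.W2.μ] 0) → ∃ g, c.T5 g)

def ExhR : Prop := Fd → Rc → ∀ (c : Ctx) (g : c.ι → Uni c.X.X),
  ∃ (𝒱 : Subgroup (Uni c.X.X)) (s : Γ → 𝒱 ≃* 𝒱), c.Exh 𝒱 s ∧ ∀ k, g k ∈ 𝒱
def HatR : Prop := Fd → ∀ c : Ctx, c.GI → Nonempty c.Hat
def TyR : Prop := Fd → Rc → ∀ (c : Ctx) (H : c.Hat) 𝒱 s, c.CL → c.Exh 𝒱 s → H.Ty 𝒱
def PosR : Prop := Fd → Rc → ∀ (c : Ctx) (H : c.Hat) 𝒱 s (g : c.ι → Uni c.X.X), c.GI →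
  c.Exh 𝒱 s → H.Ty 𝒱 → (∀ k, g k ∈ 𝒱) → c.T5 g → ∃ j k, H.Pos 𝒱 g j k

/-- the functions `ψ` and what the line over the extension knows about them -/
def PsiR : Prop := Fd → Rc → ∀ (c : Ctx) (H : c.Hat) 𝒱 s (g0 : Uni c.X.X), c.GI → c.Exh 𝒱 s →
  g0 ∈ 𝒱 → ∃ (HH : 𝒱 → Set H.X1.X) (sg : Γ →+ AddAut (𝒱 →₀ ℤ)) (ψ : (𝒱 →₀ ℤ) → H.X1.X → ℂ),
    (∀ g x, x ∈ HH g ↔ (∃ a, H.τ 𝒱 g0 (H.p2 x) a) ∧
      ∀ a, H.τ 𝒱 g0 (H.p2 x) a → H.τ 𝒱 g.1 (H.p1 x) a) ∧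
    (∀ g, MeasurableSet[H.B1] (HH g)) ∧ Psi H.X1 H.B1 sg ψ ∧
    (∀ g x, x ∈ HH g → ψ (Finsupp.single g 1) x = ufn g.1 (H.p x)) ∧
    ∀ g x, x ∉ HH g → ψ (Finsupp.single g 1) x = 1

def BunR : Prop := Fd → Rc → SatA → PsiR → GIR → ∀ (c : Ctx) (H : c.Hat) 𝒱 s
  (g : c.ι → Uni c.X.X) (j k : c.ι), c.GI → c.Exh 𝒱 s → H.Ty 𝒱 → (∀ i, g i ∈ 𝒱) →
  H.Pos 𝒱 g j k → ∃ (c1 : Ctx) (V : Type) (_ : AddCommGroup V) (_ : Countable V) (sg : Γ →+ AddAut V)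
    (ψ : V → c1.X.X → ℂ), Psi c1.X c1.B sg ψ ∧ c1.Bun ψ

/-- the events of the algebraic step in the line -/
def Ctx.SV (c : Ctx) {V : Type} (ψ : V → c.X.X → ℂ) (i1 i2 : c.ι) (a a' : V) : Set c.W.X :=
  c.UU ψ ∩ ⋃ v ∈ {v : c.ι → V | v i1 = a ∧ v i2 = a'}, c.ΘV ψ v

/-- properties of the steps in the line and in the grid -/
structure Ctx.Stp (c : Ctx) {V : Type} [AddCommGroup V] (sg : Γ →+ AddAut V) (ψ : V → c.X.X → ℂ)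
    (i1 i2 : c.ι) : Prop where
  sub : ∀ a a' b b', (c.SV ψ i1 i2 a a' ∩ c.SV ψ i1 i2 b b' : Set c.W.X) ≤ᵐ[c.W.μ]
    c.SV ψ i1 i2 (a - b) (a' - b')
  zero : c.SV ψ i1 i2 0 0 =ᵐ[c.W.μ] c.UU ψ
  triv : ∀ a a', ∀ᵐ w ∂c.W.μ, w ∈ c.UU ψ → w ∉ c.Nt i1 (ψ a) → w ∉ c.Nt i2 (ψ a') →
    w ∈ c.SV ψ i1 i2 a a'
  ker : ∀ (v : c.ι → V) (j k : c.ι), ∀ᵐ w ∂c.W.μ, w ∈ c.ΘV ψ v →
    (w ∈ c.Nt j (ψ (v j)) ↔ w ∈ c.Nt k (ψ (v k)))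
  sh : ∀ n a a', c.SV ψ i1 i2 (sg n a) (sg n a') =ᵐ[c.W.μ] c.W.Tz n ⁻¹' c.SV ψ i1 i2 a a'
  flat : ∀ i3, i1 ≠ i3 → ∀ a b a' b', ∀ᵐ x ∂c.W2.μ, c.A i1 x ∈ c.SV ψ i1 i3 a b →
    c.A i2 x ∈ c.SV ψ i1 i3 a' b' →
    (c.Bc i1 x ∈ c.SV ψ i1 i2 a a' ↔ c.Bc i3 x ∈ c.SV ψ i1 i2 b b')

def StpR : Prop := Fd → Rc → ∀ (c : Ctx) (V : Type) [AddCommGroup V] [Countable V]
  (sg : Γ →+ AddAut V) (ψ : V → c.X.X → ℂ) (i1 i2 : c.ι), i1 ≠ i2 → c.GI → Psi c.X c.B sg ψ →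
  c.Stp sg ψ i1 i2

/-- the algebraic step -/
def AlgS : Prop := ∀ (ν : Wt) (U : Ultrafilter ℕ) (X : Sys) (V : Type) [AddCommGroup V]
  [Countable V] (sg : Γ →+ AddAut V) (N : V → Set X.X) (ι : Type) [Fintype ι]
  (Sg : ι → Lab → V → V → Set X.X) (sl : ι → Slot) (i1 : ι) (n : ι → Lab → Γ) (v0 : ι → V),
  ¬ AlgD ν U X sg N Sg sl i1 n v0

/-- exact relations and decay at the finite level -/
def RelR : Prop := Fd → Rc → ∀ (c : Ctx) (V : Type) [AddCommGroup V] [Countable V]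
  (sg : Γ →+ AddAut V) (ψ : V → c.X.X → ℂ), Psi c.X c.B sg ψ →
  (∀ v : c.ι → V, Th (c.L.shp c.B) c.W.μ (c.FF ψ v) =ᵐ[c.W.μ]
    c.L.hs fun l => Th c.B c.X.μ (ψ (∑ k, sg (rho (c.sl k) l) (v k)))) ∧
  (∀ᵐ x ∂c.X.μ, x ∈ Th c.B c.X.μ (ψ 0)) ∧
  (∀ v v', ∀ᵐ x ∂c.X.μ, x ∈ Th c.B c.X.μ (ψ v) → x ∈ Th c.B c.X.μ (ψ v') →
    x ∈ Th c.B c.X.μ (ψ (v - v'))) ∧
  (∀ (n : Γ) v, ∀ᵐ x ∂c.X.μ,
    x ∈ Th c.B c.X.μ (ψ (sg n v)) ↔ c.X.Tz n x ∈ Th c.B c.X.μ (ψ v)) ∧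
  ∀ u ∈ 𝒰, ∀ a a', Tendsto (fun K : ℕ => (K : ℝ)⁻¹ * ∑ k ∈ range K, c.X.μ.real
    (Th c.B c.X.μ (ψ (sg ((k : ℤ) • u) a - a')) \ Th c.B c.X.μ (ψ a'))) atTop (𝓝 0)

def OnhR : Prop := Fd → Rc → RelR → ∀ (c : Ctx) (V : Type) [AddCommGroup V] [Countable V]
  (sg : Γ →+ AddAut V) (ψ : V → c.X.X → ℂ), Psi c.X c.B sg ψ → c.ONH ψ ∧ c.HI ψ

def AlgIR : Prop := Fd → Rc → StpR → RelR → AlgS → ∀ (c : Ctx) (V : Type) [AddCommGroup V]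
  [Countable V] (sg : Γ →+ AddAut V) (ψ : V → c.X.X → ℂ), c.GI → Psi c.X c.B sg ψ → c.ONH ψ → c.HI ψ →
  ¬ c.Bun ψ

/-- no saturated context fails -/
def StepS : Prop := ∀ c : Ctx, c.Sat → ¬ c.Fail

def IndS : Prop := ∀ (ν : Wt) (U : Ultrafilter ℕ), (U : Filter ℕ) ≤ atTop → ERG ν → SPR ν →
  ∀ n, IND ν U n

/-- independence at the finite level -/
def IndF (ν : Wt) (U : Ultrafilter ℕ) (X : Sys) (B : MeasurableSpace X.X) {ι : Type}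
    (sl : ι → Slot) (S : Finset ι) : Prop :=
  ∀ f : ι → X.X → ℂ, (∀ i ∈ S, BM X.μ X.ms (f i)) → Tendsto (fun M => ν.av2 M fun l =>
    ∫ x, ‖(X.μ[fun y => ∏ i ∈ S, f i (X.Tz (rho (sl i) l) y) | B]) x -
      ∏ i ∈ S, (X.μ[f i | B]) (X.Tz (rho (sl i) l) x)‖ ^ 2 ∂X.μ) U (𝓝 0)

def IndFS : Prop := ∀ (ν : Wt) (U : Ultrafilter ℕ) (X : Sys) (B : MeasurableSpace X.X)
  (L : Ln ν U X) (ι : Type) (sl : ι → Slot) (S : Finset ι), Fac X B →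
  (IndOver L B (L.shp B) sl S ↔ IndF ν U X B sl S)

def IndFR : Prop := Fd → IndFS

/-- independence for slots in normal form -/
def INDN (ν : Wt) (U : Ultrafilter ℕ) (n : ℕ) : Prop :=
  ∀ (X : Sys) (B : MeasurableSpace X.X) (L : Ln ν U X) (ι : Type) [Fintype ι] (sl : ι → Slot),
    Nice X → KC X B → Nrm sl → Fintype.card ι = n → IndOver L B (L.shp B) sl univ

/-! ### good factors -/

/-- goodness may be tested on a family with dense span; it passes to joins of chains -/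
structure Gf : Prop where
  dense : ∀ (ν ν' : Wt) (X : Sys) (ι : Type) [Fintype ι] [DecidableEq ι] (r : ι → Γ) C
    (T : Set (X.X → ℂ)), Fac X C → (∀ φ ∈ T, BM X.μ X.ms φ) →
    (∀ g, BM X.μ C g → ∀ ε : ℝ, 0 < ε → ∃ (n : ℕ) (a : Fin n → X.X → ℂ), (∀ i, a i ∈ T) ∧
      ∫ x, ‖g x - ∑ i, a i x‖ ^ 2 ∂X.μ ≤ ε) →
    (∀ f : ι → X.X → ℂ, (∀ i, f i ∈ T) → Tendsto
      (fun M => ∫ x, ‖avg ν M X r f x - avg ν' M X r f x‖ ^ 2 ∂X.μ) atTop (𝓝 0)) → Good ν ν' X r C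
  chain : ∀ (ν ν' : Wt) (X : Sys) (ι : Type) [Fintype ι] [DecidableEq ι] (r : ι → Γ)
    (𝒞 : Set (MeasurableSpace X.X)), 𝒞.Nonempty → IsChain (· ≤ ·) 𝒞 →
    (∀ C ∈ 𝒞, Fac X C ∧ Good ν ν' X r C) → Good ν ν' X r (sSup 𝒞)
  down : ∀ (ν ν' : Wt) (X X' : Sys) e (ι : Type) [Fintype ι] [DecidableEq ι] (r : ι → Γ),
    Emb X X' e → (∀ f ∈ Bdd X.X, ∃ f' ∈ Bdd X'.X, ∀ x, f' (e x) = f x) →
    Good ν ν' X' r X'.ms → Good ν ν' X r X.ms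

/-- averages of convolutions vanish when one function is orthogonal to the good factor -/
def CptA : Prop := ∀ (ν' ν'' : Wt) (X : Sys) (ι : Type) [Fintype ι] [DecidableEq ι] (r : ι → Γ)
  B0 C Z p, ∀ u ∈ 𝒰, Nice X → Fac X B0 → Fac X C → B0 ≤ C → Pair X C Z p → Good ν'' ν' X r C →
  G0 ν' X r B0 → ∀ (H : ι → Z.X → ℂ) (g k : ι → X.X → ℂ) (i0 : ι),
  (∀ i, BM Z.μ (Inv Z {u}) (H i) ∧ BM X.μ X.ms (g i) ∧ BM X.μ X.ms (k i) ∧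
    Star p (H i) (g i) (k i)) →
  X.μ[g i0 | C] =ᵐ[X.μ] 0 → Tendsto (fun M => ∫ x, ‖avg ν'' M X r k x‖ ^ 2 ∂X.μ) atTop (𝓝 0)

def CptS : Prop := ∀ (ν ν' : Wt) (X : Sys) (ι : Type) [Fintype ι] [DecidableEq ι] (r : ι → Γ)
  B0 C, ∀ u ∈ 𝒰, Nice X → Fac X B0 → Fac X C → B0 ≤ C → Inv X {u} ≤ C → Good ν ν' X r C →
  G0 ν' X r B0 → Good ν ν' X r (KK X u C)

def TopS : Prop := ∀ (ν ν' : Wt) (X : Sys) (ι : Type) [Fintype ι] [DecidableEq ι] (r : ι → Γ) C,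
  ERG ν → ERG ν' → SPR ν → SPR ν' → CovR r → Nice X → KC X C → Good ν ν' X r C →
  Good ν ν' X r X.ms

def DET : Prop := ∀ (ν ν' : Wt) (ι : Type) [Fintype ι] [DecidableEq ι] (r : ι → Γ) (Λ : Set Γ),
  ERG ν → ERG ν' → SPR ν → SPR ν' → CovR r → (∀ X : Sys, EE X Λ → HasB0 ν ν' X r) →
  ∀ X : Sys, EE X Λ → Good ν ν' X r X.ms

def GfR : Prop := Bas → Gf
def CptAR : Prop := Fd → CptA
def CptR : Prop := Fd → Gf → CptA → CptS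
def TopR : Prop := Fd → Gf → IndS → TopS
def DetR : Prop := Fd → Gf → CptS → TopS → DET

end T4x

namespace T4x

open T3x

/-- reduction to the normal form: restrict the action to a subgroup and recentre -/
def ResS : Prop := ∀ (ν : Wt) (U : Ultrafilter ℕ) (n : ℕ), 2 ≤ n → (∀ G : Grp, @INDN G ν U n) →
  ∀ [Grp] (X : Sys) (B : MeasurableSpace X.X) (L : Ln ν U X) (ι : Type) (sl : ι → Slot)
    (S : Finset ι), Nice X → KC X B → Cov sl S → S.card = n → IndOver L B (L.shp B) sl S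

def ResR : Prop := (∀ G : Grp, @Fd G) → (∀ G : Grp, @IndFS G) → ResS

def IndR : Prop := (∀ G : Grp, @Fd G) → (∀ G : Grp, @Ind2R G) → (∀ G : Grp, @SatA G) →
  (∀ G : Grp, @SatS G) → (∀ G : Grp, @StepS G) → ResS → ∀ G : Grp, @IndS G

end T4x

end
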