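import Pool.Agent.MP_154433_an.t4.Spec

/-! The action, factors, embeddings, invariant functions. -/

set_option autoImplicit false
set_option linter.unusedVariables false
set_option warn.classDefReducibility false

open MeasureTheory ProbabilityTheory Filter Topology Function Finset ComplexConjugate
open scoped BigOperators
open Fib27 (BM sup pr Oc Orow F23 LInd Mem)

noncomputable section

namespace T4x

open T3x

variable [Grp]

namespace BasTx

lemma cancel (X : Sys) (n : Γ) (x : X.X) : X.Tz (-n) (X.Tz n x) = x := by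
  rw [← X.add, neg_add_cancel, X.zero]

lemma cancel' (X : Sys) (n : Γ) (x : X.X) : X.Tz n (X.Tz (-n) x) = x := by
  rw [← X.add, add_neg_cancel, X.zero]

lemma res (hT : T3x.BasT) (X : Sys) (u : Γ) (n : ℤ) : (X.res u).Tz n = X.Tz (n • u) := by
  have h1 : ∀ x, (X.res u).Tz 1 x = X.Tz u x := fun x => hT.one (X.res u) x
  have hm : ∀ x, (X.res u).Tz (-1) x = X.Tz (-u) x := fun x => by
    have e : (X.res u).Tz (-1) ((X.res u).Tz 1 (X.Tz (-u) x)) = X.Tz (-u) x := by
      rw [← hT.add (X.res u), neg_add_cancel, hT.zero (X.res u)]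
    rwa [h1, cancel'] at e
  induction n using Int.induction_on with
  | zero =>
    funext x
    rw [zero_smul, X.zero]
    exact hT.zero (X.res u) x
  | succ k ih =>
    funext x
    rw [add_smul, one_smul, X.add, ← ih, ← h1]
    exact hT.add (X.res u) _ _ x
  | pred k ih =>
    funext x
    rw [sub_eq_add_neg, add_smul, neg_smul 1 u, one_smul, X.add, ← ih, ← hm]
    exact hT.add (X.res u) _ _ x

lemma inv (X : Sys) (B : MeasurableSpace X.X) (n : Γ) (hB : Fac X B) :
    B.comap (X.Tz n) = B := by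
  refine le_antisymm (hB.inv n) fun A hA => ?_
  refine ⟨X.Tz (-n) ⁻¹' A, hB.inv (-n) _ ⟨A, hA, rfl⟩, ?_⟩
  ext x
  simp only [Set.mem_preimage, cancel]

lemma pull_tz (X : Sys) (B : MeasurableSpace X.X) (n : Γ) (hB : Fac X B) :
    pull X.μ (X.Tz n) B = B := by
  rw [pull, inv X B n hB]
  exact sup_eq_left.2 hB.nl

lemma nul_comap (X : Sys) (n : Γ) : (nul X.μ).comap (X.Tz n) ≤ nul X.μ := by
  rw [nul, MeasurableSpace.comap_generateFrom]
  refine MeasurableSpace.generateFrom_mono ?_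
  rintro _ ⟨A, ⟨hA, h0⟩, rfl⟩
  exact ⟨(X.mp n).measurable hA, (X.mp n).quasiMeasurePreserving.preimage_null h0⟩

lemma fisup (X : Sys) (ι : Type) (B : MeasurableSpace X.X) (C : ι → MeasurableSpace X.X)
    (P : ι → Prop) (hB : Fac X B) (hC : ∀ i, P i → Fac X (C i)) :
    Fac X (B ⊔ ⨆ i, ⨆ _ : P i, C i) := by
  refine ⟨sup_le hB.le (iSup₂_le fun i hi => (hC i hi).le), hB.nl.trans le_sup_left, fun n => ?_⟩
  rw [MeasurableSpace.comap_sup, MeasurableSpace.comap_iSup]
  refine sup_le_sup (hB.inv n) (iSup_mono fun i => ?_)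
  rw [MeasurableSpace.comap_iSup]
  exact iSup_mono fun hi => (hC i hi).inv n

lemma inv_le (X : Sys) (H : Set Γ) : Inv X H ≤ X.ms := fun A hA => hA.1

lemma nul_inv (X : Sys) (H : Set Γ) : nul X.μ ≤ Inv X H := by
  refine MeasurableSpace.generateFrom_le ?_
  rintro A ⟨hA, h0⟩
  refine ⟨hA, fun h _ => ?_⟩
  exact (ae_eq_empty.2 ((X.mp h).quasiMeasurePreserving.preimage_null h0)).trans
    (ae_eq_empty.2 h0).symm

lemma finv (X : Sys) (H : Set Γ) : Fac X (Inv X H) := by
  refine ⟨inv_le X H, nul_inv X H, fun n => ?_⟩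
  rintro _ ⟨A, hA, rfl⟩
  refine ⟨(X.mp n).measurable hA.1, fun h hh => ?_⟩
  have e : X.Tz h ⁻¹' (X.Tz n ⁻¹' A) = X.Tz n ⁻¹' (X.Tz h ⁻¹' A) := by
    ext x
    simp only [Set.mem_preimage, ← X.add, add_comm n h]
  rw [e]
  exact (X.mp n).quasiMeasurePreserving.preimage_ae_eq (hA.2 h hh)

lemma ce (hA : BasA) (X : Sys) (B : MeasurableSpace X.X) (n : Γ) (f : X.X → ℂ) (hB : Fac X B)
    (hf : Integrable f X.μ) :
    X.μ[fun x => f (X.Tz n x) | B] =ᵐ[X.μ] fun x => (X.μ[f | B]) (X.Tz n x) := by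
  have h := hA.ce_comp B X.μ X.μ (X.Tz n) f (X.mp n) hB.le hf
  rwa [pull_tz X B n hB] at h

lemma inv_iff (hA : BasA) (X : Sys) (H : Set Γ) (f : X.X → ℂ) (hf : AEStronglyMeasurable f X.μ) :
    AEStronglyMeasurable[Inv X H] f X.μ ↔ ∀ h ∈ H, (fun x => f (X.Tz h x)) =ᵐ[X.μ] f := by
  constructor
  · intro hI h hh
    exact hA.keq_fun (Inv X H) X.μ X.μ (X.Tz h) id f (X.mp h) (MeasurePreserving.id _)
      (fun A hA' => hA'.2 h hh) hI
  · intro h
    obtain ⟨g, hg, hfg⟩ := hf
    have hm : Measurable[Inv X H] g := by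
      intro s hs
      refine ⟨hg.measurable hs, fun u hu => ?_⟩
      have hgT : (fun x => g (X.Tz u x)) =ᵐ[X.μ] g := by
        filter_upwards [hfg, (X.mp u).quasiMeasurePreserving.ae hfg, h u hu] with x h1 h2 h3
        rw [← h1, ← h2, h3]
      exact hgT.preimage s
    exact ⟨g, hm.stronglyMeasurable, hfg⟩

lemma inv_anti (X : Sys) (H H' : Set Γ) (h : H ⊆ H') : Inv X H' ≤ Inv X H :=
  fun A hA => ⟨hA.1, fun u hu => hA.2 u (h hu)⟩

lemma inv_cl (X : Sys) (H : Set Γ) : Inv X (AddSubgroup.closure H : Set Γ) = Inv X H := by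
  refine le_antisymm (inv_anti X _ _ AddSubgroup.subset_closure) fun A hA => ⟨hA.1, fun u hu => ?_⟩
  induction hu using AddSubgroup.closure_induction with
  | mem x hx => exact hA.2 x hx
  | zero =>
    have e : X.Tz 0 ⁻¹' A = A := by
      ext x
      rw [Set.mem_preimage, X.zero]
    rw [e]
  | add x y _ _ hx hy =>
    have e : X.Tz (x + y) ⁻¹' A = X.Tz y ⁻¹' (X.Tz x ⁻¹' A) := by
      ext z
      simp only [Set.mem_preimage, X.add]
    rw [e]
    exact ((X.mp y).quasiMeasurePreserving.preimage_ae_eq hx).trans hy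
  | neg x _ hx =>
    have e : A = X.Tz (-x) ⁻¹' (X.Tz x ⁻¹' A) := by
      ext z
      simp only [Set.mem_preimage, cancel']
    have h := (X.mp (-x)).quasiMeasurePreserving.preimage_ae_eq hx
    rw [← e] at h
    exact h.symm

lemma inv_res (hA : BasA) (X : Sys) (u : Γ) : Inv X {u} = T3x.Inv (X.res u) := by
  have hle : MeasurableSpace.invariants (X.Tz u) ≤ X.ms := MeasurableSpace.invariants_le _
  refine le_antisymm (fun A hI => ?_) (sup_le (fun A hI => ⟨hI.1, fun h hh => ?_⟩) (nul_inv X _))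
  · obtain ⟨t, ht, hts, htT⟩ := (X.mp u).quasiMeasurePreserving.exists_preimage_eq_of_preimage_ae
      hI.1.nullMeasurableSet (hI.2 u rfl)
    exact (hA.mem _ X.μ hle _).2 ⟨hI.1, t, ⟨ht, htT⟩, hts.symm⟩
  · have e : X.Tz u ⁻¹' A = A := hI.2
    rw [Set.mem_singleton_iff.1 hh, e]

lemma inv_ce (hA : BasA) (X : Sys) (H H' : Set Γ) (f : X.X → ℂ) :
    X.μ[X.μ[f | Inv X H] | Inv X H'] =ᵐ[X.μ] X.μ[f | Inv X (H ∪ H')] := by
  have m1 : AEStronglyMeasurable[Inv X H] (X.μ[f | Inv X H]) X.μ :=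
    stronglyMeasurable_condExp.aestronglyMeasurable
  have m2 : AEStronglyMeasurable[Inv X H'] (X.μ[X.μ[f | Inv X H] | Inv X H']) X.μ :=
    stronglyMeasurable_condExp.aestronglyMeasurable
  have i1 := (inv_iff hA X H _ integrable_condExp.aestronglyMeasurable).1 m1
  have i2 := (inv_iff hA X H' _ integrable_condExp.aestronglyMeasurable).1 m2
  have m3 : AEStronglyMeasurable[Inv X (H ∪ H')] (X.μ[X.μ[f | Inv X H] | Inv X H']) X.μ := by
    refine (inv_iff hA X _ _ integrable_condExp.aestronglyMeasurable).2 ?_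
    rintro h (hh | hh)
    · exact (ce hA X _ h _ (finv X H') integrable_condExp).symm.trans
        (condExp_congr_ae (i1 h hh))
    · exact i2 h hh
  have l1 : Inv X (H ∪ H') ≤ Inv X H := inv_anti X _ _ Set.subset_union_left
  have l2 : Inv X (H ∪ H') ≤ Inv X H' := inv_anti X _ _ Set.subset_union_right
  have t1 : X.μ[X.μ[f | Inv X H] | Inv X (H ∪ H')] =ᵐ[X.μ] X.μ[f | Inv X (H ∪ H')] :=
    condExp_condExp_of_le l1 (inv_le X H)
  have t2 : X.μ[X.μ[X.μ[f | Inv X H] | Inv X H'] | Inv X (H ∪ H')] =ᵐ[X.μ]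
      X.μ[X.μ[f | Inv X H] | Inv X (H ∪ H')] := condExp_condExp_of_le l2 (inv_le X H')
  have t3 := condExp_of_aestronglyMeasurable' (inv_le X (H ∪ H')) m3 integrable_condExp
  exact t3.symm.trans (t2.trans t1)

end BasTx

lemma BasTx.emb_meas {Y X : Sys} {p : Y.X → X.X} (hp : Emb Y X p) : Measurable p :=
  hp.mp.measurable

open BasTx in
theorem basT : BasTS := fun hA hT =>
  { mp := fun X => X.mp
    zero := fun X => X.zero
    add := fun X => X.add
    res := res hT
    inv := inv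
    bm := fun X B n f hB hf => by
      have h := hA.bm_comp B X.μ X.μ (X.Tz n) f (X.mp n) hf
      rwa [pull_tz X B n hB] at h
    ce := ce hA
    emb_z := fun Y X p n hp => hp.eqv n
    emb_id := fun X => ⟨MeasurePreserving.id _, fun n A hA => EventuallyEq.rfl⟩
    emb_comp := fun Z Y X p q hp hq =>
      ⟨hq.mp.comp hp.mp, fun n A hA =>
        (hp.eqv n _ (hq.mp.measurable hA)).trans
          (hp.mp.quasiMeasurePreserving.preimage_ae_eq (hq.eqv n A hA))⟩
    top := fun X => ⟨le_rfl, hA.nul_le X.μ, fun n => (X.mp n).measurable.comap_le⟩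
    bot := fun X => ⟨hA.nul_le X.μ, le_rfl, nul_comap X⟩
    finv := finv
    fpull := fun Y X p B hp hB => by
      refine ⟨hA.pull_le B Y.μ X.μ p hp.mp hB.le, le_sup_right, fun n => ?_⟩
      rw [pull, MeasurableSpace.comap_sup]
      refine sup_le ?_ ((nul_comap Y n).trans le_sup_right)
      rintro _ ⟨_, ⟨A, hA', rfl⟩, rfl⟩
      have hm : @Measurable _ _ Y.ms X.ms p := emb_meas hp
      have hle : B.comap p ≤ Y.ms := (MeasurableSpace.comap_mono hB.le).trans hm.comap_le
      refine (hA.mem (B.comap p) Y.μ hle _).2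
        ⟨(Y.mp n).measurable (hm (hB.le A hA')), p ⁻¹' (X.Tz n ⁻¹' A),
          ⟨_, hB.inv n _ ⟨A, hA', rfl⟩, rfl⟩, ?_⟩
      exact hp.eqv n A (hB.le A hA')
    fsup := fun X B C hB hC => by
      refine ⟨sup_le hB.le hC.le, hB.nl.trans le_sup_left, fun n => ?_⟩
      rw [MeasurableSpace.comap_sup]
      exact sup_le_sup (hB.inv n) (hC.inv n)
    fisup := fun X ι B C hB hC => by
      simpa using fisup X ι B C (fun _ => True) hB fun i _ => hC i
    fsSup := fun X 𝒞 hne hC => by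
      obtain ⟨B, hB⟩ := hne
      have h := fisup X _ B id (fun C => C ∈ 𝒞) (hC B hB) hC
      simp only [id] at h
      rwa [← sSup_eq_iSup, sup_eq_right.2 (le_sSup hB)] at h
    fsp := fun X ι B C S hB hC => by
      rw [sup_comm]
      exact fisup X ι B C (fun i => i ∈ S) hB fun i _ => hC i
    inv_iff := inv_iff hA
    inv_anti := inv_anti
    inv_cl := inv_cl
    inv_res := inv_res hA
    inv_ce := fun X H H' f _ => inv_ce hA X H H' f }

end T4x

end
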