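import Pool.Agent.MP_154433_an.t3.Spec

/-! Definitions for the fixed-system theorem for commuting maps (note 154433_EC_h6). Names that are
not declared here are those of `T3x`. -/

set_option autoImplicit false
set_option linter.unusedVariables false
set_option warn.classDefReducibility false

open MeasureTheory ProbabilityTheory Filter Topology Function Finset ComplexConjugate
open scoped BigOperators
open Fib27 (BM sup pr Oc Orow F23 LInd Mem)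
open Pool.Agent.MP_154433_an.SG (Uni ufn)

noncomputable section

namespace T4x

open T3x

/-! ### thin sets -/

open Classical in
/-- at most `ε * H` points in every interval of length `H` -/
def Thin (ε : ℝ) (H : ℕ) (A : Set ℤ) : Prop :=
  ∀ n : ℤ, (((range H).filter fun h : ℕ => n + h ∈ A).card : ℝ) ≤ ε * H

abbrev Lau (r : ℕ) : Type := AddMonoidAlgebra ℤ (Fin r → ℤ)

/-- monomials whose exponents are integer parts of linear functions -/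
def mon {r s : ℕ} (m : Fin s → Fin r → ℤ) (M : ℕ) (d : ℤ) : Fin s → Lau r :=
  fun k => AddMonoidAlgebra.single (fun i => d * m k i / M) 1

def cls {r s : ℕ} (N : Submodule (Lau r) (Fin s → Lau r)) (m : Fin s → Fin r → ℤ) (M : ℕ)
    (d0 : ℤ) : Set ℤ := {d | |d| ≤ M ∧ mon m M d - mon m M d0 ∈ N}

/-- thin classes of exponential relations have small weight -/
def SPR (ν : Wt) : Prop := (∀ᶠ M in atTop, ∀ d ∈ ν.sp M, |d| ≤ M) ∧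
  ∀ (r s L : ℕ) (N : Submodule (Lau r) (Fin s → Lau r)) (ε : ℝ) (H : ℕ), 0 < ε → 1 ≤ H →
    ∀ᶠ M : ℕ in atTop, ∀ (m : Fin s → Fin r → ℤ) (d0 : ℤ), (∀ k i, |m k i| ≤ L * M) → |d0| ≤ M →
      Thin ε H (cls N m M d0) → ν.av M ((cls N m M d0).indicator fun _ => (1 : ℝ)) ≤ 2 * ε

/-! ### systems, factors, embeddings -/

/-- a countable abelian group with a set of directions -/
class Grp where
  Γ : Type
  [ag : AddCommGroup Γ]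
  [cnt : Countable Γ]
  𝒰 : Set Γ

attribute [instance] Grp.ag Grp.cnt

export Grp (Γ 𝒰)

variable [Grp]

structure Sys where
  X : Type
  [ms : MeasurableSpace X]
  μ : Measure X
  [pr : IsProbabilityMeasure μ]
  Tz : Γ → X → X
  mp : ∀ n, MeasurePreserving (Tz n) μ μ
  zero : ∀ x, Tz 0 x = x
  add : ∀ n m x, Tz (n + m) x = Tz n (Tz m x)

attribute [instance] Sys.ms Sys.pr

/-- one element of the group as a measurable bijection -/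
def Sys.eq (Y : Sys) (u : Γ) : Y.X ≃ᵐ Y.X where
  toFun := Y.Tz u
  invFun := Y.Tz (-u)
  left_inv x := by rw [← Y.add, neg_add_cancel, Y.zero]
  right_inv x := by rw [← Y.add, add_neg_cancel, Y.zero]
  measurable_toFun := (Y.mp u).measurable
  measurable_invFun := (Y.mp (-u)).measurable

/-- the system of one map -/
def Sys.res (Y : Sys) (u : Γ) : T3x.Sys := { X := Y.X, μ := Y.μ, T := Y.eq u, mp := Y.mp u }

/-- the same space with the trivial action -/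
def Sys.frz (Y : Sys) : Sys :=
  { X := Y.X, μ := Y.μ, Tz := fun _ x => x, mp := fun _ => MeasurePreserving.id _
    zero := fun _ => rfl, add := fun _ _ _ => rfl }

structure Fac (Y : Sys) (B : MeasurableSpace Y.X) : Prop where
  le : B ≤ Y.ms
  nl : nul Y.μ ≤ B
  inv : ∀ n, B.comap (Y.Tz n) ≤ B

structure Emb (Y X : Sys) (p : Y.X → X.X) : Prop where
  mp : MeasurePreserving p Y.μ X.μ
  eqv : ∀ n, KEq Y.μ X.ms (p ∘ Y.Tz n) (X.Tz n ∘ p)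

/-- the sets that are almost invariant under all elements of `H` -/
def Inv (Y : Sys) (H : Set Γ) : MeasurableSpace Y.X where
  MeasurableSet' A := MeasurableSet[Y.ms] A ∧ ∀ h ∈ H, Y.Tz h ⁻¹' A =ᵐ[Y.μ] A
  measurableSet_empty := ⟨MeasurableSet.empty, fun _ _ => EventuallyEq.rfl⟩
  measurableSet_compl A hA := ⟨hA.1.compl, fun h hh => (hA.2 h hh).compl⟩
  measurableSet_iUnion f hf := ⟨MeasurableSet.iUnion fun i => (hf i).1, fun h hh => by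
    rw [Set.preimage_iUnion]
    exact Filter.EventuallyEq.countable_iUnion fun i => (hf i).2 h hh⟩

/-- algebra maps that keep the integral come from point maps -/
def Nice (X : Sys) : Prop :=
  ∀ (Y : Type) [MeasurableSpace Y] (κ : Measure Y) [IsProbabilityMeasure κ]
    (φ : (X.X → ℂ) → Y → ℂ), (∀ y, IsChar (Bdd X.X) fun F => φ F y) →
    (∀ F ∈ Bdd X.X, Measurable (φ F)) → (∀ F ∈ Bdd X.X, ∫ y, φ F y ∂κ = ∫ x, F x ∂X.μ) →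
    ∃ p : Y → X.X, MeasurePreserving p κ X.μ ∧ ∀ F ∈ Bdd X.X, (fun y => F (p y)) =ᵐ[κ] φ F

structure Realz {S : Type} (A : Set (S → ℂ)) (Λ : (S → ℂ) → ℂ) (t : Γ → S → S) (W : Sys)
    (hat : (S → ℂ) → W.X → ℂ) : Prop where
  nice : Nice W
  ch : ∀ w, IsChar A fun F => hat F w
  all : ∀ χ, IsChar A χ → ∃ w, ∀ F ∈ A, hat F w = χ F
  gn : W.ms = gen A hat
  int : ∀ F ∈ A, ∫ w, hat F w ∂W.μ = Λ F
  eqv : ∀ n, ∀ F ∈ A, ∀ w, hat (fun s => F (t n s)) w = hat F (W.Tz n w)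

/-- relative product of the `X i` over the factor `D` of `C` -/
structure IsRP {ι : Type} (X : ι → Sys) (C : Sys) (D : MeasurableSpace C.X)
    (q : ∀ i, (X i).X → C.X) (i0 : ι) (Z : Sys) (p : ∀ i, Z.X → (X i).X) : Prop where
  nice : Nice Z
  emb : ∀ i, Emb Z (X i) (p i)
  com : ∀ i, KEq Z.μ D (q i ∘ p i) (q i0 ∘ p i0)
  ind : ∀ (S : Finset ι) (f : ∀ i, (X i).X → ℂ), (∀ i ∈ S, BM (X i).μ (X i).ms (f i)) →
    Z.μ[fun z => ∏ i ∈ S, f i (p i z) | pull Z.μ (q i0 ∘ p i0) D] =ᵐ[Z.μ]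
      fun z => ∏ i ∈ S, ((X i).μ[f i | pull (X i).μ (q i) D]) (p i z)
  gn : Z.ms ≤ ⨆ i, pull Z.μ (p i) (X i).ms

/-- relative square of `X` over the factor `C` -/
def Pair (X : Sys) (C : MeasurableSpace X.X) (Z : Sys) (p : Bool → Z.X → X.X) : Prop :=
  IsRP (fun _ : Bool => X) X C (fun _ => id) false Z p

/-- `k` is the convolution of the kernel `H` with `g` -/
def Star {X Z : Sys} (p : Bool → Z.X → X.X) (H : Z.X → ℂ) (g k : X.X → ℂ) : Prop :=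
  (fun z => k (p false z)) =ᵐ[Z.μ] Z.μ[fun z => H z * g (p true z) | pull Z.μ (p false) X.ms]

/-! ### weights, labels, lines -/

abbrev Slot : Type := Γ × Bool

def rho (s : Slot) (l : Lab) : Γ := (if s.2 then l.2.1 else l.2.2) • s.1

/-- generators of the group along which two slots are coupled -/
def pg (s s' : Slot) : Set Γ := if s.2 = s'.2 then {s'.1 - s.1} else {s.1, s'.1}

/-- the limit system of the labelled families -/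
structure Ln (ν : Wt) (U : Ultrafilter ℕ) (X : Sys) where
  W : Sys
  hat : (Lab × X.X → ℂ) → W.X → ℂ
  π : Slot → W.X → X.X
  nice : Nice W
  ch : ∀ w, IsChar (FamS X.ms) fun F => hat F w
  all : ∀ χ, IsChar (FamS X.ms) χ → ∃ w, ∀ F ∈ FamS X.ms, hat F w = χ F
  gn : W.ms = gen (FamS X.ms) hat
  lim : ∀ F ∈ FamS X.ms, Tendsto (fun M => ν.av2 M fun l => ∫ x, F (l, x) ∂X.μ) U
    (𝓝 (∫ w, hat F w ∂W.μ))
  eqv : ∀ n, ∀ F ∈ FamS X.ms, ∀ w, hat (fun s => F (s.1, X.Tz n s.2)) w = hat F (W.Tz n w)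
  emb : ∀ s, Emb W X (π s)
  slot : ∀ s, ∀ f ∈ Bdd X.X,
    (fun w => f (π s w)) =ᵐ[W.μ] hat fun z => f (X.Tz (rho s z.1) z.2)

variable {ν : Wt} {U : Ultrafilter ℕ}

/-- the internal base -/
def Ln.shp {X : Sys} (L : Ln ν U X) (B : MeasurableSpace X.X) : MeasurableSpace L.W.X :=
  gen (FamS B) L.hat ⊔ nul L.W.μ

/-- the point in slot `s` -/
def Ln.P {X : Sys} (L : Ln ν U X) (s : Slot) : MeasurableSpace L.W.X := pull L.W.μ (L.π s) X.ms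

/-- the set described by a family of sets -/
def Ln.hs {X : Sys} (L : Ln ν U X) (A : Lab → Set X.X) : Set L.W.X :=
  {w | L.hat (fun z => (A z.1).indicator (fun _ => (1 : ℂ)) z.2) w = 1}

structure IsLift {X' X : Sys} (L' : Ln ν U X') (L : Ln ν U X) (p : X'.X → X.X)
    (Lp : L'.W.X → L.W.X) : Prop where
  emb : Emb L'.W L.W Lp
  hat : ∀ F ∈ FamS X.ms, (fun w => L.hat F (Lp w)) =ᵐ[L'.W.μ] L'.hat fun z => F (z.1, p z.2)

/-! ### weak mixing, the operation `KK`, the hull -/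

def WM (X : Sys) (u : Γ) (B : MeasurableSpace X.X) (f : X.X → ℂ) : Prop :=
  MemLp f 2 X.μ ∧ ∀ g, BM X.μ X.ms g → Tendsto (fun N : ℕ => (N : ℝ)⁻¹ *
    ∑ n ∈ range N, ∫ x, ‖(X.μ[fun y => f (X.Tz ((n : ℤ) • u) y) * g y | B]) x‖ ∂X.μ) atTop (𝓝 0)

def KK (X : Sys) (u : Γ) (B : MeasurableSpace X.X) : MeasurableSpace X.X :=
  gen {g ∈ @Bdd X.X X.ms | ∀ f, WM X u B f → ∫ x, f x * g x ∂X.μ = 0} id ⊔ nul X.μ

def KC (X : Sys) (B : MeasurableSpace X.X) : Prop := Fac X B ∧ ∀ u ∈ 𝒰, KK X u B ≤ B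

def hull (X : Sys) (B : MeasurableSpace X.X) : MeasurableSpace X.X := sInf {C | B ≤ C ∧ KC X C}

/-- `Y` is relatively weakly mixing over `D` in all directions -/
def RWM (X : Sys) (Y D : MeasurableSpace X.X) : Prop :=
  ∀ f, BM X.μ Y f → X.μ[f | D] =ᵐ[X.μ] 0 → ∀ u ∈ 𝒰, WM X u D f

structure Adm (X' : Sys) (B' : MeasurableSpace X'.X) (X : Sys) (B : MeasurableSpace X.X)
    (p : X'.X → X.X) : Prop where
  nice : Nice X'
  emb : Emb X' X p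
  kc : KC X' B'
  le : pull X'.μ p B ≤ B'
  cp : CP (pull X'.μ p X.ms) (pull X'.μ p B) B' X'.μ

def Ln.B2 {X : Sys} (L : Ln ν U X) (B : MeasurableSpace X.X) : MeasurableSpace L.W.X :=
  hull L.W (L.shp B)

/-- the slots with index in `S` are conditionally independent over `D` -/
def IndOver {X : Sys} (L : Ln ν U X) (B : MeasurableSpace X.X) (D : MeasurableSpace L.W.X)
    {ι : Type} (sl : ι → Slot) (S : Finset ι) : Prop :=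
  ∀ f : ι → X.X → ℂ, (∀ i ∈ S, BM X.μ X.ms (f i)) →
    L.W.μ[fun w => ∏ i ∈ S, f i (L.π (sl i) w) | D] =ᵐ[L.W.μ]
      fun w => ∏ i ∈ S, (X.μ[f i | B]) (L.π (sl i) w)

/-- every pair of slots is separated by a direction -/
def Cov {ι : Type} (sl : ι → Slot) (S : Finset ι) : Prop := ∀ i ∈ S, ∀ j ∈ S, i ≠ j →
  ((sl i).2 = (sl j).2 → (sl i).1 - (sl j).1 ∈ 𝒰) ∧ ((sl i).2 ≠ (sl j).2 → (sl i).1 ∈ 𝒰)

def IND (ν : Wt) (U : Ultrafilter ℕ) (n : ℕ) : Prop :=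
  ∀ (X : Sys) (B : MeasurableSpace X.X) (L : Ln ν U X) (ι : Type) (sl : ι → Slot) (S : Finset ι),
    Nice X → KC X B → Cov sl S → S.card ≤ n → IndOver L B (L.shp B) sl S

/-- slots in normal form: the pairs through any slot generate the group -/
structure Nrm {ι : Type} [Fintype ι] (sl : ι → Slot) : Prop where
  cov : Cov sl univ
  nz : ∀ i, (sl i).1 ∈ 𝒰 ∨ (sl i).1 = 0
  gen : ∀ i, AddSubgroup.closure (⋃ j, pg (sl i) (sl j)) = ⊤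

/-- the other slots together with the base -/
def Ln.OB {X : Sys} (L : Ln ν U X) (B : MeasurableSpace X.X) {ι : Type} [Fintype ι]
    [DecidableEq ι] (sl : ι → Slot) (q : ι) : MeasurableSpace L.W.X :=
  sup (fun k => L.P (sl k)) (univ.erase q) ⊔ L.B2 B

def SAT {X : Sys} (L : Ln ν U X) (B : MeasurableSpace X.X) {ι : Type} [Fintype ι] [DecidableEq ι]
    (sl : ι → Slot) : Prop :=
  ∀ (X' : Sys) (B' : MeasurableSpace X'.X) (p : X'.X → X.X) (L' : Ln ν U X')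
    (Lp : L'.W.X → L.W.X), Adm X' B' X B p → IsLift L' L p Lp → ∀ (q : ι) (f : X.X → ℂ),
    BM X.μ X.ms f →
    L'.W.μ[fun w => f (L.π (sl q) (Lp w)) | L'.OB B' sl q] =ᵐ[L'.W.μ]
      fun w => (L.W.μ[fun v => f (L.π (sl q) v) | L.OB B sl q]) (Lp w)

/-- the data of the induction step -/
structure Ctx where
  ν : Wt
  U : Ultrafilter ℕ
  hU : (U : Filter ℕ) ≤ atTop
  erg : ERG ν
  spr : SPR ν
  ι : Type
  [fin : Fintype ι]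
  [dec : DecidableEq ι]
  sl : ι → Slot
  nrm : Nrm sl
  three : 3 ≤ Fintype.card ι
  ind : IND ν U (Fintype.card ι - 1)
  X : Sys
  B : MeasurableSpace X.X
  nice : Nice X
  kc : KC X B
  L : Ln ν U X
  L2 : Ln ν U L.W
  Bc : ι → L2.W.X → L.W.X
  lift : ∀ j, IsLift L2 L (L.π (sl j)) (Bc j)

attribute [instance] Ctx.fin Ctx.dec

namespace Ctx

variable (c : Ctx)

abbrev W : Sys := c.L.W
abbrev W2 : Sys := c.L2.W
def π (k : c.ι) : c.W.X → c.X.X := c.L.π (c.sl k)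
def A (q : c.ι) : c.W2.X → c.W.X := c.L2.π (c.sl q)
def P (k : c.ι) : MeasurableSpace c.W.X := c.L.P (c.sl k)
def B2 : MeasurableSpace c.W.X := c.L.B2 c.B
def β : MeasurableSpace c.W2.X := c.L2.B2 c.B2
def G (q j : c.ι) : MeasurableSpace c.W2.X := pull c.W2.μ (c.π j ∘ c.A q) c.X.ms
def Sat : Prop := SAT c.L c.B c.sl
def Fail : Prop := ¬ IndOver c.L c.B (c.L.shp c.B) c.sl univ

/-- independence in the grid (no saturation needed) -/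
structure GI : Prop where
  line : ∀ S : Finset c.ι, S ≠ univ → IndOver c.L c.B c.B2 c.sl S
  cline : CLine c.B2 c.P c.W.μ
  col : ∀ q j, KEq c.W2.μ c.X.ms (c.π j ∘ c.A q) (c.π q ∘ c.Bc j)
  rows : CLine c.β (fun q => pull c.W2.μ (c.A q) c.W.ms) c.W2.μ
  cols : CLine c.β (fun j => pull c.W2.μ (c.Bc j) c.W.ms) c.W2.μ
  rowB : ∀ q, pull c.W2.μ (c.A q) c.B2 ≤ c.β
  colB : ∀ j, pull c.W2.μ (c.Bc j) c.B2 ≤ c.β
  rowE : ∀ q g, BM c.W.μ c.W.ms g →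
    c.W2.μ[fun x => g (c.A q x) | c.β] =ᵐ[c.W2.μ] fun x => (c.W.μ[g | c.B2]) (c.A q x)
  colE : ∀ j g, BM c.W.μ c.W.ms g →
    c.W2.μ[fun x => g (c.Bc j x) | c.β] =ᵐ[c.W2.μ] fun x => (c.W.μ[g | c.B2]) (c.Bc j x)

/-- the conditional expectation on the rest of the line keeps the point -/
def F2 : Prop := ∀ q a, BM c.W.μ (c.P q) a →
  BM c.W.μ (c.P q ⊔ c.B2) (c.W.μ[a | c.L.OB c.B c.sl q])

def F3 : Prop := ∀ (q : c.ι) (a : c.ι → c.W2.X → ℂ) (ψ : c.W2.X → ℂ),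
  (∀ k, BM c.W2.μ (c.G q k) (a k)) → BM c.W2.μ c.β ψ → ∀ j j',
    ∫ x, ψ x * ((c.W2.μ[a j | Oc c.G q j ⊔ c.β]) x * pr a (univ.erase j) x) ∂c.W2.μ =
      ∫ x, ψ x * ((c.W2.μ[a j' | Oc c.G q j' ⊔ c.β]) x * pr a (univ.erase j') x) ∂c.W2.μ

def Tup1 (φ : c.ι → c.W.X → ℂ) : Prop := ∀ k, Um (c.P k ⊔ c.B2) c.W.μ (φ k)

def Θ (φ : c.ι → c.W.X → ℂ) : Set c.W.X := Th c.B2 c.W.μ (pr φ univ)

def up (g : c.ι → Uni c.X.X) : c.ι → c.W.X → ℂ := fun k w => ufn (g k) (c.π k w)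

def TupU (φ : c.ι → c.W.X → ℂ) : Prop := ∃ g, φ = c.up g

/-- the members of the column tuples of the class span -/
def GSp (C : (c.ι → c.W.X → ℂ) → Prop) : Prop :=
  ∀ (q j : c.ι) (h : c.W2.X → ℂ), VV c.β c.G q j c.W2.μ h → ¬ h =ᵐ[c.W2.μ] 0 →
    ∃ φ, C φ ∧ c.W2.μ (c.Bc j ⁻¹' c.Θ φ ∩
      {x | (c.W2.μ[fun y => h y * φ q (c.Bc j y) | c.β]) x ≠ 0}) ≠ 0

def Full (C : (c.ι → c.W.X → ℂ) → Prop) : Prop :=
  ∀ (q j : c.ι) (φ : c.ι → c.W.X → ℂ) (E : Set c.W2.X) (a : c.ι → c.W2.X → ℂ), C φ →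
    MeasurableSet[c.β] E → E ≤ᵐ[c.W2.μ] c.Bc j ⁻¹' c.Θ φ →
    (∀ i, BM c.W2.μ (c.G q i ⊔ c.β) (a i)) →
    c.W2.μ (E ∩ {x | (c.W2.μ[fun y => φ q (c.Bc j y) * pr a (univ.erase j) y | c.β]) x ≠ 0}) ≠ 0 →
    ∃ (E' : Set c.W2.X) (Φ : c.ι → c.ι → c.W.X → ℂ), MeasurableSet[c.β] E' ∧ E' ⊆ E ∧
      c.W2.μ E' ≠ 0 ∧ (∀ i, C (Φ i)) ∧ Φ j = φ ∧ (∀ i, E' ≤ᵐ[c.W2.μ] c.Bc i ⁻¹' c.Θ (Φ i)) ∧
      ∀ k, E' ≤ᵐ[c.W2.μ] Th c.β c.W2.μ fun x => ∏ i, Φ i k (c.Bc i x)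

/-- the event on which `g` in slot `k` is not determined by the base -/
def Nt (k : c.ι) (g : c.X.X → ℂ) : Set c.W.X := {w | ‖(c.X.μ[g | c.B]) (c.π k w)‖ ≠ 1}

def T5 (g : c.ι → Uni c.X.X) : Prop := ∃ j, c.W.μ (c.Θ (c.up g) ∩ c.Nt j (ufn (g j))) ≠ 0

def CL : Prop := ∀ (q j k : c.ι) (g h : c.ι → Uni c.X.X) (Z : Set c.W.X), h q = g j →
  MeasurableSet[c.B2] Z → (∀ g' : c.ι → Uni c.X.X, g' q = g k → c.Θ (c.up g') ≤ᵐ[c.W.μ] Z) →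
  (c.Bc q ⁻¹' c.Θ (c.up g) ∩ c.A j ⁻¹' c.Θ (c.up h) : Set c.W2.X) ≤ᵐ[c.W2.μ] c.A k ⁻¹' Z

/-- membership in a tuple with entries in `𝒱` -/
def ZV (𝒱 : Subgroup (Uni c.X.X)) (q : c.ι) (g : Uni c.X.X) : Set c.W.X :=
  ⋃ g' ∈ {g' : c.ι → Uni c.X.X | (∀ k, g' k ∈ 𝒱) ∧ g' q = g}, c.Θ (c.up g')

/-- a countable invariant group that contains enough partners; `s n` is composition with `Tz n` -/
structure Exh (𝒱 : Subgroup (Uni c.X.X)) (s : Γ → 𝒱 ≃* 𝒱) : Prop where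
  cnt : Countable 𝒱
  sadd : ∀ n m (g : 𝒱), s (n + m) g = s n (s m g)
  sh : ∀ n (g : 𝒱) (x : c.X.X), ufn (s n g).1 x = ufn g.1 (c.X.Tz n x)
  exh : ∀ (q : c.ι) (g' : c.ι → Uni c.X.X), g' q ∈ 𝒱 →
    c.Θ (c.up g') ≤ᵐ[c.W.μ] c.ZV 𝒱 q (g' q)

/-- the extension that carries independent samples of labels and a frozen second copy -/
structure Hat where
  Xh : Sys
  e : ℕ × c.ι → Xh.X → c.W.X
  i0 : c.ι
  rp : IsRP (fun _ : ℕ × c.ι => c.W) c.X c.X.ms (fun a => c.π a.2) (0, i0) Xh e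
  X1 : Sys
  p1 : X1.X → Xh.X
  p2 : X1.X → Xh.X
  emb1 : Emb X1 Xh p1
  emb2 : Emb X1 Xh.frz p2
  com : KEq X1.μ (Inv Xh Set.univ) p1 p2
  ind : ∀ f g, BM Xh.μ Xh.ms f → BM Xh.μ Xh.ms g →
    ∫ x, f (p1 x) * g (p2 x) ∂X1.μ =
      ∫ y, (Xh.μ[f | Inv Xh Set.univ]) y * (Xh.μ[g | Inv Xh Set.univ]) y ∂Xh.μ
  B1 : MeasurableSpace X1.X
  adm : Adm X1 B1 c.X c.B (c.π i0 ∘ e (0, i0) ∘ p1)
  le1 : ∀ a, pull X1.μ (e a ∘ p1) c.B2 ≤ B1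
  le2 : pull X1.μ p2 Xh.ms ≤ B1
  L1 : Ln c.ν c.U X1
  Lp : L1.W.X → c.W.X
  lift : IsLift L1 c.L (c.π i0 ∘ e (0, i0) ∘ p1) Lp

variable {c}

def Hat.p (H : c.Hat) : H.X1.X → c.X.X := c.π H.i0 ∘ H.e (0, H.i0) ∘ H.p1

def Hat.π (H : c.Hat) (k : c.ι) : H.L1.W.X → H.X1.X := H.L1.π (c.sl k)

/-- the type of `g` at a point -/
def Hat.τ (H : c.Hat) (𝒱 : Subgroup (Uni c.X.X)) (g : Uni c.X.X) (y : H.Xh.X) (a : ℕ × c.ι) :
    Prop := H.e a y ∈ c.ZV 𝒱 a.2 g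

/-- the facts on types in the line over the extension -/
structure Hat.Ty (H : c.Hat) (𝒱 : Subgroup (Uni c.X.X)) : Prop where
  ta : ∀ (g : c.ι → Uni c.X.X) (j k : c.ι), (∀ i, g i ∈ 𝒱) → ∀ᵐ w ∂H.L1.W.μ,
    H.Lp w ∈ c.Θ (c.up g) → H.τ 𝒱 (g j) (H.p1 (H.π j w)) = H.τ 𝒱 (g k) (H.p1 (H.π k w))
  tb : ∀ (q : c.ι), ∀ g ∈ 𝒱, ∀ g' ∈ 𝒱, ∀ᵐ w ∂H.L1.W.μ,
    (∀ i, H.τ 𝒱 g' (H.p1 (H.π q w)) (i, q) → H.τ 𝒱 g (H.p1 (H.π q w)) (i, q)) →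
      H.Lp w ∈ c.ZV 𝒱 q g' → H.Lp w ∈ c.ZV 𝒱 q g
  tc : ∀ (q : c.ι), ∀ g ∈ 𝒱, ∀ᵐ w ∂H.L1.W.μ,
    H.Lp w ∈ c.ZV 𝒱 q g → ∃ i, H.τ 𝒱 g (H.p1 (H.π q w)) (i, q)

/-- the type of a nontrivial tuple equals the frozen type with positive probability -/
def Hat.Pos (H : c.Hat) (𝒱 : Subgroup (Uni c.X.X)) (g : c.ι → Uni c.X.X) (j k : c.ι) : Prop :=
  H.L1.W.μ {w | H.Lp w ∈ c.Θ (c.up g) ∩ c.Nt j (ufn (g j)) ∧
    H.τ 𝒱 (g j) (H.p1 (H.π j w)) = H.τ 𝒱 (g k) (H.p2 (H.π j w))} ≠ 0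

end Ctx

/-! ### the bundle of groups -/

/-- a countable group of unimodular functions that are constant or of mean zero on the fibres -/
structure Psi (X : Sys) (B : MeasurableSpace X.X) {V : Type} [AddCommGroup V]
    (sg : Γ →+ AddAut V) (ψ : V → X.X → ℂ) : Prop where
  um : ∀ v, Um X.ms X.μ (ψ v)
  add : ∀ v v', ψ (v + v') =ᵐ[X.μ] fun x => ψ v x * ψ v' x
  sh : ∀ n v, ψ (sg n v) =ᵐ[X.μ] fun x => ψ v (X.Tz n x)
  onn : ∀ v, ∀ᵐ x ∂X.μ, ‖(X.μ[ψ v | B]) x‖ = 0 ∨ ‖(X.μ[ψ v | B]) x‖ = 1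

namespace Ctx

variable (c : Ctx) {V : Type}

def FF (ψ : V → c.X.X → ℂ) (v : c.ι → V) : c.W.X → ℂ := fun w => ∏ k, ψ (v k) (c.π k w)

def ΘV (ψ : V → c.X.X → ℂ) (v : c.ι → V) : Set c.W.X := Th c.B2 c.W.μ (c.FF ψ v)

/-- the event on which every element has partners in every slot -/
def UU (ψ : V → c.X.X → ℂ) : Set c.W.X :=
  ⋂ (q : c.ι) (x : V), ⋃ v ∈ {v : c.ι → V | v q = x}, c.ΘV ψ v

def Bun (ψ : V → c.X.X → ℂ) : Prop :=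
  ∃ (v : c.ι → V) (j : c.ι), c.W.μ (c.UU ψ ∩ c.ΘV ψ v ∩ c.Nt j (ψ (v j))) ≠ 0

def ONH (ψ : V → c.X.X → ℂ) : Prop := ∀ v, MeasurableSet[c.L.shp c.B] (c.ΘV ψ v)

def HI (ψ : V → c.X.X → ℂ) : Prop := ∀ (Y : Set c.W.X) (j : c.ι),
  MeasurableSet[c.L.shp c.B] Y → (∀ v, c.W.μ (Y ∩ Th (c.L.shp c.B) c.W.μ (c.FF ψ v) ∩ c.Nt j (ψ (v j))) = 0) →
  ∀ v, c.W.μ (Y ∩ c.ΘV ψ v ∩ c.Nt j (ψ (v j))) = 0

end Ctx

/-- limit probability zero -/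
def Nl (ν : Wt) (U : Ultrafilter ℕ) (X : Sys) (A : Lab → Set X.X) : Prop :=
  Tendsto (fun M => ν.av2 M fun l => X.μ.real (A l)) U (𝓝 0)

/-- the finite-level data of the algebraic step: `N v` is the event that `v` is trivial,
`Sg j l v v'` the event that the step of type `j` with label `l` from `y` to `Tz (n j l) y` sends
`v` to `v'` -/
structure AlgD (ν : Wt) (U : Ultrafilter ℕ) (X : Sys) {V : Type} [AddCommGroup V]
    (sg : Γ →+ AddAut V) (N : V → Set X.X) {ι : Type} [Fintype ι]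
    (Sg : ι → Lab → V → V → Set X.X) (sl : ι → Slot) (i1 : ι) (n : ι → Lab → Γ) (v0 : ι → V) :
    Prop where
  hU : (U : Filter ℕ) ≤ atTop
  erg : ERG ν
  spr : SPR ν
  nrm : Nrm sl
  h1 : (sl i1).1 ∈ 𝒰
  hn : ∀ j l, n j l = rho (sl j) l - rho (sl i1) l
  mN : ∀ v, MeasurableSet (N v)
  mS : ∀ j l v v', MeasurableSet (Sg j l v v')
  n0 : ∀ᵐ x ∂X.μ, x ∈ N 0
  nsub : ∀ v v', ∀ᵐ x ∂X.μ, x ∈ N v → x ∈ N v' → x ∈ N (v - v')
  nsh : ∀ g v, ∀ᵐ x ∂X.μ, x ∈ N (sg g v) ↔ X.Tz g x ∈ N v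
  sub : ∀ j, j ≠ i1 → ∀ a a' b b', Nl ν U X fun l =>
    (Sg j l a a' ∩ Sg j l b b') \ Sg j l (a - b) (a' - b')
  triv : ∀ j, j ≠ i1 → ∀ a a', Nl ν U X fun l =>
    (Sg j l 0 0 ∩ N a ∩ X.Tz (n j l) ⁻¹' N a') \ Sg j l a a'
  ker : ∀ j, j ≠ i1 → ∀ a a', Nl ν U X fun l =>
    Sg j l a a' ∩ {y | ¬ (y ∈ N a ↔ X.Tz (n j l) y ∈ N a')}
  tot : ∀ j, j ≠ i1 → ∀ (a : V) (ε : ℝ), 0 < ε → ∃ F : Finset V, ∀ᶠ M in (U : Filter ℕ),
    (ν.av2 M fun l => X.μ.real (Sg j l 0 0 \ ⋃ a' ∈ F, Sg j l a a')) ≤ ε ∧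
    (ν.av2 M fun l => X.μ.real (Sg j l 0 0 \ ⋃ a' ∈ F, Sg j l a' a)) ≤ ε
  sh : ∀ j, j ≠ i1 → ∀ g a a', Nl ν U X fun l =>
    {y | ¬ (y ∈ Sg j l (sg g a) (sg g a') ↔ X.Tz g y ∈ Sg j l a a')}
  flat : ∀ j j', j ≠ i1 → j' ≠ i1 → ∀ a b a' b', ∃ φ : Lab → ℝ,
    Tendsto (fun M => ν.av2 M φ) U (𝓝 0) ∧ ∀ l,
    Tendsto (fun M => ν.av2 M fun l' => X.μ.real {y | y ∈ Sg j' l' a b ∧
      y ∈ Sg j' l' (sg (n j l) a') (sg (n j l) b') ∧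
      ¬ (y ∈ Sg j l a a' ↔ X.Tz (n j' l') y ∈ Sg j l b b')}) U (𝓝 (φ l))
  rel : ¬ Nl ν U X fun l => {x | (∀ j, j ≠ i1 → X.Tz (rho (sl i1) l) x ∈ Sg j l 0 0) ∧
    x ∈ N (∑ k, sg (rho (sl k) l) (v0 k)) ∧ x ∉ N (sg (rho (sl i1) l) (v0 i1))}
  dec : ∀ u ∈ 𝒰, ∀ a a', Tendsto (fun K : ℕ => (K : ℝ)⁻¹ * ∑ k ∈ range K,
    X.μ.real (N (sg ((k : ℤ) • u) a - a') \ N a')) atTop (𝓝 0)

/-! ### good factors and the structured factor -/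

def avg (ν : Wt) (M : ℕ) (X : Sys) {ι : Type} [Fintype ι] (r : ι → Γ) (f : ι → X.X → ℂ)
    (x : X.X) : ℂ := ν.av M fun d => ∏ i, f i (X.Tz (d • r i) x)

def Good (ν ν' : Wt) (X : Sys) {ι : Type} [Fintype ι] (r : ι → Γ) (C : MeasurableSpace X.X) :
    Prop := ∀ f : ι → X.X → ℂ, (∀ i, BM X.μ C (f i)) →
  Tendsto (fun M => ∫ x, ‖avg ν M X r f x - avg ν' M X r f x‖ ^ 2 ∂X.μ) atTop (𝓝 0)

/-- functions orthogonal to `B0` have small dense averages after one van der Corput step -/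
def G0 (ν' : Wt) (X : Sys) {ι : Type} [Fintype ι] [DecidableEq ι] (r : ι → Γ)
    (B0 : MeasurableSpace X.X) : Prop :=
  ∀ u ∈ 𝒰, ∀ g : X.X → ℂ, BM X.μ X.ms g → (∀ᵐ x ∂X.μ, ‖g x‖ ≤ 1) → X.μ[g | B0] =ᵐ[X.μ] 0 →
    ∀ (i0 : ι) (ε : ℝ), 0 < ε → ∃ (H : ℕ) (a : ℕ → ℕ → ℝ), 1 ≤ H ∧
      ∑ n ∈ range H, ∑ n' ∈ range H, a n n' ≤ ε * H ^ 2 ∧
      ∀ (n n' : ℕ) (c : ι → X.X → ℂ) (η : ℝ), (∀ i, BM X.μ X.ms (c i)) →
        (∀ i, ∀ᵐ x ∂X.μ, ‖c i x‖ ≤ 1) → 0 < η → ∀ᶠ M in atTop,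
        ∫ x, ‖avg ν' M X r (update c i0 fun y =>
          g (X.Tz ((n : ℤ) • u) y) * conj (g (X.Tz ((n' : ℤ) • u) y))) x‖ ^ 2 ∂X.μ ≤ a n n' + η

/-- the system has a good factor that carries the structured functions -/
def HasB0 (ν ν' : Wt) (X : Sys) {ι : Type} [Fintype ι] [DecidableEq ι] (r : ι → Γ) : Prop :=
  ∃ B0, Fac X B0 ∧ (∀ u ∈ 𝒰, Inv X {u} ≤ B0) ∧ Good ν ν' X r B0 ∧ G0 ν' X r B0

/-- sets that are invariant in one direction are invariant under `Λ` -/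
def EE (X : Sys) (Λ : Set Γ) : Prop := ∀ u ∈ 𝒰, Inv X {u} ≤ Inv X Λ

/-- the exponents and their differences are directions -/
def CovR {ι : Type} (r : ι → Γ) : Prop := (∀ i, r i ∈ 𝒰) ∧ ∀ i j, i ≠ j → r i - r j ∈ 𝒰

end T4x

end
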