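import Pool.Agent.MP_154433_an.t4.Spec

set_option autoImplicit false
set_option linter.unusedVariables false
set_option linter.unusedSectionVars false
set_option warn.classDefReducibility false

open MeasureTheory ProbabilityTheory Filter Topology Function Finset ComplexConjugate
open scoped BigOperators
open Fib27 (BM sup pr Oc Orow Perp)

noncomputable section

namespace T4x

open T3x

variable [Grp]

namespace F2

theorem fact (fd : Fd) {Ω Ω' : Type} {m0 : MeasurableSpace Ω} {m0' : MeasurableSpace Ω'}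
    {μ : Measure Ω} (μ' : Measure Ω') {p : Ω → Ω'} (hp : Measurable p) {f : Ω → ℂ}
    (hf : BM μ (pull μ p m0') f) : ∃ f', BM μ' m0' f' ∧ f =ᵐ[μ] fun x => f' (p x) := by
  obtain ⟨h1, C, hC⟩ := hf
  obtain ⟨f', a1, a2, a3⟩ := fd.a.fact m0' μ p f (max C 0) hp.comap_le (le_max_right _ _) h1
    (hC.mono fun x hx => hx.trans (le_max_left _ _))
  exact ⟨f', ⟨a1.aestronglyMeasurable, _, Eventually.of_forall a2⟩, a3⟩

theorem intc {Ω Ω' : Type} {m0 : MeasurableSpace Ω} {m0' : MeasurableSpace Ω'}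
    {μ : Measure Ω} {μ' : Measure Ω'} {p : Ω → Ω'} (hp : MeasurePreserving p μ μ') {f : Ω' → ℂ}
    (hf : BM μ' m0' f) : ∫ x, f (p x) ∂μ = ∫ y, f y ∂μ' := by
  rw [← hp.map_eq, integral_map hp.measurable.aemeasurable (by rw [hp.map_eq]; exact hf.1)]

theorem desc (fd : Fd) {Ω Ω' : Type} {m0 : MeasurableSpace Ω} {m0' : MeasurableSpace Ω'}
    {μ : Measure Ω} [IsProbabilityMeasure μ] {μ' : Measure Ω'} {p : Ω → Ω'}
    (hp : MeasurePreserving p μ μ') {w : Ω → ℂ} (hw : BM μ m0 w) :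
    ∃ w0, BM μ' m0' w0 ∧ ∀ v, BM μ' m0' v → ∫ x, w x * v (p x) ∂μ = ∫ y, w0 y * v y ∂μ' := by
  obtain ⟨w0, h0, h1⟩ := fact fd μ' hp.measurable (hw.ce (pull μ p m0'))
  refine ⟨w0, h0, fun v hv => ?_⟩
  rw [← Fib27.int_ce_mul (fd.a.pull_le m0' μ μ' p hp le_rfl) hw (fd.a.bm_comp m0' μ μ' p v hp hv),
    ← intc hp (h0.mul hv)]
  refine integral_congr_ae ?_
  filter_upwards [h1] with x hx
  rw [hx]

theorem pull_mono {Ω Ω' : Type} {B C : MeasurableSpace Ω'} {m0 : MeasurableSpace Ω}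
    (μ : Measure Ω) (p : Ω → Ω') (h : B ≤ C) : pull μ p B ≤ pull μ p C :=
  sup_le_sup_right (MeasurableSpace.comap_mono h) _

theorem pull_sup_le {Ω Ω' ι : Type} {P : ι → MeasurableSpace Ω'} {S : Finset ι}
    {M : MeasurableSpace Ω} {B : MeasurableSpace Ω'} {m0 : MeasurableSpace Ω}
    (μ : Measure Ω) (p : Ω → Ω') (h : ∀ k ∈ S, pull μ p (P k) ≤ M) (hB : pull μ p B ≤ M) :
    pull μ p (sup P S ⊔ B) ≤ M := by
  unfold pull
  rw [MeasurableSpace.comap_sup, sup_assoc]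
  refine sup_le ?_ hB
  unfold Fib27.sup
  simp only [MeasurableSpace.comap_iSup]
  exact iSup₂_le fun k hk => le_sup_left.trans (h k hk)

variable (c : Ctx)

/-- the base enlarged by all slots except two -/
def C0 (j j' : c.ι) : MeasurableSpace c.W.X :=
  c.L.shp c.B ⊔ sup c.P ((univ.erase j).erase j')

def Bp (j j' : c.ι) : MeasurableSpace c.W.X := hull c.W (C0 c j j')

/-- the other rows, the base and the points of row `q` outside two columns -/
def MM (q j j' : c.ι) : MeasurableSpace c.W2.X := c.L2.OB (Bp c j j') c.sl q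

def OO (q : c.ι) : MeasurableSpace c.W.X := c.L.OB c.B c.sl q

variable {c}

theorem embπ (k : c.ι) : Emb c.W c.X (c.π k) := c.L.emb _

theorem embA (k : c.ι) : Emb c.W2 c.W (c.A k) := c.L2.emb _

theorem embB (k : c.ι) : Emb c.W2 c.W (c.Bc k) := (c.lift k).emb

theorem facP (fd : Fd) (k : c.ι) : Fac c.W (c.P k) :=
  fd.t.fpull _ _ _ _ (embπ k) (fd.t.top _)

theorem facS (fd : Fd) : Fac c.W (c.L.shp c.B) := fd.lb.fac c.L c.B c.kc.1

theorem facC (fd : Fd) (j j' : c.ι) : Fac c.W (C0 c j j') := by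
  unfold C0
  rw [sup_comm]
  exact fd.t.fsp _ _ _ _ _ (facS fd) (facP fd)

theorem kcB2 (fd : Fd) : KC c.W c.B2 := fd.h.kc _ _ c.L.nice (facS fd)

theorem kcBp (fd : Fd) (j j' : c.ι) : KC c.W (Bp c j j') := fd.h.kc _ _ c.L.nice (facC fd j j')

theorem S_le_B2 (fd : Fd) : c.L.shp c.B ≤ c.B2 := fd.h.le _ _

theorem B2_le_Bp (fd : Fd) (j j' : c.ι) : c.B2 ≤ Bp c j j' := fd.h.mono _ _ _ le_sup_left

theorem B2_le_OO (q : c.ι) : c.B2 ≤ OO c q := le_sup_right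

theorem OO_le (fd : Fd) (q : c.ι) : OO c q ≤ c.W.ms :=
  sup_le (Fib27.sup_le' fun k _ => (facP fd k).le) (kcB2 fd).1.le

theorem MM_le (fd : Fd) (q j j' : c.ι) : MM c q j j' ≤ c.W2.ms :=
  sup_le (Fib27.sup_le' fun k _ => (fd.t.fpull _ _ _ _ (embA k) (fd.t.top _)).le)
    (fd.h.kc _ _ c.L2.nice (fd.lb.fac c.L2 _ (kcBp fd j j').1)).1.le

theorem β_le_MM (fd : Fd) (q j j' : c.ι) : c.β ≤ MM c q j j' :=
  (fd.h.mono _ _ _ (fd.lb.mono c.L2 _ _ (B2_le_Bp fd j j'))).trans le_sup_right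

theorem row_le_MM (fd : Fd) (q j j' : c.ι) :
    pull c.W2.μ (c.A q) (Bp c j j') ≤ MM c q j j' :=
  ((fd.lb.slot c.L2 _ _ (kcBp fd j j').1).trans (fd.h.le _ _)).trans le_sup_right

theorem col_le_MM (fd : Fd) (gi : c.GI) (q j j' i : c.ι) :
    pull c.W2.μ (c.Bc i) (OO c q) ≤ MM c q j j' := by
  refine pull_sup_le _ _ (fun k hk => ?_) ((gi.colB i).trans (β_le_MM fd q j j'))
  have h1 : pull c.W2.μ (c.Bc i) (c.L.P (c.sl k)) = pull c.W2.μ (c.π k ∘ c.Bc i) c.X.ms :=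
    fd.a.pull_comp c.X.ms c.W2.μ c.W.μ (c.Bc i) (c.π k) (embB i).mp
  have h2 : pull c.W2.μ (c.A k) (c.P i) = pull c.W2.μ (c.π i ∘ c.A k) c.X.ms :=
    fd.a.pull_comp c.X.ms c.W2.μ c.W.μ (c.A k) (c.π i) (embA k).mp
  have h3 := fd.a.keq_pull c.X.ms c.W2.μ (c.π i ∘ c.A k) (c.π k ∘ c.Bc i)
    ((embπ i).mp.comp (embA k).mp).measurable.comap_le
    ((embπ k).mp.comp (embB i).mp).measurable.comap_le (gi.col k i)
  rw [h1, ← h3, ← h2]
  exact (pull_mono _ _ (facP fd i).le).trans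
    ((Fib27.le_sup' (fun k => c.L2.P (c.sl k)) hk).trans le_sup_left)

theorem bmπ (fd : Fd) (k : c.ι) {f : c.X.X → ℂ} (hf : BM c.X.μ c.X.ms f) :
    BM c.W.μ (c.P k) fun w => f (c.π k w) :=
  fd.a.bm_comp c.X.ms c.W.μ c.X.μ (c.π k) f (embπ k).mp hf

theorem adm (fd : Fd) {j j' : c.ι} (hj : j ≠ j') : Adm c.W (Bp c j j') c.X c.B (c.π j) := by
  have hS := facS (c := c) fd
  have hle : pull c.W.μ (c.π j) c.B ≤ c.L.shp c.B := fd.lb.slot c.L _ _ c.kc.1
  refine fd.h.adm _ _ _ _ _ c.L.nice c.nice (embπ j) c.kc (facC fd j j') (hle.trans le_sup_left) ?_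
  intro f hf
  obtain ⟨f0, hf0, hff⟩ := fact fd c.X.μ (embπ j).mp.measurable hf
  have hce := fd.a.ce_comp c.B c.W.μ c.X.μ (c.π j) f0 (embπ j).mp c.kc.1.le hf0.integrable
  refine (condExp_congr_ae hff).trans (EventuallyEq.trans ?_
    ((condExp_congr_ae hff).trans hce).symm)
  have hg0 : BM c.X.μ c.B (c.X.μ[f0 | c.B]) := hf0.ce _
  have hg1 : BM c.W.μ (c.L.shp c.B) fun w => (c.X.μ[f0 | c.B]) (c.π j w) :=
    (fd.a.bm_comp c.B c.W.μ c.X.μ (c.π j) _ (embπ j).mp hg0).mono hle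
  have hF : BM c.W.μ c.W.ms fun w => f0 (c.π j w) := (bmπ fd j hf0).mono (facP fd j).le
  refine Fib27.ce_eq_of_perp (facC fd j j').le hF (hg1.mono le_sup_left) ?_
  refine Fib27.perp_sup_pr hS.le (fun k => (facP fd k).le) (hF.sub (hg1.mono hS.le)) ?_
  intro a ρ ha hρ
  choose g hg hρg using fun k => fact fd c.X.μ (embπ k).mp.measurable (hρ k)
  set S := (univ.erase j).erase j' with hSd
  have hjS : j ∉ S := by simp [hSd]
  have hd : BM c.X.μ c.X.ms fun x => f0 x - (c.X.μ[f0 | c.B]) x := hf0.sub (hg0.mono c.kc.1.le)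
  have hcard : (insert j S).card ≤ Fintype.card c.ι - 1 := by
    have : insert j S ⊆ univ.erase j' := by
      intro i hi
      rcases mem_insert.mp hi with rfl | hi
      · simpa using hj
      · simpa using (mem_erase.mp hi).1
    simpa [card_erase_of_mem] using card_le_card this
  have hI := c.ind c.X c.B c.L c.ι c.sl (insert j S) c.nice c.kc
    (fun i _ k _ => c.nrm.cov i (mem_univ _) k (mem_univ _)) hcard
    (update g j fun x => f0 x - (c.X.μ[f0 | c.B]) x) (fun i _ => by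
      by_cases h : i = j
      · subst h
        simpa using hd
      · simpa [update_of_ne h] using hg i)
  have hz : ∀ᵐ x ∂c.X.μ, (c.X.μ[fun x => f0 x - (c.X.μ[f0 | c.B]) x | c.B]) x = 0 :=
    (Fib27.perp_sub_ce c.kc.1.le hf0).ce c.kc.1.le hd
  have hz' := (embπ j).mp.quasiMeasurePreserving.ae hz
  have hPr : BM c.W.μ c.W.ms fun w => (f0 (c.π j w) - (c.X.μ[f0 | c.B]) (c.π j w)) * pr ρ S w :=
    (hF.sub (hg1.mono hS.le)).mul (BM.pr fun k _ => (hρ k).mono (facP fd k).le)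
  have he : (fun w => (f0 (c.π j w) - (c.X.μ[f0 | c.B]) (c.π j w)) * pr ρ S w) =ᵐ[c.W.μ]
      fun w => ∏ i ∈ insert j S,
        update g j (fun x => f0 x - (c.X.μ[f0 | c.B]) x) i (c.L.π (c.sl i) w) := by
    filter_upwards [Fib27.pr_congr_ae (S := S) fun k _ => hρg k] with w hw
    rw [prod_insert hjS, update_self, hw]
    refine congrArg₂ _ rfl (prod_congr rfl fun i hi => ?_)
    rw [update_of_ne (by rintro rfl; exact hjS hi)]
    rfl
  have h0 : ∀ᵐ w ∂c.W.μ, (c.W.μ[fun w => (f0 (c.π j w) - (c.X.μ[f0 | c.B]) (c.π j w)) * pr ρ S w |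
      c.L.shp c.B]) w = 0 := by
    filter_upwards [(condExp_congr_ae he).trans hI, hz'] with w h1 h2
    rw [h1, prod_insert hjS, update_self]
    exact mul_eq_zero_of_left h2 _
  have := Fib27.perp_of_ce hS.le hPr h0 a ha
  rw [← this]
  exact integral_congr_ae (Eventually.of_forall fun w => by ring)

/-- saturation in the grid -/
theorem sg (fd : Fd) (sat : c.Sat) (q : c.ι) {j j' : c.ι} (hj : j ≠ j') {a : c.W.X → ℂ}
    (ha : BM c.W.μ (c.P q) a) {w : c.W2.X → ℂ} (hw : BM c.W2.μ (MM c q j j') w) :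
    ∫ x, a (c.Bc j x) * w x ∂c.W2.μ = ∫ x, (c.W.μ[a | OO c q]) (c.Bc j x) * w x ∂c.W2.μ := by
  obtain ⟨f, hf, haf⟩ := fact fd c.X.μ (embπ q).mp.measurable ha
  have h1 := sat c.W (Bp c j j') (c.π j) c.L2 (c.Bc j) (adm fd hj) (c.lift j) q f hf
  have hq := (embB (c := c) j).mp.quasiMeasurePreserving
  have ha2 : BM c.W2.μ c.W2.ms fun x => a (c.Bc j x) :=
    (fd.a.bm_comp _ c.W2.μ c.W.μ (c.Bc j) a (embB j).mp (ha.mono (facP fd q).le)).mono
      (fd.t.fpull _ _ _ _ (embB j) (fd.t.top _)).le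
  rw [← Fib27.int_ce_mul (MM_le fd q j j') ha2 hw]
  refine integral_congr_ae ?_
  have h2 : c.W2.μ[fun x => a (c.Bc j x) | MM c q j j'] =ᵐ[c.W2.μ]
      c.W2.μ[fun x => f (c.π q (c.Bc j x)) | MM c q j j'] := condExp_congr_ae (hq.ae haf)
  have h3 : c.W.μ[a | OO c q] =ᵐ[c.W.μ] c.W.μ[fun w => f (c.π q w) | OO c q] :=
    condExp_congr_ae haf
  filter_upwards [h2.trans h1, hq.ae h3] with x h4 h5
  rw [h4, h5]
  rfl

theorem sg' (fd : Fd) (sat : c.Sat) (gi : c.GI) (q : c.ι) {j j' : c.ι} (hj : j ≠ j')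
    {e : c.W.X → ℂ} (he : BM c.W.μ (c.P q ⊔ c.L.shp c.B) e) {w : c.W2.X → ℂ}
    (hw : BM c.W2.μ (MM c q j j') w) :
    ∫ x, w x * e (c.Bc j x) ∂c.W2.μ = ∫ x, w x * (c.W.μ[e | OO c q]) (c.Bc j x) ∂c.W2.μ := by
  have hO := OO_le (c := c) fd q
  have hP := (facP (c := c) fd q).le
  have hS := (facS (c := c) fd).le
  have hSO : c.L.shp c.B ≤ OO c q := (S_le_B2 fd).trans (B2_le_OO q)
  have hw' := hw.mono (MM_le fd q j j')
  obtain ⟨w0, h0, h1⟩ := desc fd (embB j).mp hw'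
  have he' := he.mono (sup_le hP hS)
  have hp : Perp c.W.μ (c.P q ⊔ c.L.shp c.B) fun y => w0 y - (c.W.μ[w0 | OO c q]) y := by
    refine Fib27.perp_sup hP hS (h0.sub ((h0.ce _).mono hO)) fun a b ha hb => ?_
    have ha' := ha.mono hP
    have hb' := hb.mono hS
    have e1 : ∫ y, w0 y * (c.W.μ[fun y => a y * b y | OO c q]) y ∂c.W.μ
        = ∫ y, w0 y * ((c.W.μ[a | OO c q]) y * b y) ∂c.W.μ :=
      integral_congr_ae ((Fib27.ce_mul' hO ha' (hb.mono hSO)).mono fun y hy =>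
        congrArg (w0 y * ·) hy)
    rw [Fib27.int_sub_mul h0 ((h0.ce _).mono hO) (ha'.mul hb'), sub_eq_zero,
      Fib27.int_ce_symm hO h0 (ha'.mul hb'), e1,
      ← h1 _ (ha'.mul hb'), ← h1 _ (((ha'.ce _).mono hO).mul hb')]
    have hb2 : BM c.W2.μ (MM c q j j') fun x => b (c.Bc j x) :=
      (fd.a.bm_comp _ c.W2.μ c.W.μ (c.Bc j) b (embB j).mp (hb.mono hSO)).mono
        (col_le_MM fd gi q j j' j)
    have := sg fd sat q hj ha (hw.mul hb2)
    refine Eq.trans ?_ (this.trans ?_)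
    · exact integral_congr_ae (Eventually.of_forall fun w => by ring)
    · exact integral_congr_ae (Eventually.of_forall fun w => by ring)
  have h2 := hp e he
  rw [Fib27.int_sub_mul h0 ((h0.ce _).mono hO) he', sub_eq_zero, Fib27.int_ce_symm hO h0 he'] at h2
  rw [h1 _ he', h1 _ ((he'.ce _).mono hO), h2]

theorem key (fd : Fd) (gi : c.GI) (sat : c.Sat) (r2p : R2P c) (q : c.ι) {a h : c.W.X → ℂ}
    (ha : BM c.W.μ (c.P q) a)
    (hh : h = fun w => (c.W.μ[a | OO c q]) w -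
      (c.W.μ[c.W.μ[a | OO c q] | c.P q ⊔ c.L.shp c.B]) w) :
    Perp c.W.μ (OO c q) (c.W.μ[c.W.μ[h | OO c q] | c.P q]) := by
  have hO := OO_le (c := c) fd q
  have hP := fun k => (facP (c := c) fd k).le
  have hS := (facS (c := c) fd).le
  have hD : c.P q ⊔ c.L.shp c.B ≤ c.W.ms := sup_le (hP q) hS
  have hKa : BM c.W.μ (OO c q) (c.W.μ[a | OO c q]) := ha.ce _
  have he : BM c.W.μ (c.P q ⊔ c.L.shp c.B) (c.W.μ[c.W.μ[a | OO c q] | c.P q ⊔ c.L.shp c.B]) :=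
    hKa.ce _
  have hhb : BM c.W.μ c.W.ms h := hh ▸ (hKa.mono hO).sub (he.mono hD)
  have hh0 : c.W.μ[h | c.P q ⊔ c.L.shp c.B] =ᵐ[c.W.μ] 0 :=
    Perp.ce (hh ▸ Fib27.perp_sub_ce hD (hKa.mono hO)) hD hhb
  have hKh : BM c.W.μ (OO c q) (c.W.μ[h | OO c q]) := hhb.ce _
  have hb : BM c.W.μ (c.P q) (c.W.μ[c.W.μ[h | OO c q] | c.P q]) := hKh.ce _
  obtain ⟨b0, hb0, hbb⟩ := fact fd c.X.μ (embπ q).mp.measurable hb
  have hOd : OO c q = c.B2 ⊔ sup c.P (univ.erase q) := sup_comm _ _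
  have hB2 := (kcB2 (c := c) fd).1.le
  refine (Fib27.perp_sup_pr (S := univ.erase q) hB2 hP (hb.mono (hP q)) ?_).mono hOd.le
  intro ψ ρ hψ hρ
  obtain ⟨k, hk, -⟩ := Fib27.exists_third c.three q q
  have hkS : k ∈ univ.erase q := by simpa using hk
  have hρ' : ∀ S : Finset c.ι, BM c.W.μ c.W.ms (pr ρ S) := fun S =>
    BM.pr fun i _ => (hρ i).mono (hP i)
  have hu : BM c.W.μ c.W.ms fun w => ψ w * pr ρ (univ.erase q) w := (hψ.mono hB2).mul (hρ' _)
  have hu' : BM c.W.μ c.W.ms fun w => ψ w * pr ρ ((univ.erase q).erase k) w :=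
    (hψ.mono hB2).mul (hρ' _)
  have hu1 : BM c.W.μ (Bp c q k) fun w => ψ w * pr ρ ((univ.erase q).erase k) w :=
    (hψ.mono (B2_le_Bp fd q k)).mul
      ((BM.pr_sup fun i _ => hρ i).mono (le_sup_right.trans (fd.h.le _ _)))
  have hu2 : BM c.W.μ (Bp c k q) fun w => ψ w * pr ρ ((univ.erase q).erase k) w := by
    refine (hψ.mono (B2_le_Bp fd k q)).mul ?_
    rw [erase_right_comm]
    exact (BM.pr_sup fun i _ => hρ i).mono (le_sup_right.trans (fd.h.le _ _))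
  obtain ⟨f, hf, hρf⟩ := fact fd c.X.μ (embπ k).mp.measurable (hρ k)
  have hfq := bmπ fd q hf
  have hY : BM c.W.μ (OO c q) (c.W.μ[fun w => f (c.π q w) | OO c q]) := hfq.ce _
  have hAq := (embA (c := c) q).mp
  have cB : ∀ (i j j' : c.ι) {v : c.W.X → ℂ}, BM c.W.μ (OO c q) v →
      BM c.W2.μ (MM c q j j') fun x => v (c.Bc i x) := fun i j j' v hv =>
    (fd.a.bm_comp _ c.W2.μ c.W.μ (c.Bc i) v (embB i).mp hv).mono (col_le_MM fd gi q j j' i)
  have cA : ∀ (j j' : c.ι) {v : c.W.X → ℂ}, BM c.W.μ (Bp c j j') v →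
      BM c.W2.μ (MM c q j j') fun x => v (c.A q x) := fun j j' v hv =>
    (fd.a.bm_comp _ c.W2.μ c.W.μ (c.A q) v hAq hv).mono (row_le_MM fd q j j')
  have hcs := fd.ld.cs' c.L2 c.L (c.π q) (c.Bc q) (c.sl q) (embπ q) (c.lift q) _ b0
    (hKh.mono hO) hb0 hbb.symm
  have hA : pull c.W2.μ (c.A q) c.W.ms ≤ c.W2.ms := (fd.t.fpull _ _ _ _ (embA q) (fd.t.top _)).le
  have s1 : ∫ w, (c.W.μ[c.W.μ[h | OO c q] | c.P q]) w * (ψ w * pr ρ (univ.erase q) w) ∂c.W.μ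
      = ∫ x, (c.W.μ[h | OO c q]) (c.Bc q x) * (ψ (c.A q x) * pr ρ (univ.erase q) (c.A q x))
        ∂c.W2.μ := by
    rw [← intc hAq ((hb.mono (hP q)).mul hu),
      ← Fib27.int_ce_mul hA ((cB q q k hKh).mono (MM_le fd q q k))
        (fd.a.bm_comp _ c.W2.μ c.W.μ (c.A q) _ hAq hu)]
    refine integral_congr_ae ?_
    filter_upwards [hcs, hAq.quasiMeasurePreserving.ae hbb] with x h1 h2
    rw [h2]
    exact congrArg₂ _ h1.symm rfl
  have hcol := fd.a.keq_fun c.X.ms c.W2.μ c.X.μ (c.π k ∘ c.A q) (c.π q ∘ c.Bc k) f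
    ((embπ k).mp.comp hAq) ((embπ q).mp.comp (embB k).mp) (gi.col q k) hf.1
  have s2 : ∫ x, (c.W.μ[h | OO c q]) (c.Bc q x) * (ψ (c.A q x) * pr ρ (univ.erase q) (c.A q x))
        ∂c.W2.μ = ∫ x, f (c.π q (c.Bc k x)) * ((c.W.μ[h | OO c q]) (c.Bc q x) *
          (ψ (c.A q x) * pr ρ ((univ.erase q).erase k) (c.A q x))) ∂c.W2.μ := by
    refine integral_congr_ae ?_
    filter_upwards [hcol, hAq.quasiMeasurePreserving.ae hρf] with x h1 h2
    rw [Fib27.pr_erase ρ hkS, h2]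
    have h3 : f (c.π k (c.A q x)) = f (c.π q (c.Bc k x)) := h1
    rw [h3]
    ring
  have s3 := sg fd sat q hk hfq ((cB q k q hKh).mul (cA k q hu2))
  have hw2 := (cB k q k hY).mul (cA q k hu1)
  have s4 := sg' fd sat gi q hk.symm he hw2
  have s5 := r2p q q k h _ _ hk.symm hhb (hY.mono hO) hu' hh0
  have hKK : c.W.μ[h | OO c q] =ᵐ[c.W.μ] fun w => h w +
      ((c.W.μ[c.W.μ[a | OO c q] | c.P q ⊔ c.L.shp c.B]) w -
        (c.W.μ[c.W.μ[c.W.μ[a | OO c q] | c.P q ⊔ c.L.shp c.B] | OO c q]) w) := by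
    subst hh
    filter_upwards [Fib27.ce_sub (hKa.mono hO) (he.mono hD) (OO c q), hKa.ce_self hO] with w h1 h2
    rw [h1, h2]
    ring
  have hM := MM_le (c := c) fd q q k
  have hBq : pull c.W2.μ (c.Bc q) c.W.ms ≤ c.W2.ms := (fd.t.fpull _ _ _ _ (embB q) (fd.t.top _)).le
  have cq : ∀ {v : c.W.X → ℂ}, BM c.W.μ c.W.ms v → BM c.W2.μ c.W2.ms fun x => v (c.Bc q x) :=
    fun hv => (fd.a.bm_comp _ c.W2.μ c.W.μ (c.Bc q) _ (embB q).mp hv).mono hBq
  have i1 := ((hw2.mono hM).mul (cq hhb)).integrable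
  have i2 := ((hw2.mono hM).mul (cq (he.mono hD))).integrable
  have i3 := ((hw2.mono hM).mul (cq ((he.ce (OO c q)).mono hO))).integrable
  rw [s1, s2, s3]
  have s6 := integral_add i1 (i2.sub i3)
  have s7 := integral_sub i2 i3
  rw [s4, sub_self] at s7
  have s8 : ∫ x, (c.W.μ[fun w => f (c.π q w) | OO c q]) (c.Bc k x) *
      (ψ (c.A q x) * pr ρ ((univ.erase q).erase k) (c.A q x)) * h (c.Bc q x) ∂c.W2.μ = 0 := by
    rw [← s5]
    exact integral_congr_ae (Eventually.of_forall fun w => by ring)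
  simp only [Pi.sub_apply] at s6
  rw [s7, s8, add_zero] at s6
  rw [← s6]
  refine integral_congr_ae ?_
  filter_upwards [(embB q).mp.quasiMeasurePreserving.ae hKK] with x hx
  rw [hx]
  ring

end F2

theorem f2 : F2R := by
  intro fd c gi sat r2p q a ha
  have hO := F2.OO_le (c := c) fd q
  have hP := (F2.facP (c := c) fd q).le
  have hS := (F2.facS (c := c) fd).le
  have hD : c.P q ⊔ c.L.shp c.B ≤ c.W.ms := sup_le hP hS
  have hKa : BM c.W.μ (F2.OO c q) (c.W.μ[a | F2.OO c q]) := ha.ce _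
  have he : BM c.W.μ (c.P q ⊔ c.L.shp c.B) (c.W.μ[c.W.μ[a | F2.OO c q] | c.P q ⊔ c.L.shp c.B]) :=
    hKa.ce _
  obtain ⟨h, hh⟩ : ∃ h : c.W.X → ℂ, h = fun w => (c.W.μ[a | F2.OO c q]) w -
      (c.W.μ[c.W.μ[a | F2.OO c q] | c.P q ⊔ c.L.shp c.B]) w := ⟨_, rfl⟩
  have hhb : BM c.W.μ c.W.ms h := hh ▸ (hKa.mono hO).sub (he.mono hD)
  have hpD : Perp c.W.μ (c.P q ⊔ c.L.shp c.B) h := hh ▸ Fib27.perp_sub_ce hD (hKa.mono hO)
  have hk := F2.key fd gi sat r2p q ha hh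
  have hKh : BM c.W.μ (F2.OO c q) (c.W.μ[h | F2.OO c q]) := hhb.ce _
  have hb : BM c.W.μ (c.P q) (c.W.μ[c.W.μ[h | F2.OO c q] | c.P q]) := hKh.ce _
  have hb0 : ∀ᵐ w ∂c.W.μ, (c.W.μ[c.W.μ[h | F2.OO c q] | c.P q]) w = 0 := by
    refine Fib27.eq_zero_of_int_conj (hb.mono hP) ?_
    rw [Fib27.int_ce_mul hP (hKh.mono hO) hb.conj]
    have := congrArg (starRingEnd ℂ) (hk _ hKh.conj)
    rw [← integral_conj, map_zero] at this
    rw [← this]
    exact integral_congr_ae (Eventually.of_forall fun w => by simp [mul_comm])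
  have hh0 : ∀ᵐ w ∂c.W.μ, h w = 0 := by
    refine Fib27.eq_zero_of_int_conj hhb ?_
    have h1 : ∫ w, h w * conj ((c.W.μ[a | F2.OO c q]) w) ∂c.W.μ = 0 := by
      have e1 : ∫ w, h w * (c.W.μ[fun w => conj (a w) | F2.OO c q]) w ∂c.W.μ
          = ∫ w, h w * conj ((c.W.μ[a | F2.OO c q]) w) ∂c.W.μ :=
        integral_congr_ae ((Fib27.ce_conj hO (ha.mono hP)).mono fun w hw =>
          congrArg (h w * ·) hw)
      rw [← e1,
        ← Fib27.int_ce_symm hO hhb (ha.mono hP).conj,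
        ← Fib27.int_ce_mul hP (hKh.mono hO) ha.conj]
      exact integral_eq_zero_of_ae (hb0.mono fun w hw => by simp [hw])
    have h2 := hpD _ he.conj
    have h3 := integral_sub (hhb.mul (hKa.mono hO).conj).integrable
      (hhb.mul (he.mono hD).conj).integrable
    rw [h1, h2, sub_self] at h3
    rw [← h3]
    refine integral_congr_ae (Eventually.of_forall fun w => ?_)
    have : conj (h w) = conj ((c.W.μ[a | F2.OO c q]) w) -
        conj ((c.W.μ[c.W.μ[a | F2.OO c q] | c.P q ⊔ c.L.shp c.B]) w) := by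
      rw [hh, map_sub]
    simp only [this, mul_sub]
  refine (he.mono (sup_le_sup_left (F2.S_le_B2 fd) _)).congr ?_
  filter_upwards [hh0] with w hw
  rw [hh] at hw
  exact (sub_eq_zero.mp hw).symm

end T4x

end
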