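import Pool.Agent.MP_154433_an.t4.Spec

/-! Row Full: a column tuple that correlates with a row extends to all columns. -/

set_option autoImplicit false
set_option linter.unusedVariables false
set_option linter.unusedSectionVars false
set_option warn.classDefReducibility false

open MeasureTheory ProbabilityTheory Filter Topology Function Finset ComplexConjugate
open scoped BigOperators
open Fib27 (BM sup pr Oc Orow)

noncomputable section

namespace T4x

open T3x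

variable [Grp]

namespace Fullx

theorem um_bm {Ω : Type} {m m0 : MeasurableSpace Ω} {μ : @Measure Ω m0} {φ : Ω → ℂ}
    (h : Um m μ φ) : BM μ m φ := BM.of_uni h.1 h.2

theorem um_pr {Ω ι : Type} {m m0 : MeasurableSpace Ω} {μ : @Measure Ω m0} {φ : ι → Ω → ℂ}
    (S : Finset ι) (h : ∀ k ∈ S, Um m μ (φ k)) : Um m μ (pr φ S) := by
  refine ⟨(BM.pr fun k hk => um_bm (h k hk)).1, ?_⟩
  filter_upwards [(Finset.eventually_all S).2 fun k hk => (h k hk).2] with x hx
  rw [pr, norm_prod, Finset.prod_eq_one hx]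

variable {c : Ctx}

theorem bc_mp (i : c.ι) : MeasurePreserving (c.Bc i) c.W2.μ c.W.μ := (c.lift i).emb.mp

theorem b2_le (f : Fd) : c.B2 ≤ c.W.ms :=
  (f.h.kc c.L.W _ c.L.nice (f.lb.fac c.L c.B c.kc.1)).1.le

theorem p_le (f : Fd) (k : c.ι) : c.P k ≤ c.W.ms :=
  f.a.pull_le _ c.W.μ c.X.μ _ (c.L.emb (c.sl k)).mp le_rfl

theorem g_eq (f : Fd) (gi : c.GI) (k i : c.ι) : c.G k i = pull c.W2.μ (c.Bc i) (c.P k) := by
  have h1 : MeasurePreserving (c.π i ∘ c.A k) c.W2.μ c.X.μ :=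
    (c.L.emb (c.sl i)).mp.comp (c.L2.emb (c.sl k)).mp
  have h2 : MeasurePreserving (c.π k ∘ c.Bc i) c.W2.μ c.X.μ :=
    (c.L.emb (c.sl k)).mp.comp (bc_mp i)
  have h3 := f.a.keq_pull _ c.W2.μ _ _ h1.measurable.comap_le h2.measurable.comap_le (gi.col k i)
  exact h3.trans (f.a.pull_comp _ c.W2.μ c.W.μ _ _ (bc_mp i)).symm

theorem um_col (f : Fd) (gi : c.GI) {φ : c.ι → c.W.X → ℂ} (h : c.Tup1 φ) (k i : c.ι) :
    Um (c.G k i ⊔ c.β) c.W2.μ fun x => φ k (c.Bc i x) := by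
  refine ⟨?_, (bc_mp i).quasiMeasurePreserving.ae (h k).2⟩
  have h1 := f.a.bm_comp _ c.W2.μ c.W.μ _ _ (bc_mp i) (um_bm (h k))
  rw [f.a.pull_sup, ← g_eq f gi] at h1
  exact (h1.mono (sup_le_sup_left (gi.colB i) _)).1

theorem th_meas (r : Rc) (gi : c.GI) (φ : c.ι → c.W.X → ℂ) (i : c.ι) :
    MeasurableSet[c.β] (c.Bc i ⁻¹' c.Θ φ) :=
  (le_sup_left.trans (gi.colB i)) _ ⟨_, r.meas c.B2 c.W.μ _, rfl⟩

/-- on the event of a column tuple the product is a function of the base -/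
theorem th_eq (f : Fd) (r : Rc) (gi : c.GI) {φ : c.ι → c.W.X → ℂ} (h : c.Tup1 φ) (i : c.ι) :
    ∃ κ, BM c.W2.μ c.β κ ∧ ∀ᵐ x ∂c.W2.μ, x ∈ c.Bc i ⁻¹' c.Θ φ →
      ∏ k, φ k (c.Bc i x) = κ x := by
  have hu : Um c.W.ms c.W.μ (pr φ univ) :=
    um_pr _ fun k _ => ⟨(h k).1.mono (sup_le (p_le f k) (b2_le f)), (h k).2⟩
  refine ⟨fun x => (c.W.μ[pr φ univ | c.B2]) (c.Bc i x),
    (f.a.bm_comp _ c.W2.μ c.W.μ _ _ (bc_mp i) ((um_bm hu).ce c.B2)).mono (gi.colB i), ?_⟩
  exact (bc_mp i).quasiMeasurePreserving.ae (r.eq c.B2 c.W.μ _ (b2_le f) hu)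

theorem oc_bm (f : Fd) (r : Rc) (gi : c.GI) {φ : c.ι → c.W.X → ℂ} (h : c.Tup1 φ) (q j : c.ι)
    {ψ : c.W2.X → ℂ} (hψ : BM c.W2.μ c.β ψ)
    (hs : ∀ᵐ x ∂c.W2.μ, ψ x ≠ 0 → x ∈ c.Bc j ⁻¹' c.Θ φ) :
    BM c.W2.μ (Oc c.G q j ⊔ c.β) fun x => ψ x * φ q (c.Bc j x) := by
  obtain ⟨κ, hκ, e⟩ := th_eq f r gi h j
  have h1 : BM c.W2.μ (Oc c.G q j ⊔ c.β) (pr (fun k x => φ k (c.Bc j x)) (univ.erase q)) :=
    BM.pr fun k hk => (um_bm (um_col f gi h k j)).mono
      (sup_le_sup_right (Fib27.le_sup' (fun q' => c.G q' j) hk) _)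
  have h2 := ((hψ.mul hκ).mono le_sup_right).mul h1.conj
  refine h2.congr ?_
  have h3 := (Finset.eventually_all (univ.erase q)).2 fun k _ => (um_col f gi h k j).2
  filter_upwards [e, hs, h3] with x e hs h3
  by_cases h0 : ψ x = 0
  · simp [h0]
  have h4 : ‖pr (fun k x => φ k (c.Bc j x)) (univ.erase q) x‖ = 1 := by
    rw [pr, norm_prod, Finset.prod_eq_one h3]
  rw [← e (hs h0), ← Finset.mul_prod_erase _ _ (mem_univ q), mul_assoc, mul_assoc]
  change _ * (_ * (pr (fun k x => φ k (c.Bc j x)) (univ.erase q) x * _)) = _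
  rw [Complex.mul_conj, Complex.normSq_eq_norm_sq, h4]
  simp

theorem step (f : Fd) (r : Rc) (gi : c.GI) (hg : HG c.β c.G c.W2.μ) (hx : HGX c.β c.G c.W2.μ)
    {C : (c.ι → c.W.X → ℂ) → Prop} (hC : ∀ φ, C φ → c.Tup1 φ) (gs : c.GSp C) {q j i : c.ι}
    (hij : i ≠ j) {φ : c.ι → c.W.X → ℂ} (hφ : c.Tup1 φ) {E : Set c.W2.X}
    (hE : MeasurableSet[c.β] E) (hEΘ : E ≤ᵐ[c.W2.μ] c.Bc j ⁻¹' c.Θ φ) {a : c.ι → c.W2.X → ℂ}
    (ha : ∀ k, BM c.W2.μ (c.G q k ⊔ c.β) (a k)) (haj : a j = fun x => φ q (c.Bc j x))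
    (hpos : c.W2.μ (E ∩ {x | (c.W2.μ[pr a univ | c.β]) x ≠ 0}) ≠ 0) :
    ∃ φ', C φ' ∧ c.W2.μ ((E ∩ c.Bc i ⁻¹' c.Θ φ') ∩
      {x | (c.W2.μ[pr (update a i fun x => φ' q (c.Bc i x)) univ | c.β]) x ≠ 0}) ≠ 0 := by
  have hle : ∀ k, c.G q k ⊔ c.β ≤ c.W2.ms := fun k => sup_le (hg.le q k) hg.ble
  have hK : BM c.W2.μ c.β (c.W2.μ[pr a univ | c.β]) :=
    (BM.pr fun k _ => (ha k).mono (hle k)).ce c.β
  obtain ⟨ψ, hψ, hψE, hψK⟩ : ∃ ψ : c.W2.X → ℂ, BM c.W2.μ c.β ψ ∧ (∀ x, ψ x ≠ 0 → x ∈ E) ∧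
      ∀ x ∈ E, ψ x = conj ((c.W2.μ[pr a univ | c.β]) x) := by
    refine ⟨_, (BM.indicator hE).mul hK.conj, fun x hx => ?_, fun x hx => by simp [hx]⟩
    by_contra h
    simp [h] at hx
  have hb : ∀ k, BM c.W2.μ (c.G q k ⊔ c.β) (update a j (fun x => ψ x * a j x) k) := fun k => by
    by_cases hk : k = j
    · subst hk
      rw [update_self]
      exact (hψ.mono le_sup_right).mul (ha k)
    · rw [update_of_ne hk]
      exact ha k
  have hbj : BM c.W2.μ (Oc c.G q j ⊔ c.β) (update a j (fun x => ψ x * a j x) j) := by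
    rw [update_self, haj]
    refine oc_bm f r gi hφ q j hψ ?_
    filter_upwards [hEΘ] with x hx h0
    exact hx (hψE x h0)
  have hv := hx.dual q i j _ hij hb hbj
  have hP : BM c.W2.μ c.W2.ms (pr (update a j fun x => ψ x * a j x) (univ.erase i)) :=
    BM.pr fun k _ => (hb k).mono (hle k)
  have key : ∀ u, BM c.W2.μ (c.G q i ⊔ c.β) u → c.W2.μ[fun y =>
      (c.W2.μ[pr (update a j fun x => ψ x * a j x) (univ.erase i) | c.G q i ⊔ c.β]) y * u y | c.β]
      =ᵐ[c.W2.μ] fun x => ψ x * (c.W2.μ[pr (update a i u) univ | c.β]) x := by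
    intro u hu
    have hQ : BM c.W2.μ c.W2.ms (pr (update a i u) univ) := BM.pr fun k _ => by
      by_cases hk : k = i
      · subst hk
        rw [update_self]
        exact hu.mono (hle k)
      · rw [update_of_ne hk]
        exact (ha k).mono (hle k)
    have e1 := (condExp_congr_ae (m := c.β) (Fib27.ce_mul' (hle i) hP hu).symm).trans
      (condExp_condExp_of_le le_sup_right (hle i))
    have e2 : (fun y => pr (update a j fun x => ψ x * a j x) (univ.erase i) y * u y) =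
        fun y => ψ y * pr (update a i u) univ y := by
      funext y
      have hj : j ∈ univ.erase i := mem_erase.2 ⟨hij.symm, mem_univ j⟩
      rw [Fib27.pr_erase _ (mem_univ i), update_self, Fib27.pr_update _ (notMem_erase i _),
        Fib27.pr_erase a hj, Fib27.pr_erase _ hj, update_self,
        Fib27.pr_update _ (notMem_erase j _)]
      ring
    rw [e2] at e1
    exact e1.trans (Fib27.ce_mul hg.ble hψ hQ)
  have hne : ¬ (c.W2.μ[pr (update a j fun x => ψ x * a j x) (univ.erase i) | c.G q i ⊔ c.β])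
      =ᵐ[c.W2.μ] 0 := by
    intro h0
    have e1 := key (a i) (ha i)
    rw [update_eq_self] at e1
    have e2 : (fun y => (c.W2.μ[pr (update a j fun x => ψ x * a j x) (univ.erase i) |
        c.G q i ⊔ c.β]) y * a i y) =ᵐ[c.W2.μ] 0 := by
      filter_upwards [h0] with y hy
      simp [hy]
    have e3 := condExp_congr_ae (m := c.β) e2
    rw [condExp_zero] at e3
    refine hpos (measure_eq_zero_iff_ae_notMem.2 ?_)
    filter_upwards [e1.symm.trans e3] with x hx hm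
    rw [hψK x hm.1] at hx
    have hz := hm.2
    simp only [Pi.zero_apply, mul_eq_zero, map_eq_zero, or_self] at hx
    exact hz hx
  obtain ⟨φ', hφ', hp⟩ := gs q i _ hv hne
  refine ⟨φ', hφ', fun h0 => hp (measure_mono_null_ae ?_ h0)⟩
  filter_upwards [key _ (um_bm (um_col f gi (hC _ hφ') q i))] with x hx hm
  have h1 := hm.2
  simp only [Set.mem_ofPred_eq] at h1
  rw [hx] at h1
  exact ⟨⟨hψE x (left_ne_zero_of_mul h1), hm.1⟩, right_ne_zero_of_mul h1⟩

end Fullx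

open Fullx in
theorem full : FullR := by
  intro f r hX c C gi hg hC gs q j φ E a hφ hE hEΘ ha hpos
  have hx := hX _ _ _ hg
  have main : ∀ S : Finset c.ι, ∃ (E' : Set c.W2.X) (Φ : c.ι → c.ι → c.W.X → ℂ)
      (a' : c.ι → c.W2.X → ℂ), MeasurableSet[c.β] E' ∧ E' ⊆ E ∧ (∀ i, C (Φ i)) ∧ Φ j = φ ∧
      (∀ i, BM c.W2.μ (c.G q i ⊔ c.β) (a' i)) ∧
      (∀ i, i = j ∨ i ∈ S → E' ≤ᵐ[c.W2.μ] c.Bc i ⁻¹' c.Θ (Φ i) ∧
        a' i = fun x => Φ i q (c.Bc i x)) ∧
      c.W2.μ (E' ∩ {x | (c.W2.μ[pr a' univ | c.β]) x ≠ 0}) ≠ 0 := by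
    intro S
    induction S using Finset.induction_on with
    | empty =>
      refine ⟨E, fun _ => φ, update a j fun x => φ q (c.Bc j x), hE, subset_rfl, fun _ => hφ, rfl,
        fun i => ?_, fun i hi => ?_, ?_⟩
      · by_cases hk : i = j
        · subst hk
          rw [update_self]
          exact um_bm (um_col f gi (hC _ hφ) q i)
        · rw [update_of_ne hk]
          exact ha i
      · obtain rfl : i = j := by simpa using hi
        exact ⟨hEΘ, update_self _ _ _⟩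
      · have e : pr (update a j fun x => φ q (c.Bc j x)) univ =
            fun y => φ q (c.Bc j y) * pr a (univ.erase j) y := by
          funext y
          rw [Fib27.pr_erase _ (mem_univ j), update_self, Fib27.pr_update _ (notMem_erase j _)]
        rw [e]
        exact hpos
    | insert i S hi ih =>
      obtain ⟨E', Φ, a', h1, h2, h3, h4, h5, h6, h7⟩ := ih
      by_cases hij : i = j
      · refine ⟨E', Φ, a', h1, h2, h3, h4, h5, fun k hk => h6 k ?_, h7⟩
        rcases hk with hk | hk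
        · exact Or.inl hk
        · rcases mem_insert.1 hk with hk | hk
          · exact Or.inl (hk.trans hij)
          · exact Or.inr hk
      obtain ⟨φ', hφ', hp⟩ := step f r gi hg hx hC gs hij (hC _ (h3 j)) h1 (h6 j (Or.inl rfl)).1 h5
        (h6 j (Or.inl rfl)).2 h7
      refine ⟨_, update Φ i φ', _, h1.inter (th_meas r gi φ' i), Set.inter_subset_left.trans h2,
        fun k => ?_, ?_, fun k => ?_, fun k hk => ?_, hp⟩
      · by_cases hk : k = i
        · subst hk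
          rwa [update_self]
        · rw [update_of_ne hk]
          exact h3 k
      · rw [update_of_ne (Ne.symm hij), h4]
      · by_cases hk : k = i
        · subst hk
          rw [update_self]
          exact um_bm (um_col f gi (hC _ hφ') q k)
        · rw [update_of_ne hk]
          exact h5 k
      · by_cases hki : k = i
        · subst hki
          rw [update_self, update_self]
          exact ⟨Eventually.of_forall fun x hx => hx.2, rfl⟩
        · rw [update_of_ne hki, update_of_ne hki]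
          have hk' : k = j ∨ k ∈ S := hk.imp id fun h => (mem_insert.1 h).resolve_left hki
          exact ⟨(Set.inter_subset_left.eventuallyLE).trans (h6 k hk').1, (h6 k hk').2⟩
  obtain ⟨E', Φ, a', h1, h2, h3, h4, h5, h6, h7⟩ := main univ
  have h8 : ∀ i, E' ≤ᵐ[c.W2.μ] c.Bc i ⁻¹' c.Θ (Φ i) := fun i => (h6 i (Or.inr (mem_univ i))).1
  have h9 : pr a' univ = fun x => ∏ i, Φ i q (c.Bc i x) := by
    funext x
    exact Finset.prod_congr rfl fun i _ => by rw [(h6 i (Or.inr (mem_univ i))).2]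
  rw [h9] at h7
  have hm : MeasurableSet[c.β] {x | (c.W2.μ[fun x => ∏ i, Φ i q (c.Bc i x) | c.β]) x ≠ 0} :=
    (stronglyMeasurable_condExp.measurable (measurableSet_singleton (0 : ℂ))).compl
  refine ⟨_, Φ, h1.inter hm, Set.inter_subset_left.trans h2, h7, h3, h4,
    fun i => (Set.inter_subset_left.eventuallyLE).trans (h8 i), ?_⟩
  have hrow : ∀ k, sup (c.G k) univ ≤ c.W2.ms := fun k => Fib27.sup_le' fun i _ => hg.le k i
  have hR : ∀ k, Um (sup (c.G k) univ ⊔ c.β) c.W2.μ fun x => ∏ i, Φ i k (c.Bc i x) := fun k =>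
    um_pr (φ := fun i x => Φ i k (c.Bc i x)) univ fun i hi =>
      ⟨(um_col f gi (hC _ (h3 i)) k i).1.mono (sup_le_sup_right (Fib27.le_sup' (c.G k) hi) _),
        (um_col f gi (hC _ (h3 i)) k i).2⟩
  have hcm := r.cm c.β (fun k => sup (c.G k) univ) c.W2.μ
    (fun k x => ∏ i, Φ i k (c.Bc i x)) hg.ble hrow c.three hg.rows hR q
  choose κ hκ hκe using fun i => th_eq f r gi (hC _ (h3 i)) i
  have hof := r.of c.β c.W2.μ (pr (fun k x => ∏ i, Φ i k (c.Bc i x)) univ) (pr κ univ) E' hg.ble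
    (um_pr _ fun k _ => ⟨(hR k).1.mono (sup_le (hrow k) hg.ble), (hR k).2⟩)
    (BM.pr fun i _ => hκ i) h1 (by
      filter_upwards [ae_all_iff.2 hκe, ae_all_iff.2 h8] with x e1 e2 hx
      rw [pr, pr, Finset.prod_comm]
      exact Finset.prod_congr rfl fun i _ => e1 i (e2 i hx))
  intro k
  filter_upwards [hcm, hof] with x e1 e2 hx
  exact e1 (e2 hx.1) hx.2 k

end T4x

end
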