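import Pool.Agent.MP_154433_an.t4.Spec

/-! Rows Gf, Cpt and Det: good factors. -/

set_option autoImplicit false
set_option linter.unusedVariables false
set_option linter.unusedSectionVars false

open MeasureTheory ProbabilityTheory Filter Topology Function Finset ComplexConjugate
open scoped BigOperators
open Fib27 (BM)

noncomputable section

namespace T4x

open T3x

namespace GfL

section gen

variable {Ω Ω' : Type} {m m0 : MeasurableSpace Ω} {m0' : MeasurableSpace Ω'} {μ : Measure[m0] Ω}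
  {μ' : Measure[m0'] Ω'}

lemma bm_sum {κ : Type} (s : Finset κ) {a : κ → Ω → ℂ} (h : ∀ j ∈ s, BM μ m (a j)) :
    BM μ m fun x => ∑ j ∈ s, a j x := by
  classical
  induction s using Finset.induction_on with
  | empty => simpa using BM.const 0
  | insert j s hj ih =>
    simp only [sum_insert hj]
    exact (h j (mem_insert_self _ _)).add (ih fun k hk => h k (mem_insert_of_mem hk))

lemma bm_comp {p : Ω → Ω'} (hp : @MeasurePreserving _ _ m0 m0' p μ μ') {f : Ω' → ℂ}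
    (h : BM μ' m0' f) : BM μ m0 fun x => f (p x) :=
  ⟨h.1.comp_measurePreserving hp, h.2.imp fun _ hC => hp.quasiMeasurePreserving.ae hC⟩

lemma mpc {Ω'' : Type} {m0'' : MeasurableSpace Ω''} {μ'' : Measure[m0''] Ω''} {p : Ω → Ω'}
    {q : Ω' → Ω''} (hq : @MeasurePreserving _ _ m0' m0'' q μ' μ'')
    (hp : @MeasurePreserving _ _ m0 m0' p μ μ') : @MeasurePreserving _ _ m0 m0'' (q ∘ p) μ μ'' :=
  hq.comp hp

lemma int_comp {E : Type} [NormedAddCommGroup E] [NormedSpace ℝ E] {p : Ω → Ω'}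
    (hp : @MeasurePreserving _ _ m0 m0' p μ μ') {f : Ω' → E} (h : AEStronglyMeasurable[m0'] f μ') :
    ∫ x, f (p x) ∂μ = ∫ y, f y ∂μ' := by
  rw [← hp.map_eq] at h ⊢
  exact (integral_map hp.measurable.aemeasurable h).symm

lemma desc {p : Ω → Ω'} (hp : @MeasurePreserving _ _ m0 m0' p μ μ') {a b : Ω' → ℂ}
    (ha : BM μ' m0' a) (hb : BM μ' m0' b) (h : (fun x => a (p x)) =ᵐ[μ] fun x => b (p x)) :
    a =ᵐ[μ'] b :=
  (hp.measure_preimage (ha.1.nullMeasurableSet_eq_fun hb.1).compl).symm.trans h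

variable [IsProbabilityMeasure μ]

lemma isq {a : Ω → ℂ} (h : BM μ m0 a) : Integrable (fun x => ‖a x‖ ^ 2) μ :=
  (h.memLp ((2 : ℕ) : ENNReal)).integrable_norm_pow two_ne_zero

lemma n2_add {a b : Ω → ℂ} (ha : BM μ m0 a) (hb : BM μ m0 b) :
    ∫ x, ‖a x + b x‖ ^ 2 ∂μ ≤ 2 * ∫ x, ‖a x‖ ^ 2 ∂μ + 2 * ∫ x, ‖b x‖ ^ 2 ∂μ := by
  rw [← integral_const_mul, ← integral_const_mul,
    ← integral_add ((isq ha).const_mul 2) ((isq hb).const_mul 2)]
  refine integral_mono (isq (ha.add hb)) (((isq ha).const_mul 2).add ((isq hb).const_mul 2))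
    fun x => ?_
  have h := pow_le_pow_left₀ (norm_nonneg _) (norm_add_le (a x) (b x)) 2
  nlinarith [sq_nonneg (‖a x‖ - ‖b x‖)]

lemma n2_sub {a b : Ω → ℂ} (ha : BM μ m0 a) (hb : BM μ m0 b) :
    ∫ x, ‖a x - b x‖ ^ 2 ∂μ ≤ 2 * ∫ x, ‖a x‖ ^ 2 ∂μ + 2 * ∫ x, ‖b x‖ ^ 2 ∂μ := by
  simpa [sub_eq_add_neg] using n2_add ha (hb.cmul (-1))

/-- bounded functions that tend to zero in mean square -/
def Sm (μ : Measure[m0] Ω) (φ : ℕ → Ω → ℂ) : Prop :=
  Tendsto (fun M => ∫ x, ‖φ M x‖ ^ 2 ∂μ) atTop (𝓝 0)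

lemma sm_of {φ a b : ℕ → Ω → ℂ} (ha : Sm μ a) (hb : Sm μ b) (h : ∀ M, ∫ x, ‖φ M x‖ ^ 2 ∂μ ≤
    2 * ∫ x, ‖a M x‖ ^ 2 ∂μ + 2 * ∫ x, ‖b M x‖ ^ 2 ∂μ) : Sm μ φ :=
  squeeze_zero (fun _ => integral_nonneg fun _ => by positivity) h
    (by simpa using (ha.const_mul 2).add (hb.const_mul 2))

lemma sm_sum {κ : Type} (s : Finset κ) {a : κ → ℕ → Ω → ℂ} (h : ∀ j M, BM μ m0 (a j M))
    (h' : ∀ j, Sm μ (a j)) : Sm μ fun M x => ∑ j ∈ s, a j M x := by
  classical
  induction s using Finset.induction_on with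
  | empty => simp [Sm]
  | insert j s hj ih =>
    simp only [sum_insert hj]
    exact sm_of (h' j) ih fun M => n2_add (h j M) (bm_sum s fun k _ => h k M)

lemma sm_apx {φ : ℕ → Ω → ℂ} (h : ∀ ε : ℝ, 0 < ε → ∃ a b : ℕ → Ω → ℂ, Sm μ a ∧
    (∀ M, BM μ m0 (a M) ∧ BM μ m0 (b M) ∧ ∫ x, ‖b M x‖ ^ 2 ∂μ ≤ ε) ∧
    ∀ M x, φ M x = a M x + b M x) : Sm μ φ := by
  refine tendsto_order.2 ⟨fun c hc => Eventually.of_forall fun M =>
    hc.trans_le (integral_nonneg fun _ => by positivity), fun c hc => ?_⟩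
  obtain ⟨a, b, h1, h2, h3⟩ := h (c / 4) (by positivity)
  filter_upwards [(tendsto_order.1 h1).2 (c / 4) (by positivity)] with M hM
  simp only [h3]
  linarith [n2_add (h2 M).1 (h2 M).2.1, (h2 M).2.2]

end gen

variable [Grp] {X : Sys} {ι : Type} [Fintype ι] [DecidableEq ι] {ν ν' : Wt} {r : ι → Γ}
  {f : ι → X.X → ℂ}

omit [DecidableEq ι] in
lemma avg_eq (M : ℕ) (x : X.X) :
    avg ν M X r f x = ∑ d ∈ ν.sp M, (ν.w M d : ℂ) * ∏ i, f i (X.Tz (d • r i) x) := by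
  simp only [avg, Wt.av, Complex.real_smul]

omit [DecidableEq ι] in
lemma bm_avg (t : BasT) (hf : ∀ i, BM X.μ X.ms (f i)) (M : ℕ) : BM X.μ X.ms (avg ν M X r f) :=
  (bm_sum (ν.sp M) fun d _ => (BM.pr (S := univ) fun i _ =>
    bm_comp (t.mp X (d • r i)) (hf i)).cmul (ν.w M d : ℂ)).congr
    (Eventually.of_forall fun x => (avg_eq M x).symm)

lemma bm_upd (hf : ∀ i, BM X.μ X.ms (f i)) (i : ι) {h : X.X → ℂ} (hh : BM X.μ X.ms h) (j : ι) :
    BM X.μ X.ms (update f i h j) := by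
  rcases eq_or_ne j i with rfl | e
  · rwa [update_self]
  · rw [update_of_ne e]; exact hf j

lemma avg_upd (i : ι) (h : X.X → ℂ) (M : ℕ) (x : X.X) : avg ν M X r (update f i h) x =
    ∑ d ∈ ν.sp M, (ν.w M d : ℂ) *
      (h (X.Tz (d • r i) x) * ∏ j ∈ univ.erase i, f j (X.Tz (d • r j) x)) := by
  rw [avg_eq]
  refine sum_congr rfl fun d _ => ?_
  rw [← mul_prod_erase univ _ (mem_univ i), update_self]
  congr 2
  exact prod_congr rfl fun j hj => by rw [update_of_ne (ne_of_mem_erase hj)]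

lemma avg_split (i : ι) {n : ℕ} (a : Fin n → X.X → ℂ) (M : ℕ) (x : X.X) :
    avg ν M X r f x = ∑ j, avg ν M X r (update f i (a j)) x +
      avg ν M X r (update f i fun y => f i y - ∑ j, a j y) x := by
  conv_lhs => rw [← update_eq_self i f]
  simp only [avg_upd]
  rw [sum_comm, ← sum_add_distrib]
  refine sum_congr rfl fun d _ => ?_
  rw [← mul_sum, ← sum_mul]
  ring

lemma contr (t : BasT) (hf : ∀ i, BM X.μ X.ms (f i)) (i : ι) : ∃ K : ℝ, 0 < K ∧
    ∀ (ν : Wt) (M : ℕ) (h : X.X → ℂ), BM X.μ X.ms h →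
      ∫ x, ‖avg ν M X r (update f i h) x‖ ^ 2 ∂X.μ ≤ K * ∫ x, ‖h x‖ ^ 2 ∂X.μ := by
  choose C hC using fun j => (hf j).2
  obtain ⟨K, hK⟩ : ∃ K : ℝ, K = (∏ j ∈ univ.erase i, C j) ^ 2 + 1 := ⟨_, rfl⟩
  refine ⟨K, by rw [hK]; positivity, fun ν M h hh => ?_⟩
  have hi : ∀ d ∈ ν.sp M, Integrable (fun x => ν.w M d * (K * ‖h (X.Tz (d • r i) x)‖ ^ 2)) X.μ :=
    fun d _ => ((isq (bm_comp (t.mp X _) hh)).const_mul K).const_mul _
  refine (integral_mono_ae (isq (bm_avg t (bm_upd hf i hh) M)) (integrable_finsetSum _ hi)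
    ?_).trans (le_of_eq ?_)
  · filter_upwards [ae_all_iff.2 fun j => ae_all_iff.2 fun n : Γ =>
      (t.mp X n).quasiMeasurePreserving.ae (hC j)] with x hx
    have cv : ConvexOn ℝ Set.univ fun z : ℂ => ‖z‖ ^ 2 :=
      convexOn_univ_norm.pow (fun _ _ => norm_nonneg _) 2
    have h1 := cv.map_sum_le (t := ν.sp M) (w := ν.w M) (p := fun d =>
      h (X.Tz (d • r i) x) * ∏ j ∈ univ.erase i, f j (X.Tz (d • r j) x))
      (fun d _ => ν.nn M d) (ν.one M) fun _ _ => Set.mem_univ _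
    rw [avg_upd]
    simp only [Complex.real_smul, smul_eq_mul] at h1
    refine h1.trans (sum_le_sum fun d _ => mul_le_mul_of_nonneg_left ?_ (ν.nn M d))
    rw [norm_mul, mul_pow, mul_comm, norm_prod, hK]
    refine mul_le_mul_of_nonneg_right (le_trans (pow_le_pow_left₀ (by positivity)
      (prod_le_prod (fun _ _ => norm_nonneg _) fun j _ => hx j _) 2) (by linarith)) (by positivity)
  · rw [integral_finsetSum _ hi, ← one_mul (K * _), ← ν.one M, sum_mul]
    refine sum_congr rfl fun d _ => ?_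
    rw [integral_const_mul, integral_const_mul,
      int_comp (f := fun y => ‖h y‖ ^ 2) (t.mp X _) (isq hh).1]

omit [DecidableEq ι] in
lemma avg_congr (t : BasT) {g : ι → X.X → ℂ} (h : ∀ i, f i =ᵐ[X.μ] g i) (M : ℕ) :
    avg ν M X r f =ᵐ[X.μ] avg ν M X r g := by
  filter_upwards [ae_all_iff.2 fun j => ae_all_iff.2 fun n : Γ =>
    (t.mp X n).quasiMeasurePreserving.ae (h j)] with x hx
  simp only [avg_eq, hx]

lemma dense (t : BasT) {C : MeasurableSpace X.X} {T : Set (X.X → ℂ)} (hC : C ≤ X.ms)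
    (hT : ∀ φ ∈ T, BM X.μ X.ms φ)
    (h1 : ∀ g, BM X.μ C g → ∀ ε : ℝ, 0 < ε → ∃ (n : ℕ) (a : Fin n → X.X → ℂ), (∀ i, a i ∈ T) ∧
      ∫ x, ‖g x - ∑ i, a i x‖ ^ 2 ∂X.μ ≤ ε)
    (h2 : ∀ f : ι → X.X → ℂ, (∀ i, f i ∈ T) →
      Sm X.μ fun M x => avg ν M X r f x - avg ν' M X r f x) : Good ν ν' X r C := by
  have key : ∀ (S : Finset ι) (f : ι → X.X → ℂ), (∀ i ∈ S, BM X.μ C (f i)) → (∀ i ∉ S, f i ∈ T) →
      Sm X.μ fun M x => avg ν M X r f x - avg ν' M X r f x := by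
    intro S
    induction S using Finset.induction_on with
    | empty => exact fun f _ h => h2 f fun i => h i (notMem_empty i)
    | insert i S hi ih =>
      intro f k1 k2
      have hf : ∀ j, BM X.μ X.ms (f j) := fun j =>
        (em _).elim (fun h => (k1 j h).mono hC) fun h => hT _ (k2 j h)
      obtain ⟨K, hK, hc⟩ := contr (r := r) t hf i
      refine sm_apx fun ε hε => ?_
      obtain ⟨n, a, ha, hb⟩ := h1 (f i) (k1 i (mem_insert_self _ _)) (ε / (4 * K)) (by positivity)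
      have hd := (hf i).sub (bm_sum univ fun j _ => hT _ (ha j))
      have bm : ∀ j M, BM X.μ X.ms fun x => avg ν M X r (update f i (a j)) x -
          avg ν' M X r (update f i (a j)) x := fun j M =>
        (bm_avg t (bm_upd hf i (hT _ (ha j))) M).sub (bm_avg t (bm_upd hf i (hT _ (ha j))) M)
      refine ⟨_, fun M x => avg ν M X r (update f i fun y => f i y - ∑ j, a j y) x -
        avg ν' M X r (update f i fun y => f i y - ∑ j, a j y) x,
        sm_sum univ bm fun j => ih _ (fun k hk => ?_) fun k hk => ?_, fun M => ⟨bm_sum _ fun j _ =>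
          bm j M, (bm_avg t (bm_upd hf i hd) M).sub (bm_avg t (bm_upd hf i hd) M), ?_⟩,
        fun M x => ?_⟩
      · rw [update_of_ne (by rintro rfl; exact hi hk)]
        exact k1 k (mem_insert_of_mem hk)
      · rcases eq_or_ne k i with rfl | e
        · rw [update_self]; exact ha j
        · rw [update_of_ne e]; exact k2 k (by simp [e, hk])
      · have e1 := mul_le_mul_of_nonneg_left hb hK.le
        have e2 : K * (ε / (4 * K)) = ε / 4 := by field_simp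
        linarith [n2_sub (bm_avg (ν := ν) (r := r) t (bm_upd hf i hd) M)
          (bm_avg (ν := ν') (r := r) t (bm_upd hf i hd) M), hc ν M _ hd, hc ν' M _ hd]
      · rw [avg_split (ν := ν) i a, avg_split (ν := ν') i a, sum_sub_distrib]
        ring
  exact fun f hf => key univ f (fun i _ => hf i) fun i hi => absurd (mem_univ i) hi

end GfL

variable [Grp]

open GfL in
theorem gf : GfR := by
  rintro ⟨A, t, D, -⟩
  refine ⟨fun ν ν' X ι _ _ r C T hC hT h1 h2 => dense t hC.le hT h1 h2,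
    fun ν ν' X ι _ _ r 𝒞 hne hch h => ?_, fun ν ν' X X' e ι _ _ r he h hg f hf => ?_⟩
  · have hle := (t.fsSup X 𝒞 hne fun C hC => (h C hC).1).le
    refine dense t (T := {φ | ∃ C ∈ 𝒞, BM X.μ C φ}) hle
      (fun φ ⟨C, hC, hφ⟩ => hφ.mono (h C hC).1.le) (fun g hg ε hε => ?_) fun f hf => ?_
    · obtain ⟨C, hC, k⟩ := D.chain 𝒞 X.μ hne hch.directedOn (fun C hC => (h C hC).1.le) g
        ((hg.mono hle).memLp 2) ε hε
      refine ⟨1, fun _ => X.μ[g | C], fun _ => ⟨C, hC, hg.ce C⟩, le_trans (le_of_eq ?_)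
        (k C hC le_rfl)⟩
      refine integral_congr_ae ?_
      filter_upwards [BM.ce_self hle hg] with x hx
      rw [hx, Fin.sum_univ_one]
    · choose C hC hC' using hf
      have := hne.to_subtype
      obtain ⟨z, hz⟩ := hch.directedOn.directed_val.finite_le fun i => ⟨C i, hC i⟩
      exact (h z z.2).2 f fun i => (hC' i).mono (hz i)
  · have k : ∀ i, ∃ f' : X'.X → ℂ, BM X'.μ X'.ms f' ∧ f i =ᵐ[X.μ] fun x => f' (e x) := fun i => by
      obtain ⟨k1, C, hC⟩ := hf i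
      obtain ⟨f0, a1, a2, a3⟩ := A.rep X.ms X.μ (f i) (max C 0) (le_max_right _ _) k1
        (hC.mono fun _ h => h.trans (le_max_left _ _))
      obtain ⟨f', ⟨b1, C', b2⟩, b3⟩ := h f0 ⟨a1, _, a2⟩
      exact ⟨f', ⟨b1.aestronglyMeasurable, C', Eventually.of_forall b2⟩, by simpa only [b3]⟩
    choose f' k1 k2 using k
    have e1 : ∀ (ν : Wt) M, avg ν M X r f =ᵐ[X.μ] fun x => avg ν M X' r f' (e x) := fun ν M => by
      filter_upwards [avg_congr (ν := ν) (r := r) t k2 M, ae_all_iff.2 fun j =>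
        ae_all_iff.2 fun n : Γ => A.keq_fun X'.ms X.μ X'.μ _ _ (f' j) (he.mp.comp (t.mp X n))
          ((t.mp X' n).comp he.mp) (t.emb_z X X' e n he) (k1 j).1] with x h1 h2
      rw [h1]
      simp only [avg_eq]
      exact sum_congr rfl fun d _ => congrArg _ (prod_congr rfl fun j _ => h2 j _)
    refine (hg f' k1).congr fun M => ?_
    rw [← int_comp he.mp (isq ((bm_avg t k1 M).sub (bm_avg t k1 M))).1]
    refine integral_congr_ae ?_
    filter_upwards [e1 ν M, e1 ν' M] with x h1 h2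
    rw [h1, h2]

open GfL in
theorem cpt : CptR := by
  intro F G hA ν ν' X ι _ _ r B0 C u hu hX hB hC hBC hI hg h0
  obtain ⟨Z, p, hp⟩ : ∃ Z p, Pair X C Z p := F.rp Bool (fun _ => X) X C (fun _ => id) false
    (fun _ => hX) hC (fun _ => (F.t.emb_id X).mp) fun _ _ _ _ => EventuallyEq.rfl
  have mp : ∀ b, @MeasurePreserving _ _ Z.ms X.ms (p b) Z.μ X.μ := fun b => (hp.emb b).mp
  have hP := F.t.fpull Z X (p false) X.ms (hp.emb false) (F.t.top X)
  have b0 : ∀ c, BM X.μ X.ms c → BM Z.μ (pull Z.μ (p false) X.ms) fun z => c (p false z) :=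
    fun c hc => F.a.bm_comp X.ms Z.μ X.μ _ c (mp false) hc
  have sw : ∀ c, BM X.μ C c → (fun z => c (p true z)) =ᵐ[Z.μ] fun z => c (p false z) :=
    fun c hc => F.a.keq_fun C Z.μ X.μ _ _ c (mp true) (mp false) (hp.com true) hc.1
  refine G.dense ν ν' X ι r _ {k | BM X.μ X.ms k ∧ (BM X.μ C k ∨ ∃ H g, BM Z.μ (Inv Z {u}) H ∧
    BM X.μ X.ms g ∧ Star p H g k ∧ X.μ[g | C] =ᵐ[X.μ] 0)} (F.kb.fac X u C hX hC)
    (fun _ h => h.1) (fun k hk ε hε => ?_) fun f hf => ?_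
  · obtain ⟨n, H, g, k', h1, h2⟩ := F.kb.span X u C Z p hX hC hp k hk ε hε
    have key : ∀ i, ∃ k1 k2 : X.X → ℂ, BM X.μ C k1 ∧ (BM X.μ X.ms k2 ∧ ∃ g', BM X.μ X.ms g' ∧
        Star p (H i) g' k2 ∧ X.μ[g' | C] =ᵐ[X.μ] 0) ∧ k' i =ᵐ[X.μ] fun x => k1 x + k2 x := by
      intro i
      obtain ⟨a1, a2, a3, a4⟩ := h1 i
      have aH := a1.mono (F.t.finv Z {u}).le
      have hc := a2.ce C
      have hc' := hc.mono hC.le
      obtain ⟨k0, c1, c2⟩ := F.ka.star X C Z p hC hp _ _ aH (BM.const 1)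
      obtain ⟨k2, d1, d2⟩ := F.ka.star X C Z p hC hp _ _ aH (a2.sub hc')
      simp only [Star, mul_one] at c2
      have hk0 : BM X.μ C k0 := by
        refine (c1.of_aesm ((F.t.inv_iff X {u} k0 c1.1).2 fun h hh => desc (mp false)
          (bm_comp (X.mp h) c1) c1 ?_)).mono hI
        have e1 := F.a.keq_fun X.ms Z.μ X.μ _ _ k0 (mpc (mp false) (Z.mp h))
          (mpc (X.mp h) (mp false)) ((hp.emb false).eqv h) c1.1
        have e2 := F.t.ce Z _ h (H i) hP aH.integrable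
        filter_upwards [e1, (Z.mp h).quasiMeasurePreserving.ae c2, e2, c2, condExp_congr_ae
          (m := pull Z.μ (p false) X.ms) ((F.t.inv_iff Z {u} _ aH.1).1 a1.1 h hh)]
          with z z1 z2 z3 z4 z5
        exact z1.symm.trans (z2.trans (z3.symm.trans (z5.trans z4.symm)))
      refine ⟨fun x => (X.μ[g i | C]) x * k0 x, k2, hc.mul hk0, ⟨d1, _, a2.sub hc', d2, ?_⟩,
        desc (mp false) a3 ((hc'.mul c1).add d1) ?_⟩
      · filter_upwards [condExp_sub a2.integrable hc'.integrable C, BM.ce_self hC.le hc]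
          with x x1 x2
        exact x1.trans (by rw [Pi.sub_apply, x2, sub_self]; rfl)
      · have e1 : (fun z => H i z * g i (p true z)) =ᵐ[Z.μ]
            (fun z => (X.μ[g i | C]) (p false z) * H i z) +
              fun z => H i z * (g i (p true z) - (X.μ[g i | C]) (p true z)) := by
          filter_upwards [sw _ hc] with z hz
          rw [Pi.add_apply, hz]
          ring
        filter_upwards [a4, condExp_congr_ae (m := pull Z.μ (p false) X.ms) e1, condExp_add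
          ((bm_comp (mp false) hc').mul aH).integrable
          (aH.mul (bm_comp (mp true) (a2.sub hc'))).integrable (pull Z.μ (p false) X.ms),
          Fib27.ce_mul hP.le (b0 _ hc') aH, c2, d2] with z z1 z2 z3 z4 z5 z6
        rw [z1, z2, z3, Pi.add_apply, z4, z5, z6]
    choose k1 k2 a1 a2 a3 using key
    refine ⟨n + n, Fin.append k1 k2, fun i => ?_, le_trans (le_of_eq (integral_congr_ae ?_)) h2⟩
    · refine Fin.addCases (fun j => ?_) (fun j => ?_) i
      · rw [Fin.append_left]; exact ⟨(a1 j).mono hC.le, Or.inl (a1 j)⟩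
      · rw [Fin.append_right]; exact ⟨(a2 j).1, Or.inr ⟨H j, (a2 j).2.imp fun _ h =>
          ⟨(h1 j).1, h⟩⟩⟩
    · filter_upwards [ae_all_iff.2 a3] with x hx
      simp only [Fin.sum_univ_add, Fin.append_left, Fin.append_right, hx, sum_add_distrib]
  · by_cases hall : ∀ i, BM X.μ C (f i)
    · exact hg f hall
    obtain ⟨i0, hi0⟩ := not_forall.1 hall
    have key : ∀ i, ∃ H g, (BM Z.μ (Inv Z {u}) H ∧ BM X.μ X.ms g ∧ BM X.μ X.ms (f i) ∧
        Star p H g (f i)) ∧ (¬ BM X.μ C (f i) → X.μ[g | C] =ᵐ[X.μ] 0) := fun i => by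
      rcases (hf i).2 with h | ⟨H, g, a1, a2, a3, a4⟩
      · refine ⟨fun _ => 1, f i, ⟨BM.const 1, (hf i).1, (hf i).1, ?_⟩, fun h' => absurd h h'⟩
        simp only [Star, one_mul]
        exact ((condExp_congr_ae (sw _ h)).trans (BM.ce_self hP.le (b0 _ (hf i).1))).symm
      · exact ⟨H, g, ⟨a1, a2, (hf i).1, a3⟩, fun _ => a4⟩
    choose H g a1 a2 using key
    exact sm_of (hA ν' ν X ι r B0 C Z p u hu hX hB hC hBC hp hg h0 H g f i0 a1 (a2 i0 hi0))
      (hA ν' ν' X ι r B0 C Z p u hu hX hB hC hBC hp (fun _ _ => by simp) h0 H g f i0 a1 (a2 i0 hi0))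
      fun M => n2_sub (bm_avg F.t (fun i => (hf i).1) M) (bm_avg F.t (fun i => (hf i).1) M)

namespace GfL

/-- the hypothesis on the invariant sets passes to factors -/
lemma ee_down {X X' : Sys} {e : X.X → X'.X} (he : Emb X X' e) {Λ : Set Γ} (h : EE X Λ) :
    EE X' Λ := by
  intro u hu A hA
  have h1 : MeasurableSet[Inv X {u}] (e ⁻¹' A) := ⟨he.mp.measurable hA.1, fun g hg =>
    (he.eqv g A hA.1).trans (he.mp.quasiMeasurePreserving.preimage_ae_eq (hA.2 g hg))⟩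
  refine ⟨hA.1, fun g hg => ?_⟩
  have h2 : e ⁻¹' (X'.Tz g ⁻¹' A) =ᵐ[X.μ] e ⁻¹' A :=
    (he.eqv g A hA.1).symm.trans ((h u hu _ h1).2 g hg)
  rw [← measure_symmDiff_eq_zero_iff] at h2 ⊢
  rw [← he.mp.measure_preimage (((X'.mp g).measurable hA.1).symmDiff hA.1).nullMeasurableSet,
    Set.preimage_symmDiff]
  exact h2

end GfL

open GfL in
theorem det : DetR := by
  intro F G hC hT ν ν' ι _ _ r Λ e1 e2 s1 s2 hr hB X hE
  obtain ⟨X', e, hX, he, hf⟩ := F.nice0 X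
  refine G.down ν ν' X X' e ι r he hf ?_
  obtain ⟨B0, b1, b2, b3, b4⟩ := hB X' (ee_down he hE)
  exact hT ν ν' X' ι r _ e1 e2 s1 s2 hr hX (F.h.kc X' B0 hX b1) (F.h.ind X' B0 _ hX b1 b3
    (fun u hu C c1 c2 c3 => hC ν ν' X' ι r B0 C u hu hX b1 c1 c2 ((b2 u hu).trans c2) c3 b4)
    fun 𝒞 c1 c2 c3 => G.chain ν ν' X' ι r 𝒞 c1 c2 fun C h => ⟨(c3 C h).1, (c3 C h).2.2⟩)

end T4x

end
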