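import Pool.Agent.MP_154433_an.t4.Spec

/-! Rows Ind and Top. -/

set_option autoImplicit false
set_option linter.unusedVariables false
set_option linter.unusedSectionVars false
set_option warn.classDefReducibility false

open MeasureTheory ProbabilityTheory Filter Topology Function Finset ComplexConjugate
open scoped BigOperators
open Fib27 (BM sup pr Oc Orow F23 LInd Mem)

noncomputable section

namespace T4x

open T3x

theorem indR : IndR := by
  intro fd ind2 sa st step res G ν U hU erg spr n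
  revert G
  induction n with
  | zero =>
    intro G X B L ι sl S h1 h2 h3 h5
    exact ind2 G (fd G) ν U hU erg X B L ι sl S h1 h2 h3 (h5.trans (by norm_num))
  | succ n ih =>
    intro G X B L ι sl S h1 h2 h3 h5
    by_cases h6 : S.card ≤ 2
    · exact ind2 G (fd G) ν U hU erg X B L ι sl S h1 h2 h3 h6
    by_cases h7 : S.card ≤ n
    · exact ih G X B L ι sl S h1 h2 h3 h7
    refine res ν U (n + 1) (by omega) (fun G' => ?_) X B L ι sl S h1 h2 h3 (by omega)
    intro X B L ι _ sl h1 h2 h3 hc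
    classical
    obtain ⟨X', B', p, L', adm, sat⟩ := st G' ν U X B ι sl h1 h2
    obtain ⟨L2⟩ := (fd G').line ν U L'.W L'.nice
    choose Bc hB using fun j : ι => (fd G').la.ex L2 L' (L'.π (sl j)) (L'.emb _)
    let c : Ctx :=
      { ν := ν, U := U, hU := hU, erg := erg, spr := spr, ι := ι, sl := sl, nrm := h3
        three := by omega
        ind := by rw [hc]; exact ih G'
        X := X', B := B', nice := adm.nice, kc := adm.kc, L := L', L2 := L2, Bc := Bc, lift := hB }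
    exact (sa G').fail L' L B' B p sl h1 h2 adm (not_not.1 (step G' c sat))

variable [Grp]

namespace Top

theorem bm_sum {Ω κ : Type} {m m0 : MeasurableSpace Ω} {μ : Measure Ω} (s : Finset κ)
    (a : κ → Ω → ℂ) (h : ∀ i ∈ s, BM μ m (a i)) : BM μ m fun x => ∑ i ∈ s, a i x := by
  classical
  induction s using Finset.induction_on with
  | empty => simpa using BM.const 0
  | insert j s hj ih =>
    simp only [sum_insert hj]
    exact (h j (mem_insert_self _ _)).add (ih fun i hi => h i (mem_insert_of_mem hi))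

theorem bm_prod (t : BasT) (X : Sys) {ι : Type} [Fintype ι] (n : ι → Γ) (f : ι → X.X → ℂ)
    (hf : ∀ i, BM X.μ X.ms (f i)) : BM X.μ X.ms fun x => ∏ i, f i (X.Tz (n i) x) :=
  BM.pr (ρ := fun i x => f i (X.Tz (n i) x)) fun i _ => t.bm X _ _ _ (t.top X) (hf i)

theorem bm_avg (t : BasT) (ν : Wt) (M : ℕ) (X : Sys) {ι : Type} [Fintype ι] (r : ι → Γ)
    (f : ι → X.X → ℂ) (hf : ∀ i, BM X.μ X.ms (f i)) : BM X.μ X.ms (avg ν M X r f) := by
  have e : avg ν M X r f = fun x => ∑ d ∈ ν.sp M, (ν.w M d : ℂ) * ∏ i, f i (X.Tz (d • r i) x) := by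
    funext x
    simp only [avg, Wt.av, Complex.real_smul]
  rw [e]
  exact bm_sum _ _ fun d _ => (bm_prod t X _ f hf).cmul _

/-- the square of the norm of an average is a double average -/
theorem sq_avg (t : BasT) (ν : Wt) (M : ℕ) (X : Sys) {ι : Type} [Fintype ι] (r : ι → Γ)
    (f : ι → X.X → ℂ) (hf : ∀ i, BM X.μ X.ms (f i)) :
    ((∫ x, ‖avg ν M X r f x‖ ^ 2 ∂X.μ : ℝ) : ℂ) = ν.av2 M fun l => ∫ x,
      (∏ i, f i (X.Tz (l.2.1 • r i) x)) * conj (∏ i, f i (X.Tz (l.2.2 • r i) x)) ∂X.μ := by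
  have hb : ∀ d d' : ℤ, BM X.μ X.ms fun x =>
      (∏ i, f i (X.Tz (d • r i) x)) * conj (∏ i, f i (X.Tz (d' • r i) x)) := fun d d' =>
    (bm_prod t X _ f hf).mul (bm_prod t X _ f hf).conj
  rw [← integral_complex_ofReal]
  simp only [Wt.av2, Wt.av, Complex.real_smul, mul_sum]
  simp only [← integral_const_mul]
  rw [sum_congr rfl fun d _ => (integral_finsetSum _ fun d' _ =>
    (((hb d d').cmul _).cmul _).integrable).symm, ← integral_finsetSum _ fun d _ =>
      (bm_sum _ _ fun d' _ => ((hb d d').cmul _).cmul _).integrable]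
  refine integral_congr_ae (Eventually.of_forall fun x => ?_)
  simp only [avg, Wt.av, Complex.real_smul]
  rw [← Complex.normSq_eq_norm_sq, ← Complex.mul_conj, map_sum, sum_mul_sum]
  refine sum_congr rfl fun d _ => sum_congr rfl fun d' _ => ?_
  rw [map_mul, Complex.conj_ofReal]
  ring

theorem fam_mul {Ω : Type} {B : MeasurableSpace Ω} {F G : Lab × Ω → ℂ} (hF : F ∈ FamS B)
    (hG : G ∈ FamS B) : (fun s => F s * G s) ∈ FamS B := by
  obtain ⟨h1, C, hC⟩ := hF
  obtain ⟨h2, D, hD⟩ := hG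
  refine ⟨fun l => (h1 l).mul (h2 l), C * D, fun s => ?_⟩
  rw [norm_mul]
  exact mul_le_mul (hC s) (hD s) (norm_nonneg _) ((norm_nonneg _).trans (hC s))

theorem char_prod {Ω κ : Type} {B : MeasurableSpace Ω} {χ : (Lab × Ω → ℂ) → ℂ}
    (h : IsChar (FamS B) χ) (s : Finset κ) (F : κ → Lab × Ω → ℂ) (hF : ∀ k, F k ∈ FamS B) :
    (fun z => ∏ k ∈ s, F k z) ∈ FamS B ∧ χ (fun z => ∏ k ∈ s, F k z) = ∏ k ∈ s, χ (F k) := by
  classical
  induction s using Finset.induction_on with
  | empty =>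
    simp only [prod_empty]
    exact ⟨⟨fun l => measurable_const, 1, fun s => by simp⟩, h.const 1⟩
  | insert j s hj ih =>
    simp only [prod_insert hj]
    exact ⟨fam_mul (hF j) ih.1, by rw [h.mul _ (hF j) _ ih.1, ih.2]⟩

theorem ae_comp {Ω Ω' : Type} {m : MeasurableSpace Ω} {m' : MeasurableSpace Ω'} {μ : Measure Ω}
    {μ' : Measure Ω'} {p : Ω → Ω'} (h : MeasurePreserving p μ μ') {f g : Ω' → ℂ}
    (e : f =ᵐ[μ'] g) : ∀ᵐ x ∂μ, f (p x) = g (p x) := h.quasiMeasurePreserving.ae_eq_comp e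

theorem fam_of (t : BasT) (X : Sys) (n : Lab → Γ) {g : X.X → ℂ} (hg : g ∈ Bdd X.X) :
    (fun z : Lab × X.X => g (X.Tz (n z.1) z.2)) ∈ FamS X.ms := by
  obtain ⟨m, D, b⟩ := hg
  exact ⟨fun l => m.comp (t.mp X (n l)).measurable, D, fun z => b _⟩

/-- averages vanish when one function is orthogonal to the base -/
theorem van (fd : Fd) (ind : IndS) (ν : Wt) (X : Sys) {ι : Type} [Fintype ι] (r : ι → Γ)
    (C : MeasurableSpace X.X) (erg : ERG ν) (spr : SPR ν) (hr : CovR r) (hn : Nice X)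
    (hC : KC X C) (f : ι → X.X → ℂ) (hf : ∀ i, BM X.μ X.ms (f i)) (i0 : ι)
    (hz : X.μ[f i0 | C] =ᵐ[X.μ] 0) :
    Tendsto (fun M => ∫ x, ‖avg ν M X r f x‖ ^ 2 ∂X.μ) atTop (𝓝 0) := by
  have hrep : ∀ i, ∃ f' ∈ @Bdd X.X X.ms, f i =ᵐ[X.μ] f' := fun i => by
    obtain ⟨h1, D, hD⟩ := hf i
    obtain ⟨f', m, b, e⟩ := fd.a.rep X.ms X.μ (f i) (max D 0) (le_max_right _ _) h1
      (hD.mono fun x hx => hx.trans (le_max_left _ _))
    exact ⟨f', ⟨m, _, b⟩, e⟩
  choose f' hf' he using hrep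
  let g : ι × Bool → X.X → ℂ := fun s x => if s.2 then f' s.1 x else conj (f' s.1 x)
  let sl : ι × Bool → Slot := fun s => (r s.1, s.2)
  have hg : ∀ s, g s ∈ @Bdd X.X X.ms := by
    rintro ⟨i, _ | _⟩
    · obtain ⟨m, D, b⟩ := hf' i
      exact ⟨Complex.continuous_conj.measurable.comp m, D, fun x => by simpa [g] using b x⟩
    · exact hf' i
  have hgb : ∀ s, BM X.μ X.ms (g s) := fun s => by
    obtain ⟨m, D, b⟩ := hg s
    exact ⟨m.aestronglyMeasurable, D, Eventually.of_forall b⟩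
  have hF : ∀ s, (fun z : Lab × X.X => g s (X.Tz (rho (sl s) z.1) z.2)) ∈ FamS X.ms := fun s =>
    fam_of fd.t X (rho (sl s)) (hg s)
  rw [tendsto_iff_ultrafilter]
  intro U hU
  obtain ⟨L⟩ := fd.line ν U X hn
  have k := ind ν U hU erg spr _ X C L (ι × Bool) sl univ hn hC
    (fun s _ s' _ e => ⟨fun e2 => hr.2 _ _ fun e1 => e (Prod.ext e1 e2), fun _ => hr.1 _⟩)
    le_rfl g fun s _ => hgb s
  obtain ⟨w0⟩ : Nonempty L.W.X := L.W.μ.nonempty_of_neZero
  have lim := L.lim _ (char_prod (L.ch w0) univ _ hF).1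
  have e0 : ∫ w, L.hat (fun z => ∏ s, g s (X.Tz (rho (sl s) z.1) z.2)) w ∂L.W.μ = 0 := by
    have e1 : L.hat (fun z => ∏ s, g s (X.Tz (rho (sl s) z.1) z.2)) =ᵐ[L.W.μ]
        fun w => ∏ s, g s (L.π (sl s) w) := by
      filter_upwards [ae_all_iff.2 fun s => L.slot (sl s) (g s) (hg s)] with w hw
      rw [(char_prod (L.ch w) univ _ hF).2]
      exact prod_congr rfl fun s _ => (hw s).symm
    rw [integral_congr_ae e1, ← integral_condExp (fd.lb.fac L C hC.1).le, integral_congr_ae k]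
    refine integral_eq_zero_of_ae ?_
    have e2 : X.μ[g (i0, true) | C] =ᵐ[X.μ] 0 := (condExp_congr_ae (he i0).symm).trans hz
    filter_upwards [ae_comp (L.emb (sl (i0, true))).mp e2] with w hw
    exact prod_eq_zero (mem_univ (i0, true)) hw
  rw [e0] at lim
  have e3 : ∀ M, ((∫ x, ‖avg ν M X r f x‖ ^ 2 ∂X.μ : ℝ) : ℂ) =
      ν.av2 M fun l => ∫ x, ∏ s, g s (X.Tz (rho (sl s) l) x) ∂X.μ := fun M => by
    rw [sq_avg fd.t ν M X r f hf]
    congr 1
    funext l
    refine integral_congr_ae ?_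
    filter_upwards [ae_all_iff.2 fun i => ae_comp (fd.t.mp X (l.2.1 • r i)) (he i),
      ae_all_iff.2 fun i => ae_comp (fd.t.mp X (l.2.2 • r i)) (he i)] with x h1 h2
    rw [Fintype.prod_prod_type, map_prod, ← prod_mul_distrib]
    refine prod_congr rfl fun i _ => ?_
    rw [Fintype.prod_bool]
    exact congrArg₂ (· * ·) (h1 i) (congrArg conj (h2 i))
  have lim2 := (Complex.continuous_re.tendsto _).comp lim
  refine lim2.congr fun M => ?_
  exact (congrArg Complex.re (e3 M)).symm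

end Top

theorem top : TopR := by
  intro fd gf ind ν ν' X ι _ _ r C erg erg' spr spr' hr hn hC good
  refine gf.dense ν ν' X ι r X.ms
    {φ | BM X.μ C φ ∨ BM X.μ X.ms φ ∧ X.μ[φ | C] =ᵐ[X.μ] 0} (fd.t.top X)
    (fun φ h => h.elim (fun k => k.mono hC.1.le) fun k => k.1) (fun g hg ε hε => ?_) fun f hf => ?_
  · refine ⟨2, ![X.μ[g | C], fun x => g x - (X.μ[g | C]) x], fun i => ?_, ?_⟩
    · fin_cases i
      · exact Or.inl (hg.ce C)
      · exact Or.inr ⟨hg.sub ((hg.ce C).mono hC.1.le),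
          (Fib27.perp_sub_ce hC.1.le hg).ce hC.1.le (hg.sub ((hg.ce C).mono hC.1.le))⟩
    · simp [Fin.sum_univ_two, hε.le]
  by_cases h : ∀ i, BM X.μ C (f i)
  · exact good f h
  obtain ⟨i0, hi⟩ := not_forall.1 h
  have hz := ((hf i0).resolve_left hi).2
  have hb : ∀ i, BM X.μ X.ms (f i) := fun i =>
    (hf i).elim (fun k => k.mono hC.1.le) fun k => k.1
  have l1 := Top.van fd ind ν X r C erg spr hr hn hC f hb i0 hz
  have l2 := Top.van fd ind ν' X r C erg' spr' hr hn hC f hb i0 hz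
  have l3 := (l1.const_mul 2).add (l2.const_mul 2)
  rw [mul_zero, add_zero] at l3
  refine squeeze_zero (fun M => integral_nonneg fun x => by positivity) (fun M => ?_) l3
  have i1 := ((Top.bm_avg fd.t ν M X r f hb).memLp 2).integrable_norm_pow (by norm_num)
  have i2 := ((Top.bm_avg fd.t ν' M X r f hb).memLp 2).integrable_norm_pow (by norm_num)
  rw [← integral_const_mul, ← integral_const_mul, ← integral_add (i1.const_mul 2) (i2.const_mul 2)]
  refine integral_mono_of_nonneg (Eventually.of_forall fun x => by positivity)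
    ((i1.const_mul 2).add (i2.const_mul 2)) (Eventually.of_forall fun x => ?_)
  have := norm_sub_le (avg ν M X r f x) (avg ν' M X r f x)
  have h2 := norm_nonneg (avg ν M X r f x - avg ν' M X r f x)
  nlinarith [sq_nonneg (‖avg ν M X r f x‖ - ‖avg ν' M X r f x‖)]

end T4x

end
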