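import Pool.Agent.MP_154433_an.t4.Spec

/-! Row IndF: independence in the line is independence at the finite level. -/

set_option autoImplicit false
set_option linter.unusedVariables false
set_option warn.classDefReducibility false

open MeasureTheory ProbabilityTheory Filter Topology Function Finset ComplexConjugate
open scoped BigOperators
open Fib27 (BM sup pr Oc Orow F23 LInd Mem)

noncomputable section

namespace T4x

open T3x

variable [Grp]

namespace IndFx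

omit [Grp] in
theorem ae_comp {Ω Ω' : Type} {m : MeasurableSpace Ω} {m' : MeasurableSpace Ω'} {μ : Measure Ω}
    {μ' : Measure Ω'} {p : Ω → Ω'} (h : MeasurePreserving p μ μ') {f g : Ω' → ℂ}
    (e : f =ᵐ[μ'] g) : (fun x => f (p x)) =ᵐ[μ] fun x => g (p x) :=
  h.quasiMeasurePreserving.ae_eq_comp e

omit [Grp] in
theorem rep (a : BasA) {Ω : Type} (B : MeasurableSpace Ω) {m0 : MeasurableSpace Ω} {μ : Measure Ω}
    {f : Ω → ℂ} (hf : BM μ B f) : ∃ f' ∈ @Bdd Ω B, f =ᵐ[μ] f' := by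
  obtain ⟨h1, D, hD⟩ := hf
  obtain ⟨f', m, b, e⟩ := a.rep B μ f (max D 0) (le_max_right _ _) h1
    (hD.mono fun x hx => hx.trans (le_max_left _ _))
  exact ⟨f', ⟨m, _, b⟩, e⟩

theorem fam_of (X : Sys) (n : Lab → Γ) {g : X.X → ℂ} (hg : g ∈ @Bdd X.X X.ms) :
    (fun z : Lab × X.X => g (X.Tz (n z.1) z.2)) ∈ FamS X.ms := by
  obtain ⟨m, D, b⟩ := hg
  exact ⟨fun l => m.comp (X.mp (n l)).measurable, D, fun z => b _⟩

omit [Grp] in
theorem fam_const {Ω : Type} {B : MeasurableSpace Ω} (c : ℂ) :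
    (fun _ : Lab × Ω => c) ∈ FamS B := ⟨fun l => measurable_const, ‖c‖, fun _ => le_rfl⟩

omit [Grp] in
theorem fam_add {Ω : Type} {B : MeasurableSpace Ω} {F G : Lab × Ω → ℂ} (hF : F ∈ FamS B)
    (hG : G ∈ FamS B) : (fun s => F s + G s) ∈ FamS B := by
  obtain ⟨h1, C, hC⟩ := hF
  obtain ⟨h2, D, hD⟩ := hG
  exact ⟨fun l => (h1 l).add (h2 l), C + D, fun s =>
    (norm_add_le _ _).trans (add_le_add (hC s) (hD s))⟩

omit [Grp] in
theorem fam_mul {Ω : Type} {B : MeasurableSpace Ω} {F G : Lab × Ω → ℂ} (hF : F ∈ FamS B)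
    (hG : G ∈ FamS B) : (fun s => F s * G s) ∈ FamS B := by
  obtain ⟨h1, C, hC⟩ := hF
  obtain ⟨h2, D, hD⟩ := hG
  refine ⟨fun l => (h1 l).mul (h2 l), C * D, fun s => ?_⟩
  rw [norm_mul]
  exact mul_le_mul (hC s) (hD s) (norm_nonneg _) ((norm_nonneg _).trans (hC s))

omit [Grp] in
theorem fam_cj {Ω : Type} {B : MeasurableSpace Ω} {F : Lab × Ω → ℂ} (hF : F ∈ FamS B) :
    (fun s => conj (F s)) ∈ FamS B := by
  obtain ⟨h1, C, hC⟩ := hF
  exact ⟨fun l => Complex.continuous_conj.measurable.comp (h1 l), C, fun s => by simpa using hC s⟩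

omit [Grp] in
theorem fam_mono {Ω : Type} {B B' : MeasurableSpace Ω} (h : B ≤ B') {F : Lab × Ω → ℂ}
    (hF : F ∈ FamS B) : F ∈ FamS B' := ⟨fun l => (hF.1 l).mono h le_rfl, hF.2⟩

omit [Grp] in
theorem fam_prod {Ω ι : Type} {B : MeasurableSpace Ω} (S : Finset ι) (F : ι → Lab × Ω → ℂ)
    (hF : ∀ i ∈ S, F i ∈ FamS B) : (fun s => ∏ i ∈ S, F i s) ∈ FamS B ∧
      ∀ χ, IsChar (FamS B) χ → χ (fun s => ∏ i ∈ S, F i s) = ∏ i ∈ S, χ (F i) := by
  classical
  induction S using Finset.induction_on with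
  | empty => exact ⟨by simpa using fam_const 1, fun χ h => by simpa using h.const 1⟩
  | insert a S ha ih =>
    obtain ⟨h1, h2⟩ := ih fun i hi => hF i (mem_insert_of_mem hi)
    have h0 := hF a (mem_insert_self _ _)
    simp only [prod_insert ha]
    exact ⟨fam_mul h0 h1, fun χ h => by rw [h.mul _ h0 _ h1, h2 χ h]⟩

theorem hat_bm {ν : Wt} {U : Ultrafilter ℕ} {X : Sys} (L : Ln ν U X) {F : Lab × X.X → ℂ}
    (hF : F ∈ FamS X.ms) : BM L.W.μ L.W.ms (L.hat F) := by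
  obtain ⟨C, hC⟩ := hF.2
  have m : Measurable[L.W.ms] (L.hat F) := Measurable.of_comap_le (by
    rw [L.gn]
    exact le_iSup₂ (f := fun F (_ : F ∈ FamS X.ms) =>
      MeasurableSpace.comap (L.hat F) inferInstance) F hF)
  exact ⟨m.stronglyMeasurable.aestronglyMeasurable, C,
    Eventually.of_forall fun w => (L.ch w).bdd F hF C hC⟩

/-- products of slots are internal functions -/
theorem slots {ν : Wt} {U : Ultrafilter ℕ} {X : Sys} (L : Ln ν U X) {ι : Type} (sl : ι → Slot)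
    (S : Finset ι) {f g : ι → X.X → ℂ} (hg : ∀ i ∈ S, g i ∈ @Bdd X.X X.ms)
    (e : ∀ i ∈ S, f i =ᵐ[X.μ] g i) : (fun w => ∏ i ∈ S, f i (L.π (sl i) w)) =ᵐ[L.W.μ]
      L.hat fun z => ∏ i ∈ S, g i (X.Tz (rho (sl i) z.1) z.2) := by
  have h : ∀ᵐ w ∂L.W.μ, ∀ i ∈ S, f i (L.π (sl i) w) =
      L.hat (fun z => g i (X.Tz (rho (sl i) z.1) z.2)) w :=
    (eventually_all_finset S).2 fun i hi =>
      (ae_comp (L.emb (sl i)).mp (e i hi)).trans (L.slot (sl i) (g i) (hg i hi))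
  filter_upwards [h] with w hw
  rw [prod_congr rfl hw]
  exact ((fam_prod S (fun i z => g i (X.Tz (rho (sl i) z.1) z.2)) fun i hi =>
    fam_of X (rho (sl i)) (hg i hi)).2 _ (L.ch w)).symm

theorem shifts (X : Sys) {ι : Type} (n : ι → Γ) (S : Finset ι) {f g : ι → X.X → ℂ}
    (e : ∀ i ∈ S, f i =ᵐ[X.μ] g i) : (fun x => ∏ i ∈ S, f i (X.Tz (n i) x)) =ᵐ[X.μ]
      fun x => ∏ i ∈ S, g i (X.Tz (n i) x) := by
  have h : ∀ᵐ x ∂X.μ, ∀ i ∈ S, f i (X.Tz (n i) x) = g i (X.Tz (n i) x) :=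
    (eventually_all_finset S).2 fun i hi => ae_comp (X.mp (n i)) (e i hi)
  filter_upwards [h] with x hx
  exact prod_congr rfl hx

/-- an internal function vanishes when the mean squares tend to zero -/
theorem zero_iff {ν : Wt} {U : Ultrafilter ℕ} {X : Sys} (L : Ln ν U X) {D : Lab × X.X → ℂ}
    (hD : D ∈ FamS X.ms) : L.hat D =ᵐ[L.W.μ] 0 ↔
      Tendsto (fun M => ν.av2 M fun l => ∫ x, ‖D (l, x)‖ ^ 2 ∂X.μ) U (𝓝 0) := by
  have l := L.lim _ (fam_mul hD (fam_cj hD))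
  have e : (fun M => ν.av2 M fun l => ∫ x, D (l, x) * conj (D (l, x)) ∂X.μ) =
      fun M => ((ν.av2 M fun l => ∫ x, ‖D (l, x)‖ ^ 2 ∂X.μ : ℝ) : ℂ) := by
    funext M
    simp only [Wt.av2, Wt.av, Complex.mul_conj', ← Complex.ofReal_pow, integral_complex_ofReal,
      Complex.real_smul, smul_eq_mul, Complex.ofReal_sum, Complex.ofReal_mul]
  have e2 : ∫ w, L.hat (fun s => D s * conj (D s)) w ∂L.W.μ =
      ∫ w, L.hat D w * conj (L.hat D w) ∂L.W.μ := integral_congr_ae (Eventually.of_forall fun w => by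
    simp only
    rw [(L.ch w).mul _ hD _ (fam_cj hD), (L.ch w).cj _ hD])
  rw [e, e2] at l
  constructor
  · intro h
    have z : ∫ w, L.hat D w * conj (L.hat D w) ∂L.W.μ = ((0 : ℝ) : ℂ) :=
      integral_eq_zero_of_ae (h.mono fun w hw => by simp [hw])
    rw [z] at l
    exact (tendsto_ofReal_iff).1 l
  · intro h
    exact Fib27.eq_zero_of_int_conj (hat_bm L hD)
      (tendsto_nhds_unique l (by simpa using (tendsto_ofReal_iff).2 h))

end IndFx

open IndFx in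
theorem indF : IndFR := by
  intro fd ν U X B L ι sl S hB
  refine forall_congr' fun f => forall_congr' fun hf => ?_
  choose! g hg eg using fun i hi => rep fd.a X.ms (hf i hi)
  choose! k hk ek using fun i hi => rep fd.a B ((hf i hi).ce B)
  have hk' : ∀ i ∈ S, k i ∈ @Bdd X.X X.ms := fun i hi =>
    ⟨(hk i hi).1.mono hB.le le_rfl, (hk i hi).2⟩
  have hF := (fam_prod S (fun i z => g i (X.Tz (rho (sl i) z.1) z.2)) fun i hi =>
    fam_of X (rho (sl i)) (hg i hi)).1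
  have hG := (fam_prod S (fun i z => k i (X.Tz (rho (sl i) z.1) z.2)) fun i hi =>
    fam_of X (rho (sl i)) (hk' i hi)).1
  obtain ⟨F, hF1, e1⟩ := fd.lb.cex X B hB _ hF
  have c := (condExp_congr_ae (m := L.shp B) (slots L sl S hg eg)).trans
    (fd.lb.ce L B hB _ hF F hF1 e1)
  have c' := slots L sl S hk' ek
  have hm := fam_mono hB.le hF1
  have hN := fam_mul (fam_const (-1)) hG
  have z := zero_iff L (fam_add hm hN)
  have e : ∀ l : Lab, ∫ x, ‖F (l, x) + -1 * ∏ i ∈ S, k i (X.Tz (rho (sl i) l) x)‖ ^ 2 ∂X.μ =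
      ∫ x, ‖(X.μ[fun y => ∏ i ∈ S, f i (X.Tz (rho (sl i) l) y) | B]) x -
        ∏ i ∈ S, (X.μ[f i | B]) (X.Tz (rho (sl i) l) x)‖ ^ 2 ∂X.μ := fun l => by
    refine integral_congr_ae ?_
    filter_upwards [e1 l, condExp_congr_ae (m := B) (shifts X (fun i => rho (sl i) l) S eg),
      shifts X (fun i => rho (sl i) l) S ek] with x h1 h2 h3
    rw [h1, h2, h3, neg_one_mul, sub_eq_add_neg]
  simp only [e] at z
  rw [← z]
  have e3 : ∀ w, L.hat (fun s => F s + -1 * ∏ i ∈ S, k i (X.Tz (rho (sl i) s.1) s.2)) w =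
      L.hat F w - L.hat (fun s => ∏ i ∈ S, k i (X.Tz (rho (sl i) s.1) s.2)) w := fun w => by
    rw [(L.ch w).add _ hm _ hN, (L.ch w).mul _ (fam_const _) _ hG, (L.ch w).const, neg_one_mul,
      sub_eq_add_neg]
  constructor
  · intro h
    filter_upwards [h, c, c'] with w h1 h2 h3
    rw [e3, ← h2, ← h3, h1, sub_self, Pi.zero_apply]
  · intro h
    filter_upwards [h, c, c'] with w h1 h2 h3
    rw [e3, Pi.zero_apply, sub_eq_zero] at h1
    rw [h2, h3, h1]

end T4x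

end
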