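import Pool.Agent.MP_154433_an.t4.Spec

/-! Row Kf: weak mixing in one direction, read off from the system of one map. -/

set_option autoImplicit false
set_option linter.unusedVariables false
set_option warn.classDefReducibility false

open MeasureTheory ProbabilityTheory Filter Topology Function Finset ComplexConjugate
open scoped BigOperators
open Fib27 (BM sup pr Oc Orow F23 LInd Mem)

noncomputable section

namespace T4x

open T3x

variable [Grp]

namespace Kf

theorem wm_res (b : BasT) (X : Sys) (u : Γ) (C : MeasurableSpace X.X) (f : X.X → ℂ) :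
    WM X u C f ↔ T3x.WM (X.res u) C f := by
  unfold WM T3x.WM
  simp only [b.res]
  rfl

theorem kk_res (b : BasT) (X : Sys) (u : Γ) (C : MeasurableSpace X.X) :
    KK X u C = T3x.KK (X.res u) C := by
  unfold KK T3x.KK
  simp only [wm_res b]
  rfl

theorem fac_res (b : BasT) (X : Sys) (u : Γ) {C : MeasurableSpace X.X} (h : Fac X C) :
    T3x.Fac (X.res u) C :=
  ⟨h.le, h.nl, by rw [b.res]; exact h.inv _, by rw [b.res]; exact h.inv _⟩

theorem pair_res {X Z : Sys} (u : Γ) {C : MeasurableSpace X.X} {p : Bool → Z.X → X.X}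
    (h : Pair X C Z p) : T3x.Pair (X.res u) C (Z.res u) p :=
  ⟨h.nice, fun i => ⟨(h.emb i).mp, (h.emb i).eqv u⟩, h.com, h.ind, h.gn⟩

omit [Grp] in
theorem int_comp {Ω E : Type} [NormedAddCommGroup E] [NormedSpace ℝ E] {m : MeasurableSpace Ω}
    {μ : Measure Ω} {p : Ω → Ω} (h : MeasurePreserving p μ μ) {f : Ω → E}
    (hf : AEStronglyMeasurable f μ) : ∫ x, f (p x) ∂μ = ∫ y, f y ∂μ := by
  conv_rhs => rw [← h.map_eq]
  rw [integral_map h.measurable.aemeasurable (by rw [h.map_eq]; exact hf)]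

/-- weak mixing is kept by the action -/
theorem wm_shift (b : BasT) (X : Sys) (u n : Γ) {C : MeasurableSpace X.X} (hC : Fac X C)
    {f : X.X → ℂ} (hf : WM X u C f) : WM X u C fun x => f (X.Tz n x) := by
  refine ⟨hf.1.comp_measurePreserving (X.mp n), fun g hg => ?_⟩
  have hg' : BM X.μ X.ms fun x => g (X.Tz (-n) x) := b.bm X X.ms (-n) g (b.top X) hg
  refine (hf.2 _ hg').congr fun N => ?_
  congr 1
  refine sum_congr rfl fun k _ => ?_
  have hi : Integrable (fun y => f (X.Tz ((k : ℤ) • u) y) * g (X.Tz (-n) y)) X.μ :=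
    (hf.1.comp_measurePreserving (X.mp ((k : ℤ) • u))).integrable_mul (hg'.memLp 2)
  have e := b.ce X C n _ hC hi
  have e1 : (fun x => f (X.Tz ((k : ℤ) • u) (X.Tz n x)) * g (X.Tz (-n) (X.Tz n x))) =
      fun y => f (X.Tz n (X.Tz ((k : ℤ) • u) y)) * g y := by
    funext y
    rw [← X.add (-n) n, neg_add_cancel, X.zero, ← X.add, ← X.add, add_comm]
  rw [e1] at e
  rw [← int_comp (X.mp n) (f := fun x =>
    ‖(X.μ[fun y => f (X.Tz ((k : ℤ) • u) y) * g (X.Tz (-n) y) | C]) x‖)
    integrable_condExp.aestronglyMeasurable.norm]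
  exact integral_congr_ae (e.mono fun x hx => by simp only [hx])

theorem bdd_shift (X : Sys) (n : Γ) {g : X.X → ℂ} (hg : g ∈ Bdd X.X) :
    (fun x => g (X.Tz n x)) ∈ Bdd X.X := by
  obtain ⟨hm, K, hK⟩ := hg
  exact ⟨hm.comp (X.mp n).measurable, K, fun x => hK _⟩

theorem kk_inv (b : BasT) (X : Sys) (u n : Γ) {C : MeasurableSpace X.X} (hC : Fac X C) :
    (KK X u C).comap (X.Tz n) ≤ KK X u C := by
  unfold KK
  rw [MeasurableSpace.comap_sup]
  refine sup_le_sup ?_ ((b.bot X).inv n)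
  unfold gen
  simp only [MeasurableSpace.comap_iSup, MeasurableSpace.comap_comp]
  refine iSup₂_le fun g hg => ?_
  obtain ⟨⟨hm, K, hK⟩, h0⟩ := hg
  refine le_iSup₂_of_le (fun x => g (X.Tz n x))
    ⟨bdd_shift X n ⟨hm, K, hK⟩, fun f hf => ?_⟩ le_rfl
  have h1 := h0 _ (wm_shift b X u (-n) hC hf)
  have h2 : AEStronglyMeasurable[X.ms] (fun x => f (X.Tz (-n) x) * g x) X.μ :=
    (hf.1.1.comp_measurePreserving (X.mp (-n))).mul hm.aestronglyMeasurable
  rw [← int_comp (X.mp n) h2] at h1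
  refine Eq.trans (integral_congr_ae (ae_of_all _ fun x => ?_)) h1
  simp only [← X.add, neg_add_cancel, X.zero]

end Kf

open Kf

theorem kfA : KfAR := by
  intro b o
  refine ⟨fun X u C Z p hC hp f hf => ?_, fun X C Z p hC hp H g hH hg => ?_,
    fun X u C Z p hX hC hp f H g k hf hH hg hk hs => ?_, fun X u C hX hC f hf h => ?_⟩
  · rw [wm_res b.t, b.t.inv_res]
    exact o.ka.wm_iff (X.res u) C (Z.res u) p (fac_res b.t X u hC) (pair_res u hp) f hf
  · exact o.ka.star (X.res 0) C (Z.res 0) p (fac_res b.t X 0 hC) (pair_res 0 hp) H g hH hg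
  · rw [wm_res b.t] at hf ⊢
    rw [b.t.inv_res] at hH
    exact o.ka.mul (X.res u) C (Z.res u) p hX (fac_res b.t X u hC) (pair_res u hp) f H g k hf hH
      hg hk hs
  · rw [wm_res b.t]
    refine o.ka.weak (X.res u) C hX (fac_res b.t X u hC) f hf fun ε hε => ?_
    simp only [b.t.res]
    exact h ε hε

theorem kfB : KfBR := by
  intro b o
  refine ⟨fun X u C hX hC => ?_, fun X u C hX hC => ?_, fun X u C hX hC => ?_,
    fun X u C C' hX hC hC' h => ?_, fun X u C hX hC f hf => ?_, fun X u C hX hC g hg h => ?_,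
    fun X u C Z p hX hC hp k hk ε hε => ?_, fun X u C hX hC f hf h => ?_⟩
  · have h := o.kb.fac (X.res u) C hX (fac_res b.t X u hC)
    rw [← kk_res b.t] at h
    exact ⟨h.le, h.nl, fun n => kk_inv b.t X u n hC⟩
  · rw [kk_res b.t]
    exact o.kb.le (X.res u) C hX (fac_res b.t X u hC)
  · rw [kk_res b.t, b.t.inv_res]
    exact o.kb.inv (X.res u) C hX (fac_res b.t X u hC)
  · rw [kk_res b.t, kk_res b.t]
    exact o.kb.mono (X.res u) C C' hX (fac_res b.t X u hC) (fac_res b.t X u hC') h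
  · rw [kk_res b.t, wm_res b.t]
    exact o.kb.wm (X.res u) C hX (fac_res b.t X u hC) f hf
  · rw [kk_res b.t]
    exact o.kb.mem (X.res u) C hX (fac_res b.t X u hC) g hg fun f hf =>
      h f ((wm_res b.t X u C f).2 hf)
  · rw [kk_res b.t] at hk
    rw [b.t.inv_res]
    exact o.kb.span (X.res u) C (Z.res u) p hX (fac_res b.t X u hC) (pair_res u hp) k hk ε hε
  · rw [wm_res b.t]
    refine o.kb.lin (X.res u) C hX (fac_res b.t X u hC) f hf fun ε hε => ?_
    obtain ⟨n, a, ha, h'⟩ := h ε hε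
    exact ⟨n, a, fun i => (wm_res b.t X u C _).1 (ha i), h'⟩

end T4x

end
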