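import Pool.Agent.MP_154433_an.t4.Spec

/-! Rows `Nice0` and `Lim` for commuting maps: nice models and inverse limits. -/

set_option autoImplicit false
set_option linter.unusedVariables false
set_option warn.classDefReducibility false

open MeasureTheory ProbabilityTheory Filter Topology Function Finset ComplexConjugate
open scoped BigOperators

noncomputable section

namespace T4x

open T3x

variable [Grp]

namespace LimRow

theorem int_bdd {Ω : Type} [MeasurableSpace Ω] (μ : Measure Ω) [IsFiniteMeasure μ] {f : Ω → ℂ}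
    (hf : Measurable f) {C : ℝ} (hC : ∀ x, ‖f x‖ ≤ C) : Integrable f μ :=
  Integrable.of_bound hf.aestronglyMeasurable C (Eventually.of_forall hC)

theorem int_pos {Ω : Type} [MeasurableSpace Ω] (μ : Measure Ω) {f : Ω → ℂ}
    (hf : Integrable f μ) (h : ∀ x, 0 ≤ (f x).re ∧ (f x).im = 0) :
    0 ≤ (∫ x, f x ∂μ).re ∧ (∫ x, f x ∂μ).im = 0 := by
  have h1 := integral_re hf
  have h2 := integral_im hf
  simp only [RCLike.re_to_complex, RCLike.im_to_complex] at h1 h2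
  refine ⟨?_, ?_⟩
  · rw [← h1]; exact integral_nonneg fun x => (h x).1
  · rw [← h2]; simp [fun x => (h x).2]

theorem salg_bdd (Ω : Type) [MeasurableSpace Ω] : SAlg (Bdd Ω) where
  const c := ⟨measurable_const, ‖c‖, fun _ => le_rfl⟩
  add := by
    rintro F ⟨hF, C, hC⟩ G ⟨hG, D, hD⟩
    exact ⟨hF.add hG, C + D, fun x => (norm_add_le _ _).trans (add_le_add (hC x) (hD x))⟩
  mul := by
    rintro F ⟨hF, C, hC⟩ G ⟨hG, D, hD⟩
    refine ⟨hF.mul hG, C * D, fun x => ?_⟩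
    rw [norm_mul]
    exact mul_le_mul (hC x) (hD x) (norm_nonneg _) ((norm_nonneg _).trans (hC x))
  cj := by
    rintro F ⟨hF, C, hC⟩
    exact ⟨Complex.continuous_conj.measurable.comp hF, C, fun x => by simpa using hC x⟩
  bdd F hF := hF.2

theorem hat_meas {S : Type} {A : Set (S → ℂ)} {Λ : (S → ℂ) → ℂ} {t : Γ → S → S} {W : Sys}
    {hat : (S → ℂ) → W.X → ℂ} (R : Realz A Λ t W hat) {F : S → ℂ} (hF : F ∈ A) :
    Measurable (hat F) := by
  have h : MeasurableSpace.comap (hat F) inferInstance ≤ W.ms := by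
    rw [R.gn]
    exact le_iSup₂_of_le (f := fun F (_ : F ∈ A) =>
      MeasurableSpace.comap (hat F) (inferInstance : MeasurableSpace ℂ)) F hF le_rfl
  exact Measurable.of_comap_le h

/-- functions at distance zero have the same transform -/
theorem hat_congr {S : Type} {A : Set (S → ℂ)} {Λ : (S → ℂ) → ℂ} {t : Γ → S → S} {W : Sys}
    {hat : (S → ℂ) → W.X → ℂ} (hA : SAlg A) (R : Realz A Λ t W hat) {F G : S → ℂ} (hF : F ∈ A)
    (hG : G ∈ A)
    (h0 : Λ (fun s => (F s + (-1) * G s) * conj (F s + (-1) * G s)) = 0) :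
    hat F =ᵐ[W.μ] hat G := by
  have hm : (fun s => (-1) * G s) ∈ A := hA.mul _ (hA.const (-1)) _ hG
  have hd : (fun s => F s + (-1) * G s) ∈ A := hA.add _ hF _ hm
  have hc := hA.cj _ hd
  have hH := hA.mul _ hd _ hc
  have e1 : ∀ w, hat (fun s => F s + (-1) * G s) w = hat F w - hat G w := by
    intro w
    have a1 := (R.ch w).add _ hF _ hm
    have a2 := (R.ch w).mul _ (hA.const (-1)) _ hG
    have a3 := (R.ch w).const (-1)
    rw [a1, a2, a3]; ring
  have e2 : ∀ w, hat (fun s => (F s + (-1) * G s) * conj (F s + (-1) * G s)) w =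
      ((‖hat F w - hat G w‖ ^ 2 : ℝ) : ℂ) := by
    intro w
    have a1 := (R.ch w).mul _ hd _ hc
    have a2 := (R.ch w).cj _ hd
    rw [a1, a2, e1, Complex.mul_conj, Complex.normSq_eq_norm_sq]
  have hI := R.int _ hH
  rw [h0] at hI
  simp only [e2] at hI
  rw [integral_complex_ofReal] at hI
  have hI' : ∫ w, ‖hat F w - hat G w‖ ^ 2 ∂W.μ = 0 := by exact_mod_cast hI
  obtain ⟨C, hC⟩ := hA.bdd _ hd
  have hb : ∀ w, ‖hat F w - hat G w‖ ≤ C := fun w => by
    rw [← e1]; exact (R.ch w).bdd _ hd C hC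
  have hmeas : Measurable fun w => ‖hat F w - hat G w‖ ^ 2 :=
    (((hat_meas R hF).sub (hat_meas R hG)).norm).pow_const 2
  have hint : Integrable (fun w => ‖hat F w - hat G w‖ ^ 2) W.μ :=
    Integrable.of_bound hmeas.aestronglyMeasurable (C ^ 2) (Eventually.of_forall fun w => by
      rw [Real.norm_eq_abs, abs_of_nonneg (by positivity)]
      exact pow_le_pow_left₀ (norm_nonneg _) (hb w) 2)
  have := (integral_eq_zero_iff_of_nonneg (fun w => by positivity) hint).1 hI'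
  filter_upwards [this] with w hw
  have : ‖hat F w - hat G w‖ = 0 := by simpa using hw
  exact sub_eq_zero.1 (norm_eq_zero.1 this)

/-- two probability measures that agree on a generating algebra are equal -/
theorem meas_ext (b : Bas) {Ω : Type} {m0 : MeasurableSpace Ω} (ν1 ν2 : Measure Ω)
    [IsProbabilityMeasure ν1] [IsProbabilityMeasure ν2] (T : Set (Ω → ℂ))
    (hb : ∀ φ ∈ T, φ ∈ Bdd Ω) (h1 : (fun _ => 1) ∈ T)
    (hm : ∀ φ ∈ T, ∀ φ' ∈ T, (fun x => φ x * φ' x) ∈ T)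
    (hc : ∀ φ ∈ T, (fun x => conj (φ x)) ∈ T) (hg : m0 ≤ gen T id)
    (h : ∀ φ ∈ T, ∫ x, φ x ∂ν1 = ∫ x, φ x ∂ν2) : ν1 = ν2 := by
  set κ : Measure Ω := (2⁻¹ : ENNReal) • (ν1 + ν2) with hκ
  have : IsProbabilityMeasure κ := ⟨by
    simp only [hκ, Measure.smul_apply, Measure.add_apply, measure_univ, smul_eq_mul]
    rw [one_add_one_eq_two, ENNReal.inv_mul_cancel (by simp) (by simp)]⟩
  have hs : ν1 + ν2 ≪ κ := Measure.absolutelyContinuous_smul (by simp)
  have a1 : ν1 ≪ κ := (Measure.absolutelyContinuous_of_le (Measure.le_add_right le_rfl)).trans hs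
  have a2 : ν2 ≪ κ := (Measure.absolutelyContinuous_of_le (Measure.le_add_left le_rfl)).trans hs
  have i1 : Integrable (fun x => (((ν1.rnDeriv κ x).toReal : ℝ) : ℂ)) κ :=
    (Measure.integrable_toReal_rnDeriv (μ := ν1) (ν := κ)).ofReal
  have i2 : Integrable (fun x => (((ν2.rnDeriv κ x).toReal : ℝ) : ℂ)) κ :=
    (Measure.integrable_toReal_rnDeriv (μ := ν2) (ν := κ)).ofReal
  have hz := b.d.perp κ T hb ⟨_, h1, EventuallyEq.rfl⟩
    (fun φ hφ φ' hφ' => ⟨_, hm φ hφ φ' hφ', EventuallyEq.rfl⟩)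
    (fun φ hφ => ⟨_, hc φ hφ, EventuallyEq.rfl⟩)
    (fun x => (((ν1.rnDeriv κ x).toReal : ℝ) : ℂ) - (((ν2.rnDeriv κ x).toReal : ℝ) : ℂ))
    (i1.sub i2) (by
      intro φ hφ
      obtain ⟨hφm, C, hC⟩ := hb φ hφ
      have j1 := i1.mul_bdd hφm.aestronglyMeasurable (Eventually.of_forall hC)
      have j2 := i2.mul_bdd hφm.aestronglyMeasurable (Eventually.of_forall hC)
      simp only [sub_mul]
      rw [integral_sub j1 j2]
      have k1 := integral_rnDeriv_smul (f := φ) a1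
      have k2 := integral_rnDeriv_smul (f := φ) a2
      simp only [Complex.real_smul] at k1 k2
      rw [k1, k2, h φ hφ, sub_self])
  have hle : gen T id ⊔ nul κ = m0 := by
    refine le_antisymm (sup_le ?_ (b.a.nul_le κ)) (hg.trans le_sup_left)
    refine iSup₂_le fun φ hφ => ?_
    exact (hb φ hφ).1.comap_le
  rw [hle] at hz
  have hself := condExp_of_aestronglyMeasurable' (m := m0) (μ := κ) le_rfl
    (i1.sub i2).aestronglyMeasurable (i1.sub i2)
  have hd : ν1.rnDeriv κ =ᵐ[κ] ν2.rnDeriv κ := by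
    filter_upwards [hz, hself, Measure.rnDeriv_lt_top ν1 κ, Measure.rnDeriv_lt_top ν2 κ] with
      x h1 h2 h3 h4
    have h5 : (((ν1.rnDeriv κ x).toReal : ℝ) : ℂ) - (((ν2.rnDeriv κ x).toReal : ℝ) : ℂ) = 0 :=
      h2.symm.trans h1
    have h6 : (ν1.rnDeriv κ x).toReal = (ν2.rnDeriv κ x).toReal := by
      exact_mod_cast sub_eq_zero.1 h5
    exact (ENNReal.toReal_eq_toReal_iff' h3.ne h4.ne).1 h6
  rw [← Measure.withDensity_rnDeriv_eq _ _ a1, ← Measure.withDensity_rnDeriv_eq _ _ a2,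
    withDensity_congr_ae hd]

/-- maps that agree on the generating functions pull back the same sets -/
theorem keq_gen {S Ω Ω' : Type} {m0 : MeasurableSpace Ω} (μ : Measure Ω) (A : Set (S → ℂ))
    (hat : (S → ℂ) → Ω' → ℂ) (p p' : Ω → Ω') (h : ∀ F ∈ A, ∀ x, hat F (p x) = hat F (p' x)) :
    KEq μ (gen A hat) p p' := by
  let M : MeasurableSpace Ω' :=
    { MeasurableSet' := fun B => p ⁻¹' B = p' ⁻¹' B
      measurableSet_empty := rfl
      measurableSet_compl := fun B hB => by simp only [Set.preimage_compl, hB]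
      measurableSet_iUnion := fun f hf => by simp only [Set.preimage_iUnion, hf] }
  have hle : gen A hat ≤ M := by
    refine iSup₂_le fun F hF => ?_
    rintro B ⟨s, -, rfl⟩
    show p ⁻¹' (hat F ⁻¹' s) = p' ⁻¹' (hat F ⁻¹' s)
    ext x
    simp only [Set.mem_preimage, h F hF x]
  intro B hB
  have : p ⁻¹' B = p' ⁻¹' B := hle B hB
  rw [this]

end LimRow

open LimRow in
theorem nice0 : Nice0R := by
  intro b hR X
  obtain ⟨W, hat, R⟩ := hR X.X (Bdd X.X) (fun F => ∫ x, F x ∂X.μ) X.Tz (salg_bdd _)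
    (by
      rintro F ⟨hF, C, hC⟩ G ⟨hG, D, hD⟩
      exact integral_add (int_bdd _ hF hC) (int_bdd _ hG hD))
    (fun c F _ => integral_const_mul c F) (by simp)
    (by
      rintro F ⟨hF, C, hC⟩ h
      exact int_pos _ (int_bdd _ hF hC) h)
    X.zero X.add
    (by
      rintro n F ⟨hF, C, hC⟩
      exact ⟨hF.comp (X.mp n).measurable, C, fun x => hC _⟩)
    (fun n F _ => (show MeasurePreserving (X.eq n) X.μ X.μ from X.mp n).integral_comp' F)
  have hx : ∀ x : X.X, ∃ w, ∀ F ∈ Bdd X.X, hat F w = F x := fun x =>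
    R.all (fun F => F x) ⟨fun _ => rfl, fun _ _ _ _ => rfl, fun _ _ _ _ => rfl, fun _ _ => rfl,
      fun _ _ C hC => hC x⟩
  choose e he using hx
  have hem : Measurable e := by
    refine Measurable.of_comap_le ?_
    rw [R.gn]
    unfold gen
    simp only [MeasurableSpace.comap_iSup, MeasurableSpace.comap_comp]
    refine iSup₂_le fun F hF => ?_
    have : hat F ∘ e = F := funext fun x => he x F hF
    rw [this]
    exact hF.1.comap_le
  have hbd : ∀ F ∈ Bdd X.X, hat F ∈ Bdd W.X := fun F hF => by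
    obtain ⟨C, hC⟩ := hF.2
    exact ⟨hat_meas R hF, C, fun w => (R.ch w).bdd F hF C hC⟩
  have sa := salg_bdd X.X
  refine ⟨W, e, R.nice, ⟨⟨hem, ?_⟩, ?_⟩, fun f hf => ⟨hat f, hbd f hf, fun x => he x f hf⟩⟩
  · have := Measure.isProbabilityMeasure_map (μ := X.μ) hem.aemeasurable
    refine meas_ext b _ _ (hat '' Bdd X.X) ?_ ?_ ?_ ?_ ?_ ?_
    · rintro _ ⟨F, hF, rfl⟩
      exact hbd F hF
    · exact ⟨fun _ => 1, sa.const 1, funext fun w => (R.ch w).const 1⟩
    · rintro _ ⟨F, hF, rfl⟩ _ ⟨G, hG, rfl⟩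
      exact ⟨_, sa.mul F hF G hG, funext fun w => (R.ch w).mul F hF G hG⟩
    · rintro _ ⟨F, hF, rfl⟩
      exact ⟨_, sa.cj F hF, funext fun w => (R.ch w).cj F hF⟩
    · refine R.gn.le.trans (iSup₂_le fun F hF => ?_)
      exact le_iSup₂_of_le (f := fun φ (_ : φ ∈ hat '' Bdd X.X) =>
        MeasurableSpace.comap (id φ) (inferInstance : MeasurableSpace ℂ)) (hat F) ⟨F, hF, rfl⟩
        le_rfl
    · rintro _ ⟨F, hF, rfl⟩
      rw [integral_map hem.aemeasurable (hat_meas R hF).aestronglyMeasurable, R.int F hF]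
      simp only [he _ F hF]
  · intro n B hB
    refine keq_gen X.μ (Bdd X.X) hat (e ∘ X.Tz n) (W.Tz n ∘ e) (fun F hF x => ?_) B
      (R.gn.le B hB)
    have hT : (fun s => F (X.Tz n s)) ∈ Bdd X.X := by
      obtain ⟨hF, C, hC⟩ := hF
      exact ⟨hF.comp (X.mp n).measurable, C, fun x => hC _⟩
    show hat F (e (X.Tz n x)) = hat F (W.Tz n (e x))
    rw [← R.eqv n F hF, he _ F hF, he _ _ hT]

namespace LimRow

variable {X : ℕ → Sys} (p : ∀ k, (X (k + 1)).X → (X k).X)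

/-- bounded measurable families that are compatible from level `k0` on -/
structure Cp (k0 : ℕ) (F : (Σ k, (X k).X) → ℂ) : Prop where
  ms : ∀ k, Measurable fun x : (X k).X => F ⟨k, x⟩
  bd : ∃ C : ℝ, ∀ s, ‖F s‖ ≤ C
  cp : ∀ k, k0 ≤ k → (fun x => F ⟨k + 1, x⟩) =ᵐ[(X (k + 1)).μ] fun x => F ⟨k, p k x⟩

def Al : Set ((Σ k, (X k).X) → ℂ) := {F | ∃ k0, Cp p k0 F}

def Lam (F : (Σ k, (X k).X) → ℂ) : ℂ := limUnder atTop fun k => ∫ x, F ⟨k, x⟩ ∂(X k).μ

def tt (X : ℕ → Sys) (n : Γ) (s : Σ k, (X k).X) : Σ k, (X k).X := ⟨s.1, (X s.1).Tz n s.2⟩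

variable {p}

theorem Cp.mono {k0 k1 : ℕ} {F : (Σ k, (X k).X) → ℂ} (h : Cp p k0 F) (hk : k0 ≤ k1) :
    Cp p k1 F := ⟨h.ms, h.bd, fun k hk' => h.cp k (hk.trans hk')⟩

theorem Cp.int {k0 : ℕ} {F : (Σ k, (X k).X) → ℂ} (h : Cp p k0 F) (k : ℕ) :
    Integrable (fun x : (X k).X => F ⟨k, x⟩) (X k).μ := by
  obtain ⟨C, hC⟩ := h.bd
  exact int_bdd _ (h.ms k) fun x => hC _

theorem Cp.const (k0 : ℕ) (c : ℂ) : Cp p k0 fun _ => c :=
  ⟨fun _ => measurable_const, ⟨‖c‖, fun _ => le_rfl⟩, fun _ _ => EventuallyEq.rfl⟩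

theorem Cp.add {k0 : ℕ} {F G : (Σ k, (X k).X) → ℂ} (hF : Cp p k0 F) (hG : Cp p k0 G) :
    Cp p k0 fun s => F s + G s := by
  obtain ⟨C, hC⟩ := hF.bd
  obtain ⟨D, hD⟩ := hG.bd
  refine ⟨fun k => (hF.ms k).add (hG.ms k),
    ⟨C + D, fun x => (norm_add_le _ _).trans (add_le_add (hC x) (hD x))⟩, fun k hk => ?_⟩
  filter_upwards [hF.cp k hk, hG.cp k hk] with x h1 h2
  rw [h1, h2]

theorem Cp.mul {k0 : ℕ} {F G : (Σ k, (X k).X) → ℂ} (hF : Cp p k0 F) (hG : Cp p k0 G) :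
    Cp p k0 fun s => F s * G s := by
  obtain ⟨C, hC⟩ := hF.bd
  obtain ⟨D, hD⟩ := hG.bd
  refine ⟨fun k => (hF.ms k).mul (hG.ms k), ⟨C * D, fun x => ?_⟩, fun k hk => ?_⟩
  · rw [norm_mul]
    exact mul_le_mul (hC x) (hD x) (norm_nonneg _) ((norm_nonneg _).trans (hC x))
  · filter_upwards [hF.cp k hk, hG.cp k hk] with x h1 h2
    rw [h1, h2]

theorem Cp.cj {k0 : ℕ} {F : (Σ k, (X k).X) → ℂ} (hF : Cp p k0 F) :
    Cp p k0 fun s => conj (F s) := by
  obtain ⟨C, hC⟩ := hF.bd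
  refine ⟨fun k => Complex.continuous_conj.measurable.comp (hF.ms k),
    ⟨C, fun x => by simpa using hC x⟩, fun k hk => ?_⟩
  filter_upwards [hF.cp k hk] with x h1
  rw [h1]

theorem salg_al : SAlg (Al p) where
  const c := ⟨0, Cp.const 0 c⟩
  add := by
    rintro F ⟨k, hF⟩ G ⟨l, hG⟩
    exact ⟨max k l, (hF.mono (le_max_left _ _)).add (hG.mono (le_max_right _ _))⟩
  mul := by
    rintro F ⟨k, hF⟩ G ⟨l, hG⟩
    exact ⟨max k l, (hF.mono (le_max_left _ _)).mul (hG.mono (le_max_right _ _))⟩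
  cj := by
    rintro F ⟨k, hF⟩
    exact ⟨k, hF.cj⟩
  bdd := by
    rintro F ⟨k, hF⟩
    exact hF.bd

theorem Cp.lam (hp : ∀ k, Emb (X (k + 1)) (X k) (p k)) {k0 : ℕ} {F : (Σ k, (X k).X) → ℂ}
    (hF : Cp p k0 F) : Lam F = ∫ x, F ⟨k0, x⟩ ∂(X k0).μ := by
  have h : ∀ k, k0 ≤ k → ∫ x, F ⟨k, x⟩ ∂(X k).μ = ∫ x, F ⟨k0, x⟩ ∂(X k0).μ := by
    intro k hk
    induction k, hk using Nat.le_induction with
    | base => rfl
    | succ k hk ih =>
      rw [integral_congr_ae (hF.cp k hk), ← ih, ← (hp k).mp.map_eq,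
        integral_map (hp k).mp.measurable.aemeasurable (hF.ms k).aestronglyMeasurable]
  refine Tendsto.limUnder_eq ?_
  exact tendsto_const_nhds.congr' ((eventually_ge_atTop k0).mono fun k hk => (h k hk).symm)

theorem comm_T (b : Bas) {Y Z : Sys} {q : Y.X → Z.X} (hq : Emb Y Z q) {f : Z.X → ℂ}
    (hf : Measurable f) (n : Γ) :
    (fun y => f (q (Y.Tz n y))) =ᵐ[Y.μ] fun y => f (Z.Tz n (q y)) :=
  b.a.keq_fun Z.ms Y.μ Z.μ (q ∘ Y.Tz n) (Z.Tz n ∘ q) f (hq.mp.comp (Y.mp n))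
    ((Z.mp n).comp hq.mp) (hq.eqv n) hf.aestronglyMeasurable

theorem Cp.fwd (b : Bas) (hp : ∀ k, Emb (X (k + 1)) (X k) (p k)) {k0 : ℕ}
    {F : (Σ k, (X k).X) → ℂ} (hF : Cp p k0 F) (n : Γ) : Cp p k0 fun s => F (tt X n s) := by
  obtain ⟨C, hC⟩ := hF.bd
  refine ⟨fun k => (hF.ms k).comp ((X k).mp n).measurable, ⟨C, fun s => hC _⟩, fun k hk => ?_⟩
  have h1 := ((X (k + 1)).mp n).quasiMeasurePreserving.ae_eq_comp (hF.cp k hk)
  exact h1.trans (comm_T b (hp k) (hF.ms k) n)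

variable (p)

/-- the projection to level `k`, with a fixed point below -/
def rr (k : ℕ) (x0 : (X k).X) : ∀ j, (X j).X → (X k).X
  | 0 => if h : 0 = k then fun x => h ▸ x else fun _ => x0
  | j + 1 => if h : j + 1 = k then fun x => h ▸ x else fun x => rr k x0 j (p j x)

theorem rr_self (k : ℕ) (x0 x : (X k).X) : rr p k x0 k x = x := by
  cases k with
  | zero => simp [rr]
  | succ k => simp [rr]

theorem rr_succ (k : ℕ) (x0 : (X k).X) (j : ℕ) (h : k ≤ j) (x : (X (j + 1)).X) :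
    rr p k x0 (j + 1) x = rr p k x0 j (p j x) := by
  rw [rr, dif_neg (by omega)]

theorem rr_meas (hp : ∀ k, Measurable (p k)) (k : ℕ) (x0 : (X k).X) (j : ℕ) :
    Measurable (rr p k x0 j) := by
  induction j with
  | zero =>
    rw [rr]
    split_ifs with h
    · subst h; exact measurable_id
    · exact measurable_const
  | succ j ih =>
    rw [rr]
    split_ifs with h
    · subst h; exact measurable_id
    · exact ih.comp (hp j)

variable {p}

theorem cp_up (hp : ∀ k, Emb (X (k + 1)) (X k) (p k)) (k : ℕ) (x0 : (X k).X) {f : (X k).X → ℂ}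
    (hf : f ∈ Bdd (X k).X) : Cp p k fun s => f (rr p k x0 s.1 s.2) := by
  obtain ⟨hf, C, hC⟩ := hf
  refine ⟨fun j => hf.comp (rr_meas p (fun k => (hp k).mp.measurable) k x0 j),
    ⟨C, fun s => hC _⟩, fun j hj => Eventually.of_forall fun x => ?_⟩
  simp only [rr_succ p k x0 j hj]

theorem cp_congr (hp : ∀ k, Emb (X (k + 1)) (X k) (p k)) {W : Sys}
    {hat : ((Σ k, (X k).X) → ℂ) → W.X → ℂ} (R : Realz (Al p) Lam (tt X) W hat) {k : ℕ}
    {F G : (Σ k, (X k).X) → ℂ} (hF : Cp p k F) (hG : Cp p k G)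
    (h : ∀ x, F ⟨k, x⟩ = G ⟨k, x⟩) : hat F =ᵐ[W.μ] hat G := by
  refine hat_congr salg_al R ⟨k, hF⟩ ⟨k, hG⟩ ?_
  have hd := hF.add ((Cp.const k (-1)).mul hG)
  rw [(hd.mul hd.cj).lam hp]
  simp [h]

end LimRow

open LimRow in
theorem limS : LimR := by
  intro b hR X p hN hp
  obtain ⟨W, hat, R⟩ := hR (Σ k, (X k).X) (Al p) Lam (tt X) salg_al
    (by
      rintro F ⟨k, hF⟩ G ⟨l, hG⟩
      have hF' := hF.mono (le_max_left k l)
      have hG' := hG.mono (le_max_right k l)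
      rw [(hF'.add hG').lam hp, hF'.lam hp, hG'.lam hp]
      exact integral_add (hF'.int _) (hG'.int _))
    (by
      rintro c F ⟨k, hF⟩
      rw [((Cp.const k c).mul hF).lam hp, hF.lam hp]
      exact integral_const_mul c _)
    (by rw [(Cp.const (p := p) 0 1).lam hp]; simp)
    (by
      rintro F ⟨k, hF⟩ h
      rw [hF.lam hp]
      exact int_pos _ (hF.int k) fun x => h _)
    (fun s => congrArg (Sigma.mk s.1) ((X s.1).zero s.2))
    (fun n m s => congrArg (Sigma.mk s.1) ((X s.1).add n m s.2))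
    (by
      rintro n F ⟨k, hF⟩
      exact ⟨k, hF.fwd b hp n⟩)
    (by
      rintro n F ⟨k, hF⟩
      rw [(hF.fwd b hp n).lam hp, hF.lam hp]
      exact (show MeasurePreserving ((X k).eq n) (X k).μ (X k).μ from (X k).mp n).integral_comp'
        fun x => F ⟨k, x⟩)
  have x0 : ∀ k, (X k).X := fun k => Classical.choice (nonempty_of_isProbabilityMeasure (X k).μ)
  have hu : ∀ k, ∀ f ∈ Bdd (X k).X, (fun s : Σ k, (X k).X => f (rr p k (x0 k) s.1 s.2)) ∈ Al p :=
    fun k f hf => ⟨k, cp_up hp k (x0 k) hf⟩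
  have he : ∀ k, ∃ e : W.X → (X k).X, MeasurePreserving e W.μ (X k).μ ∧ ∀ f ∈ Bdd (X k).X,
      (fun w => f (e w)) =ᵐ[W.μ] hat fun s => f (rr p k (x0 k) s.1 s.2) := by
    intro k
    refine hN k W.X W.μ (fun f => hat fun s => f (rr p k (x0 k) s.1 s.2)) (fun w => ?_)
      (fun f hf => hat_meas R (hu k f hf)) (fun f hf => ?_)
    · exact ⟨fun c => (R.ch w).const c,
        fun f hf g hg => (R.ch w).add _ (hu k f hf) _ (hu k g hg),
        fun f hf g hg => (R.ch w).mul _ (hu k f hf) _ (hu k g hg),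
        fun f hf => (R.ch w).cj _ (hu k f hf),
        fun f hf C hC => (R.ch w).bdd _ (hu k f hf) C fun s => hC _⟩
    · rw [R.int _ (hu k f hf), (cp_up hp k (x0 k) hf).lam hp]
      simp only [rr_self]
  choose e hmp he using he
  refine ⟨W, e, R.nice, fun k => ⟨hmp k, fun n => ?_⟩, fun k => ?_, ?_⟩
  · refine b.a.keq_of _ _ _ _ fun f hf h1 => ?_
    have hf1 : f ∈ Bdd (X k).X := ⟨hf, 1, h1⟩
    have hf2 : (fun x => f ((X k).Tz n x)) ∈ Bdd (X k).X :=
      ⟨hf.comp ((X k).mp n).measurable, 1, fun x => h1 _⟩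
    have e1 := (W.mp n).quasiMeasurePreserving.ae_eq_comp (he k f hf1)
    have e2 := he k _ hf2
    have e3 := cp_congr hp R ((cp_up hp k (x0 k) hf1).fwd b hp n) (cp_up hp k (x0 k) hf2)
      (fun x => by
        show f (rr p k (x0 k) k ((X k).Tz n x)) = f ((X k).Tz n (rr p k (x0 k) k x))
        simp only [rr_self])
    filter_upwards [e1, e2, e3] with w a1 a2 a3
    simp only [comp_apply] at a1 a2 a3 ⊢
    rw [a1, a2, ← a3, ← R.eqv n _ (hu k f hf1)]
  · refine b.a.keq_of _ _ _ _ fun f hf h1 => ?_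
    have hf1 : f ∈ Bdd (X k).X := ⟨hf, 1, h1⟩
    have hf2 : (fun x => f (p k x)) ∈ Bdd (X (k + 1)).X :=
      ⟨hf.comp (hp k).mp.measurable, 1, fun x => h1 _⟩
    have e3 := cp_congr hp R (cp_up hp (k + 1) (x0 (k + 1)) hf2)
      ((cp_up hp k (x0 k) hf1).mono (Nat.le_succ k))
      (fun x => by
        show f (p k (rr p (k + 1) (x0 (k + 1)) (k + 1) x)) = f (rr p k (x0 k) (k + 1) x)
        rw [rr_succ p k (x0 k) k le_rfl, rr_self, rr_self])
    exact ((he (k + 1) _ hf2).trans e3).trans (he k f hf1).symm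
  · refine R.gn.le.trans (iSup₂_le ?_)
    rintro F ⟨k, hF⟩
    refine le_iSup_of_le k ?_
    have hf1 : (fun x => F ⟨k, x⟩) ∈ Bdd (X k).X := by
      obtain ⟨C, hC⟩ := hF.bd
      exact ⟨hF.ms k, C, fun x => hC _⟩
    have e3 := cp_congr hp R (cp_up hp k (x0 k) hf1) hF (fun x => by simp only [rr_self])
    have e4 := (he k _ hf1).trans e3
    rintro _ ⟨s, hs, rfl⟩
    refine (b.a.mem _ W.μ (hmp k).measurable.comap_le _).2
      ⟨hat_meas R ⟨k, hF⟩ hs, e k ⁻¹' ((fun x => F ⟨k, x⟩) ⁻¹' s), ⟨_, hF.ms k hs, rfl⟩, ?_⟩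
    filter_upwards [e4] with w hw
    show (hat F w ∈ s) = (F ⟨k, e k w⟩ ∈ s)
    rw [← hw]

end T4x

end
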