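import Pool.Agent.MP_154433_an.t4.Spec

/-! Row Met: mean ergodic theorem and correlations for commuting maps. -/

set_option autoImplicit false
set_option linter.unusedVariables false
set_option warn.classDefReducibility false

open MeasureTheory ProbabilityTheory Filter Topology Function Finset ComplexConjugate
open scoped BigOperators
open Fib27 (BM sup pr Oc Orow F23 LInd Mem)

noncomputable section

namespace T4x

open T3x

namespace Met

theorem int_comp {Ω : Type} {m : MeasurableSpace Ω} {μ : Measure Ω} {p : Ω → Ω}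
    (h : MeasurePreserving p μ μ) {f : Ω → ℂ} (hf : BM μ m f) :
    ∫ x, f (p x) ∂μ = ∫ y, f y ∂μ := by
  conv_rhs => rw [← h.map_eq]
  rw [integral_map h.measurable.aemeasurable (by rw [h.map_eq]; exact hf.1)]

theorem bm_comp {Ω : Type} {m : MeasurableSpace Ω} {μ : Measure Ω} {p : Ω → Ω}
    (h : MeasurePreserving p μ μ) {f : Ω → ℂ} (hf : BM μ m f) : BM μ m fun x => f (p x) := by
  obtain ⟨h1, C, hC⟩ := hf
  exact ⟨h1.comp_measurePreserving h, C, h.quasiMeasurePreserving.ae hC⟩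

theorem av_le (ν : Wt) (M : ℕ) (φ : ℤ → ℂ) (c : ℝ) (h : ∀ d, ‖φ d‖ ≤ c) : ‖ν.av M φ‖ ≤ c := by
  refine (norm_sum_le_of_le _ (n := fun d => ν.w M d * c) fun d _ => ?_).trans ?_
  · rw [norm_smul, Real.norm_of_nonneg (ν.nn M d)]
    exact mul_le_mul_of_nonneg_left (h d) (ν.nn M d)
  · rw [← sum_mul, ν.one, one_mul]

theorem av_sub (ν : Wt) (M : ℕ) (φ : ℤ → ℂ) (c : ℂ) :
    (ν.av M fun d => φ d - c) = ν.av M φ - c := by
  simp only [Wt.av, smul_sub, sum_sub_distrib]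
  rw [← sum_smul, ν.one, one_smul]

theorem bm_av {Ω : Type} {m : MeasurableSpace Ω} {μ : Measure Ω} (ν : Wt) (M : ℕ)
    {F : ℤ → Ω → ℂ} (h : ∀ d, AEStronglyMeasurable (F d) μ) {C : ℝ}
    (hC : ∀ d, ∀ᵐ x ∂μ, ‖F d x‖ ≤ C) :
    AEStronglyMeasurable (fun x => ν.av M fun d => F d x) μ ∧
      ∀ᵐ x ∂μ, ‖ν.av M fun d => F d x‖ ≤ C := by
  refine ⟨Finset.aestronglyMeasurable_fun_sum _ fun d _ => (h d).const_smul (ν.w M d), ?_⟩
  filter_upwards [ae_all_iff.2 hC] with x hx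
  exact av_le ν M _ _ hx

theorem int_av {Ω : Type} {m : MeasurableSpace Ω} {μ : Measure Ω} (ν : Wt) (M : ℕ)
    {F : ℤ → Ω → ℂ} (h : ∀ d, Integrable (F d) μ) :
    (ν.av M fun d => ∫ x, F d x ∂μ) = ∫ x, (ν.av M fun d => F d x) ∂μ := by
  simp only [Wt.av]
  refine Eq.trans ?_ (integral_finsetSum (f := fun d z => ν.w M d • F d z) _
    fun d _ => (h d).smul (ν.w M d)).symm
  exact sum_congr rfl fun d _ => (integral_smul _ _).symm

theorem l1_lim {Ω : Type} {m : MeasurableSpace Ω} {μ : Measure Ω} [IsProbabilityMeasure μ]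
    {a : ℕ → Ω → ℂ} (ha : ∀ M, BM μ m (a M))
    (h : Tendsto (fun M => ∫ x, ‖a M x‖ ^ 2 ∂μ) atTop (𝓝 0)) :
    Tendsto (fun M => ∫ x, ‖a M x‖ ∂μ) atTop (𝓝 0) := by
  have l := h.sqrt
  rw [Real.sqrt_zero] at l
  refine squeeze_zero (fun M => integral_nonneg fun x => norm_nonneg _) (fun M => ?_) l
  refine Real.le_sqrt_of_sq_le ?_
  have v := variance_nonneg (fun z => ‖a M z‖) μ
  rw [variance_eq_sub ((ha M).memLp 2).norm] at v
  exact sub_nonneg.1 v

/-- products of two convergent sequences -/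
theorem mul_lim {Ω : Type} {m : MeasurableSpace Ω} {μ : Measure Ω} [IsProbabilityMeasure μ]
    {a b : ℕ → Ω → ℂ} {a0 b0 : Ω → ℂ} {C : ℝ} (ha : ∀ M, BM μ m (a M)) (hb : ∀ M, BM μ m (b M))
    (ha0 : BM μ m a0) (hb0 : BM μ m b0) (hC : ∀ M, ∀ᵐ x ∂μ, ‖b M x‖ ≤ C)
    (h : Tendsto (fun M => ∫ x, ‖a M x - a0 x‖ ^ 2 ∂μ) atTop (𝓝 0))
    (h' : Tendsto (fun M => ∫ x, ‖b M x - b0 x‖ ^ 2 ∂μ) atTop (𝓝 0)) :
    Tendsto (fun M => ∫ x, a M x * b M x ∂μ) atTop (𝓝 (∫ x, a0 x * b0 x ∂μ)) := by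
  obtain ⟨-, D, hD⟩ := id ha0
  have l := ((l1_lim (fun M => (ha M).sub ha0) h).mul_const C).add
    ((l1_lim (fun M => (hb M).sub hb0) h').const_mul D)
  rw [zero_mul, mul_zero, add_zero] at l
  rw [tendsto_iff_norm_sub_tendsto_zero]
  refine squeeze_zero (fun M => norm_nonneg _) (fun M => ?_) l
  have i1 := (((ha M).sub ha0).integrable.norm).mul_const C
  have i2 := (((hb M).sub hb0).integrable.norm).const_mul D
  rw [← integral_sub ((ha M).mul (hb M)).integrable (ha0.mul hb0).integrable,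
    ← integral_mul_const, ← integral_const_mul, ← integral_add i1 i2]
  refine norm_integral_le_of_norm_le (i1.add i2) ?_
  filter_upwards [hC M, hD] with x h1 h2
  have e : a M x * b M x - a0 x * b0 x = (a M x - a0 x) * b M x + a0 x * (b M x - b0 x) := by ring
  rw [e]
  refine (norm_add_le _ _).trans (add_le_add ?_ ?_)
  · rw [norm_mul]
    exact mul_le_mul_of_nonneg_left h1 (norm_nonneg _)
  · rw [norm_mul]
    exact mul_le_mul_of_nonneg_right h2 (norm_nonneg _)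

variable [Grp]

theorem zero (b : Bas) (o : One) {ν : Wt} (erg : ERG ν) (X : Sys) (u : Γ) (f : X.X → ℂ)
    (hf : MemLp f 2 X.μ)
    (h : ∀ g : X.X → ℂ, MemLp g 2 X.μ → (fun x => g (X.Tz u x)) =ᵐ[X.μ] g →
      ∫ x, f x * g x ∂X.μ = 0) :
    Tendsto (fun M => ∫ x, ‖ν.av M fun d => f (X.Tz (d • u) x)‖ ^ 2 ∂X.μ) atTop (𝓝 0) := by
  have l := (o.mix ν erg).zero (X.res u) 1 f hf fun g hg hi => h g hg (by
    rw [b.t.res, one_smul] at hi
    exact hi)
  simp only [b.t.res, one_mul] at l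
  exact l

/-- single averages converge to the projection -/
theorem conv (b : Bas) (o : One) {ν : Wt} (erg : ERG ν) (X : Sys) (u : Γ) {f : X.X → ℂ}
    (hf : BM X.μ X.ms f) :
    Tendsto (fun M => ∫ x, ‖(ν.av M fun d => f (X.Tz (d • u) x)) - (X.μ[f | Inv X {u}]) x‖ ^ 2
      ∂X.μ) atTop (𝓝 0) := by
  have hle := (b.t.finv X {u}).le
  have hP := hf.ce (Inv X {u})
  have hb := hf.sub (hP.mono hle)
  have l := zero b o erg X u (fun x => f x - (X.μ[f | Inv X {u}]) x) (hb.memLp 2) fun g hg hi => by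
    have gm : AEStronglyMeasurable[Inv X {u}] g X.μ :=
      (b.t.inv_iff X {u} g hg.1).2 fun h hh => by
        rw [Set.mem_singleton_iff.1 hh]
        exact hi
    have hI : Integrable (fun x => g x * (f x - (X.μ[f | Inv X {u}]) x)) X.μ :=
      hg.integrable_mul (hb.memLp 2)
    have e : X.μ[fun x => g x * (f x - (X.μ[f | Inv X {u}]) x) | Inv X {u}] =ᵐ[X.μ] fun x =>
        g x * (X.μ[fun x => f x - (X.μ[f | Inv X {u}]) x | Inv X {u}]) x :=
      condExp_bilin_of_aestronglyMeasurable_left (ContinuousLinearMap.mul ℝ ℂ) gm hI hb.integrable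
    simp only [mul_comm _ (g _)]
    rw [← integral_condExp hle, integral_congr_ae e]
    refine integral_eq_zero_of_ae ?_
    filter_upwards [(Fib27.perp_sub_ce hle hf).ce hle hb] with x hx
    rw [hx, mul_zero]
    rfl
  refine l.congr fun M => integral_congr_ae ?_
  have hc : AEStronglyMeasurable[Inv X (AddSubgroup.closure {u} : Set Γ)] (X.μ[f | Inv X {u}])
      X.μ := by
    rw [b.t.inv_cl]
    exact hP.1
  have hi := (b.t.inv_iff X _ _ (hP.mono hle).1).1 hc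
  have hd : ∀ d : ℤ, ∀ᵐ x ∂X.μ,
      (X.μ[f | Inv X {u}]) (X.Tz (d • u) x) = (X.μ[f | Inv X {u}]) x := fun d =>
    hi _ (AddSubgroup.zsmul_mem _ (AddSubgroup.subset_closure (Set.mem_singleton u)) d)
  filter_upwards [ae_all_iff.2 hd] with x hx
  simp only [hx]
  rw [av_sub]

theorem proj (b : Bas) (X : Sys) (v v' : Γ) {f g : X.X → ℂ} (hf : BM X.μ X.ms f)
    (hg : BM X.μ X.ms g) :
    ∫ x, (X.μ[f | Inv X {v}]) x * (X.μ[g | Inv X {v'}]) x ∂X.μ =
      ∫ x, (X.μ[f | Inv X {v, v'}]) x * (X.μ[g | Inv X {v, v'}]) x ∂X.μ := by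
  have h1 := (b.t.finv X {v}).le
  have h2 := (b.t.finv X {v'}).le
  have h3 := (b.t.finv X {v, v'}).le
  have h4 : Inv X {v, v'} ≤ Inv X {v'} := b.t.inv_anti X _ _ (Set.subset_insert _ _)
  have e : X.μ[X.μ[f | Inv X {v}] | Inv X {v'}] =ᵐ[X.μ] X.μ[f | Inv X {v, v'}] :=
    b.t.inv_ce X {v} {v'} f hf
  rw [← Fib27.int_ce_mul h2 ((hf.ce _).mono h1) (hg.ce _),
    Fib27.int_mul_ce h3 (hf.ce _) hg, ← Fib27.int_mul_ce h2 ((hf.ce _).mono h4) hg]
  refine integral_congr_ae ?_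
  filter_upwards [e] with x hx
  rw [hx]

/-- two independent labels -/
theorem two (b : Bas) (o : One) {ν : Wt} (erg : ERG ν) (X : Sys) (v v' : Γ) {f g : X.X → ℂ}
    (hf : BM X.μ X.ms f) (hg : BM X.μ X.ms g) :
    Tendsto (fun M => ν.av M fun d => ν.av M fun d' =>
      ∫ x, f (X.Tz (d • v) x) * g (X.Tz (d' • v') x) ∂X.μ) atTop
      (𝓝 (∫ x, (X.μ[f | Inv X {v, v'}]) x * (X.μ[g | Inv X {v, v'}]) x ∂X.μ)) := by
  have hT : ∀ (n : Γ) {f}, BM X.μ X.ms f → BM X.μ X.ms fun z => f (X.Tz n z) := fun n f hf =>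
    bm_comp (X.mp n) hf
  obtain ⟨-, C, hC⟩ := id hf
  obtain ⟨-, D, hD⟩ := id hg
  have A := fun M => bm_av ν M (F := fun d x => f (X.Tz (d • v) x)) (fun d => (hT _ hf).1)
    fun d => (X.mp (d • v)).quasiMeasurePreserving.ae hC
  have B := fun M => bm_av ν M (F := fun d x => g (X.Tz (d • v') x)) (fun d => (hT _ hg).1)
    fun d => (X.mp (d • v')).quasiMeasurePreserving.ae hD
  have bA : ∀ M, BM X.μ X.ms fun x => ν.av M fun d => f (X.Tz (d • v) x) := fun M =>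
    ⟨(A M).1, C, (A M).2⟩
  have bB : ∀ M, BM X.μ X.ms fun x => ν.av M fun d => g (X.Tz (d • v') x) := fun M =>
    ⟨(B M).1, D, (B M).2⟩
  rw [← proj b X v v' hf hg]
  refine (mul_lim bA bB ((hf.ce _).mono (b.t.finv X {v}).le) ((hg.ce _).mono (b.t.finv X {v'}).le)
    (fun M => (B M).2) (conv b o erg X v hf) (conv b o erg X v' hg)).congr fun M => ?_
  have e1 : ∀ d : ℤ, (ν.av M fun d' => ∫ x, f (X.Tz (d • v) x) * g (X.Tz (d' • v') x) ∂X.μ) =
      ∫ x, f (X.Tz (d • v) x) * (ν.av M fun d' => g (X.Tz (d' • v') x)) ∂X.μ := fun d => by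
    rw [int_av ν M fun d' => ((hT _ hf).mul (hT _ hg)).integrable]
    simp only [Wt.av, mul_sum, mul_smul_comm]
  simp only [e1]
  rw [int_av ν M fun d => ((hT _ hf).mul (bB M)).integrable]
  simp only [Wt.av, sum_mul, smul_mul_assoc]

theorem inv0 (b : Bas) (X : Sys) (u : Γ) : Inv X {0, u} = Inv X {u} := by
  rw [← b.t.inv_cl X {0, u}, AddSubgroup.closure_insert_zero, b.t.inv_cl]

theorem shift (X : Sys) (r r' : Γ) (d d' : ℤ) {f g : X.X → ℂ} (hf : BM X.μ X.ms f)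
    (hg : BM X.μ X.ms g) :
    ∫ x, f (X.Tz (d' • (0 : Γ)) x) * g (X.Tz (d • (r' - r)) x) ∂X.μ =
      ∫ x, f (X.Tz (d • r) x) * g (X.Tz (d • r') x) ∂X.μ := by
  rw [← int_comp (X.mp (d • r)) ((bm_comp (X.mp _) hf).mul (bm_comp (X.mp _) hg))]
  simp only [← X.add, smul_zero, zero_add, ← smul_add, sub_add_cancel]

end Met

variable [Grp]

theorem met : MetR := by
  intro b o X u f hf
  have l := o.met (X.res u) f hf
  simp only [b.t.res, ← b.t.inv_res] at l
  exact l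

open Met in
theorem mix : MixR := by
  intro b o ν erg
  refine ⟨zero b o erg, ?_⟩
  rintro X ⟨r, _ | _⟩ ⟨r', _ | _⟩ f g hf hg
  · have l := two b o erg X 0 (r' - r) hf hg
    rw [inv0 b] at l
    simp only [shift X r r' _ _ hf hg] at l
    exact l
  · have l := two b o erg X r' r hg hf
    rw [Set.pair_comm] at l
    simp only [mul_comm (g _), mul_comm ((X.μ[g | _]) _)] at l
    exact l
  · exact two b o erg X r r' hf hg
  · have l := two b o erg X (r' - r) 0 hg hf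
    rw [Set.pair_comm, inv0 b] at l
    simp only [mul_comm (g _), mul_comm ((X.μ[g | _]) _), shift X r r' _ _ hf hg] at l
    exact l

end T4x

end
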