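import Pool.Agent.MP_154433_an.t3.BasA
import Pool.Agent.MP_154433_an.t3.BasT
import Pool.Agent.MP_154433_an.t3.BasD
import Pool.Agent.MP_154433_an.t3.BasC
import Pool.Agent.MP_154433_an.t3.Met
import Pool.Agent.MP_154433_an.t3.Real
import Pool.Agent.MP_154433_an.t3.RP
import Pool.Agent.MP_154433_an.t3.KfA
import Pool.Agent.MP_154433_an.t3.KfB
import Pool.Agent.MP_154433_an.t3.Rc
import Pool.Agent.MP_154433_an.t3.Sel
import Pool.Agent.MP_154433_an.t3.Apx
import Pool.Agent.MP_154433_an.t3.HGX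
import Pool.Agent.MP_154433_an.t3.GGall
import Pool.Agent.MP_154433_an.t4.Spec

/-! What is taken from the case of one map. -/

set_option autoImplicit false

namespace T4x

theorem bas3 : T3x.Bas := ⟨T3x.basA, T3x.basT T3x.basA, T3x.basD T3x.basA,
  T3x.basC T3x.basA (T3x.basD T3x.basA)⟩

theorem oneX : One :=
  have b := bas3
  have hm := T3x.met b
  have hrp := T3x.rp b (T3x.real b)
  have hka := T3x.kfA b hm hrp
  ⟨b, hm, T3x.mix b hm, hka, T3x.kfB b hm hrp hka⟩

theorem rcX : T3x.Rc := T3x.rc bas3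
theorem selX : T3x.SelS := T3x.sel bas3 rcX
theorem apxX : T3x.ApxS := T3x.apx bas3 rcX
theorem hgxX : T3x.HGXS := T3x.hgx bas3
theorem ggX : T3x.GGS := T3x.ggS bas3

end T4x
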