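import Pool.Agent.MP_154433_an.t4.Spec

/-! Row R2P: two columns and one row. -/

set_option autoImplicit false
set_option linter.unusedSectionVars false
set_option linter.unusedVariables false
set_option warn.classDefReducibility false

open MeasureTheory ProbabilityTheory Filter Topology Function Finset ComplexConjugate
open scoped BigOperators
open Fib27 (BM sup pr Oc Orow F23 LInd Mem)

noncomputable section

namespace T4x

open T3x

variable [Grp]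

namespace R2p

theorem ae_comp {Z X : Sys} {p : Z.X → X.X} (hp : MeasurePreserving p Z.μ X.μ) {f g : X.X → ℂ}
    (h : f =ᵐ[X.μ] g) : (fun z => f (p z)) =ᵐ[Z.μ] fun z => g (p z) :=
  hp.quasiMeasurePreserving.ae_eq_comp h

theorem fact (ha : BasA) {Z X : Sys} {p : Z.X → X.X} (hp : MeasurePreserving p Z.μ X.μ)
    {a : Z.X → ℂ} (h : BM Z.μ (pull Z.μ p X.ms) a) :
    ∃ f : X.X → ℂ, BM X.μ X.ms f ∧ a =ᵐ[Z.μ] fun z => f (p z) := by
  obtain ⟨h1, D, hD⟩ := h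
  obtain ⟨f, h2, h3, h4⟩ := ha.fact X.ms Z.μ p a (max D 0) hp.measurable.comap_le
    (le_max_right _ _) h1 (hD.mono fun x hx => hx.trans (le_max_left _ _))
  exact ⟨f, ⟨h2.stronglyMeasurable.aestronglyMeasurable, _, Eventually.of_forall h3⟩, h4⟩

theorem rep (ha : BasA) {X : Sys} {v : X.X → ℂ} (h : BM X.μ X.ms v) :
    ∃ v' ∈ Bdd X.X, v =ᵐ[X.μ] v' := by
  obtain ⟨h1, D, hD⟩ := h
  obtain ⟨f, h2, h3, h4⟩ := ha.rep X.ms X.μ v (max D 0) (le_max_right _ _) h1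
    (hD.mono fun x hx => hx.trans (le_max_left _ _))
  exact ⟨f, ⟨h2, _, h3⟩, h4⟩

theorem fam_shift (ht : BasT) {X : Sys} {v : X.X → ℂ} (hv : v ∈ Bdd X.X) (s : Slot) :
    (fun z : Lab × X.X => v (X.Tz (rho s z.1) z.2)) ∈ FamS X.ms := by
  obtain ⟨h1, D, hD⟩ := hv
  exact ⟨fun l => h1.comp (ht.mp X (rho s l)).measurable, D, fun z => hD _⟩

theorem bdd_int {X : Sys} {v : X.X → ℂ} (hv : v ∈ Bdd X.X) : Integrable v X.μ := by
  obtain ⟨h1, D, hD⟩ := hv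
  exact Integrable.of_bound h1.aestronglyMeasurable D (Eventually.of_forall hD)

/-- a function with conditional mean zero has conditional mean zero in every slot -/
theorem slot_zero (fd : Fd) {ν : Wt} {U : Ultrafilter ℕ} {X : Sys} (L : Ln ν U X) (s : Slot)
    {B : MeasurableSpace X.X} (hB : Fac X B) {v : X.X → ℂ} (hv : BM X.μ X.ms v)
    (h0 : X.μ[v | B] =ᵐ[X.μ] 0) : L.W.μ[fun w => v (L.π s w) | L.shp B] =ᵐ[L.W.μ] 0 := by
  obtain ⟨v', hv', e⟩ := rep fd.a hv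
  have h1 : (fun w => v (L.π s w)) =ᵐ[L.W.μ] L.hat fun z => v' (X.Tz (rho s z.1) z.2) :=
    (ae_comp (L.emb s).mp e).trans (L.slot s v' hv')
  have h0' : X.μ[v' | B] =ᵐ[X.μ] 0 := (condExp_congr_ae e.symm).trans h0
  have h2 := fd.lb.ce L B hB _ (fam_shift fd.t hv' s) (fun _ => 0)
    ⟨fun l => @measurable_const _ _ _ B _, 0, fun z => by simp⟩ fun l => by
      have h3 := fd.t.ce X B (rho s l) v' hB (bdd_int hv')
      have h4 := ae_comp (fd.t.mp X (rho s l)) h0'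
      exact (h3.trans h4).symm
  refine (condExp_congr_ae h1).trans (h2.trans (Eventually.of_forall fun w => ?_))
  exact (L.ch w).const 0

theorem facB2 (fd : Fd) (c : Ctx) : Fac c.W c.B2 :=
  (fd.h.kc c.W _ c.L.nice (fd.lb.fac c.L c.B c.kc.1)).1

theorem facP (fd : Fd) (c : Ctx) (j : c.ι) : Fac c.W (c.P j) :=
  fd.t.fpull c.W c.X _ _ (c.L.emb (c.sl j)) (fd.t.top c.X)

theorem cp_point (fd : Fd) (c : Ctx) (gi : c.GI) (j : c.ι) :
    CP (pull c.W.μ (c.π j) c.X.ms) (pull c.W.μ (c.π j) c.B) c.B2 c.W.μ := by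
  intro a ha
  obtain ⟨f, hf, e⟩ := fact fd.a (c.L.emb (c.sl j)).mp ha
  have hne : ({j} : Finset c.ι) ≠ univ := fun h => by
    have h1 := congrArg Finset.card h
    have h2 := c.three
    rw [card_singleton, card_univ] at h1
    omega
  have h1 := gi.line {j} hne (fun _ => f) fun _ _ => hf
  simp only [prod_singleton] at h1
  have h2 := fd.a.ce_comp c.B c.W.μ c.X.μ (c.π j) f (c.L.emb (c.sl j)).mp c.kc.1.le hf.integrable
  exact (condExp_congr_ae e).trans (h1.trans (h2.symm.trans (condExp_congr_ae e.symm)))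

/-- two columns -/
theorem two_cols (fd : Fd) (c : Ctx) (gi : c.GI) {j k : c.ι} (hjk : j ≠ k) {φ ψ : c.W.X → ℂ}
    (hφ : BM c.W.μ c.W.ms φ) (hψ : BM c.W.μ c.W.ms ψ)
    (h0 : c.W.μ[φ | c.L.shp c.B] =ᵐ[c.W.μ] 0) :
    ∫ x, φ (c.Bc j x) * ψ (c.Bc k x) ∂c.W2.μ = 0 := by
  have hne : ({j, k} : Finset c.ι) ≠ univ := fun h => by
    have h1 := congrArg Finset.card h
    have h2 := c.three
    rw [card_pair hjk, card_univ] at h1
    omega
  have hB2 := facB2 fd c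
  have hD := fd.lb.fac c.L2 c.B2 hB2
  have hci := fd.ld.cind c.L2 c.L c.π c.Bc {j, k} c.B2 (fun i => c.L.emb (c.sl i)) c.lift hB2
    (gi.cline _ hne)
  have hle : ∀ i, pull c.W2.μ (c.Bc i) c.W.ms ≤ c.W2.ms := fun i =>
    fd.a.pull_le c.W.ms c.W2.μ c.W.μ (c.Bc i) (c.lift i).emb.mp le_rfl
  have h1 := fd.a.bm_comp c.W.ms c.W2.μ c.W.μ (c.Bc j) φ (c.lift j).emb.mp hφ
  have h2 := fd.a.bm_comp c.W.ms c.W2.μ c.W.μ (c.Bc k) ψ (c.lift k).emb.mp hψ
  have h3 := fd.c.grp (c.L2.shp c.B2) (fun i => pull c.W2.μ (c.Bc i) c.W.ms) {j, k} {j} {k}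
    c.W2.μ hD.le hle hci (by simp) (by simp) (by simpa using hjk) _ _
    (h1.mono (by rw [Fib27.sup_singleton']; exact le_sup_left))
    (h2.mono (by rw [Fib27.sup_singleton']; exact le_sup_left))
  have h4 := fd.ld.base c.L2 c.L (c.π j) (c.Bc j) c.B c.B2 (c.L.emb (c.sl j)) (c.lift j) c.kc.1 hB2
    ((fd.lb.slot c.L c.B (c.sl j) c.kc.1).trans (fd.h.le c.W _)) (cp_point fd c gi j) _ h1
  have h5 := fd.a.ce_comp (c.L.shp c.B) c.W2.μ c.W.μ (c.Bc j) φ (c.lift j).emb.mp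
    (fd.lb.fac c.L c.B c.kc.1).le hφ.integrable
  have h6 := (c.lift j).emb.mp.quasiMeasurePreserving.ae_eq_comp h0
  rw [← integral_condExp hD.le]
  refine integral_eq_zero_of_ae ?_
  filter_upwards [h3, h4, h5, h6] with x e3 e4 e5 e6
  rw [e3, e4, e5]
  simp only [comp_apply] at e6
  rw [e6]
  simp

end R2p

open R2p in
theorem r2p : R2PR := by
  intro fd c gi q j k h Y u hjk hh hY hu h0
  have hA : MeasurePreserving (c.A q) c.W2.μ c.W.μ := (c.L2.emb (c.sl q)).mp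
  have hπ : ∀ i, MeasurePreserving (c.π i) c.W.μ c.X.μ := fun i => (c.L.emb (c.sl i)).mp
  have hBc : ∀ i, MeasurePreserving (c.Bc i) c.W2.μ c.W.μ := fun i => (c.lift i).emb.mp
  have hP := fd.t.fsup c.W _ _ (facP fd c j) (facP fd c k)
  have hD := fd.lb.fac c.L2 _ hP
  have hcol : ∀ i, c.P i ≤ c.P j ⊔ c.P k →
      pull c.W2.μ (c.Bc i) c.W.ms ≤ c.L2.shp (c.P j ⊔ c.P k) := fun i hi => by
    have := fd.la.shp c.L2 c.L (c.π i) (c.Bc i) c.X.ms _ (c.L.emb (c.sl i)) (c.lift i)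
      (fd.t.top c.X) hP hi
    rwa [fd.lb.top] at this
  have hΦ : BM c.W2.μ (c.L2.shp (c.P j ⊔ c.P k)) fun x => h (c.Bc j x) * Y (c.Bc k x) :=
    ((fd.a.bm_comp c.W.ms c.W2.μ c.W.μ _ h (hBc j) hh).mono (hcol j le_sup_left)).mul
      ((fd.a.bm_comp c.W.ms c.W2.μ c.W.μ _ Y (hBc k) hY).mono (hcol k le_sup_right))
  have hΦ' := hΦ.mono hD.le
  have hu0 := hu.ce (c.P j ⊔ c.P k)
  have hAle := fd.a.pull_le c.W.ms c.W2.μ c.W.μ _ hA le_rfl
  have huA := (fd.a.bm_comp c.W.ms c.W2.μ c.W.μ _ u hA hu).mono hAle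
  have hu0A := (fd.a.bm_comp c.W.ms c.W2.μ c.W.μ _ _ hA (hu0.mono hP.le)).mono hAle
  -- step 1
  have s1 : ∫ x, (u (c.A q x) - (c.W.μ[u | c.P j ⊔ c.P k]) (c.A q x)) *
      (h (c.Bc j x) * Y (c.Bc k x)) ∂c.W2.μ = 0 :=
    Fib27.perp_of_ce hD.le (huA.sub hu0A) (slot_zero fd c.L2 (c.sl q) hP (hu.sub (hu0.mono hP.le))
      ((Fib27.perp_sub_ce hP.le hu).ce hP.le (hu.sub (hu0.mono hP.le)))) _ hΦ
  rw [Fib27.int_sub_mul huA hu0A hΦ', sub_eq_zero] at s1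
  -- step 2
  have hG : ∀ i, c.G q i ≤ c.W2.ms := fun i =>
    fd.a.pull_le c.X.ms c.W2.μ c.X.μ _ ((hπ i).comp hA) le_rfl
  have hPq := facP fd c q
  have hS := fd.lb.fac c.L c.B c.kc.1
  have hPS : c.P q ⊔ c.L.shp c.B ≤ c.W.ms := sup_le hPq.le hS.le
  have s2 : Fib27.Perp c.W2.μ (c.G q j ⊔ c.G q k) fun x => h (c.Bc j x) * Y (c.Bc k x) := by
    refine Fib27.perp_sup (hG j) (hG k) hΦ' fun a b ha hb => ?_
    obtain ⟨f, hf, ea⟩ := fact fd.a ((hπ j).comp hA) ha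
    obtain ⟨g, hg, eb⟩ := fact fd.a ((hπ k).comp hA) hb
    have e1 := fd.a.keq_fun c.X.ms c.W2.μ c.X.μ _ _ f ((hπ j).comp hA) ((hπ q).comp (hBc j))
      (gi.col q j) hf.1
    have e2 := fd.a.keq_fun c.X.ms c.W2.μ c.X.μ _ _ g ((hπ k).comp hA) ((hπ q).comp (hBc k))
      (gi.col q k) hg.1
    have hfq : BM c.W.μ (c.P q) fun w => f (c.π q w) :=
      fd.a.bm_comp c.X.ms c.W.μ c.X.μ _ f (hπ q) hf
    have hgq : BM c.W.μ (c.P q) fun w => g (c.π q w) :=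
      fd.a.bm_comp c.X.ms c.W.μ c.X.μ _ g (hπ q) hg
    have hz : c.W.μ[fun w => h w * f (c.π q w) | c.L.shp c.B] =ᵐ[c.W.μ] 0 := by
      refine Fib27.Perp.ce (fun d hd => ?_) hS.le (hh.mul (hfq.mono hPq.le))
      simp only [mul_assoc]
      exact Fib27.perp_of_ce hPS hh h0 _ ((hfq.mono le_sup_left).mul (hd.mono le_sup_right))
    rw [← two_cols fd c gi hjk (hh.mul (hfq.mono hPq.le)) (hY.mul (hgq.mono hPq.le)) hz]
    refine integral_congr_ae ?_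
    filter_upwards [ea, eb, e1, e2] with x a1 a2 a3 a4
    rw [a1, a2, a3, a4]
    simp only [comp_apply]
    ring
  have hm : BM c.W2.μ (c.G q j ⊔ c.G q k) fun x => (c.W.μ[u | c.P j ⊔ c.P k]) (c.A q x) := by
    have := fd.a.bm_comp (c.P j ⊔ c.P k) c.W2.μ c.W.μ _ _ hA hu0
    rw [fd.a.pull_sup] at this
    have e : ∀ i, pull c.W2.μ (c.A q) (c.P i) = c.G q i := fun i =>
      fd.a.pull_comp c.X.ms c.W2.μ c.W.μ (c.A q) (c.π i) hA
    rwa [e, e] at this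
  have s3 := s2 _ hm
  calc _ = ∫ x, u (c.A q x) * (h (c.Bc j x) * Y (c.Bc k x)) ∂c.W2.μ := by
        simp only [mul_comm]
    _ = _ := s1
    _ = 0 := by
        rw [← s3]
        simp only [mul_comm]

end T4x

end
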