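import Pool.Agent.MP_154433_an.t4.Spec

/-! Row RP: existence of relative products. -/

set_option autoImplicit false
set_option linter.unusedVariables false
set_option linter.unusedSectionVars false
set_option linter.unnecessarySeqFocus false

open MeasureTheory ProbabilityTheory Filter Topology Function Finset ComplexConjugate
open scoped BigOperators
open Fib27 (BM ce_mul ce_eq_of_tests eq_zero_of_int_conj)

noncomputable section

namespace T4x

open T3x

variable [Grp]

namespace RP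

theorem bm_of {Ω : Type} {m m0 : MeasurableSpace Ω} {μ : Measure Ω} {f : Ω → ℂ}
    (h : Measurable[m] f) (hb : ∃ C : ℝ, ∀ x, ‖f x‖ ≤ C) : BM μ m f :=
  ⟨h.stronglyMeasurable.aestronglyMeasurable, hb.imp fun _ h => ae_of_all _ h⟩

section bdd

variable {Ω Ω' : Type} [MeasurableSpace Ω] [MeasurableSpace Ω'] {f g : Ω → ℂ}

theorem bdd_one : (fun _ => (1 : ℂ)) ∈ Bdd Ω := ⟨measurable_const, 1, fun _ => by simp⟩

theorem bdd_mul (hf : f ∈ Bdd Ω) (hg : g ∈ Bdd Ω) : (fun x => f x * g x) ∈ Bdd Ω := by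
  obtain ⟨h1, a, ha⟩ := hf
  obtain ⟨h2, b, hb⟩ := hg
  exact ⟨h1.mul h2, a * b, fun x => (norm_mul_le _ _).trans
    (mul_le_mul (ha x) (hb x) (norm_nonneg _) ((norm_nonneg _).trans (ha x)))⟩

theorem bdd_cj (hf : f ∈ Bdd Ω) : (fun x => conj (f x)) ∈ Bdd Ω :=
  ⟨Complex.continuous_conj.measurable.comp hf.1, hf.2.imp fun _ h x => by simpa using h x⟩

theorem bdd_cmp (hf : f ∈ Bdd Ω) {p : Ω' → Ω} (hp : Measurable p) :
    (fun x => f (p x)) ∈ Bdd Ω' := ⟨hf.1.comp hp, hf.2.imp fun _ h x => h (p x)⟩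

end bdd

/-- A multilinear form keeps closed convex hulls. -/
theorem multi {ι 𝒜 : Type} [Fintype 𝒜] (T : Finset ι) (c : 𝒜 → ℂ) (R : ι → Set (𝒜 → ℂ))
    {K : Set ℂ} (hc : Convex ℝ K) (hK : IsClosed K)
    (h : ∀ v : ι → 𝒜 → ℂ, (∀ i ∈ T, v i ∈ R i) → ∑ a, c a * ∏ i ∈ T, v i a ∈ K)
    (v : ι → 𝒜 → ℂ) (hv : ∀ i ∈ T, v i ∈ closure (convexHull ℝ (R i))) :
    ∑ a, c a * ∏ i ∈ T, v i a ∈ K := by
  classical
  have key : ∀ (T' : Finset ι) (v : ι → 𝒜 → ℂ),
      (∀ i ∈ T, i ∈ T' → v i ∈ closure (convexHull ℝ (R i))) → (∀ i ∈ T, i ∉ T' → v i ∈ R i) →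
      ∑ a, c a * ∏ i ∈ T, v i a ∈ K := fun T' => by
    induction T' using Finset.induction_on with
    | empty => exact fun v _ h2 => h v fun i hi => h2 i hi (notMem_empty i)
    | insert j T' hj ih =>
      intro v h1 h2
      by_cases hT : j ∈ T
      · let L : (𝒜 → ℂ) →ₗ[ℝ] ℂ := ∑ a, (LinearMap.mulLeft ℝ (c a * ∏ i ∈ T.erase j, v i a)) ∘ₗ
          LinearMap.proj a
        have e : ∀ u, L u = ∑ a, c a * ∏ i ∈ T, update v j u i a := fun u => by
          simp only [L, LinearMap.sum_apply, LinearMap.comp_apply, LinearMap.proj_apply,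
            LinearMap.mulLeft_apply]
          refine sum_congr rfl fun a _ => ?_
          have : ∏ i ∈ T.erase j, update v j u i a = ∏ i ∈ T.erase j, v i a :=
            prod_congr rfl fun i hi => by rw [update_of_ne (ne_of_mem_erase hi)]
          rw [← mul_prod_erase T (fun i => update v j u i a) hT, update_self, this]
          ring
        have h3 : R j ⊆ L ⁻¹' K := fun u hu => by
          rw [Set.mem_preimage, e]
          refine ih _ (fun i hi hi' => ?_) fun i hi hi' => ?_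
          · rw [update_of_ne (ne_of_mem_of_not_mem hi' hj)]
            exact h1 i hi (mem_insert_of_mem hi')
          · by_cases hij : i = j
            · subst hij; rwa [update_self]
            · rw [update_of_ne hij]
              exact h2 i hi fun h => (mem_insert.1 h).elim hij hi'
        have h4 := closure_minimal (convexHull_min h3 (hc.linear_preimage L))
          (hK.preimage L.continuous_of_finiteDimensional) (h1 j hT (mem_insert_self _ _))
        rwa [Set.mem_preimage, e, update_eq_self] at h4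
      · exact ih v (fun i hi hi' => h1 i hi (mem_insert_of_mem hi')) fun i hi hi' =>
          h2 i hi fun h => (mem_insert.1 h).elim (fun e => hT (e ▸ hi)) hi'
  exact key T v (fun i hi _ => hv i hi) fun i hi hi' => absurd hi hi'

/-- the data, with chosen versions of the conditional expectations -/
structure Dat where
  ι : Type
  X : ι → Sys
  C : Sys
  D : MeasurableSpace C.X
  q : ∀ i, (X i).X → C.X
  fac : Fac C D
  mp : ∀ i, @MeasurePreserving _ _ (X i).ms C.ms (q i) (X i).μ C.μ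
  eqv : ∀ i n, KEq (X i).μ D (q i ∘ (X i).Tz n) (C.Tz n ∘ q i)
  E : ∀ i, ((X i).X → ℂ) → C.X → ℂ
  one : ∀ i, E i (fun _ => 1) = fun _ => 1
  ms : ∀ i, ∀ f ∈ Bdd (X i).X, Measurable[D] (E i f)
  bd : ∀ i, ∀ f ∈ Bdd (X i).X, ∃ c : ℝ, ∀ y, ‖E i f y‖ ≤ c
  ce : ∀ i, ∀ f ∈ Bdd (X i).X,
    (X i).μ[f | pull (X i).μ (q i) D] =ᵐ[(X i).μ] fun x => E i f (q i x)

variable {d : Dat}

theorem Dat.mem (d : Dat) (i : d.ι) {f : (d.X i).X → ℂ} (hf : f ∈ Bdd (d.X i).X) :
    d.E i f ∈ Bdd d.C.X := ⟨(d.ms i f hf).mono d.fac.le le_rfl, d.bd i f hf⟩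

theorem Dat.push (d : Dat) (i : d.ι) {P : d.C.X → Prop} (hP : MeasurableSet {y | P y})
    (h : ∀ᵐ x ∂(d.X i).μ, P (d.q i x)) : ∀ᵐ y ∂d.C.μ, P y := by
  rw [← (d.mp i).map_eq]
  exact (ae_map_iff (d.mp i).measurable.aemeasurable hP).2 h

theorem Dat.hull (B : Bas) (d : Dat) (i : d.ι) {𝒜 : Type} [Fintype 𝒜]
    (f : 𝒜 → (d.X i).X → ℂ) (hf : ∀ a, f a ∈ Bdd (d.X i).X) : ∀ᵐ y ∂d.C.μ,
    (fun a => d.E i (f a) y) ∈ closure (convexHull ℝ (Set.range fun x a => f a x)) := by
  have hF : Integrable (fun x a => f a x) (d.X i).μ :=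
    integrable_pi_iff.2 fun a => (bm_of (hf a).1 (hf a).2).integrable
  have h1 := (convex_convexHull ℝ (Set.range fun x a => f a x)).closure.condExp_mem
    (B.a.pull_le d.D _ _ _ (d.mp i) d.fac.le) hF isClosed_closure
    (ae_of_all _ fun x => subset_closure (subset_convexHull _ _ ⟨x, rfl⟩))
  have h2 := fun a => (ContinuousLinearMap.proj a : (𝒜 → ℂ) →L[ℝ] ℂ).comp_condExp_comm
    (m := pull (d.X i).μ (d.q i) d.D) hF
  refine d.push i (isClosed_closure.measurableSet.preimage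
    (measurable_pi_lambda _ fun a => (d.mem i (hf a)).1)) ?_
  filter_upwards [h1, ae_all_iff.2 h2, ae_all_iff.2 fun a => d.ce i _ (hf a)] with x h1 h2 h3
  convert h1 using 1
  funext a
  exact (h3 a).symm.trans (h2 a).symm

theorem Dat.pullout (B : Bas) (d : Dat) (i : d.ι) {g : d.C.X → ℂ} (hg : Measurable[d.D] g)
    (hb : ∃ c : ℝ, ∀ y, ‖g y‖ ≤ c) {f : (d.X i).X → ℂ} (hf : f ∈ Bdd (d.X i).X) :
    d.E i (fun x => g (d.q i x) * f x) =ᵐ[d.C.μ] fun y => g y * d.E i f y := by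
  have hg' : g ∈ Bdd d.C.X := ⟨hg.mono d.fac.le le_rfl, hb⟩
  have h1 := bdd_mul (bdd_cmp hg' (d.mp i).measurable) hf
  refine d.push i (measurableSet_eq_fun (d.mem i h1).1 (hg'.1.mul (d.mem i hf).1)) ?_
  filter_upwards [d.ce i _ h1, d.ce i _ hf, ce_mul (B.a.pull_le d.D _ _ _ (d.mp i) d.fac.le)
    (B.a.bm_comp d.D _ _ _ g (d.mp i) (bm_of hg hb)) (bm_of hf.1 hf.2)] with x h2 h3 h4
  rw [← h2, h4, h3]

theorem Dat.shift (B : Bas) (d : Dat) (i : d.ι) (n : Γ) {f : (d.X i).X → ℂ}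
    (hf : f ∈ Bdd (d.X i).X) :
    d.E i (fun x => f ((d.X i).Tz n x)) =ᵐ[d.C.μ] fun y => d.E i f (d.C.Tz n y) := by
  have h1 := bdd_cmp hf ((d.X i).mp n).measurable
  have m1 := (d.mp i).comp (B.t.mp (d.X i) n)
  have m2 := (B.t.mp d.C n).comp (d.mp i)
  have e : pull (d.X i).μ ((d.X i).Tz n) (pull (d.X i).μ (d.q i) d.D) =
      pull (d.X i).μ (d.q i) d.D := by
    rw [B.a.pull_comp _ _ _ _ _ (B.t.mp _ n), B.a.keq_pull d.D _ _ _
      ((MeasurableSpace.comap_mono d.fac.le).trans m1.measurable.comap_le)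
      ((MeasurableSpace.comap_mono d.fac.le).trans m2.measurable.comap_le) (d.eqv i n),
      ← B.a.pull_comp _ _ _ _ _ (d.mp i)]
    congr 1
    rw [pull, B.t.inv _ _ n d.fac, sup_eq_left.2 d.fac.nl]
  have h2 := B.a.ce_comp _ _ _ _ f ((d.X i).mp n) (B.a.pull_le d.D _ _ _ (d.mp i) d.fac.le)
    (bm_of hf.1 hf.2).integrable
  rw [e] at h2
  have h3 := B.a.keq_fun d.D _ _ _ _ (d.E i f) m1 m2 (d.eqv i n)
    (d.ms i f hf).stronglyMeasurable.aestronglyMeasurable
  refine d.push i (measurableSet_eq_fun (d.mem i h1).1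
    ((d.mem i hf).1.comp (d.C.mp n).measurable)) ?_
  filter_upwards [d.ce i _ h1, h2, h3, ((d.X i).mp n).quasiMeasurePreserving.ae (d.ce i _ hf)]
    with x h4 h5 h6 h7
  rw [← h4, h5, h7]
  exact h6

/-- a product of functions of single coordinates -/
structure Mon (d : Dat) where
  S : Finset d.ι
  f : ∀ i, (d.X i).X → ℂ
  bd : ∀ i, f i ∈ Bdd (d.X i).X
  one : ∀ i, i ∉ S → f i = fun _ => 1

abbrev Pt (d : Dat) : Type := ∀ i, (d.X i).X

namespace Mon

def ev (m : Mon d) (s : Pt d) : ℂ := ∏ i ∈ m.S, m.f i (s i)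

def e (m : Mon d) (y : d.C.X) : ℂ := ∏ i ∈ m.S, d.E i (m.f i) y

theorem ev_eq (m : Mon d) {T : Finset d.ι} (h : m.S ⊆ T) (s : Pt d) :
    m.ev s = ∏ i ∈ T, m.f i (s i) := prod_subset h fun i _ hi => by rw [m.one i hi]

theorem e_eq (m : Mon d) {T : Finset d.ι} (h : m.S ⊆ T) (y : d.C.X) :
    m.e y = ∏ i ∈ T, d.E i (m.f i) y := prod_subset h fun i _ hi => by rw [m.one i hi, d.one]

theorem bm (m : Mon d) : BM d.C.μ d.D m.e :=
  BM.pr (ρ := fun i => d.E i (m.f i)) fun i _ => bm_of (d.ms i _ (m.bd i)) (d.bd i _ (m.bd i))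

open Classical in
def mul (m n : Mon d) : Mon d :=
  ⟨m.S ∪ n.S, fun i x => m.f i x * n.f i x, fun i => bdd_mul (m.bd i) (n.bd i), fun i hi => by
    rw [m.one i fun h => hi (mem_union_left _ h), n.one i fun h => hi (mem_union_right _ h)]
    simp⟩

theorem ev_mul (m n : Mon d) (s : Pt d) : (m.mul n).ev s = m.ev s * n.ev s := by
  classical
  rw [m.ev_eq (T := (m.mul n).S) fun i hi => by simp [mul, hi], n.ev_eq (T := (m.mul n).S)
    fun i hi => by simp [mul, hi], ← prod_mul_distrib]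
  rfl

def cj (m : Mon d) : Mon d :=
  ⟨m.S, fun i x => conj (m.f i x), fun i => bdd_cj (m.bd i), fun i hi => by simp [m.one i hi]⟩

def cmp (m : Mon d) (g : ∀ i, (d.X i).X → (d.X i).X) (hg : ∀ i, Measurable (g i)) : Mon d :=
  ⟨m.S, fun i x => m.f i (g i x), fun i => bdd_cmp (m.bd i) (hg i), fun i hi => by
    simp [m.one i hi]⟩

open Classical in
def sg (j : d.ι) (f : (d.X j).X → ℂ) (hf : f ∈ Bdd (d.X j).X) : Mon d :=
  ⟨{j}, update (fun _ _ => 1) j f, fun i => by
    by_cases h : i = j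
    · subst h; rwa [update_self]
    · rw [update_of_ne h]; exact bdd_one,
    fun i hi => update_of_ne (by simpa using hi) _ _⟩

theorem ev_sg (j : d.ι) (f : (d.X j).X → ℂ) (hf : f ∈ Bdd (d.X j).X) :
    (sg j f hf).ev = fun s => f (s j) := funext fun s => by simp [sg, ev]

theorem e_sg (j : d.ι) (f : (d.X j).X → ℂ) (hf : f ∈ Bdd (d.X j).X) :
    (sg j f hf).e = d.E j f := funext fun s => by simp [sg, e]

theorem e_mul (B : Bas) (m : Mon d) (j : d.ι) {g : d.C.X → ℂ} (hg : Measurable[d.D] g)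
    (hb : ∃ c : ℝ, ∀ y, ‖g y‖ ≤ c) (h : (fun x => g (d.q j x)) ∈ Bdd (d.X j).X) :
    ((sg j _ h).mul m).e =ᵐ[d.C.μ] fun y => g y * m.e y := by
  classical
  filter_upwards [d.pullout B j hg hb (m.bd j)] with y hy
  have hj : j ∈ ((sg j _ h).mul m).S := by simp [mul, sg]
  rw [m.e_eq (T := ((sg j _ h).mul m).S) fun i hi => by simp [mul, hi], e,
    ← mul_prod_erase _ _ hj, ← mul_prod_erase _ _ hj, ← mul_assoc, ← hy]
  congr 1
  · simp [mul, sg]
  · exact prod_congr rfl fun i hi => by simp [mul, sg, update_of_ne (ne_of_mem_erase hi)]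

end Mon

theorem key (B : Bas) (c : Mon d →₀ ℂ) {K : Set ℂ} (hc : Convex ℝ K) (hK : IsClosed K)
    (h : ∀ s, Finsupp.linearCombination ℂ Mon.ev c s ∈ K) :
    Finsupp.linearCombination ℂ (fun m : Mon d => ∫ y, m.e y ∂d.C.μ) c ∈ K := by
  classical
  let T := c.support.biUnion Mon.S
  have hT : ∀ a : c.support, a.1.S ⊆ T := fun a => subset_biUnion_of_mem Mon.S a.2
  have hi : ∀ a : c.support, Integrable a.1.e d.C.μ := fun a => (a.1.bm.mono d.fac.le).integrable
  have ne : ∀ i, Nonempty (d.X i).X := fun i => nonempty_of_isProbabilityMeasure (d.X i).μ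
  rw [Finsupp.linearCombination_apply, Finsupp.sum, ← sum_coe_sort]
  simp only [smul_eq_mul, ← integral_const_mul]
  rw [← integral_finsetSum _ fun a _ => (hi a).const_mul _]
  refine hc.integral_mem hK ?_ (integrable_finsetSum _ fun a _ => (hi a).const_mul _)
  filter_upwards [(eventually_all_finset T).2 fun i _ =>
    d.hull B i (fun a : c.support => a.1.f i) fun a => a.1.bd i] with y hy
  simp only [fun a : c.support => a.1.e_eq (hT a)]
  refine multi T (fun a : c.support => c a) _ hc hK (fun v hv => ?_)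
    (fun i a => d.E i (a.1.f i) y) hy
  have : ∀ i, ∃ x : (d.X i).X, i ∈ T → (fun a : c.support => a.1.f i x) = v i := fun i => by
    by_cases h : i ∈ T
    · exact (hv i h).imp fun _ e _ => e
    · exact (ne i).elim fun x => ⟨x, fun h' => absurd h' h⟩
  choose s hs using this
  have h1 := h s
  rw [Finsupp.linearCombination_apply, Finsupp.sum, ← sum_coe_sort, Finset.sum_apply] at h1
  convert h1 using 2 with a
  rw [Pi.smul_apply, smul_eq_mul, a.1.ev_eq (hT a)]
  congr 1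
  exact prod_congr rfl fun i hi => (congrFun (hs i hi) a).symm

def Alg (d : Dat) : Submodule ℂ (Pt d → ℂ) := Submodule.span ℂ (Set.range Mon.ev)

theorem ev_mem (m : Mon d) : m.ev ∈ Alg d := Submodule.subset_span ⟨m, rfl⟩

theorem exists_lam (B : Bas) (d : Dat) : ∃ Λ : (Pt d → ℂ) →ₗ[ℂ] ℂ,
    (∀ m : Mon d, Λ m.ev = ∫ y, m.e y ∂d.C.μ) ∧ ∀ F ∈ Alg d, ∀ K : Set ℂ, Convex ℝ K →
      IsClosed K → (∀ s, F s ∈ K) → Λ F ∈ K := by
  let u := Finsupp.linearCombination ℂ (Mon.ev (d := d))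
  let w := Finsupp.linearCombination ℂ fun m : Mon d => ∫ y, m.e y ∂d.C.μ
  have h : LinearMap.ker u ≤ LinearMap.ker w := fun c hc =>
    key B c (convex_singleton 0) isClosed_singleton fun s => congrFun hc s
  obtain ⟨Λ, hΛ⟩ := ((LinearMap.ker u).liftQ w h ∘ₗ u.quotKerEquivRange.symm.toLinearMap).exists_extend
  have e : ∀ c, Λ (u c) = w c := fun c => by
    refine (LinearMap.congr_fun hΛ ⟨u c, c, rfl⟩).trans ?_
    exact congrArg ((LinearMap.ker u).liftQ w h)
      (u.quotKerEquivRange_symm_apply_image c ⟨c, rfl⟩)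
  refine ⟨Λ, fun m => by simpa [u, w] using e (Finsupp.single m 1), fun F hF K h1 h2 h3 => ?_⟩
  rw [Alg, ← Finsupp.range_linearCombination] at hF
  obtain ⟨c, rfl⟩ := hF
  exact e c ▸ key B c h1 h2 h3

theorem ind {P : (Pt d → ℂ) → Prop} (h1 : ∀ m : Mon d, P m.ev)
    (h2 : ∀ F ∈ Alg d, ∀ G ∈ Alg d, P F → P G → P fun s => F s + G s)
    (h3 : ∀ c : ℂ, ∀ F ∈ Alg d, P F → P fun s => c * F s) : ∀ F ∈ Alg d, P F := fun F hF => by
  induction hF using Submodule.span_induction with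
  | mem F hF => obtain ⟨m, rfl⟩ := hF; exact h1 m
  | zero =>
    let m : Mon d := ⟨∅, fun _ _ => 1, fun _ => bdd_one, fun _ _ => rfl⟩
    convert h3 0 _ (ev_mem m) (h1 m) using 1
    funext s; simp
  | add F G hF hG a b => exact h2 F hF G hG a b
  | smul c F hF a => exact h3 c F hF a

theorem cmp_mem (g : ∀ i, (d.X i).X → (d.X i).X) (hg : ∀ i, Measurable (g i)) :
    ∀ F ∈ Alg d, (fun s => F fun i => g i (s i)) ∈ Alg d :=
  ind (fun m => ev_mem (m.cmp g hg)) (fun _ _ _ _ a b => add_mem a b)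
    fun c _ _ a => Submodule.smul_mem _ c a

theorem salg (d : Dat) : SAlg (Alg d : Set (Pt d → ℂ)) where
  const c := by
    show _ ∈ Alg d
    convert (Alg d).smul_mem c (ev_mem ⟨∅, fun _ _ => 1, fun _ => bdd_one, fun _ _ => rfl⟩) using 1
    funext s; simp [Mon.ev]
  add F hF G hG := add_mem hF hG
  mul F hF G hG := by
    have := Submodule.mul_mem_mul hF hG
    rw [Alg, Submodule.span_mul_span] at this
    refine Submodule.span_mono ?_ this
    rintro _ ⟨_, ⟨m, rfl⟩, _, ⟨n, rfl⟩, rfl⟩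
    exact ⟨m.mul n, funext (m.ev_mul n)⟩
  cj := ind (P := fun F => (fun s => conj (F s)) ∈ Alg d)
    (fun m => by convert ev_mem m.cj using 1; funext s; simp [Mon.ev, Mon.cj])
    (fun _ _ _ _ a b => by simp only [map_add]; exact add_mem a b)
    fun c _ _ a => by simp only [map_mul]; exact Submodule.smul_mem _ (conj c) a
  bdd := ind (fun m => by
      choose b hb using fun i => (m.bd i).2
      exact ⟨∏ i ∈ m.S, b i, fun s => (Finset.norm_prod_le _ _).trans
        (prod_le_prod (fun _ _ => norm_nonneg _) fun i _ => hb i _)⟩)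
    (fun _ _ _ _ ⟨a, ha⟩ ⟨b, hb⟩ => ⟨a + b, fun s => norm_add_le_of_le (ha s) (hb s)⟩)
    fun c _ _ ⟨a, ha⟩ => ⟨‖c‖ * a, fun s => (norm_mul_le _ _).trans
      (mul_le_mul_of_nonneg_left (ha s) (norm_nonneg _))⟩

theorem crd_mem (i : d.ι) {f : (d.X i).X → ℂ} (hf : f ∈ Bdd (d.X i).X) :
    (fun s : Pt d => f (s i)) ∈ Alg d := Mon.ev_sg i f hf ▸ ev_mem _

theorem hat_ev {χ : (Pt d → ℂ) → ℂ} (h : IsChar (Alg d : Set (Pt d → ℂ)) χ) (m : Mon d) :
    χ m.ev = ∏ i ∈ m.S, χ fun s => m.f i (s i) := by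
  classical
  have : ∀ S : Finset d.ι, (fun s : Pt d => ∏ i ∈ S, m.f i (s i)) ∈ Alg d ∧
      χ (fun s => ∏ i ∈ S, m.f i (s i)) = ∏ i ∈ S, χ fun s => m.f i (s i) := fun S => by
    induction S using Finset.induction_on with
    | empty => exact ⟨(salg d).const 1, h.const 1⟩
    | insert j S hj ih =>
      simp only [prod_insert hj]
      exact ⟨(salg d).mul _ (crd_mem j (m.bd j)) _ ih.1, by
        rw [h.mul _ (crd_mem j (m.bd j)) _ ih.1, ih.2]⟩
  exact (this m.S).2

theorem main (B : Bas) (R : RealS) (d : Dat) (i0 : d.ι) (hn : ∀ i, Nice (d.X i)) :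
    ∃ (Z : Sys) (p : ∀ i, Z.X → (d.X i).X), IsRP d.X d.C d.D d.q i0 Z p := by
  classical
  obtain ⟨Λ, h1, h2⟩ := exists_lam B d
  let t : Γ → Pt d → Pt d := fun n s i => (d.X i).Tz n (s i)
  obtain ⟨W, hat, H⟩ := R _ (Alg d) Λ t (salg d) (fun F _ G _ => Λ.map_add F G)
    (fun c F _ => Λ.map_smul c F)
    (h2 _ ((salg d).const 1) {1} (convex_singleton _) isClosed_singleton fun _ => rfl)
    (fun F hF => h2 F hF {z | 0 ≤ z.re ∧ z.im = 0}
      ((convex_halfSpace_re_ge 0).inter (convex_hyperplane Complex.imLm.isLinear 0))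
      ((isClosed_le continuous_const Complex.continuous_re).inter
        (isClosed_eq Complex.continuous_im continuous_const)))
    (fun s => funext fun i => (d.X i).zero _) (fun n m s => funext fun i => (d.X i).add n m _)
    (fun n => cmp_mem _ fun i => ((d.X i).mp n).measurable)
    (fun n => ind (fun m => by
        rw [h1]
        refine (h1 (m.cmp _ fun i => ((d.X i).mp n).measurable)).trans ?_
        rw [← MeasurePreserving.integral_comp' (f := d.C.eq n) (d.C.mp n) m.e]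
        refine integral_congr_ae ?_
        filter_upwards [(eventually_all_finset m.S).2 fun i _ => d.shift B i n (m.bd i)] with y hy
        exact prod_congr rfl hy)
      (fun F _ G _ a b => (Λ.map_add (fun s => F (t n s)) fun s => G (t n s)).trans
        (by rw [a, b]; exact (Λ.map_add F G).symm))
      fun c F _ a => (Λ.map_smul c fun s => F (t n s)).trans
        (by rw [a]; exact (Λ.map_smul c F).symm))
  have hm : ∀ F ∈ Alg d, Measurable (hat F) := fun F hF =>
    measurable_iff_comap_le.2 ((le_iSup₂ (f := fun F (_ : F ∈ (Alg d : Set (Pt d → ℂ))) =>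
      MeasurableSpace.comap (hat F) inferInstance) F hF).trans H.gn.ge)
  have tr : ∀ {Y : Sys} {r : Y.X → d.C.X} (hr : MeasurePreserving r Y.μ d.C.μ) {g : d.C.X → ℂ},
      BM d.C.μ d.D g → ∫ x, g (r x) ∂Y.μ = ∫ y, g y ∂d.C.μ := fun hr g hg => by
    rw [← hr.map_eq]
    exact (integral_map hr.measurable.aemeasurable (hr.map_eq ▸ (hg.mono d.fac.le).1)).symm
  choose p hp hp' using fun i => hn i W.X W.μ (fun F => hat fun s => F (s i))
    (fun w => ⟨(H.ch w).const, fun F hF G hG => (H.ch w).add _ (crd_mem i hF) _ (crd_mem i hG),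
      fun F hF G hG => (H.ch w).mul _ (crd_mem i hF) _ (crd_mem i hG),
      fun F hF => (H.ch w).cj _ (crd_mem i hF),
      fun F hF c hc => (H.ch w).bdd _ (crd_mem i hF) c fun s => hc _⟩)
    (fun F hF => hm _ (crd_mem i hF)) fun F hF => by
      rw [H.int _ (crd_mem i hF), ← Mon.ev_sg i F hF, h1, Mon.e_sg,
        ← tr (d.mp i) (bm_of (d.ms i F hF) (d.bd i F hF)), ← integral_congr_ae (d.ce i F hF),
        integral_condExp (B.a.pull_le d.D _ _ _ (d.mp i) d.fac.le)]
  have mq := fun i => (d.mp i).comp (hp i)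
  have i1 : ∀ m : Mon d, ∫ z, m.ev (fun i => p i z) ∂W.μ = ∫ y, m.e y ∂d.C.μ := fun m => by
    rw [← h1, ← H.int _ (ev_mem m)]
    refine integral_congr_ae ?_
    filter_upwards [(eventually_all_finset m.S).2 fun i _ => hp' i _ (m.bd i)] with z hz
    rw [hat_ev (H.ch z)]
    exact prod_congr rfl hz
  have cq : ∀ (j : d.ι) {g : d.C.X → ℂ}, Measurable[d.D] g → (∃ c : ℝ, ∀ y, ‖g y‖ ≤ c) →
      (fun x => g (d.q j x)) ∈ Bdd (d.X j).X := fun j g hg hb =>
    bdd_cmp ⟨hg.mono d.fac.le le_rfl, hb⟩ (d.mp j).measurable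
  have i2 : ∀ (m : Mon d) (j : d.ι) {g : d.C.X → ℂ}, Measurable[d.D] g →
      (∃ c : ℝ, ∀ y, ‖g y‖ ≤ c) → ∫ z, g (d.q j (p j z)) * m.ev (fun i => p i z) ∂W.μ =
        ∫ y, g y * m.e y ∂d.C.μ := fun m j g hg hb => by
    rw [← integral_congr_ae (m.e_mul B j hg hb (cq j hg hb)), ← i1]
    simp only [Mon.ev_mul, Mon.ev_sg]
  have com : ∀ i, KEq W.μ d.D (d.q i ∘ p i) (d.q i0 ∘ p i0) := fun i =>
    B.a.keq_of _ _ _ _ fun g hg hb => by
      have hg' : Measurable[d.D] fun y => conj (g y) :=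
        Complex.continuous_conj.measurable.comp hg
      have hb' : ∃ c : ℝ, ∀ y, ‖conj (g y)‖ ≤ c := ⟨1, fun y => by simpa using hb y⟩
      have b : ∀ j, BM W.μ W.ms fun z => g (d.q j (p j z)) := fun j =>
        bm_of ((cq j hg ⟨1, hb⟩).1.comp (hp j).measurable) ⟨1, fun _ => hb _⟩
      have e : ∀ j k, ∫ z, g (d.q j (p j z)) * conj (g (d.q k (p k z))) ∂W.μ =
          ∫ y, g y * conj (g y) ∂d.C.μ := fun j k => by
        have := i2 (Mon.sg k _ (cq k hg' hb')) j hg ⟨1, hb⟩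
        rw [Mon.ev_sg, Mon.e_sg] at this
        rw [this]
        refine integral_congr_ae ?_
        have h3 := d.pullout B k hg' hb' bdd_one
        simp only [mul_one, d.one] at h3
        filter_upwards [h3] with y hy
        rw [hy]
      have h0 := eq_zero_of_int_conj ((b i).sub (b i0)) (by
        simp only [map_sub, mul_sub, sub_mul]
        rw [integral_sub (((b i).mul (b i).conj).sub ((b i0).mul (b i).conj)).integrable
          (((b i).mul (b i0).conj).sub ((b i0).mul (b i0).conj)).integrable,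
          integral_sub ((b i).mul (b i).conj).integrable ((b i0).mul (b i).conj).integrable,
          integral_sub ((b i).mul (b i0).conj).integrable ((b i0).mul (b i0).conj).integrable,
          e, e, e, e, sub_self])
      filter_upwards [h0] with z hz using sub_eq_zero.1 hz
  refine ⟨W, p, H.nice, fun i => ⟨hp i, fun n => B.a.keq_of _ _ _ _ fun f hf hb => ?_⟩, com,
    fun S f hf => ?_, ?_⟩
  · have hf' : f ∈ Bdd (d.X i).X := ⟨hf, 1, hb⟩
    filter_upwards [(W.mp n).quasiMeasurePreserving.ae (hp' i f hf'),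
      hp' i _ (bdd_cmp hf' ((d.X i).mp n).measurable)] with w a b
    exact a.trans ((H.eqv n _ (crd_mem i hf') w).symm.trans b.symm)
  · have : ∀ i, ∃ f' ∈ Bdd (d.X i).X, (i ∉ S → f' = fun _ => 1) ∧
        (i ∈ S → f i =ᵐ[(d.X i).μ] f') := fun i => by
      by_cases h : i ∈ S
      · obtain ⟨a, c, hc⟩ := hf i h
        obtain ⟨f', b1, b2, b3⟩ := B.a.rep _ _ (f i) (max c 0) (le_max_right _ _) a
          (hc.mono fun _ h => h.trans (le_max_left _ _))
        exact ⟨f', ⟨b1, _, b2⟩, fun h' => absurd h h', fun _ => b3⟩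
      · exact ⟨_, bdd_one, fun _ => rfl, fun h' => absurd h' h⟩
    choose f' b1 b2 b3 using this
    let m : Mon d := ⟨S, f', b1, b2⟩
    have hle := B.a.pull_le d.D _ _ _ (mq i0) d.fac.le
    have e1 : (fun z => ∏ i ∈ S, f i (p i z)) =ᵐ[W.μ] fun z => m.ev fun i => p i z := by
      filter_upwards [(eventually_all_finset S).2 fun i hi =>
        (hp i).quasiMeasurePreserving.ae (b3 i hi)] with z hz
      exact prod_congr rfl hz
    have e2 : (fun z => ∏ i ∈ S, ((d.X i).μ[f i | pull (d.X i).μ (d.q i) d.D]) (p i z)) =ᵐ[W.μ]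
        fun z => m.e (d.q i0 (p i0 z)) := by
      filter_upwards [(eventually_all_finset S).2 fun i hi =>
        ((hp i).quasiMeasurePreserving.ae ((condExp_congr_ae (b3 i hi)).trans
          (d.ce i _ (b1 i)))).and (B.a.keq_fun d.D _ _ _ _ _ (mq i) (mq i0) (com i)
          (d.ms i _ (b1 i)).stronglyMeasurable.aestronglyMeasurable)] with z hz
      exact prod_congr rfl fun i hi => (hz i hi).1.trans (hz i hi).2
    refine (condExp_congr_ae e1).trans (EventuallyEq.trans (ce_eq_of_tests hle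
      (BM.pr (ρ := fun i z => f' i (p i z)) fun i _ => bm_of ((b1 i).1.comp (hp i).measurable)
        ((b1 i).2.imp fun _ h _ => h _)) (B.a.bm_comp d.D _ _ _ _ (mq i0) m.bm) ?_) e2.symm)
    rintro a ⟨a1, c, hc⟩
    obtain ⟨g, g1, g2, g3⟩ := B.a.fact d.D W.μ _ a (max c 0) (le_sup_left.trans hle)
      (le_max_right _ _) a1 (hc.mono fun _ h => h.trans (le_max_left _ _))
    have := (i2 m i0 g1 ⟨_, g2⟩).trans (tr (mq i0) ((bm_of g1 ⟨_, g2⟩).mul m.bm)).symm
    refine (integral_congr_ae ?_).trans (this.trans (integral_congr_ae ?_)) <;>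
      · filter_upwards [g3] with z hz
        rw [hz, mul_comm] <;> rfl
  · refine H.gn.le.trans (iSup₂_le fun F hF => measurable_iff_comap_le.1 (ind (P := fun F =>
      Measurable[⨆ i, pull W.μ (p i) (d.X i).ms] (hat F)) (fun m => ?_)
      (fun F hF G hG a b => ?_) (fun c F hF a => ?_) F hF))
    · rw [show hat m.ev = _ from funext fun w => hat_ev (H.ch w) m]
      refine Finset.measurable_prod _ fun i _ => Measurable.mono (fun A hA => ?_)
        (le_iSup (fun i => pull W.μ (p i) (d.X i).ms) i) le_rfl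
      refine (B.a.mem _ _ (hp i).measurable.comap_le _).2 ⟨hm _ (crd_mem i (m.bd i)) hA, _,
        ⟨_, (m.bd i).1 hA, rfl⟩, ?_⟩
      filter_upwards [hp' i _ (m.bd i)] with w hw
      exact congrArg (· ∈ A) hw.symm
    · rw [show hat (fun s => F s + G s) = _ from funext fun w => (H.ch w).add F hF G hG]
      exact a.add b
    · rw [show hat (fun s => c * F s) = _ from funext fun w =>
        ((H.ch w).mul _ ((salg d).const c) F hF).trans (by rw [(H.ch w).const])]
      exact a.const_mul c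

end RP

theorem rp : RPR := by
  intro B R ι X C D q i0 hn hD hq he
  classical
  have : ∀ (i : ι) (f : (X i).X → ℂ), ∃ g : C.X → ℂ, ((f = fun _ => 1) → g = fun _ => 1) ∧
      (f ∈ Bdd (X i).X → Measurable[D] g ∧ (∃ c : ℝ, ∀ y, ‖g y‖ ≤ c) ∧
        (X i).μ[f | pull (X i).μ (q i) D] =ᵐ[(X i).μ] fun x => g (q i x)) := fun i f => by
    have hle := B.a.pull_le D _ _ _ (hq i) hD.le
    by_cases h1 : f = fun _ => 1
    · exact ⟨_, fun _ => rfl, fun _ => ⟨measurable_const, ⟨1, fun _ => by simp⟩, by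
        rw [h1, condExp_const hle]⟩⟩
    by_cases hf : f ∈ Bdd (X i).X
    · obtain ⟨a, c, hc⟩ := (RP.bm_of (μ := (X i).μ) hf.1 hf.2).ce (pull (X i).μ (q i) D)
      obtain ⟨g, g1, g2, g3⟩ := B.a.fact D _ _ _ (max c 0) (le_sup_left.trans hle)
        (le_max_right _ _) a (hc.mono fun _ h => h.trans (le_max_left _ _))
      exact ⟨g, fun h => absurd h h1, fun _ => ⟨g1, ⟨_, g2⟩, g3⟩⟩
    · exact ⟨0, fun h => absurd h h1, fun h => absurd h hf⟩
  choose E h1 h2 using this
  exact RP.main B R ⟨ι, X, C, D, q, hD, hq, he, E, fun i => h1 i _ rfl, fun i f h => (h2 i f h).1,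
    fun i f h => (h2 i f h).2.1, fun i f h => (h2 i f h).2.2⟩ i0 hn

end T4x

end
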