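import Pool.Agent.MP_154433_an.t4.Spec

/-! Realisation of a positive functional on the space of characters. -/

set_option autoImplicit false
set_option linter.unusedVariables false
set_option warn.classDefReducibility false

open MeasureTheory ProbabilityTheory Filter Topology Function Finset ComplexConjugate
open scoped BigOperators CompactlySupported

noncomputable section

namespace T4x

open T3x

namespace Real0

/-- the two parts of the basic calculus that are used -/
structure B2 : Prop where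
  a : BasA
  d : BasD

/-- a positive functional on functions on `S` gives a measure on a compact space -/
lemma rmk {S Y : Type} [TopologicalSpace Y] [T2Space Y] [CompactSpace Y] [MeasurableSpace Y]
    [BorelSpace Y] (ev : S → Y) (P : Submodule ℝ (S → ℝ)) (L : P →ₗ[ℝ] ℝ)
    (hc : ∀ c : ℝ, (fun _ => c) ∈ P) (hp : ∀ u : P, (∀ s, 0 ≤ u.1 s) → 0 ≤ L u) :
    ∃ ν : Measure Y, IsFiniteMeasure ν ∧ ∀ (g : Y → ℝ), Continuous g →
      ∀ h : (fun s => g (ev s)) ∈ P, ∫ y, g y ∂ν = L ⟨_, h⟩ := by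
  let r : C_c(Y, ℝ) →ₗ[ℝ] (S → ℝ) :=
    { toFun := fun g s => g (ev s), map_add' := fun _ _ => rfl, map_smul' := fun _ _ => rfl }
  let f : C_c(Y, ℝ) →ₗ.[ℝ] ℝ :=
    { domain := P.comap r
      toFun := L.comp ((r.domRestrict (P.comap r)).codRestrict P fun x => x.2) }
  let K : PointedCone ℝ C_c(Y, ℝ) :=
    { carrier := {u | ∀ z, 0 ≤ u z}
      add_mem' := fun {u v} hu hv z => add_nonneg (hu z) (hv z)
      zero_mem' := fun z => le_rfl
      smul_mem' := fun c u hu z => mul_nonneg c.2 (hu z) }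
  obtain ⟨g, hg, hg0⟩ := riesz_extension K f
    (fun x hx => hp _ fun s => hx (ev s)) (by
      intro y
      obtain ⟨C, hC⟩ := isCompact_univ.exists_bound_of_continuousOn
        (f := fun z => y z) y.continuous.continuousOn
      refine ⟨⟨⟨⟨fun _ => C, continuous_const⟩, HasCompactSupport.of_compactSpace _⟩, hc C⟩, ?_⟩
      intro z
      have := (abs_le.1 (hC z trivial)).1
      change (0 : ℝ) ≤ C + y z
      linarith)
  have hg' : ∀ x, 0 ≤ x → 0 ≤ g x := fun x hx =>
    hg0 x fun z => CompactlySupportedContinuousMap.le_def.1 hx z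
  refine ⟨RealRMK.rieszMeasure (PositiveLinearMap.mk₀ g hg'), inferInstance, fun u hu h => ?_⟩
  let u' : C_c(Y, ℝ) := ⟨⟨u, hu⟩, HasCompactSupport.of_compactSpace _⟩
  exact (RealRMK.integral_rieszMeasure (PositiveLinearMap.mk₀ g hg') u').trans (hg ⟨u', h⟩)

section Alg

variable {S : Type} {A : Set (S → ℂ)}

lemma smul_mem (hA : SAlg A) (c : ℂ) {F : S → ℂ} (hF : F ∈ A) : (fun s => c * F s) ∈ A :=
  hA.mul _ (hA.const c) _ hF

lemma sub_mem (hA : SAlg A) {F G : S → ℂ} (hF : F ∈ A) (hG : G ∈ A) :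
    (fun s => F s - G s) ∈ A := by
  have h := hA.add _ hF _ (smul_mem hA (-1) hG)
  simpa only [neg_mul, one_mul, ← sub_eq_add_neg] using h

lemma re_mem (hA : SAlg A) {F : S → ℂ} (hF : F ∈ A) : (fun s => ((F s).re : ℂ)) ∈ A := by
  have h := smul_mem hA (1 / 2) (hA.add _ hF _ (hA.cj _ hF))
  have e : (fun s => ((F s).re : ℂ)) = fun s => 1 / 2 * (F s + conj (F s)) := by
    funext s
    rw [Complex.add_conj]
    push_cast
    ring
  rwa [e]

lemma im_mem (hA : SAlg A) {F : S → ℂ} (hF : F ∈ A) : (fun s => ((F s).im : ℂ)) ∈ A := by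
  have h := re_mem hA (smul_mem hA (-Complex.I) hF)
  simpa using h

lemma ch_sub (hA : SAlg A) {χ : (S → ℂ) → ℂ} (hχ : IsChar A χ) {F G : S → ℂ} (hF : F ∈ A)
    (hG : G ∈ A) : χ (fun s => F s - G s) = χ F - χ G := by
  have h := hχ.add _ (sub_mem hA hF hG) _ hG
  simp only [sub_add_cancel] at h
  exact eq_sub_of_add_eq h.symm

lemma salg_bdd (Ω : Type) [MeasurableSpace Ω] : SAlg (Bdd Ω) where
  const c := ⟨measurable_const, ‖c‖, fun _ => le_rfl⟩
  add := fun F ⟨h, C, hC⟩ G ⟨h', C', hC'⟩ =>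
    ⟨h.add h', C + C', fun x => norm_add_le_of_le (hC x) (hC' x)⟩
  mul := fun F ⟨h, C, hC⟩ G ⟨h', C', hC'⟩ =>
    ⟨h.mul h', C * C', fun x => norm_mul_le_of_le (hC x) (hC' x)⟩
  cj := fun F ⟨h, C, hC⟩ =>
    ⟨Complex.continuous_conj.measurable.comp h, C, fun x => by simpa using hC x⟩
  bdd F h := h.2

lemma bdd_int {Ω : Type} [MeasurableSpace Ω] (μ : Measure Ω) [IsFiniteMeasure μ] {F : Ω → ℂ}
    (h : F ∈ Bdd Ω) : Integrable F μ := by
  obtain ⟨h1, C, hC⟩ := h
  exact Integrable.of_bound h1.aestronglyMeasurable C (Eventually.of_forall hC)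

/-- measures are determined by the integrals of a generating algebra -/
lemma uniq (hb : B2) {Ω : Type} [m0 : MeasurableSpace Ω] {T : Set (Ω → ℂ)} (hT : SAlg T)
    (hm : ∀ φ ∈ T, Measurable φ) (hg : m0 ≤ gen T id) (μ ν : Measure Ω) [IsProbabilityMeasure μ]
    [IsProbabilityMeasure ν] (h : ∀ φ ∈ T, ∫ x, φ x ∂μ = ∫ x, φ x ∂ν) : μ = ν := by
  let ρ : Measure Ω := (2 : ENNReal)⁻¹ • (μ + ν)
  have h2 : (2 : ENNReal)⁻¹ ≠ 0 := by simp
  have : IsProbabilityMeasure ρ := ⟨by
    simp only [ρ, Measure.smul_apply, Measure.add_apply, measure_univ, smul_eq_mul,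
      one_add_one_eq_two]
    exact ENNReal.inv_mul_cancel (by simp) (by simp)⟩
  have a1 : μ ≪ ρ := (Measure.absolutelyContinuous_of_le (Measure.le_add_right le_rfl)).trans
    (Measure.absolutelyContinuous_smul h2)
  have a2 : ν ≪ ρ := (Measure.absolutelyContinuous_of_le (Measure.le_add_left le_rfl)).trans
    (Measure.absolutelyContinuous_smul h2)
  let g : Ω → ℂ := fun x => ((μ.rnDeriv ρ x).toReal : ℂ) - ((ν.rnDeriv ρ x).toReal : ℂ)
  have key : ∀ φ ∈ Bdd Ω, ∫ x, g x * φ x ∂ρ = ∫ x, φ x ∂μ - ∫ x, φ x ∂ν := by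
    intro φ hφ
    rw [← integral_rnDeriv_smul a1, ← integral_rnDeriv_smul a2, ← integral_sub
      ((integrable_rnDeriv_smul_iff a1).2 (bdd_int μ hφ))
      ((integrable_rnDeriv_smul_iff a2).2 (bdd_int ν hφ))]
    simp only [g, Complex.real_smul, sub_mul]
  have gi : Integrable g ρ :=
    Measure.integrable_toReal_rnDeriv.ofReal.sub Measure.integrable_toReal_rnDeriv.ofReal
  have hB : ∀ φ ∈ T, φ ∈ Bdd Ω := fun φ hφ => ⟨hm φ hφ, hT.bdd φ hφ⟩
  have h0 := hb.d.perp ρ T hB ⟨_, hT.const 1, EventuallyEq.rfl⟩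
    (fun φ hφ φ' hφ' => ⟨_, hT.mul φ hφ φ' hφ', EventuallyEq.rfl⟩)
    (fun φ hφ => ⟨_, hT.cj φ hφ, EventuallyEq.rfl⟩) g gi
    (fun φ hφ => by rw [key φ (hB φ hφ), h φ hφ, sub_self])
  have e : gen T id ⊔ nul ρ = m0 := le_antisymm
    (sup_le (iSup₂_le fun φ hφ => (hm φ hφ).comap_le) (hb.a.nul_le ρ)) (hg.trans le_sup_left)
  rw [e] at h0
  have h1 : g =ᵐ[ρ] 0 := (condExp_of_aestronglyMeasurable' le_rfl gi.1 gi).symm.trans h0
  ext s hs
  have h3 := key (s.indicator fun _ => 1) ⟨measurable_const.indicator hs, 1, fun x => by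
    by_cases hx : x ∈ s <;> simp [hx]⟩
  have h4 : ∫ x, g x * s.indicator (fun _ => (1 : ℂ)) x ∂ρ = 0 := by
    refine integral_eq_zero_of_ae (h1.mono fun x hx => ?_)
    simp [hx]
  rw [h4, integral_indicator_const _ hs, integral_indicator_const _ hs, eq_comm, sub_eq_zero] at h3
  simp only [Complex.real_smul, mul_one, Complex.ofReal_inj] at h3
  exact (measureReal_eq_measureReal_iff (measure_ne_top _ _) (measure_ne_top _ _)).1 h3

end Alg

section Sp

variable {S : Type} (A : Set (S → ℂ))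

/-- characters that vanish outside the algebra -/
def Gd : Set ((S → ℂ) → ℂ) := {χ | IsChar A χ ∧ ∀ F, F ∉ A → χ F = 0}

lemma closed_gd : IsClosed (Gd A) := by
  have e : Gd A = {χ | ∀ c : ℂ, χ (fun _ => c) = c} ∩
      ({χ | ∀ F ∈ A, ∀ G ∈ A, χ (fun s => F s + G s) = χ F + χ G} ∩
      ({χ | ∀ F ∈ A, ∀ G ∈ A, χ (fun s => F s * G s) = χ F * χ G} ∩
      ({χ | ∀ F ∈ A, χ (fun s => conj (F s)) = conj (χ F)} ∩
      ({χ | ∀ F ∈ A, ∀ C : ℝ, (∀ s, ‖F s‖ ≤ C) → ‖χ F‖ ≤ C} ∩
      {χ | ∀ F, F ∉ A → χ F = 0})))) := by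
    ext χ
    exact ⟨fun h => ⟨h.1.1, h.1.2, h.1.3, h.1.4, h.1.5, h.2⟩,
      fun h => ⟨⟨h.1, h.2.1, h.2.2.1, h.2.2.2.1, h.2.2.2.2.1⟩, h.2.2.2.2.2⟩⟩
  rw [e]
  simp only [Set.ofPred_forall]
  refine IsClosed.inter ?_ (IsClosed.inter ?_ (IsClosed.inter ?_ (IsClosed.inter ?_
    (IsClosed.inter ?_ ?_))))
  · exact isClosed_iInter fun c => isClosed_eq (continuous_apply _) continuous_const
  · exact isClosed_iInter fun F => isClosed_iInter fun _ => isClosed_iInter fun G =>
      isClosed_iInter fun _ =>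
        isClosed_eq (continuous_apply _) ((continuous_apply F).add (continuous_apply G))
  · exact isClosed_iInter fun F => isClosed_iInter fun _ => isClosed_iInter fun G =>
      isClosed_iInter fun _ =>
        isClosed_eq (continuous_apply _) ((continuous_apply F).mul (continuous_apply G))
  · exact isClosed_iInter fun F => isClosed_iInter fun _ =>
      isClosed_eq (continuous_apply _) (Complex.continuous_conj.comp (continuous_apply F))
  · exact isClosed_iInter fun F => isClosed_iInter fun _ => isClosed_iInter fun C =>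
      isClosed_iInter fun _ => isClosed_le (continuous_apply F).norm continuous_const
  · exact isClosed_iInter fun F => isClosed_iInter fun _ =>
      isClosed_eq (continuous_apply _) continuous_const

variable {A}

lemma compact_gd (hA : SAlg A) : IsCompact (Gd A) := by
  have h : ∀ F : S → ℂ, ∃ C : ℝ, ∀ χ ∈ Gd A, ‖χ F‖ ≤ C := by
    intro F
    by_cases hF : F ∈ A
    · obtain ⟨C, hC⟩ := hA.bdd F hF
      exact ⟨C, fun χ hχ => hχ.1.bdd F hF C hC⟩
    · exact ⟨0, fun χ hχ => by simp [hχ.2 F hF]⟩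
  choose C hC using h
  refine (isCompact_univ_pi fun F : S → ℂ =>
    isCompact_closedBall (0 : ℂ) (C F)).of_isClosed_subset (closed_gd A) ?_
  intro χ hχ F _
  exact mem_closedBall_zero_iff.2 (hC F χ hχ)

/-- the space of characters -/
def Y (A : Set (S → ℂ)) : Type := Gd A

instance : TopologicalSpace (Y A) := inferInstanceAs (TopologicalSpace (Gd A))
instance : T2Space (Y A) := inferInstanceAs (T2Space (Gd A))

def hat (F : S → ℂ) (y : Y A) : ℂ := (show Gd A from y).1 F

lemma hat_ch (y : Y A) : IsChar A fun F => hat F y := (show Gd A from y).2.1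

lemma hat_out (y : Y A) {F : S → ℂ} (h : F ∉ A) : hat F y = 0 := (show Gd A from y).2.2 F h

lemma hat_cont (F : S → ℂ) : Continuous (hat (A := A) F) :=
  (continuous_apply F).comp continuous_subtype_val

lemma Y_ext {y y' : Y A} (h : ∀ F, hat F y = hat F y') : y = y' := Subtype.ext (funext h)

open Classical in
/-- the point of a character -/
def pt (hA : SAlg A) (χ : (S → ℂ) → ℂ) (hχ : IsChar A χ) : Y A :=
  show Gd A from ⟨fun F => if F ∈ A then χ F else 0,
    { const := fun c => by rw [if_pos (hA.const c), hχ.const]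
      add := fun F hF G hG => by
        rw [if_pos (hA.add F hF G hG), if_pos hF, if_pos hG, hχ.add F hF G hG]
      mul := fun F hF G hG => by
        rw [if_pos (hA.mul F hF G hG), if_pos hF, if_pos hG, hχ.mul F hF G hG]
      cj := fun F hF => by rw [if_pos (hA.cj F hF), if_pos hF, hχ.cj F hF]
      bdd := fun F hF C hC => by
        rw [if_pos hF]
        exact hχ.bdd F hF C hC }, fun F hF => if_neg hF⟩

lemma hat_pt (hA : SAlg A) (χ : (S → ℂ) → ℂ) (hχ : IsChar A χ) {F : S → ℂ} (hF : F ∈ A) :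
    hat F (pt hA χ hχ) = χ F := if_pos hF

lemma ev_ch (s : S) : IsChar A fun F => F s :=
  ⟨fun _ => rfl, fun _ _ _ _ => rfl, fun _ _ _ _ => rfl, fun _ _ => rfl, fun _ _ _ h => h s⟩

lemma exists_meas (hA : SAlg A) (Λ : (S → ℂ) → ℂ)
    (h1 : ∀ F ∈ A, ∀ G ∈ A, Λ (fun s => F s + G s) = Λ F + Λ G)
    (h2 : ∀ (c : ℂ), ∀ F ∈ A, Λ (fun s => c * F s) = c * Λ F) (h3 : Λ (fun _ => 1) = 1)
    (h4 : ∀ F ∈ A, (∀ s, 0 ≤ (F s).re ∧ (F s).im = 0) → 0 ≤ (Λ F).re ∧ (Λ F).im = 0) :
    ∃ μ : @Measure (Y A) (gen A hat), IsProbabilityMeasure μ ∧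
      ∀ F ∈ A, ∫ y, hat F y ∂μ = Λ F := by
  let mB : MeasurableSpace (Y A) := borel _
  have : BorelSpace (Y A) := ⟨rfl⟩
  have : CompactSpace (Y A) := isCompact_iff_compactSpace.1 (compact_gd hA)
  let P : Submodule ℝ (S → ℝ) :=
    { carrier := {u | (fun s => (u s : ℂ)) ∈ A}
      add_mem' := fun {u v} hu hv => by simpa using hA.add _ hu _ hv
      zero_mem' := by simpa using hA.const 0
      smul_mem' := fun c u hu => by simpa using smul_mem hA (c : ℂ) hu }
  let L : P →ₗ[ℝ] ℝ :=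
    { toFun := fun u => (Λ fun s => (u.1 s : ℂ)).re
      map_add' := fun u v => by
        rw [← Complex.add_re, ← h1 _ u.2 _ v.2]
        simp
      map_smul' := fun c u => by
        have := h2 (c : ℂ) _ u.2
        simp only [Submodule.coe_smul, Pi.smul_apply, smul_eq_mul, Complex.ofReal_mul, this,
          Complex.re_ofReal_mul, RingHom.id_apply] }
  obtain ⟨ν, hν, hi⟩ := rmk (fun s => pt hA _ (ev_ch s)) P L (fun c => hA.const c)
    (fun u hu => (h4 _ u.2 fun s => ⟨by simpa using hu s, by simp⟩).1)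
  have hc : ∀ c : ℂ, Λ (fun _ => c) = c := fun c => by
    have := h2 c _ (hA.const 1)
    simpa [h3] using this
  have him : ∀ u : S → ℝ, (fun s => (u s : ℂ)) ∈ A → (Λ fun s => (u s : ℂ)).im = 0 := by
    intro u hu
    obtain ⟨C, hC⟩ := hA.bdd _ hu
    have h5 := (h4 _ (hA.add _ hu _ (hA.const C)) fun s => ⟨by
      have := (abs_le.1 (show |u s| ≤ C by simpa using hC s)).1
      simp only [Complex.add_re, Complex.ofReal_re]
      linarith, by simp⟩).2
    rw [h1 _ hu _ (hA.const C), hc] at h5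
    simpa using h5
  have hint : ∀ F ∈ A, ∫ y, hat F y ∂ν = Λ F := by
    intro F hF
    have iF : Integrable (hat (A := A) F) ν :=
      (hat_cont F).integrable_of_hasCompactSupport (HasCompactSupport.of_compactSpace _)
    have e1 : (fun s => (hat F (pt hA _ (ev_ch s))).re) = fun s => (F s).re :=
      funext fun s => by rw [hat_pt hA _ _ hF]
    have e2 : (fun s => (hat F (pt hA _ (ev_ch s))).im) = fun s => (F s).im :=
      funext fun s => by rw [hat_pt hA _ _ hF]
    have r1 := hi (fun y => (hat F y).re) (Complex.continuous_re.comp (hat_cont F))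
      (by rw [e1]; exact re_mem hA hF)
    have r2 := hi (fun y => (hat F y).im) (Complex.continuous_im.comp (hat_cont F))
      (by rw [e2]; exact im_mem hA hF)
    have r1' : ∫ y, (hat F y).re ∂ν = (Λ fun s => ((F s).re : ℂ)).re := by
      rw [r1]
      simp only [L, LinearMap.coe_mk, AddHom.coe_mk, hat_pt hA _ _ hF]
    have r2' : ∫ y, (hat F y).im ∂ν = (Λ fun s => ((F s).im : ℂ)).re := by
      rw [r2]
      simp only [L, LinearMap.coe_mk, AddHom.coe_mk, hat_pt hA _ _ hF]
    have e3 : Λ F = Λ (fun s => ((F s).re : ℂ)) + Complex.I * Λ fun s => ((F s).im : ℂ) := by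
      rw [← h2 _ _ (im_mem hA hF), ← h1 _ (re_mem hA hF) _ (smul_mem hA _ (im_mem hA hF))]
      congr 1
      funext s
      rw [mul_comm, Complex.re_add_im]
    have i1 := him _ (re_mem hA hF)
    have i2 := him _ (im_mem hA hF)
    apply Complex.ext
    · rw [e3, ← RCLike.re_to_complex, ← integral_re iF]
      simp [r1', i2]
    · rw [e3, ← RCLike.im_to_complex, ← integral_im iF]
      simp [r2', i1]
  have hle : gen A hat ≤ mB := iSup₂_le fun F _ => (hat_cont F).measurable.comap_le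
  have : IsProbabilityMeasure ν := ⟨by
    have h5 := hint _ (hA.const 1)
    simp only [(hat_ch _).const, h3, integral_const, Complex.real_smul, mul_one,
      Complex.ofReal_eq_one] at h5
    exact (ENNReal.toReal_eq_one_iff _).1 h5⟩
  refine ⟨ν.trim hle, ⟨?_⟩, fun F hF => ?_⟩
  · rw [trim_measurableSet_eq hle MeasurableSet.univ, measure_univ]
  rw [← integral_trim hle, hint F hF]
  exact Measurable.stronglyMeasurable (Measurable.of_comap_le (le_iSup₂ (f := fun F (_ : F ∈ A) =>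
    MeasurableSpace.comap (hat F) inferInstance) F hF))

instance : MeasurableSpace (Y A) := gen A hat

lemma hat_meas {F : S → ℂ} (hF : F ∈ A) : Measurable (hat (A := A) F) :=
  Measurable.of_comap_le (le_iSup₂ (f := fun F (_ : F ∈ A) =>
    MeasurableSpace.comap (hat F) inferInstance) F hF)

lemma meas_to {Z : Type} [MeasurableSpace Z] {p : Z → Y A}
    (h : ∀ F ∈ A, Measurable fun z => hat F (p z)) : Measurable p := by
  refine Measurable.of_comap_le ?_
  show MeasurableSpace.comap p (gen A hat) ≤ _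
  simp only [gen, MeasurableSpace.comap_iSup, MeasurableSpace.comap_comp]
  exact iSup₂_le fun F hF => (h F hF).comap_le

lemma hat_bdd (hA : SAlg A) {F : S → ℂ} (hF : F ∈ A) : hat F ∈ Bdd (Y A) := by
  obtain ⟨C, hC⟩ := hA.bdd F hF
  exact ⟨hat_meas hF, C, fun y => (hat_ch y).bdd F hF C hC⟩

lemma salg_im (hA : SAlg A) : SAlg (hat (A := A) '' A) where
  const c := ⟨_, hA.const c, funext fun y => (hat_ch y).const c⟩
  add := by
    rintro _ ⟨F, hF, rfl⟩ _ ⟨G, hG, rfl⟩
    exact ⟨_, hA.add F hF G hG, funext fun y => (hat_ch y).add F hF G hG⟩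
  mul := by
    rintro _ ⟨F, hF, rfl⟩ _ ⟨G, hG, rfl⟩
    exact ⟨_, hA.mul F hF G hG, funext fun y => (hat_ch y).mul F hF G hG⟩
  cj := by
    rintro _ ⟨F, hF, rfl⟩
    exact ⟨_, hA.cj F hF, funext fun y => (hat_ch y).cj F hF⟩
  bdd := by
    rintro _ ⟨F, hF, rfl⟩
    exact (hat_bdd hA hF).2

lemma gen_im : (inferInstance : MeasurableSpace (Y A)) ≤ gen (hat (A := A) '' A) id :=
  iSup₂_le fun F hF => le_iSup₂ (f := fun φ (_ : φ ∈ hat (A := A) '' A) =>
    MeasurableSpace.comap (id φ) inferInstance) (hat F) ⟨F, hF, rfl⟩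

lemma mp_of (hb : B2) (hA : SAlg A) {Z : Type} [MeasurableSpace Z] (κ : Measure Z)
    [IsProbabilityMeasure κ] (μ : Measure (Y A)) [IsProbabilityMeasure μ] {p : Z → Y A}
    (h : ∀ F ∈ A, Measurable fun z => hat F (p z))
    (hi : ∀ F ∈ A, ∫ z, hat F (p z) ∂κ = ∫ y, hat F y ∂μ) : MeasurePreserving p κ μ := by
  have hp := meas_to h
  have := Measure.isProbabilityMeasure_map (μ := κ) hp.aemeasurable
  refine ⟨hp, uniq hb (salg_im hA) ?_ gen_im _ _ ?_⟩
  · rintro _ ⟨F, hF, rfl⟩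
    exact hat_meas hF
  · rintro _ ⟨F, hF, rfl⟩
    rw [integral_map hp.aemeasurable (hat_meas hF).aestronglyMeasurable, hi F hF]

/-- composition with a map of the set that has a right inverse -/
def tr (t t' : S → S) (e : ∀ s, t (t' s) = s) (h1 : ∀ F ∈ A, (fun s => F (t s)) ∈ A)
    (h2 : ∀ F ∈ A, (fun s => F (t' s)) ∈ A) (y : Y A) : Y A :=
  show Gd A from ⟨fun F => hat (fun s => F (t s)) y,
    { const := fun c => (hat_ch y).const c
      add := fun F hF G hG => (hat_ch y).add _ (h1 F hF) _ (h1 G hG)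
      mul := fun F hF G hG => (hat_ch y).mul _ (h1 F hF) _ (h1 G hG)
      cj := fun F hF => (hat_ch y).cj _ (h1 F hF)
      bdd := fun F hF C hC => (hat_ch y).bdd _ (h1 F hF) C fun s => hC _ },
    fun F hF => hat_out y fun h => hF (by simpa only [e] using h2 _ h)⟩

lemma hat_tr (t t' : S → S) (e : ∀ s, t (t' s) = s) (h1 : ∀ F ∈ A, (fun s => F (t s)) ∈ A)
    (h2 : ∀ F ∈ A, (fun s => F (t' s)) ∈ A) (y : Y A) (F : S → ℂ) :
    hat F (tr t t' e h1 h2 y) = hat (fun s => F (t s)) y := rfl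

lemma span_le {Ω : Type} {T : Set (Ω → ℂ)} (hT : SAlg T) {φ : Ω → ℂ}
    (h : φ ∈ Submodule.span ℂ T) : φ ∈ T := by
  induction h using Submodule.span_induction with
  | mem x hx => exact hx
  | zero => exact hT.const 0
  | add x y _ _ hx hy => exact hT.add x hx y hy
  | smul c x _ hx => exact smul_mem hT c hx

lemma sq_int {Ω : Type} [MeasurableSpace Ω] (μ : Measure Ω) [IsFiniteMeasure μ] {F : Ω → ℂ}
    (h : F ∈ Bdd Ω) : Integrable (fun x => ‖F x‖ ^ 2) μ := by
  obtain ⟨h1, C, hC⟩ := h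
  refine Integrable.of_bound (h1.norm.pow_const 2).aestronglyMeasurable (C ^ 2)
    (Eventually.of_forall fun x => ?_)
  rw [norm_pow, norm_norm]
  exact pow_le_pow_left₀ (norm_nonneg _) (hC x) 2

lemma nice (hb : B2) (hA : SAlg A) (μ : Measure (Y A)) [IsProbabilityMeasure μ]
    (Z : Type) [MeasurableSpace Z] (κ : Measure Z) [IsProbabilityMeasure κ]
    (φ : (Y A → ℂ) → Z → ℂ) (h1 : ∀ z, IsChar (Bdd (Y A)) fun F => φ F z)
    (h2 : ∀ F ∈ Bdd (Y A), Measurable (φ F))
    (h3 : ∀ F ∈ Bdd (Y A), ∫ z, φ F z ∂κ = ∫ x, F x ∂μ) :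
    ∃ p : Z → Y A, MeasurePreserving p κ μ ∧
      ∀ F ∈ Bdd (Y A), (fun z => F (p z)) =ᵐ[κ] φ F := by
  have hc : ∀ z, IsChar A fun F => φ (hat F) z := fun z =>
    { const := fun c => by
        rw [show hat (A := A) (fun _ => c) = fun _ => c from funext fun y => (hat_ch y).const c]
        exact (h1 z).const c
      add := fun F hF G hG => by
        rw [show hat (A := A) (fun s => F s + G s) = fun y => hat F y + hat G y from
          funext fun y => (hat_ch y).add F hF G hG]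
        exact (h1 z).add _ (hat_bdd hA hF) _ (hat_bdd hA hG)
      mul := fun F hF G hG => by
        rw [show hat (A := A) (fun s => F s * G s) = fun y => hat F y * hat G y from
          funext fun y => (hat_ch y).mul F hF G hG]
        exact (h1 z).mul _ (hat_bdd hA hF) _ (hat_bdd hA hG)
      cj := fun F hF => by
        rw [show hat (A := A) (fun s => conj (F s)) = fun y => conj (hat F y) from
          funext fun y => (hat_ch y).cj F hF]
        exact (h1 z).cj _ (hat_bdd hA hF)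
      bdd := fun F hF C hC => (h1 z).bdd _ (hat_bdd hA hF) C fun y => (hat_ch y).bdd F hF C hC }
  let p : Z → Y A := fun z => pt hA _ (hc z)
  have hp : ∀ F ∈ A, (fun z => hat F (p z)) = φ (hat F) :=
    fun F hF => funext fun z => hat_pt hA _ (hc z) hF
  have mp : MeasurePreserving p κ μ := mp_of hb hA κ μ
    (fun F hF => by rw [hp F hF]; exact h2 _ (hat_bdd hA hF))
    (fun F hF => by rw [hp F hF]; exact h3 _ (hat_bdd hA hF))
  refine ⟨p, mp, fun F hF => ?_⟩
  have bφ : ∀ G ∈ Bdd (Y A), φ G ∈ Bdd Z := fun G hG => by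
    obtain ⟨C, hC⟩ := hG.2
    exact ⟨h2 G hG, C, fun z => (h1 z).bdd G hG C hC⟩
  have bp : ∀ G ∈ Bdd (Y A), (fun z => G (p z)) ∈ Bdd Z := fun G hG => by
    obtain ⟨C, hC⟩ := hG.2
    exact ⟨hG.1.comp mp.measurable, C, fun z => hC _⟩
  have hZ := salg_bdd Z
  have hY := salg_bdd (Y A)
  have hD := sub_mem hZ (bp F hF) (bφ F hF)
  have key : ∀ ε : ℝ, 0 < ε → ∫ z, ‖F (p z) - φ F z‖ ^ 2 ∂κ ≤ 4 * ε := by
    intro ε hε
    obtain ⟨C, hC⟩ := hF.2
    obtain ⟨G, hG, hGe⟩ := hb.d.apx μ (hat '' A) (by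
        rintro _ ⟨F, hF, rfl⟩
        exact hat_bdd hA hF) ⟨_, (salg_im hA).const 1, EventuallyEq.rfl⟩
      (fun a ha b hb => ⟨_, (salg_im hA).mul a ha b hb, EventuallyEq.rfl⟩)
      (fun a ha => ⟨_, (salg_im hA).cj a ha, EventuallyEq.rfl⟩) F
      (MemLp.of_bound hF.1.aestronglyMeasurable C (Eventually.of_forall hC))
      (hF.1.aestronglyMeasurable.mono (gen_im.trans le_sup_left)) ε hε
    obtain ⟨G0, hG0, rfl⟩ := span_le (salg_im hA) hG
    have hG := hat_bdd hA hG0
    have hd := sub_mem hY hF hG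
    have e1 : ∫ z, ‖F (p z) - hat G0 (p z)‖ ^ 2 ∂κ = ∫ y, ‖F y - hat G0 y‖ ^ 2 ∂μ := by
      conv_rhs => rw [← mp.map_eq]
      rw [integral_map mp.measurable.aemeasurable (hd.1.norm.pow_const 2).aestronglyMeasurable]
    have e2 : ∫ z, ‖φ F z - φ (hat G0) z‖ ^ 2 ∂κ = ∫ y, ‖F y - hat G0 y‖ ^ 2 ∂μ := by
      have h5 := h3 _ (hY.mul _ hd _ (hY.cj _ hd))
      have h6 : ∀ z, φ (fun y => (F y - hat G0 y) * conj (F y - hat G0 y)) z =
          ((‖φ F z - φ (hat G0) z‖ ^ 2 : ℝ) : ℂ) := fun z => by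
        rw [(h1 z).mul _ hd _ (hY.cj _ hd), (h1 z).cj _ hd, ch_sub hY (h1 z) hF hG,
          Complex.mul_conj, Complex.normSq_eq_norm_sq]
      simp only [h6] at h5
      simp only [Complex.mul_conj, Complex.normSq_eq_norm_sq] at h5
      rw [integral_complex_ofReal, integral_complex_ofReal] at h5
      exact_mod_cast h5
    have i1 := sq_int κ (sub_mem hZ (bp F hF) (bp _ hG))
    have i2 := sq_int κ (sub_mem hZ (bφ F hF) (bφ _ hG))
    calc _ ≤ ∫ z, (2 * ‖F (p z) - hat G0 (p z)‖ ^ 2 + 2 * ‖φ F z - φ (hat G0) z‖ ^ 2) ∂κ := by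
          refine integral_mono (sq_int κ hD) ((i1.const_mul 2).add (i2.const_mul 2)) fun z => ?_
          have e : F (p z) - φ F z = (F (p z) - hat G0 (p z)) - (φ F z - φ (hat G0) z) := by
            rw [← congrFun (hp G0 hG0) z]
            ring
          have h7 := norm_sub_le (F (p z) - hat G0 (p z)) (φ F z - φ (hat G0) z)
          rw [← e] at h7
          have h8 := pow_le_pow_left₀ (norm_nonneg _) h7 2
          nlinarith [sq_nonneg (‖F (p z) - hat G0 (p z)‖ - ‖φ F z - φ (hat G0) z‖)]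
      _ ≤ 4 * ε := by
          rw [integral_add (i1.const_mul 2) (i2.const_mul 2), integral_const_mul,
            integral_const_mul, e1, e2]
          linarith
  have h0 : ∫ z, ‖F (p z) - φ F z‖ ^ 2 ∂κ = 0 := by
    refine le_antisymm (le_of_forall_pos_le_add fun ε hε => ?_)
      (integral_nonneg fun z => sq_nonneg _)
    have := key (ε / 4) (by positivity)
    linarith
  rw [integral_eq_zero_iff_of_nonneg (fun z => sq_nonneg _) (sq_int κ hD)] at h0
  filter_upwards [h0] with z hz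
  simpa [sub_eq_zero] using hz

end Sp

end Real0

variable [Grp]

open Real0 in
theorem real : RealR := by
  intro hb0 S A Λ t hA h1 h2 h3 h4 h0 hadd h5 h7
  have hb : B2 := ⟨hb0.a, hb0.d⟩
  obtain ⟨μ, hμ, hi⟩ := exists_meas hA Λ h1 h2 h3 h4
  have e : ∀ n s, t n (t (-n) s) = s := fun n s => by rw [← hadd, add_neg_cancel, h0]
  let T : Γ → Y A → Y A := fun n => tr (t n) (t (-n)) (e n) (h5 n) (h5 (-n))
  have hT : ∀ n y F, hat F (T n y) = hat (fun s => F (t n s)) y := fun n y F => rfl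
  have mp : ∀ n, MeasurePreserving (T n) μ μ := fun n => mp_of hb hA μ μ
    (fun F hF => hat_meas (h5 n F hF))
    (fun F hF => (hi _ (h5 n F hF)).trans ((h7 n F hF).trans (hi F hF).symm))
  have z : ∀ y, T 0 y = y := fun y => Y_ext fun F => by simp only [hT, h0]
  have ad : ∀ n m y, T (n + m) y = T n (T m y) := fun n m y => Y_ext fun F => by
    simp only [hT, hadd]
  refine ⟨{ X := Y A, μ := μ, Tz := T, mp := mp, zero := z, add := ad }, hat, ?_, hat_ch, ?_, rfl,
    hi, fun n F hF w => rfl⟩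
  · intro Z _ κ _ φ a1 a2 a3
    exact nice hb hA μ Z κ φ a1 a2 a3
  · exact fun χ hχ => ⟨pt hA χ hχ, fun F hF => hat_pt hA χ hχ hF⟩

end T4x

end
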