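import Pool.Agent.MP_154433_an.t4.Spec

/-! Row Rep: a member of a column tuple and of a row tuple is a function of the point. -/

set_option autoImplicit false
set_option linter.unusedVariables false
set_option warn.classDefReducibility false

open MeasureTheory ProbabilityTheory Filter Topology Function Finset ComplexConjugate
open scoped BigOperators
open Fib27 (BM sup pr Oc Orow F23 LInd Mem)
open Pool.Agent.MP_154433_an.SG (Uni ufn)

noncomputable section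

namespace T4x

open T3x

namespace RepL

section Gen

variable {Ω Ω' : Type} {β : MeasurableSpace Ω} {B : MeasurableSpace Ω'} {m0 : MeasurableSpace Ω}
  {m0' : MeasurableSpace Ω'} {μ : Measure Ω} {μ' : Measure Ω'}

theorem um_bm {m : MeasurableSpace Ω} {m0 : MeasurableSpace Ω} {μ : Measure Ω} {f : Ω → ℂ}
    (h : Um m μ f) : BM μ m f := BM.of_uni h.1 h.2

theorem um_mono {m m' : MeasurableSpace Ω} {m0 : MeasurableSpace Ω} {μ : Measure Ω} {f : Ω → ℂ}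
    (h : Um m μ f) (hm : m ≤ m') : Um m' μ f := ⟨h.1.mono hm, h.2⟩

theorem um_mul {m : MeasurableSpace Ω} {m0 : MeasurableSpace Ω} {μ : Measure Ω} {f g : Ω → ℂ}
    (h : Um m μ f) (h' : Um m μ g) : Um m μ fun x => f x * g x := by
  refine ⟨h.1.mul h'.1, ?_⟩
  filter_upwards [h.2, h'.2] with x h1 h2
  rw [norm_mul, h1, h2, mul_one]

theorem um_cj {m : MeasurableSpace Ω} {m0 : MeasurableSpace Ω} {μ : Measure Ω} {f : Ω → ℂ}
    (h : Um m μ f) : Um m μ fun x => conj (f x) := by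
  refine ⟨(um_bm h).conj.1, ?_⟩
  filter_upwards [h.2] with x h1
  rw [Complex.norm_conj, h1]

theorem um_pr {ι : Type} {m : MeasurableSpace Ω} {m0 : MeasurableSpace Ω} {μ : Measure Ω}
    {f : ι → Ω → ℂ} (S : Finset ι) (h : ∀ i, Um m μ (f i)) : Um m μ (pr f S) := by
  refine ⟨(BM.pr fun i _ => um_bm (h i)).1, ?_⟩
  filter_upwards [(Finset.eventually_all S).2 fun i _ => (h i).2] with x hx
  unfold pr
  rw [norm_prod]
  exact Finset.prod_eq_one hx

theorem bm_of {m : MeasurableSpace Ω} {m0 : MeasurableSpace Ω} (μ : Measure Ω) {f : Ω → ℂ} {C : ℝ}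
    (h : Measurable[m] f) (hC : ∀ x, ‖f x‖ ≤ C) : BM μ m f :=
  ⟨h.stronglyMeasurable.aestronglyMeasurable, C, Eventually.of_forall hC⟩

theorem bm_sq {f g : Ω → ℂ} (hf : BM μ m0 f) (hg : BM μ m0 g) :
    BM μ m0 fun y => ((‖f y - g y‖ ^ 2 : ℝ) : ℂ) := by
  refine ((hf.sub hg).mul (hf.sub hg).conj).congr (Eventually.of_forall fun y => ?_)
  simp only [Complex.mul_conj, Complex.normSq_eq_norm_sq]

theorem int_sq [IsProbabilityMeasure μ] {f g : Ω → ℂ} (hf : BM μ m0 f) (hg : BM μ m0 g) :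
    Integrable (fun y => ‖f y - g y‖ ^ 2) μ := by
  have h := (bm_sq hf hg).integrable.re
  simpa only [RCLike.re_to_complex, Complex.ofReal_re] using h

/-- transfer of conditional distances along a map -/
theorem d2_comp [IsProbabilityMeasure μ] [IsProbabilityMeasure μ'] {p : Ω → Ω'}
    (hp : MeasurePreserving p μ μ')
    (hE : ∀ g, BM μ' m0' g → μ[fun x => g (p x) | β] =ᵐ[μ] fun x => (μ'[g | B]) (p x))
    {f g : Ω' → ℂ} (hf : BM μ' m0' f) (hg : BM μ' m0' g) {f' g' : Ω → ℂ}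
    (ef : f' =ᵐ[μ] fun x => f (p x)) (eg : g' =ᵐ[μ] fun x => g (p x)) :
    μ[fun y => ‖f' y - g' y‖ ^ 2 | β] =ᵐ[μ] fun x => (μ'[fun y => ‖f y - g y‖ ^ 2 | B]) (p x) := by
  have i1 := int_sq hf hg
  have i2 : Integrable (fun y => ‖f (p y) - g (p y)‖ ^ 2) μ := (hp.integrable_comp i1.1).2 i1
  have e0 : μ[fun y => ‖f' y - g' y‖ ^ 2 | β] =ᵐ[μ] μ[fun y => ‖f (p y) - g (p y)‖ ^ 2 | β] := by
    refine condExp_congr_ae ?_
    filter_upwards [ef, eg] with y h1 h2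
    rw [h1, h2]
  have h1 := Complex.ofRealCLM.comp_condExp_comm (m := β) i2
  have h2 := hp.quasiMeasurePreserving.ae (Complex.ofRealCLM.comp_condExp_comm (m := B) i1)
  have h3 := hE _ (bm_sq hf hg)
  filter_upwards [e0, h1, h2, h3] with x e0 h1 h2 h3
  rw [e0]
  apply Complex.ofReal_injective
  exact h1.trans (h3.trans h2.symm)

/-- two unimodular functions near the same function correlate -/
theorem re_ge [IsProbabilityMeasure μ] (hβ : β ≤ m0) {f g v : Ω → ℂ} (hf : Um m0 μ f)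
    (hg : Um m0 μ g) (hv : BM μ m0 v) : ∀ᵐ x ∂μ,
    1 - (μ[fun y => ‖f y - v y‖ ^ 2 | β]) x - (μ[fun y => ‖g y - v y‖ ^ 2 | β]) x ≤
      ((μ[fun y => f y * conj (g y) | β]) x).re := by
  have i1 := int_sq (um_bm hf) hv
  have i2 := int_sq (um_bm hg) hv
  have i3 := ((um_bm hf).mul (um_bm hg).conj).integrable
  have i0 : Integrable (fun _ : Ω => (1 : ℝ)) μ := integrable_const _
  have h1 := Complex.reCLM.comp_condExp_comm (m := β) i3
  have h2 := condExp_sub i0 i1 β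
  have h3 := condExp_sub (i0.sub i1) i2 β
  have h4 : μ[(fun _ : Ω => (1 : ℝ)) - (fun y => ‖f y - v y‖ ^ 2) - (fun y => ‖g y - v y‖ ^ 2) | β]
      ≤ᵐ[μ] μ[Complex.reCLM ∘ fun y => f y * conj (g y) | β] := by
    refine condExp_mono ((i0.sub i1).sub i2) (Complex.reCLM.integrable_comp i3) ?_
    filter_upwards [hf.2, hg.2] with y h1 h2
    have a1 : (f y).re ^ 2 + (f y).im ^ 2 = 1 := by
      have := Complex.sq_norm (f y)
      rw [h1, Complex.normSq_apply] at this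
      nlinarith
    have a2 : (g y).re ^ 2 + (g y).im ^ 2 = 1 := by
      have := Complex.sq_norm (g y)
      rw [h2, Complex.normSq_apply] at this
      nlinarith
    simp only [Pi.sub_apply, Function.comp_apply, Complex.reCLM_apply, Complex.sq_norm,
      Complex.normSq_apply, Complex.sub_re, Complex.sub_im, Complex.mul_re, Complex.conj_re,
      Complex.conj_im]
    nlinarith [sq_nonneg ((f y).re + (g y).re - 2 * (v y).re),
      sq_nonneg ((f y).im + (g y).im - 2 * (v y).im)]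
  filter_upwards [h1, h2, h3, h4] with x h1 h2 h3 h4
  rw [h3, ← h1] at h4
  simp only [Pi.sub_apply] at h4 h2
  rw [h2, condExp_const hβ] at h4
  exact h4

/-- the conditional probability of a set does not vanish on the set -/
theorem ce_ne [IsProbabilityMeasure μ] (hβ : β ≤ m0) {D : Set Ω} (hD : MeasurableSet D) :
    ∀ᵐ x ∂μ, x ∈ D → (μ[D.indicator fun _ => (1 : ℂ) | β]) x ≠ 0 := by
  set Z := {x | (μ[D.indicator fun _ => (1 : ℂ) | β]) x = 0} with hZ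
  have mZ : MeasurableSet[β] Z :=
    (stronglyMeasurable_condExp (m := β)).measurable (measurableSet_singleton 0)
  have h1 := setIntegral_condExp hβ (BM.indicator (κ := μ) hD).integrable mZ
  rw [setIntegral_eq_zero_of_forall_eq_zero (t := Z) fun x hx => hx, setIntegral_indicator hD,
    setIntegral_const] at h1
  have h2 : μ.real (Z ∩ D) = 0 := by simpa using h1.symm
  rw [measureReal_eq_zero_iff] at h2
  filter_upwards [measure_eq_zero_iff_ae_notMem.1 h2] with x hx h3 h4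
  exact hx ⟨h4, h3⟩

theorem pos_of {S T : Set Ω} (h : μ S ≠ 0) (hST : ∀ᵐ x ∂μ, x ∈ S → x ∈ T) : μ T ≠ 0 :=
  fun h0 => h (measure_mono_null_ae hST h0)

end Gen

variable [Grp] (F : Fd) {c : Ctx} (hG : c.GI)

theorem mA (c : Ctx) (q : c.ι) : MeasurePreserving (c.A q) c.W2.μ c.W.μ := (c.L2.emb _).mp

theorem mB (c : Ctx) (j : c.ι) : MeasurePreserving (c.Bc j) c.W2.μ c.W.μ := (c.lift j).emb.mp

theorem mP (c : Ctx) (k : c.ι) : MeasurePreserving (c.π k) c.W.μ c.X.μ := (c.L.emb _).mp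

include F

theorem facB2 (c : Ctx) : Fac c.W c.B2 := (F.h.kc c.W _ c.L.nice (F.lb.fac c.L c.B c.kc.1)).1

theorem leβ (c : Ctx) : c.β ≤ c.W2.ms :=
  (F.h.kc c.W2 _ c.L2.nice (F.lb.fac c.L2 c.B2 (facB2 F c))).1.le

theorem leP (c : Ctx) (k : c.ι) : c.P k ≤ c.W.ms := F.a.pull_le _ _ _ _ (mP c k) le_rfl

theorem leG (c : Ctx) (q j : c.ι) : c.G q j ≤ c.W2.ms :=
  F.a.pull_le _ _ _ _ ((mP c j).comp (mA c q)) le_rfl

theorem tup_um {φ : c.ι → c.W.X → ℂ} (h : c.Tup1 φ) (k : c.ι) : Um c.W.ms c.W.μ (φ k) :=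
  um_mono (h k) (sup_le (leP F c k) (facB2 F c).le)

theorem um_comp {p : c.W2.X → c.W.X} (hp : MeasurePreserving p c.W2.μ c.W.μ) (k : c.ι)
    {φ : c.W.X → ℂ} (h : Um (c.P k ⊔ c.B2) c.W.μ φ) :
    Um (pull c.W2.μ p (c.P k ⊔ c.B2)) c.W2.μ fun x => φ (p x) :=
  ⟨(F.a.bm_comp _ _ _ p φ hp (um_bm h)).1, hp.quasiMeasurePreserving.ae h.2⟩

theorem bm_top {p : c.W2.X → c.W.X} (hp : MeasurePreserving p c.W2.μ c.W.μ) {φ : c.W.X → ℂ}
    (h : BM c.W.μ c.W.ms φ) : BM c.W2.μ c.W2.ms fun x => φ (p x) :=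
  (F.a.bm_comp _ _ _ p φ hp h).mono (F.a.pull_le _ _ _ _ hp le_rfl)

include hG

theorem G_eq (q j : c.ι) : c.G q j = pull c.W2.μ (c.Bc j) (c.P q) := by
  have h1 : pull c.W2.μ (c.Bc j) (c.P q) = pull c.W2.μ (c.π q ∘ c.Bc j) c.X.ms :=
    F.a.pull_comp _ _ _ _ _ (mB c j)
  rw [h1]
  exact F.a.keq_pull _ _ _ _ ((mP c j).comp (mA c q)).measurable.comap_le
    ((mP c q).comp (mB c j)).measurable.comap_le (hG.col q j)

theorem um_col {φ : c.ι → c.W.X → ℂ} (h : c.Tup1 φ) (k i : c.ι) :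
    Um (c.G k i ⊔ c.β) c.W2.μ fun x => φ k (c.Bc i x) := by
  refine um_mono (um_comp F (mB c i) k (h k)) ?_
  rw [F.a.pull_sup, G_eq F hG]
  exact sup_le_sup_left (hG.colB i) _

theorem um_row {φ : c.ι → c.W.X → ℂ} (h : c.Tup1 φ) (k i : c.ι) :
    Um (c.G k i ⊔ c.β) c.W2.μ fun x => φ i (c.A k x) := by
  refine um_mono (um_comp F (mA c k) i (h i)) ?_
  have h1 : pull c.W2.μ (c.A k) (c.P i) = c.G k i := F.a.pull_comp _ _ _ _ _ (mA c k)
  rw [F.a.pull_sup, h1]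
  exact sup_le_sup_left (hG.rowB k) _

theorem clG (k : c.ι) : CLine c.β (c.G k) c.W2.μ := by
  intro S hS f hf
  refine hG.cols S hS f fun i hi => (hf i hi).mono ?_
  rw [G_eq F hG]
  exact sup_le_sup_right (MeasurableSpace.comap_mono (leP F c k)) _

omit F in
theorem msA (q : c.ι) {D : Set c.W.X} (hD : MeasurableSet[c.B2] D) :
    MeasurableSet[c.β] (c.A q ⁻¹' D) :=
  (le_sup_left.trans (hG.rowB q) : c.B2.comap (c.A q) ≤ c.β) _ ⟨D, hD, rfl⟩

omit F in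
theorem msB (j : c.ι) {D : Set c.W.X} (hD : MeasurableSet[c.B2] D) :
    MeasurableSet[c.β] (c.Bc j ⁻¹' D) :=
  (le_sup_left.trans (hG.colB j) : c.B2.comap (c.Bc j) ≤ c.β) _ ⟨D, hD, rfl⟩

/-- a column member and a row member that correlate agree up to the base -/
theorem mat (R : Rc) (hF : c.Full c.Tup1) (j k : c.ι) {φ φ' : c.ι → c.W.X → ℂ} (h : c.Tup1 φ)
    (h' : c.Tup1 φ') {M : Set c.W2.X} (mM : MeasurableSet[c.β] M)
    (M1 : ∀ᵐ x ∂c.W2.μ, x ∈ M → c.Bc j x ∈ c.Θ φ) (M2 : ∀ᵐ x ∂c.W2.μ, x ∈ M → c.A k x ∈ c.Θ φ')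
    (hne : ∀ᵐ x ∂c.W2.μ, x ∈ M →
      (c.W2.μ[fun y => φ k (c.Bc j y) * conj (φ' j (c.A k y)) | c.β]) x ≠ 0) :
    ∀ᵐ x ∂c.W2.μ, x ∈ M → x ∈ Th c.β c.W2.μ fun y => φ k (c.Bc j y) * conj (φ' j (c.A k y)) := by
  have hβ := leβ F c
  have top : ∀ i, c.G k i ⊔ c.β ≤ c.W2.ms := fun i => sup_le (leG F c k i) hβ
  set T := Th c.β c.W2.μ fun y => φ k (c.Bc j y) * conj (φ' j (c.A k y)) with hT
  have mT : MeasurableSet[c.β] T := R.meas _ _ _
  suffices h0 : c.W2.μ (M \ T) = 0 by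
    filter_upwards [measure_eq_zero_iff_ae_notMem.1 h0] with x hx h1
    by_contra h2
    exact hx ⟨h1, h2⟩
  by_contra h0
  set a : c.ι → c.W2.X → ℂ := fun i x => φ' i (c.A k x) with ha
  have ua : ∀ i, Um (c.G k i ⊔ c.β) c.W2.μ (a i) := fun i => um_row F hG h' k i
  have ua' : ∀ i, Um c.W2.ms c.W2.μ (a i) := fun i => um_mono (ua i) (top i)
  have uR : Um c.W2.ms c.W2.μ (pr a univ) := um_pr _ ua'
  have uφ : Um c.W2.ms c.W2.μ fun y => φ k (c.Bc j y) := um_mono (um_col F hG h k j) (top j)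
  have MR : ∀ᵐ x ∂c.W2.μ, x ∈ M → x ∈ Th c.β c.W2.μ (pr a univ) := by
    filter_upwards [M2, hG.rowE k _ (um_bm (um_pr univ (tup_um F h')))] with x h1 h2 hx
    have h3 : ‖(c.W.μ[pr φ' univ | c.B2]) (c.A k x)‖ = 1 := h1 hx
    rw [← h2] at h3
    exact h3
  have loc := R.loc c.β c.W2.μ (fun y => φ k (c.Bc j y) * pr a (univ.erase j) y)
    (fun y => φ k (c.Bc j y) * conj (φ' j (c.A k y))) (c.W2.μ[pr a univ | c.β]) M hβ
    ((um_bm uφ).mul (um_bm (um_pr _ ua'))) ((um_bm uφ).mul (um_bm (ua' j)).conj)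
    ((um_bm uR).ce _) mM (by
      filter_upwards [MR, R.eq c.β c.W2.μ _ hβ uR, (ua' j).2] with x h1 h2 h3 hx
      rw [← h2 (h1 hx), Fib27.pr_erase a (mem_univ j)]
      have h4 : a j x * conj (a j x) = 1 := by
        rw [Complex.mul_conj, Complex.normSq_eq_norm_sq, h3]; simp
      show _ = a j x * pr a (univ.erase j) x * (φ k (c.Bc j x) * conj (a j x))
      linear_combination (-(φ k (c.Bc j x) * pr a (univ.erase j) x)) * h4)
  obtain ⟨E', Φ, mE, sE, pE, tΦ, eΦ, -, hΦ⟩ := hF k j φ (M \ T) a h (mM.diff mT)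
    (by filter_upwards [M1] with x h1 hx; exact h1 hx.1) (fun i => um_bm (ua i))
    (pos_of h0 (by
      filter_upwards [loc, MR, hne] with x h1 h2 h3 hx
      refine ⟨hx, ?_⟩
      show _ ≠ 0
      rw [h1 hx.1]
      refine mul_ne_zero (fun h4 => ?_) (h3 hx.1)
      have h5 : ‖(c.W2.μ[pr a univ | c.β]) x‖ = 1 := h2 hx.1
      rw [h4, norm_zero] at h5
      exact zero_ne_one h5))
  set χ : c.ι → c.W2.X → ℂ := fun i x => Φ i k (c.Bc i x) * conj (a i x) with hχ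
  have uc : ∀ i, Um (c.G k i ⊔ c.β) c.W2.μ fun x => Φ i k (c.Bc i x) :=
    fun i => um_col F hG (tΦ i) k i
  have eχ : pr χ univ = fun x => pr (fun i x => Φ i k (c.Bc i x)) univ x * conj (pr a univ x) := by
    funext x
    simp only [pr, hχ, prod_mul_distrib, map_prod]
  have cm := R.cm c.β (c.G k) c.W2.μ χ hβ (leG F c k) c.three (clG F hG k)
    (fun i => um_mul (uc i) (um_cj (ua i))) j
  have mu := R.mul c.β c.W2.μ _ _ hβ (um_pr univ fun i => um_mono (uc i) (top i)) (um_cj uR)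
  have ej : χ j = fun y => φ k (c.Bc j y) * conj (φ' j (c.A k y)) := by
    funext y
    simp only [hχ, ha, eΦ]
  rw [eχ, ej] at cm
  refine pE (measure_eq_zero_iff_ae_notMem.2 ?_)
  filter_upwards [cm, mu, hΦ k, MR, R.cj c.β c.W2.μ _ hβ uR, hne] with x h1 h2 h3 h4 h5 h6 hx
  have hx' := sE hx
  have h7 := h1 (h2 ⟨h3 hx, h5.mpr (h4 hx'.1)⟩) (h6 hx'.1) j
  rw [ej] at h7
  exact hx'.2 h7

omit hG in
/-- conditioning on the column -/
theorem col (j k : c.ι) {f1 f2 : c.W.X → ℂ} (b1 : BM c.W.μ c.W.ms f1) (b2 : BM c.W.μ c.W.ms f2)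
    {D D' : Set c.W.X} (mD : MeasurableSet D) (mD' : MeasurableSet D')
    (h : ∀ᵐ x ∂c.W2.μ, c.A k x ∈ D → c.Bc j x ∈ D' → f1 (c.Bc j x) = f2 (c.A k x)) :
    ∃ g : c.X.X → ℂ, Measurable g ∧
      ∀ᵐ x ∂c.W2.μ, c.A k x ∈ D → c.Bc j x ∈ D' → f1 (c.Bc j x) = g (c.π j (c.A k x)) := by
  have key : ∀ u, BM c.W.μ c.W.ms u → ∃ u0 : c.X.X → ℂ, Measurable u0 ∧
      c.W.μ[u | c.P j] =ᵐ[c.W.μ] (fun w => u0 (c.π j w)) ∧
      c.W2.μ[fun x => u (c.A k x) | pull c.W2.μ (c.Bc j) c.W.ms] =ᵐ[c.W2.μ]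
        fun x => u0 (c.π j (c.A k x)) := by
    intro u hu
    obtain ⟨h1, C, hC⟩ := hu.ce (c.P j)
    obtain ⟨u0, m0, b0, e0⟩ := F.a.fact c.X.ms c.W.μ (c.π j) _ (max C 0)
      (mP c j).measurable.comap_le (le_max_right _ _) h1
      (hC.mono fun x hx => hx.trans (le_max_left _ _))
    exact ⟨u0, m0, e0, F.ld.cs c.L2 c.L (c.π j) (c.Bc j) (c.sl k) (c.L.emb _) (c.lift j) u u0 hu
      (bm_of _ m0 b0) e0.symm⟩
  have i1 : BM c.W.μ c.W.ms (D.indicator fun _ => (1 : ℂ)) := BM.indicator mD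
  have i2 : BM c.W.μ c.W.ms (D'.indicator fun _ => (1 : ℂ)) := BM.indicator mD'
  obtain ⟨α, mα, eα, cα⟩ := key _ i1
  obtain ⟨γ, mγ, -, cγ⟩ := key _ (i1.mul b2)
  refine ⟨fun x => γ x / α x, mγ.div mα, ?_⟩
  have hY : pull c.W2.μ (c.Bc j) c.W.ms ≤ c.W2.ms := F.a.pull_le _ _ _ _ (mB c j) le_rfl
  have c1 := Fib27.ce_mul hY (F.a.bm_comp _ _ _ _ _ (mB c j) (i2.mul b1)) (bm_top F (mA c k) i1)
  have c2 := Fib27.ce_mul hY (F.a.bm_comp _ _ _ _ _ (mB c j) i2) (bm_top F (mA c k) (i1.mul b2))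
  have c3 : c.W2.μ[fun x => D'.indicator (fun _ => (1 : ℂ)) (c.Bc j x) * f1 (c.Bc j x) *
      D.indicator (fun _ => (1 : ℂ)) (c.A k x) | pull c.W2.μ (c.Bc j) c.W.ms] =ᵐ[c.W2.μ]
      c.W2.μ[fun x => D'.indicator (fun _ => (1 : ℂ)) (c.Bc j x) *
        (D.indicator (fun _ => (1 : ℂ)) (c.A k x) * f2 (c.A k x)) |
          pull c.W2.μ (c.Bc j) c.W.ms] := by
    refine condExp_congr_ae ?_
    filter_upwards [h] with x hx
    by_cases h1 : c.A k x ∈ D
    · by_cases h2 : c.Bc j x ∈ D'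
      · simp [h1, h2, hx h1 h2]
      · simp [h2]
    · simp [h1]
  have ne := (mA c k).quasiMeasurePreserving.ae ((ce_ne (leP F c j) mD).and eα)
  filter_upwards [c1, c2, c3, cα, cγ, ne] with x c1 c2 c3 cα cγ ne h1 h2
  have n1 : α (c.π j (c.A k x)) ≠ 0 := by
    have := ne.1 h1
    rwa [ne.2] at this
  rw [c1, c2, cα, cγ] at c3
  simp only [Set.indicator_of_mem h2, one_mul] at c3
  rw [eq_div_iff n1]
  exact c3

end RepL

variable [Grp]

open RepL in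
theorem rep : RepR := by
  intro F R Sel Apx c hG hF j k Φ E tΦ mE pE E1 E2
  have hβ := leβ F c
  have hB := (facB2 F c).le
  have top : ∀ i, c.G k i ⊔ c.β ≤ c.W2.ms := fun i => sup_le (leG F c k i) hβ
  have uc : ∀ i, Um (c.G k i ⊔ c.β) c.W2.μ fun x => Φ i k (c.Bc i x) :=
    fun i => um_col F hG (tΦ i) k i
  obtain ⟨v, v0, E', lv, l0, mE', sE, pE', hE'⟩ := Apx c.β (c.G k) c.W2.μ
    (fun i x => Φ i k (c.Bc i x)) E (1 / 100) hβ (leG F c k) uc mE pE E2 (by norm_num)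
  have fa : ∀ i (z : c.W2.X → ℂ), Lb (c.G k i) c.W2.μ z → ∃ u : c.X.X → ℂ, Measurable u ∧
      (∀ x, ‖u x‖ ≤ 1) ∧ z =ᵐ[c.W2.μ] fun x => u (c.π i (c.A k x)) := fun i z hz =>
    F.a.fact c.X.ms c.W2.μ (c.π i ∘ c.A k) z 1 ((mP c i).comp (mA c k)).measurable.comap_le
      zero_le_one hz.1 (Eventually.of_forall hz.2)
  choose u mu bu eu using fun n i => fa i _ (lv n i)
  choose u0 mu0 bu0 eu0 using fun i => fa i _ (l0 i)
  have lb : ∀ (i : c.ι) (z : c.X.X → ℂ), Measurable z → (∀ x, ‖z x‖ ≤ 1) →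
      BM c.W.μ (c.P i) fun w => z (c.π i w) := fun i z mz bz =>
    F.a.bm_comp c.X.ms c.W.μ c.X.μ (c.π i) z (mP c i) (bm_of _ mz bz)
  set w : ℕ → c.ι → c.W.X → ℂ := fun n i y => u n i (c.π i y) with hw
  set w0 : c.ι → c.W.X → ℂ := fun i y => u0 i (c.π i y) with hw0
  have bw : ∀ n i, BM c.W.μ c.W.ms (w n i) :=
    fun n i => (lb i _ (mu n i) (bu n i)).mono (leP F c i)
  have bw0 : ∀ i, BM c.W.μ c.W.ms (w0 i) := fun i => (lb i _ (mu0 i) (bu0 i)).mono (leP F c i)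
  obtain ⟨φ, tφ, hφ⟩ := Sel c.B2 c.P c.W.μ w w0 (1 / 100) hB (leP F c) c.three hG.cline
    (fun n i => ⟨(lb i _ (mu n i) (bu n i)).1, fun y => bu n i _⟩)
    (fun i => ⟨(lb i _ (mu0 i) (bu0 i)).1, fun y => bu0 i _⟩) (by norm_num) le_rfl
  have ds : ∀ᵐ x ∂c.W2.μ, x ∈ DS c.β c.W2.μ v v0 (1 / 100) →
      c.A k x ∈ DS c.B2 c.W.μ w w0 (1 / 100) := by
    have d1 : ∀ n, c.W2.μ[pr (v n) univ | c.β] =ᵐ[c.W2.μ]
        fun x => (c.W.μ[pr (w n) univ | c.B2]) (c.A k x) := fun n =>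
      (condExp_congr_ae (Fib27.pr_congr_ae fun i _ => eu n i)).trans
        (hG.rowE k _ (BM.pr fun i _ => bw n i))
    have d2 := fun n i => d2_comp (mA c k) (hG.rowE k) (bw n i) (bw0 i) (eu n i) (eu0 i)
    filter_upwards [ae_all_iff.2 d1, ae_all_iff.2 fun n => ae_all_iff.2 (d2 n)] with x h1 h2 hx
    simp only [DS, Set.mem_iInter, Set.mem_iUnion, Set.mem_ofPred_eq] at hx ⊢
    intro n
    obtain ⟨i, h3, h4⟩ := hx n
    exact ⟨i, h1 i ▸ h3, fun l => h2 i l ▸ h4 l⟩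
  set r := c.W.μ[fun y => φ j y * conj (w0 j y) | c.B2] with hr
  set s := c.W.μ[fun y => ‖φ j y - w0 j y‖ ^ 2 | c.B2] with hs
  set z : c.W.X → ℂ := fun y => u0 j (c.π k y) with hz
  have bz : BM c.W.μ c.W.ms z := (lb k _ (mu0 j) (bu0 j)).mono (leP F c k)
  set κ := c.W.μ[fun y => Φ j k y * conj (z y) | c.B2] with hκ
  set s' := c.W.μ[fun y => ‖Φ j k y - z y‖ ^ 2 | c.B2] with hs'
  have mr : Measurable[c.B2] r := stronglyMeasurable_condExp.measurable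
  have ms : Measurable[c.B2] s := stronglyMeasurable_condExp.measurable
  have mκ : Measurable[c.B2] κ := stronglyMeasurable_condExp.measurable
  have ms' : Measurable[c.B2] s' := stronglyMeasurable_condExp.measurable
  set D : Set c.W.X := c.Θ φ ∩ (r ⁻¹' {t | t.im = 0 ∧ 1 - 1 / 100 ≤ t.re} ∩
    s ⁻¹' Set.Iic ((1 / 100) ^ 2)) with hD
  set D' : Set c.W.X := c.Θ (Φ j) ∩ s' ⁻¹' Set.Iic ((1 / 100) ^ 2) with hD'
  have mD : MeasurableSet[c.B2] D := (R.meas _ _ _).inter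
    ((mr ((measurableSet_eq_fun Complex.measurable_im measurable_const).inter
      (measurableSet_le measurable_const Complex.measurable_re))).inter (ms measurableSet_Iic))
  have mD' : MeasurableSet[c.B2] D' := (R.meas _ _ _).inter (ms' measurableSet_Iic)
  have kq : ∀ y : c.X.X → ℂ, Measurable y →
      (fun x => y (c.π j (c.A k x))) =ᵐ[c.W2.μ] fun x => y (c.π k (c.Bc j x)) := fun y my =>
    F.a.keq_fun c.X.ms c.W2.μ c.X.μ _ _ y ((mP c j).comp (mA c k)) ((mP c k).comp (mB c j))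
      (hG.col k j) my.aestronglyMeasurable
  have ez : v0 j =ᵐ[c.W2.μ] fun x => z (c.Bc j x) := (eu0 j).trans (kq _ (mu0 j))
  have uΦ := tup_um F (tΦ j) k
  have uφ := tup_um F tφ j
  have s1 := d2_comp (mB c j) (hG.colE j) (um_bm uΦ) bz (EventuallyEq.refl _ _) ez
  have s2 := d2_comp (mA c k) (hG.rowE k) (um_bm uφ) (bw0 j) (EventuallyEq.refl _ _) (eu0 j)
  set M : Set c.W2.X := c.A k ⁻¹' D ∩ c.Bc j ⁻¹' D' with hM
  have mM : MeasurableSet[c.β] M := (msA hG k mD).inter (msB hG j mD')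
  have EM : ∀ᵐ x ∂c.W2.μ, x ∈ E' → x ∈ M := by
    filter_upwards [hE', ds, (mA c k).quasiMeasurePreserving.ae hφ, E1, s1] with x h1 h2 h3 h4 h5 hx
    obtain ⟨h6, h7⟩ := h3 (h2 (h1 hx).1)
    refine ⟨⟨h6, ⟨(h7 j).1, (h7 j).2.1⟩, (h7 j).2.2⟩, h4 (sE hx), ?_⟩
    exact h5.symm.trans_le ((h1 hx).2 j)
  have u1 : Um c.W2.ms c.W2.μ fun x => Φ j k (c.Bc j x) := um_mono (uc j) (top j)
  have u2 : Um c.W2.ms c.W2.μ fun x => φ j (c.A k x) := um_mono (um_row F hG tφ k j) (top j)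
  have b0 : BM c.W2.μ c.W2.ms (v0 j) := (bm_top F (mB c j) bz).congr ez.symm
  have mt := mat F hG R hF j k (tΦ j) tφ mM (Eventually.of_forall fun x hx => hx.2.1)
    (Eventually.of_forall fun x hx => hx.1.1) (by
      filter_upwards [re_ge hβ u1 u2 b0, s1, s2] with x h1 h2 h3 hx h4
      have h5 : s' (c.Bc j x) ≤ (1 / 100) ^ 2 := hx.2.2
      have h6 : s (c.A k x) ≤ (1 / 100) ^ 2 := hx.1.2.2
      rw [h2, h3, h4, Complex.zero_re] at h1
      linarith)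
  set t := c.W2.μ[fun y => Φ j k (c.Bc j y) * conj (φ j (c.A k y)) | c.β] with ht
  have u3 := um_mul u1 (um_cj u2)
  have e1 : ∀ᵐ x ∂c.W2.μ, x ∈ M → Φ j k (c.Bc j x) = t x * φ j (c.A k x) ∧ ‖t x‖ = 1 := by
    filter_upwards [mt, R.eq c.β c.W2.μ _ hβ u3, u2.2] with x h1 h2 h3 hx
    refine ⟨?_, h1 hx⟩
    have h4 : φ j (c.A k x) * conj (φ j (c.A k x)) = 1 := by
      rw [Complex.mul_conj, Complex.normSq_eq_norm_sq, h3]; simp
    have h5 : Φ j k (c.Bc j x) * conj (φ j (c.A k x)) = t x := h2 (h1 hx)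
    linear_combination φ j (c.A k x) * h5 - Φ j k (c.Bc j x) * h4
  have loc := R.loc c.β c.W2.μ (fun y => Φ j k (c.Bc j y) * conj (z (c.Bc j y)))
    (fun y => φ j (c.A k y) * conj (w0 j (c.A k y))) t M hβ
    (bm_top F (mB c j) ((um_bm uΦ).mul bz.conj)) (bm_top F (mA c k) ((um_bm uφ).mul (bw0 j).conj))
    ((um_bm u3).ce _) mM (by
      filter_upwards [e1, kq _ (mu0 j)] with x h1 h2 hx
      have h3 : w0 j (c.A k x) = z (c.Bc j x) := h2
      rw [(h1 hx).1, h3, mul_assoc])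
  set ρ : c.W.X → ℂ := fun y => κ y / (‖κ y‖ : ℂ) with hρ
  have bρ : BM c.W.μ c.B2 ρ := by
    have mq : Measurable fun t : ℂ => t / (‖t‖ : ℂ) :=
      measurable_id.div (Complex.measurable_ofReal.comp measurable_norm)
    refine bm_of (C := 1) _ (mq.comp mκ) fun y => ?_
    simp only [hρ, norm_div, Complex.norm_real, norm_norm]
    exact div_self_le_one _
  have e2 : ∀ᵐ x ∂c.W2.μ, x ∈ M → ρ (c.Bc j x) = t x := by
    filter_upwards [e1, loc, hG.colE j _ ((um_bm uΦ).mul bz.conj),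
      hG.rowE k _ ((um_bm uφ).mul (bw0 j).conj)] with x h1 h2 h3 h4 hx
    have h5 : κ (c.Bc j x) = t x * r (c.A k x) := by
      have := h2 hx
      rw [h3, h4] at this
      exact this
    obtain ⟨h6, h7⟩ : (r (c.A k x)).im = 0 ∧ 1 - 1 / 100 ≤ (r (c.A k x)).re := hx.1.2.1
    have h8 : r (c.A k x) = ((r (c.A k x)).re : ℂ) := Complex.ext (by simp) (by simp [h6])
    have h9 : 0 < (r (c.A k x)).re := by linarith
    have h10 : ‖κ (c.Bc j x)‖ = (r (c.A k x)).re := by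
      rw [h5, norm_mul, (h1 hx).2, one_mul, h8, Complex.norm_real, Complex.ofReal_re,
        Real.norm_of_nonneg h9.le]
    show κ (c.Bc j x) / (‖κ (c.Bc j x)‖ : ℂ) = _
    rw [h10, h5, ← h8, mul_div_assoc, div_self, mul_one]
    intro h0
    rw [h0, Complex.zero_re] at h9
    exact lt_irrefl _ h9
  have e3 : ∀ᵐ x ∂c.W2.μ, x ∈ M → Φ j k (c.Bc j x) * conj (ρ (c.Bc j x)) = φ j (c.A k x) := by
    filter_upwards [e1, e2] with x h1 h2 hx
    have h4 : t x * conj (t x) = 1 := by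
      rw [Complex.mul_conj, Complex.normSq_eq_norm_sq, (h1 hx).2]; simp
    rw [h2 hx, (h1 hx).1]
    linear_combination φ j (c.A k x) * h4
  obtain ⟨g0, mg, eg⟩ := col F j k (f1 := fun y => Φ j k y * conj (ρ y))
    ((um_bm uΦ).mul (bρ.mono hB).conj) (um_bm uφ) (hB _ mD) (hB _ mD')
    (e3.mono fun x hx h1 h2 => hx ⟨h1, h2⟩)
  classical
  set g1 : c.X.X → ℂ := fun x => if ‖g0 x‖ = 1 then g0 x else 1 with hg1
  have n1 : ∀ x, ‖g1 x‖ = 1 := fun x => by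
    simp only [hg1]
    split_ifs with h
    · exact h
    · exact norm_one
  have m1 : Measurable g1 :=
    Measurable.ite (measurableSet_eq_fun mg.norm measurable_const) mg measurable_const
  let g : Uni c.X.X := ⟨fun x => ⟨g1 x, mem_sphere_zero_iff_norm.2 (n1 x)⟩, m1⟩
  refine ⟨E', g, mE', sE, pE', ?_⟩
  have ug : Um c.W2.ms c.W2.μ fun x => g1 (c.π k (c.Bc j x)) :=
    ⟨(m1.comp ((mP c k).comp (mB c j)).measurable).aestronglyMeasurable,
      Eventually.of_forall fun x => n1 _⟩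
  refine R.of c.β c.W2.μ _ (fun x => ρ (c.Bc j x)) E' hβ (um_mul u1 (um_cj ug))
    ((F.a.bm_comp _ _ _ _ _ (mB c j) bρ).mono (hG.colB j)) mE' ?_
  filter_upwards [EM, eg, e3, kq _ mg, u1.2, u2.2] with x h1 h2 h3 h4 h5 h6 hx
  have hx' := h1 hx
  have h7 : Φ j k (c.Bc j x) * conj (ρ (c.Bc j x)) = g0 (c.π k (c.Bc j x)) :=
    (h2 hx'.1 hx'.2).trans h4
  have h8 : g1 (c.π k (c.Bc j x)) = g0 (c.π k (c.Bc j x)) := by
    simp only [hg1]
    rw [if_pos]
    rw [← h7, h3 hx', h6]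
  have h9 : Φ j k (c.Bc j x) * conj (Φ j k (c.Bc j x)) = 1 := by
    rw [Complex.mul_conj, Complex.normSq_eq_norm_sq, h5]; simp
  show Φ j k (c.Bc j x) * conj (g1 (c.π k (c.Bc j x))) = _
  rw [h8, ← h7, map_mul, Complex.conj_conj]
  linear_combination ρ (c.Bc j x) * h9

end T4x

end
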