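import Pool.Agent.MP_154433_an.t4.Spec

/-! Reduction to the normal form: restrict the action to a subgroup and recentre. -/

set_option autoImplicit false
set_option linter.unusedVariables false
set_option warn.classDefReducibility false

open MeasureTheory ProbabilityTheory Filter Topology Function Finset ComplexConjugate
open scoped BigOperators
open Fib27 (BM sup pr Oc Orow F23 LInd Mem)

noncomputable section

namespace T4x

open T3x

namespace Resx

/-- a subgroup with the directions it contains -/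
def sub (G : Grp) (K : AddSubgroup G.Γ) : Grp where
  Γ := K
  𝒰 := {g : K | g.1 ∈ G.𝒰}

/-- the action restricted to a subgroup -/
def rs (G : Grp) (K : AddSubgroup G.Γ) (X : @Sys G) : @Sys (sub G K) :=
  @Sys.mk (sub G K) X.X X.ms X.μ X.pr (fun g : K => X.Tz g.1) (fun g : K => X.mp g.1)
    (fun x => X.zero x) (fun (g h : K) x => X.add g.1 h.1 x)

theorem nice_rs (G : Grp) (K : AddSubgroup G.Γ) (X : @Sys G) (h : @Nice G X) :
    @Nice (sub G K) (rs G K X) := h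

theorem fac_rs (G : Grp) (K : AddSubgroup G.Γ) (X : @Sys G) (B : MeasurableSpace X.X)
    (h : @Fac G X B) : @Fac (sub G K) (rs G K X) B :=
  @Fac.mk (sub G K) (rs G K X) B h.le h.nl (fun g : K => h.inv g.1)

theorem kc_rs (G : Grp) (K : AddSubgroup G.Γ) (X : @Sys G) (B : MeasurableSpace X.X)
    (h : @KC G X B) : @KC (sub G K) (rs G K X) B :=
  ⟨fac_rs G K X B h.1, fun (u : K) hu => h.2 u.1 hu⟩

/-- the finite-level integral is unchanged by a common shift of all slots -/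
theorem shift [G : Grp] (hT : BasT) (X : Sys) (B : MeasurableSpace X.X) (hB : Fac X B)
    {ι : Type} (S : Finset ι) (f : ι → X.X → ℂ) (hf : ∀ i ∈ S, BM X.μ X.ms (f i))
    (a : ι → Γ) (c : Γ) :
    ∫ x, ‖(X.μ[fun y => ∏ i ∈ S, f i (X.Tz (a i + c) y) | B]) x -
      ∏ i ∈ S, (X.μ[f i | B]) (X.Tz (a i + c) x)‖ ^ 2 ∂X.μ =
    ∫ x, ‖(X.μ[fun y => ∏ i ∈ S, f i (X.Tz (a i) y) | B]) x -
      ∏ i ∈ S, (X.μ[f i | B]) (X.Tz (a i) x)‖ ^ 2 ∂X.μ := by
  have hb : BM X.μ X.ms (pr (fun i y => f i (X.Tz (a i) y)) S) :=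
    Fib27.BM.pr fun i hi => hT.bm X X.ms (a i) (f i) (hT.top X) (hf i hi)
  have hce := hT.ce X B c (fun y => ∏ i ∈ S, f i (X.Tz (a i) y)) hB hb.integrable
  have hmp : @MeasurePreserving _ _ X.ms X.ms (X.eq c) X.μ X.μ := X.mp c
  rw [← @MeasurePreserving.integral_comp' _ _ _ _ X.ms X.μ _ X.ms X.μ (X.eq c) hmp (fun x => ‖(X.μ[fun y => ∏ i ∈ S, f i (X.Tz (a i) y) | B]) x -
      ∏ i ∈ S, (X.μ[f i | B]) (X.Tz (a i) x)‖ ^ 2)]
  simp only [X.add]
  refine integral_congr_ae ?_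
  filter_upwards [hce] with x hx
  rw [hx]
  rfl

theorem top_of {A : Type} [AddCommGroup A] (E : Set A) (K : AddSubgroup (AddSubgroup.closure E))
    (h : ∀ a (ha : a ∈ E), (⟨a, AddSubgroup.subset_closure ha⟩ : AddSubgroup.closure E) ∈ K) :
    K = ⊤ := by
  rw [eq_top_iff, ← AddSubgroup.closure_closure_coe_preimage, AddSubgroup.closure_le]
  intro a ha
  exact h a.1 ha

/-- the recentred slots are in normal form -/
theorem nrm (G : Grp) {ι : Type} (sl : ι → @Slot G) (S : Finset ι) (hc : @Cov G ι sl S)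
    (v0 : G.Γ) (hv : ((∃ i1 ∈ S, v0 = (sl i1).1) ∧ ∀ i ∈ S, ∀ j ∈ S, (sl i).2 = (sl j).2) ∨
      (v0 = 0 ∧ ∀ i ∈ S, ∃ j ∈ S, (sl i).2 ≠ (sl j).2)) :
    @Nrm (sub G (AddSubgroup.closure ((fun k => (sl k).1 - v0) '' S))) S _
      (fun k : S => ((⟨(sl k).1 - v0, AddSubgroup.subset_closure ⟨k.1, k.2, rfl⟩⟩ :
        AddSubgroup.closure ((fun k => (sl k).1 - v0) '' S)), (sl k).2)) := by
  refine @Nrm.mk (sub G _) S _ _ ?_ ?_ ?_
  · intro i _ j _ hij
    have hij' : i.1 ≠ j.1 := fun h => hij (Subtype.ext h)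
    have h := hc i.1 i.2 j.1 j.2 hij'
    refine ⟨fun h2 => ?_, fun h2 => ?_⟩
    · have h3 := h.1 h2
      show (sl i).1 - v0 - ((sl j).1 - v0) ∈ G.𝒰
      rw [sub_sub_sub_cancel_right]
      exact h3
    · have h3 := h.2 h2
      show (sl i).1 - v0 ∈ G.𝒰
      rcases hv with ⟨_, h4⟩ | ⟨h4, _⟩
      · exact absurd (h4 i.1 i.2 j.1 j.2) h2
      · rw [h4, sub_zero]; exact h3
  · intro i
    rcases hv with ⟨⟨i1, h1, h5⟩, h4⟩ | ⟨h4, h5⟩
    · by_cases h : i.1 = i1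
      · right
        refine Subtype.ext ?_
        show (sl i).1 - v0 = 0
        rw [h5, h, sub_self]
      · left
        show (sl i).1 - v0 ∈ G.𝒰
        rw [h5]
        exact (hc i.1 i.2 i1 h1 h).1 (h4 i.1 i.2 i1 h1)
    · left
      show (sl i).1 - v0 ∈ G.𝒰
      obtain ⟨j, hj, h6⟩ := h5 i.1 i.2
      have hne : i.1 ≠ j := fun h => h6 (by rw [h])
      rw [h4, sub_zero]
      exact (hc i.1 i.2 j hj hne).2 h6
  · intro i
    refine top_of _ _ ?_
    rintro a ⟨k, hk, rfl⟩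
    set E : Set G.Γ := (fun k => (sl k).1 - v0) '' S with hE
    set t : S → AddSubgroup.closure E := fun k =>
      ⟨(sl k).1 - v0, AddSubgroup.subset_closure ⟨k.1, k.2, rfl⟩⟩ with ht
    set K : AddSubgroup (AddSubgroup.closure E) := AddSubgroup.closure (⋃ j : S, @pg (sub G (AddSubgroup.closure E)) (t i, (sl i).2)
      (t j, (sl j).2)) with hK
    have e1 : ∀ j : S, (sl i).2 = (sl j).2 → t j - t i ∈ K := fun j hj =>
      AddSubgroup.subset_closure (Set.mem_iUnion.2 ⟨j, by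
        unfold pg
        rw [if_pos hj]
        exact Set.mem_singleton _⟩)
    have e2 : ∀ j : S, (sl i).2 ≠ (sl j).2 → t i ∈ K ∧ t j ∈ K := fun j hj =>
      ⟨AddSubgroup.subset_closure (Set.mem_iUnion.2 ⟨j, by
        unfold pg
        rw [if_neg hj]
        exact Set.mem_insert _ _⟩),
      AddSubgroup.subset_closure (Set.mem_iUnion.2 ⟨j, by
        unfold pg
        rw [if_neg hj]
        exact Set.mem_insert_of_mem _ (Set.mem_singleton _)⟩)⟩
    have e3 : t i ∈ K := by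
      rcases hv with ⟨⟨i1, h1, h5⟩, h4⟩ | ⟨h4, h5⟩
      · have h6 := K.neg_mem (e1 ⟨i1, h1⟩ (h4 i.1 i.2 i1 h1))
        have h7 : t ⟨i1, h1⟩ = 0 := Subtype.ext (by
          show (sl i1).1 - v0 = 0
          rw [h5, sub_self])
        rwa [h7, zero_sub, neg_neg] at h6
      · obtain ⟨j, hj, h6⟩ := h5 i.1 i.2
        exact (e2 ⟨j, hj⟩ h6).1
    show t ⟨k, hk⟩ ∈ K
    by_cases h : (sl i).2 = (sl k).2
    · have h6 := K.add_mem (e1 ⟨k, hk⟩ h) e3
      rwa [sub_add_cancel] at h6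
    · exact (e2 ⟨k, hk⟩ h).2

end Resx

open Resx in
theorem res : ResR := by
  intro hFd hF ν U n hn hN G X B L ι sl S hX hB hc hS
  classical
  obtain ⟨i1, h1⟩ : S.Nonempty := Finset.card_pos.1 (by omega)
  obtain ⟨v0, hv⟩ : ∃ v0 : G.Γ,
      ((∃ i1 ∈ S, v0 = (sl i1).1) ∧ ∀ i ∈ S, ∀ j ∈ S, (sl i).2 = (sl j).2) ∨
      (v0 = 0 ∧ ∀ i ∈ S, ∃ j ∈ S, (sl i).2 ≠ (sl j).2) := by
    by_cases h : ∀ i ∈ S, ∀ j ∈ S, (sl i).2 = (sl j).2
    · exact ⟨(sl i1).1, Or.inl ⟨⟨i1, h1, rfl⟩, h⟩⟩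
    · refine ⟨0, Or.inr ⟨rfl, fun i hi => ?_⟩⟩
      by_contra h2
      push Not at h2
      exact h fun a ha b hb => (h2 a ha).symm.trans (h2 b hb)
  have hnrm := nrm G sl S hc v0 hv
  set K := AddSubgroup.closure ((fun k => (sl k).1 - v0) '' S) with hK
  obtain ⟨L1⟩ := @Fd.line (sub G K) (hFd (sub G K)) ν U (rs G K X) (nice_rs G K X hX)
  have hI := hN (sub G K) (rs G K X) B L1 S _ (nice_rs G K X hX) (kc_rs G K X B hB) hnrm
    (by rw [Fintype.card_coe, hS])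
  have hI2 := (hF (sub G K) ν U (rs G K X) B L1 S _ univ (fac_rs G K X B hB.1)).1 hI
  refine (hF G ν U X B L ι sl S hB.1).2 ?_
  intro f hf
  have h3 := hI2 (fun k : S => f k.1) (fun k _ => hf k.1 k.2)
  refine h3.congr fun M => ?_
  congr 1
  funext l
  have hr : ∀ i ∈ S, rho (sl i) l = (if (sl i).2 then l.2.1 else l.2.2) • ((sl i).1 - v0) +
      (if (sl i1).2 then l.2.1 else l.2.2) • v0 := by
    intro i hi
    unfold rho
    rcases hv with ⟨_, h4⟩ | ⟨h4, _⟩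
    · rw [h4 i1 h1 i hi, ← smul_add, sub_add_cancel]
    · rw [h4, smul_zero, add_zero, sub_zero]
  have h5 := shift (hFd G).t X B hB.1 S f hf
    (fun i => (if (sl i).2 then l.2.1 else l.2.2) • ((sl i).1 - v0))
    ((if (sl i1).2 then l.2.1 else l.2.2) • v0)
  have h6 : (fun y => ∏ i ∈ S, f i (X.Tz (rho (sl i) l) y)) = fun y => ∏ i ∈ S, f i (X.Tz
      ((if (sl i).2 then l.2.1 else l.2.2) • ((sl i).1 - v0) +
      (if (sl i1).2 then l.2.1 else l.2.2) • v0) y) :=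
    funext fun y => Finset.prod_congr rfl fun i hi => by rw [hr i hi]
  have h7 : ∀ x, ∏ i ∈ S, (X.μ[f i | B]) (X.Tz (rho (sl i) l) x) = ∏ i ∈ S, (X.μ[f i | B]) (X.Tz
      ((if (sl i).2 then l.2.1 else l.2.2) • ((sl i).1 - v0) +
      (if (sl i1).2 then l.2.1 else l.2.2) • v0) x) :=
    fun y => Finset.prod_congr rfl fun i hi => by rw [hr i hi]
  rw [h6]
  simp only [h7]
  rw [h5]
  have h8 : (fun y => ∏ i ∈ S, f i (X.Tz
      ((if (sl i).2 then l.2.1 else l.2.2) • ((sl i).1 - v0)) y)) = fun y => ∏ i : S, f i (X.Tz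
      ((if (sl i).2 then l.2.1 else l.2.2) • ((sl i).1 - v0)) y) :=
    funext fun y => (Finset.prod_coe_sort S fun i => f i (X.Tz
      ((if (sl i).2 then l.2.1 else l.2.2) • ((sl i).1 - v0)) y)).symm
  have h9 : ∀ x, ∏ i ∈ S, (X.μ[f i | B]) (X.Tz
      ((if (sl i).2 then l.2.1 else l.2.2) • ((sl i).1 - v0)) x) = ∏ i : S, (X.μ[f i | B]) (X.Tz
      ((if (sl i).2 then l.2.1 else l.2.2) • ((sl i).1 - v0)) x) :=
    fun y => (Finset.prod_coe_sort S fun i => (X.μ[f i | B]) (X.Tz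
      ((if (sl i).2 then l.2.1 else l.2.2) • ((sl i).1 - v0)) y)).symm
  rw [h8]
  simp only [h9]
  rfl

end T4x

end
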