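import Pool.Agent.MP_154433_an.t4.GLn

/-! Finite-level properties of the steps. -/

set_option autoImplicit false
set_option linter.unusedVariables false
set_option warn.classDefReducibility false

open MeasureTheory ProbabilityTheory Filter Topology Function Finset ComplexConjugate
open scoped BigOperators
open Fib27 (BM sup pr Oc Orow F23 LInd Mem)
open Pool.Agent.MP_154433_an.SG (Uni ufn)

noncomputable section

namespace T4x

open T3x

variable [Grp]

open GLn

theorem xAlgA : AlgA := by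
  intro fd rc gc c V _ _ sg ψ i1 i2 A st hd
  have hr := desc_rp hd
  have hs := fun (k : c.ι) (a : V) => Rp.slot fd c.L (c.sl k) (th_meas rc c (ψ a))
  refine ⟨fun a a' b b' => ?_, fun a a' => ?_, fun a a' => ?_, fun n a a' => ?_⟩
  · refine (((hr a a').inter fd (hr b b')).diff fd (hr (a - b) (a' - b'))).nl fd
      (rho (c.sl i1)) (fun l x => ?_) ?_
    · simp only [Set.mem_sdiff, Set.mem_inter_iff, rec1_mem fd]
    · filter_upwards [st.sub a a' b b'] with w hw h using h.2 (hw h.1)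
  · refine ((((hr 0 0).inter fd (hs i1 a)).inter fd (hs i2 a')).diff fd (hr a a')).nl fd
      (rho (c.sl i1)) (fun l x => ?_) ?_
    · simp only [Set.mem_sdiff, Set.mem_inter_iff, rec1_mem fd, Set.mem_preimage, stp_Tz fd]
    · filter_upwards [st.triv a a', eventuallyEq_set.1 st.zero] with w hw h0 h
      exact h.2 (hw (h0.1 h.1.1.1) (fun hn => hn h.1.1.2) fun hn => hn h.1.2)
  · refine ((hr a a').inter fd ((hs i1 a).niff fd (hs i2 a'))).nl fd
      (rho (c.sl i1)) (fun l x => ?_) ?_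
    · simp only [Set.mem_inter_iff, rec1_mem fd, Set.mem_preimage, stp_Tz fd, Set.mem_ofPred_eq]
    · filter_upwards [ae_all_iff.2 fun v : c.ι → V => st.ker v i1 i2] with w hw h
      obtain ⟨⟨-, h1⟩, h2⟩ := h
      simp only [Set.mem_iUnion, Set.mem_ofPred_eq] at h1
      obtain ⟨v, ⟨rfl, rfl⟩, hv⟩ := h1
      exact h2 (not_iff_not.1 (hw v hv))
  · refine ((hr (sg n a) (sg n a')).niff fd ((hr a a').shift fd n)).nl fd
      (rho (c.sl i1)) (fun l x => ?_) ?_
    · simp only [Set.mem_ofPred_eq, rec1_mem fd, Set.mem_preimage]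
      rw [← fd.t.add, add_comm, fd.t.add, rec1_mem fd]
    · filter_upwards [eventuallyEq_set.1 (st.sh n a a')] with w hw h
      exact h hw

namespace GAlgA

omit [Grp] in
theorem small {Ω V : Type} [MeasurableSpace Ω] [Countable V] (μ : Measure Ω)
    [IsProbabilityMeasure μ] (E : Set Ω) (S : V → Set Ω) (hE : NullMeasurableSet E μ)
    (hS : ∀ v, NullMeasurableSet (S v) μ) (h : ∀ᵐ w ∂μ, w ∈ E → ∃ v, w ∈ S v) (ε : ℝ)
    (hε : 0 < ε) : ∃ F : Finset V, ∀ F', F ⊆ F' → μ.real (E \ ⋃ v ∈ F', S v) < ε := by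
  have h1 : Tendsto (fun F : Finset V => μ (E \ ⋃ v ∈ F, S v)) atTop
      (𝓝 (μ (⋂ F : Finset V, E \ ⋃ v ∈ F, S v))) := by
    refine tendsto_measure_iInter_atTop (fun F => hE.diff ?_) (fun F F' hF => ?_)
      ⟨∅, measure_ne_top _ _⟩
    · exact NullMeasurableSet.biUnion (Finset.countable_toSet F) fun v _ => hS v
    · exact Set.sdiff_subset_sdiff_right (Set.biUnion_subset_biUnion_left hF)
  have h2 : μ (⋂ F : Finset V, E \ ⋃ v ∈ F, S v) = 0 := by
    refine measure_eq_zero_iff_ae_notMem.2 ?_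
    filter_upwards [h] with w hw hm
    have hm' := Set.mem_iInter.1 hm
    obtain ⟨v, hv⟩ := hw (hm' ∅).1
    exact (hm' {v}).2 (by simpa using hv)
  rw [h2] at h1
  have h3 := (ENNReal.tendsto_toReal ENNReal.zero_ne_top).comp h1
  obtain ⟨F, hF⟩ := eventually_atTop.1 (h3.eventually (gt_mem_nhds (by simpa using hε)))
  exact ⟨F, fun F' hF' => hF F' hF'⟩

end GAlgA

theorem xAlgT : AlgT := by
  classical
  intro fd rc gc c V _ _ sg ψ i1 i2 A st hd a ε hε
  have hr := desc_rp hd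
  have hm : ∀ a a', NullMeasurableSet (c.SV ψ i1 i2 a a') c.W.μ := fun a a' =>
    (hs_meas fd c.L (hd.1 a a')).nullMeasurableSet.congr (hd.2 a a').symm
  have key : ∀ (w : c.W.X), w ∈ c.SV ψ i1 i2 0 0 → ∀ q, ∃ v : c.ι → V, v q = a ∧
      w ∈ c.SV ψ i1 i2 (v i1) (v i2) := fun w hw q => by
    have h1 := Set.mem_iInter.1 (Set.mem_iInter.1 hw.1 q) a
    simp only [Set.mem_iUnion, Set.mem_ofPred_eq] at h1
    obtain ⟨v, hv, hv'⟩ := h1
    refine ⟨v, hv, hw.1, ?_⟩
    simp only [Set.mem_iUnion, Set.mem_ofPred_eq]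
    exact ⟨v, ⟨rfl, rfl⟩, hv'⟩
  obtain ⟨F1, h1⟩ := GAlgA.small c.W.μ _ (fun a' => c.SV ψ i1 i2 a a') (hm 0 0) (hm a)
    (Eventually.of_forall fun w hw => by
      obtain ⟨v, hv, hv'⟩ := key w hw i1
      exact ⟨v i2, hv ▸ hv'⟩) ε hε
  obtain ⟨F2, h2⟩ := GAlgA.small c.W.μ _ (fun a' => c.SV ψ i1 i2 a' a) (hm 0 0) (fun a' => hm a' a)
    (Eventually.of_forall fun w hw => by
      obtain ⟨v, hv, hv'⟩ := key w hw i2
      exact ⟨v i1, hv ▸ hv'⟩) ε hε
  refine ⟨F1 ∪ F2, Eventually.and ?_ ?_⟩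
  · have := ((hr 0 0).diff fd (Rp.biUnion fd (F1 ∪ F2) fun a' => hr a a')).lim' fd
      (B := fun l => rec1 c A i1 l 0 0 \ ⋃ a' ∈ F1 ∪ F2, rec1 c A i1 l a a') (rho (c.sl i1))
      (fun l x => by simp only [Set.mem_sdiff, Set.mem_iUnion, rec1_mem fd])
    exact (this.eventually (gt_mem_nhds (h1 _ subset_union_left))).mono fun _ h => h.le
  · have := ((hr 0 0).diff fd (Rp.biUnion fd (F1 ∪ F2) fun a' => hr a' a)).lim' fd
      (B := fun l => rec1 c A i1 l 0 0 \ ⋃ a' ∈ F1 ∪ F2, rec1 c A i1 l a' a) (rho (c.sl i1))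
      (fun l x => by simp only [Set.mem_sdiff, Set.mem_iUnion, rec1_mem fd])
    exact (this.eventually (gt_mem_nhds (h2 _ subset_union_right))).mono fun _ h => h.le

end T4x

end
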