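import Pool.Agent.MP_154433_an.t4.SpecG

/-! Row GAlgB: flatness at the finite level. -/

set_option autoImplicit false
set_option linter.unusedVariables false
set_option warn.classDefReducibility false

open MeasureTheory ProbabilityTheory Filter Topology Function Finset ComplexConjugate
open scoped BigOperators
open Fib27 (BM sup pr Oc Orow F23 LInd Mem)

noncomputable section

namespace T4x

open T3x

variable [Grp]

namespace GAlgB

def cmb {α : Type} (F1 F2 F3 F4 : Set α) : Set α :=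
  F1 ∩ (F2 ∩ ((F3 ∩ F4)ᶜ ∩ (F3ᶜ ∩ F4ᶜ)ᶜ))

theorem mem_cmb {α : Type} (F1 F2 F3 F4 : Set α) (x : α) :
    x ∈ cmb F1 F2 F3 F4 ↔ x ∈ F1 ∧ x ∈ F2 ∧ ¬ (x ∈ F3 ↔ x ∈ F4) := by
  simp only [cmb, Set.mem_inter_iff, Set.mem_compl_iff]
  tauto

theorem meas_cmb {α : Type} [MeasurableSpace α] {F1 F2 F3 F4 : Set α} (h1 : MeasurableSet F1)
    (h2 : MeasurableSet F2) (h3 : MeasurableSet F3) (h4 : MeasurableSet F4) :
    MeasurableSet (cmb F1 F2 F3 F4) :=
  h1.inter (h2.inter ((h3.inter h4).compl.inter (h3.compl.inter h4.compl).compl))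

theorem hs_cmb (fd : Fd) {ν : Wt} {U : Ultrafilter ℕ} {X : Sys} (L : Ln ν U X)
    {F1 F2 F3 F4 : Lab → Set X.X} (h1 : ∀ l, MeasurableSet (F1 l)) (h2 : ∀ l, MeasurableSet (F2 l))
    (h3 : ∀ l, MeasurableSet (F3 l)) (h4 : ∀ l, MeasurableSet (F4 l)) :
    L.hs (fun l => cmb (F1 l) (F2 l) (F3 l) (F4 l)) =
      cmb (L.hs F1) (L.hs F2) (L.hs F3) (L.hs F4) := by
  have a1 : ∀ l, MeasurableSet (F3 l ∩ F4 l) := fun l => (h3 l).inter (h4 l)
  have a2 : ∀ l, MeasurableSet ((F3 l)ᶜ ∩ (F4 l)ᶜ) := fun l => (h3 l).compl.inter (h4 l).compl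
  unfold cmb
  rw [fd.lc.hs_inter L F1 _ h1 fun l => (h2 l).inter ((a1 l).compl.inter (a2 l).compl),
    fd.lc.hs_inter L F2 _ h2 fun l => (a1 l).compl.inter (a2 l).compl,
    fd.lc.hs_inter L (fun l => (F3 l ∩ F4 l)ᶜ) _ (fun l => (a1 l).compl) fun l => (a2 l).compl,
    fd.lc.hs_compl L _ a1, fd.lc.hs_compl L _ a2, fd.lc.hs_inter L F3 F4 h3 h4,
    fd.lc.hs_inter L (fun l => (F3 l)ᶜ) (fun l => (F4 l)ᶜ) (fun l => (h3 l).compl)
      fun l => (h4 l).compl, fd.lc.hs_compl L F3 h3, fd.lc.hs_compl L F4 h4]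

theorem hs_ms (fd : Fd) {ν : Wt} {U : Ultrafilter ℕ} {X : Sys} (L : Ln ν U X)
    {F : Lab → Set X.X} (h : ∀ l, MeasurableSet (F l)) : MeasurableSet (L.hs F) := by
  have := fd.lc.hs_meas L X.ms F (fd.t.top X) h
  rwa [fd.lb.top L] at this

theorem real_pre (fd : Fd) (Y : Sys) (n : Γ) {E : Set Y.X} (hE : MeasurableSet E) :
    Y.μ.real (Y.Tz n ⁻¹' E) = Y.μ.real E := by
  unfold Measure.real
  rw [(fd.t.mp Y n).measure_preimage hE.nullMeasurableSet]

end GAlgB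

open GAlgB in
theorem xAlgB : AlgB := by
  intro fd rc gc c V _ _ sg ψ i1 i2 i3 A A' h13 st st' hD hD' a b a' b'
  obtain ⟨hA, hS⟩ := hD
  obtain ⟨hA', hS'⟩ := hD'
  have cx := gc.ctx c
  have mT : ∀ (Y : Sys) (n : Γ), Measurable (Y.Tz n) := fun Y n => (fd.t.mp Y n).measurable
  have hH : ∀ a a', MeasurableSet (c.L.hs (A' a a')) := fun a a' => hs_ms fd c.L (hA' a a')
  have mπ : ∀ k, Measurable (c.π k) := fun k => (cx.embπ k).mp.measurable
  let E : Lab → Set c.W.X := fun l =>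
    cmb (c.W.Tz (rho (c.sl i1) l) ⁻¹' c.L.hs (A' a b))
      (c.W.Tz (rho (c.sl i2) l) ⁻¹' c.L.hs (A' a' b'))
      (c.π i1 ⁻¹' A a a' l) (c.π i3 ⁻¹' A b b' l)
  have hE : ∀ l, MeasurableSet (E l) := fun l =>
    meas_cmb (mT _ _ (hH _ _)) (mT _ _ (hH _ _)) (mπ _ (hA _ _ _)) (mπ _ (hA _ _ _))
  refine ⟨fun l => c.W.μ.real (E l), ?_, fun l => ?_⟩
  · have h1 := fd.lc.hs_lim c.L2 E hE
    have h2 : c.L2.W.μ.real (c.L2.hs E) = 0 := by
      have h3 : c.L2.hs E = _ := hs_cmb fd c.L2 (fun l => mT _ _ (hH a b))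
        (fun l => mT _ _ (hH a' b')) (fun l => mπ i1 (hA a a' l)) fun l => mπ i3 (hA b b' l)
      rw [h3, measureReal_eq_zero_iff, measure_eq_zero_iff_ae_notMem]
      filter_upwards [st.flat i3 h13 a b a' b', fd.lc.hs_slot c.L2 (c.sl i1) _ (hH a b),
        fd.lc.hs_slot c.L2 (c.sl i2) _ (hH a' b'),
        fd.lc.hs_lift c.L2 c.L (c.π i1) (c.Bc i1) (A a a') (cx.embπ i1) (c.lift i1) (hA a a'),
        fd.lc.hs_lift c.L2 c.L (c.π i3) (c.Bc i3) (A b b') (cx.embπ i3) (c.lift i3) (hA b b'),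
        (cx.embA i1).mp.quasiMeasurePreserving.ae (hS' a b),
        (cx.embA i2).mp.quasiMeasurePreserving.ae (hS' a' b'),
        (cx.embB i1).mp.quasiMeasurePreserving.ae (hS a a'),
        (cx.embB i3).mp.quasiMeasurePreserving.ae (hS b b')] with x h0 h1 h2 h3 h4 h5 h6 h7 h8
      rw [mem_cmb]
      rintro ⟨k1, k2, k3⟩
      refine k3 ?_
      have := h0 ((iff_of_eq h5).2 ((iff_of_eq h1).1 k1)) ((iff_of_eq h6).2 ((iff_of_eq h2).1 k2))
      exact (iff_of_eq h3).trans ((iff_of_eq h7).symm.trans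
        (this.trans ((iff_of_eq h8).trans (iff_of_eq h4).symm)))
    rwa [h2] at h1
  · set n := stp c i1 i2 l with hn
    have mR : ∀ a a', MeasurableSet (rec1 c A i1 l a a') := fun a a' => mT _ _ (hA a a' l)
    let F : Lab → Set c.X.X := fun l' =>
      cmb (A' a b l') (A' (sg n a') (sg n b') l')
        (c.X.Tz (rho (c.sl i1) l') ⁻¹' rec1 c A i1 l a a')
        (c.X.Tz (rho (c.sl i3) l') ⁻¹' rec1 c A i1 l b b')
    have hF : ∀ l', MeasurableSet (F l') := fun l' =>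
      meas_cmb (hA' _ _ _) (hA' _ _ _) (mT _ _ (mR _ _)) (mT _ _ (mR _ _))
    have h1 := fd.lc.hs_lim c.L F hF
    have h2 : c.L.W.μ.real (c.L.hs F) = c.W.μ.real (E l) := by
      rw [← real_pre fd c.W (rho (c.sl i1) l) (hs_ms fd c.L hF)]
      refine measureReal_congr ?_
      have h3 : c.L.hs F = _ := hs_cmb fd c.L (hA' a b) (hA' (sg n a') (sg n b'))
        (fun l' => mT _ _ (mR a a')) fun l' => mT _ _ (mR b b')
      have q := (fd.t.mp c.W (rho (c.sl i1) l)).quasiMeasurePreserving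
      have e1 : ∀ w, c.W.Tz n (c.W.Tz (rho (c.sl i1) l) w) = c.W.Tz (rho (c.sl i2) l) w :=
        fun w => by rw [← fd.t.add, hn, stp, sub_add_cancel]
      have e2 : ∀ x, c.X.Tz (-rho (c.sl i1) l) (c.X.Tz (rho (c.sl i1) l) x) = x :=
        fun x => by rw [← fd.t.add, neg_add_cancel, fd.t.zero]
      filter_upwards [q.ae (fd.lc.hs_slot c.L (c.sl i1) _ (mR a a')),
        q.ae (fd.lc.hs_slot c.L (c.sl i3) _ (mR b b')), q.ae (hS' (sg n a') (sg n b')),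
        q.ae (st'.sh n a' b'),
        (fd.t.mp c.W (rho (c.sl i2) l)).quasiMeasurePreserving.ae (hS' a' b'),
        fd.t.emb_z c.W c.X (c.π i1) (rho (c.sl i1) l) (cx.embπ i1) _ (mR a a'),
        fd.t.emb_z c.W c.X (c.π i3) (rho (c.sl i1) l) (cx.embπ i3) _ (mR b b')]
        with w k1 k2 k3 k4 k5 k6 k7
      refine propext ?_
      change c.W.Tz (rho (c.sl i1) l) w ∈ c.L.hs F ↔ w ∈ E l
      rw [h3, mem_cmb, mem_cmb]
      have k4' : c.W.Tz (rho (c.sl i1) l) w ∈ c.SV ψ i1 i3 (sg n a') (sg n b') ↔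
          c.W.Tz (rho (c.sl i2) l) w ∈ c.SV ψ i1 i3 a' b' := by
        rw [← e1]
        exact iff_of_eq k4
      have j2 : c.W.Tz (rho (c.sl i1) l) w ∈ c.L.hs (A' (sg n a') (sg n b')) ↔
          w ∈ c.W.Tz (rho (c.sl i2) l) ⁻¹' c.L.hs (A' a' b') :=
        (iff_of_eq k3).symm.trans (k4'.trans (iff_of_eq k5))
      have j3 : c.W.Tz (rho (c.sl i1) l) w ∈
          (c.L.hs fun l' => c.X.Tz (rho (c.sl i1) l') ⁻¹' rec1 c A i1 l a a') ↔
          w ∈ c.π i1 ⁻¹' A a a' l := by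
        refine (iff_of_eq k1).trans ((iff_of_eq k6).trans ?_)
        change c.X.Tz (-rho (c.sl i1) l) (c.X.Tz (rho (c.sl i1) l) (c.π i1 w)) ∈ A a a' l ↔ _
        rw [e2]; rfl
      have j4 : c.W.Tz (rho (c.sl i1) l) w ∈
          (c.L.hs fun l' => c.X.Tz (rho (c.sl i3) l') ⁻¹' rec1 c A i1 l b b') ↔
          w ∈ c.π i3 ⁻¹' A b b' l := by
        refine (iff_of_eq k2).trans ((iff_of_eq k7).trans ?_)
        change c.X.Tz (-rho (c.sl i1) l) (c.X.Tz (rho (c.sl i1) l) (c.π i3 w)) ∈ A b b' l ↔ _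
        rw [e2]; rfl
      rw [j2, j3, j4]
      rfl
    rw [h2] at h1
    refine h1.congr fun M => ?_
    congr 1
    funext l'
    rw [← real_pre fd c.X (-rho (c.sl i1) l') (hF l')]
    congr 1
    ext y
    have e3 : c.X.Tz (rho (c.sl i1) l') (c.X.Tz (-rho (c.sl i1) l') y) = y := by
      rw [← fd.t.add, add_neg_cancel, fd.t.zero]
    have e4 : c.X.Tz (rho (c.sl i3) l') (c.X.Tz (-rho (c.sl i1) l') y) =
        c.X.Tz (stp c i1 i3 l') y := by
      rw [← fd.t.add, stp, sub_eq_add_neg]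
    rw [Set.mem_preimage, mem_cmb, Set.mem_preimage, Set.mem_preimage, e3, e4]
    rfl

end T4x

end
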