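import Pool.Agent.MP_154433_an.t4.SpecG

/-! Row GAlgC: assembly of the finite-level data of the algebraic step. -/

set_option autoImplicit false
set_option linter.unusedVariables false
set_option warn.classDefReducibility false

open MeasureTheory ProbabilityTheory Filter Topology Function Finset ComplexConjugate
open scoped BigOperators
open Fib27 (BM sup pr Oc Orow F23 LInd Mem)

noncomputable section

namespace T4x

open T3x

variable [Grp]

namespace GAlgCx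

theorem uu_meas (c : Ctx) {V : Type} [Countable V] (ψ : V → c.X.X → ℂ) (h : c.ONH ψ) :
    MeasurableSet[c.L.shp c.B] (c.UU ψ) :=
  MeasurableSet.iInter fun q => MeasurableSet.iInter fun x =>
    MeasurableSet.biUnion (Set.to_countable _) fun v _ => h v

theorem sv_meas (c : Ctx) {V : Type} [Countable V] (ψ : V → c.X.X → ℂ) (h : c.ONH ψ)
    (i1 i2 : c.ι) (a a' : V) : MeasurableSet[c.L.shp c.B] (c.SV ψ i1 i2 a a') :=
  (uu_meas c ψ h).inter (MeasurableSet.biUnion (Set.to_countable _) fun v _ => h v)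

theorem hs_all (lc : LfC) {ν : Wt} {U : Ultrafilter ℕ} {X : Sys} (L : Ln ν U X) {ι : Type}
    (A : ι → Lab → Set X.X) (hA : ∀ j l, MeasurableSet (A j l)) (S : Finset ι) :
    L.hs (fun l => ⋂ j ∈ S, A j l) = ⋂ j ∈ S, L.hs (A j) := by
  classical
  induction S using Finset.induction_on with
  | empty =>
    have h1 := lc.hs_compl L (fun _ => ∅) fun _ => MeasurableSet.empty
    have h2 := lc.hs_inter L (fun _ => ∅) (fun _ => (∅ : Set X.X)ᶜ) (fun _ => MeasurableSet.empty)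
      fun _ => MeasurableSet.empty.compl
    rw [h1, Set.inter_compl_self] at h2
    simp only [Set.empty_inter] at h2
    rw [h2] at h1
    simpa using h1
  | insert a S ha ih =>
    simp only [Finset.set_biInter_insert]
    rw [lc.hs_inter L _ _ (hA a) fun l => Finset.measurableSet_biInter S fun j _ => hA j l, ih]

end GAlgCx

theorem xAlgC : AlgC := by
  intro gc hA hT hB f r hS hR hAlg c V _ _ sg ψ gi hψ onh hi hbun
  have cc := gc.ctx c
  obtain ⟨i1, h1⟩ := cc.one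
  have st : ∀ j, j ≠ i1 → c.Stp sg ψ i1 j := fun j hj => hS f r c V sg ψ i1 j hj.symm gi hψ
  obtain ⟨r1, r2, r3, r4, r5⟩ := hR f r c V sg ψ hψ
  choose A hA1 hA2 using fun j a a' => f.lc.satu c.L c.B c.hU cc.facB _
    (GAlgCx.sv_meas c ψ onh i1 j a a')
  have hd : ∀ j, Desc c ψ i1 j (A j) := fun j =>
    ⟨fun a a' l => cc.facB.le _ (hA1 j a a' l), hA2 j⟩
  have aa := fun j hj => hA f r gc c V sg ψ i1 j (A j) (st j hj) (hd j)
  have mN : ∀ v, MeasurableSet (Th c.B c.X.μ (ψ v)) := fun v =>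
    cc.facB.le _ (r.meas c.B c.X.μ (ψ v))
  obtain ⟨v, j, hv⟩ := hbun
  have hv1 : c.W.μ (c.UU ψ ∩ c.ΘV ψ v ∩ c.Nt i1 (ψ (v i1))) ≠ 0 := by
    by_cases hj : j = i1
    · exact hj ▸ hv
    refine fun h0 => hv (measure_mono_null_ae ?_ h0)
    filter_upwards [(st j hj).ker v j i1] with w hw hm
    exact ⟨hm.1, (hw hm.1.2).1 hm.2⟩
  obtain ⟨v0, hv0⟩ : ∃ v0, c.W.μ (c.UU ψ ∩ Th (c.L.shp c.B) c.W.μ (c.FF ψ v0) ∩
      c.Nt i1 (ψ (v0 i1))) ≠ 0 := by
    by_contra h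
    exact hv1 (hi _ i1 (GAlgCx.uu_meas c ψ onh) (fun v => by
      by_contra h'
      exact h ⟨v, h'⟩) v)
  refine hAlg c.ν c.U c.X V sg (fun v => Th c.B c.X.μ (ψ v)) c.ι (fun j => rec1 c (A j) i1) c.sl i1
    (fun j => stp c i1 j) v0
    { hU := c.hU
      erg := c.erg
      spr := c.spr
      nrm := c.nrm
      h1 := h1
      hn := fun j l => rfl
      mN := mN
      mS := fun j l a a' => (f.t.mp c.X _).measurable ((hd j).1 a a' l)
      n0 := r2
      nsub := r3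
      nsh := r4
      sub := fun j hj => (aa j hj).1
      triv := fun j hj => (aa j hj).2.1
      ker := fun j hj => (aa j hj).2.2.1
      tot := fun j hj => hT f r gc c V sg ψ i1 j (A j) (st j hj) (hd j)
      sh := fun j hj => (aa j hj).2.2.2
      flat := fun j j' hj hj' => hB f r gc c V sg ψ i1 j j' (A j) (A j') hj'.symm (st j hj)
        (st j' hj') (hd j) (hd j')
      rel := fun hN => hv0 ?_
      dec := r5 }
  have m0 : ∀ l, MeasurableSet (⋂ j ∈ univ.erase i1, A j 0 0 l) := fun l =>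
    Finset.measurableSet_biInter _ fun j _ => (hd j).1 0 0 l
  have m1 : ∀ l, MeasurableSet (Th c.B c.X.μ (ψ (∑ k, sg (rho (c.sl k) l) (v0 k)))) :=
    fun l => mN _
  have m2 : ∀ l, MeasurableSet (c.X.Tz (rho (c.sl i1) l) ⁻¹' Th c.B c.X.μ (ψ (v0 i1))) :=
    fun l => (f.t.mp c.X _).measurable (mN _)
  have m3 : ∀ l, MeasurableSet ((⋂ j ∈ univ.erase i1, A j 0 0 l) ∩
      Th c.B c.X.μ (ψ (∑ k, sg (rho (c.sl k) l) (v0 k)))) := fun l => (m0 l).inter (m1 l)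
  have hl := f.lc.hs_lim c.L _ fun l => (m3 l).inter (m2 l).compl
  rw [f.lc.hs_inter c.L _ _ m3 fun l => (m2 l).compl, f.lc.hs_inter c.L _ _ m0 m1,
    f.lc.hs_compl c.L _ m2,
    GAlgCx.hs_all f.lc c.L (fun j => A j 0 0) (fun j => (hd j).1 0 0)] at hl
  have e : ∀ l, c.X.μ.real {x | (∀ j, j ≠ i1 → c.X.Tz (rho (c.sl i1) l) x ∈ rec1 c (A j) i1 l 0 0) ∧
      x ∈ Th c.B c.X.μ (ψ (∑ k, sg (rho (c.sl k) l) (v0 k))) ∧
      x ∉ Th c.B c.X.μ (ψ (sg (rho (c.sl i1) l) (v0 i1)))} =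
      c.X.μ.real ((⋂ j ∈ univ.erase i1, A j 0 0 l) ∩
        Th c.B c.X.μ (ψ (∑ k, sg (rho (c.sl k) l) (v0 k))) ∩
        (c.X.Tz (rho (c.sl i1) l) ⁻¹' Th c.B c.X.μ (ψ (v0 i1)))ᶜ) := fun l => by
    refine measureReal_congr ?_
    filter_upwards [r4 (rho (c.sl i1) l) (v0 i1)] with x hx
    refine propext ?_
    change ((∀ j, j ≠ i1 → c.X.Tz (-rho (c.sl i1) l) (c.X.Tz (rho (c.sl i1) l) x) ∈ A j 0 0 l) ∧
      _ ∧ ¬ _) ↔ (x ∈ (⋂ j ∈ univ.erase i1, A j 0 0 l) ∧ _) ∧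
      ¬ c.X.Tz (rho (c.sl i1) l) x ∈ Th c.B c.X.μ (ψ (v0 i1))
    rw [← f.t.add, neg_add_cancel, f.t.zero, ← hx, and_assoc]
    simp only [Set.mem_iInter, Finset.mem_erase, Finset.mem_univ, and_true]
  have hN' : Tendsto (fun M => c.ν.av2 M fun l => c.X.μ.real ((⋂ j ∈ univ.erase i1, A j 0 0 l) ∩
      Th c.B c.X.μ (ψ (∑ k, sg (rho (c.sl k) l) (v0 k))) ∩
        (c.X.Tz (rho (c.sl i1) l) ⁻¹' Th c.B c.X.μ (ψ (v0 i1)))ᶜ)) c.U (𝓝 0) := by
    simp only [← e]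
    exact hN
  have h0 := (measureReal_eq_zero_iff (measure_ne_top _ _)).1 (tendsto_nhds_unique hl hN')
  refine measure_mono_null_ae ?_ h0
  have hall : ∀ᵐ w ∂c.W.μ, ∀ j, j ≠ i1 → w ∈ c.UU ψ → w ∈ c.L.hs (A j 0 0) := by
    refine ae_all_iff.2 fun j => ?_
    by_cases hj : j = i1
    · exact Eventually.of_forall fun w h => absurd hj h
    filter_upwards [(st j hj).zero, hA2 j 0 0] with w e1 e2 _ hw
    exact e2.mp (e1.mpr hw)
  filter_upwards [hall, r1 v0, f.lc.hs_slot c.L (c.sl i1) _ (mN (v0 i1))] with w e1 e3 e4 hw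
  exact ⟨⟨Set.mem_iInter₂.2 fun j hj => e1 j (Finset.ne_of_mem_erase hj) hw.1.1, e3.mp hw.1.2⟩,
    fun h => hw.2 (e4.mp h)⟩

end T4x

end
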