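import Pool.Agent.MP_154433_an.t4.SpecG

/-! Atoms of types: measurability, and coincidences happen on atoms. -/

set_option autoImplicit false
set_option linter.unusedVariables false
set_option warn.classDefReducibility false

open MeasureTheory ProbabilityTheory Filter Topology Function Finset ComplexConjugate
open scoped BigOperators
open Fib27 (BM sup pr Oc Orow F23 LInd Mem)

noncomputable section

namespace T4x

open T3x

namespace At1

theorem cell_meas {Y κ : Type} {m0 : MeasurableSpace Y} (t : Y → κ → Prop)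
    (ht : ∀ i, MeasurableSet {y | t y i}) (K c : Finset κ) : MeasurableSet (cell t K c) := by
  have h : cell t K c = ⋂ i ∈ K, {y | t y i ↔ i ∈ c} := by
    ext y
    simp [cell]
  rw [h]
  refine Finset.measurableSet_biInter K fun i _ => ?_
  by_cases hi : i ∈ c
  · simpa [hi] using ht i
  · have h2 : {y | t y i ↔ i ∈ c} = {y | t y i}ᶜ := by
      ext y
      simp [hi]
    rw [h2]
    exact (ht i).compl

theorem ce_meas {Y : Type} (I : MeasurableSpace Y) {m0 : MeasurableSpace Y} (μ : Measure Y)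
    (f : Y → ℂ) : Measurable[I] fun y => ((μ[f | I]) y).re :=
  Complex.measurable_re.comp (stronglyMeasurable_condExp (m := I) (μ := μ) (f := f)).measurable

theorem bm_ind {Y : Type} {m0 : MeasurableSpace Y} (μ : Measure Y) {A : Set Y}
    (hA : MeasurableSet A) : BM μ m0 (A.indicator fun _ => (1 : ℂ)) := by
  refine ⟨(aestronglyMeasurable_const.indicator hA), 1, Eventually.of_forall fun y => ?_⟩
  by_cases hy : y ∈ A <;> simp [hy]

theorem ce_real {Y : Type} (I : MeasurableSpace Y) {m0 : MeasurableSpace Y} (μ : Measure Y)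
    [IsProbabilityMeasure μ] {A : Set Y} (hA : MeasurableSet A) :
    μ[A.indicator fun _ => (1 : ℂ) | I] =ᵐ[μ]
      fun y => (((μ[A.indicator fun _ => (1 : ℝ) | I]) y : ℝ) : ℂ) := by
  have h1 := Complex.ofRealCLM.comp_condExp_comm (m := I) (μ := μ)
    (f := A.indicator fun _ => (1 : ℝ)) ((integrable_const (1 : ℝ)).indicator hA)
  have h2 : (Complex.ofRealCLM ∘ A.indicator fun _ => (1 : ℝ)) = A.indicator fun _ => (1 : ℂ) := by
    funext y
    by_cases hy : y ∈ A <;> simp [hy]
  rw [h2] at h1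
  filter_upwards [h1] with y hy
  rw [← hy]
  simp

theorem ce_mono {Y : Type} (I : MeasurableSpace Y) {m0 : MeasurableSpace Y} (μ : Measure Y)
    [IsProbabilityMeasure μ] {A B : Set Y} (hA : MeasurableSet A) (hB : MeasurableSet B)
    (h : A ⊆ B) : ∀ᵐ y ∂μ, ((μ[A.indicator fun _ => (1 : ℂ) | I]) y).re ≤
      ((μ[B.indicator fun _ => (1 : ℂ) | I]) y).re := by
  have h1 := condExp_mono (m := I) (μ := μ) ((integrable_const (1 : ℝ)).indicator hA)
    ((integrable_const (1 : ℝ)).indicator hB)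
    (Eventually.of_forall fun y => Set.indicator_le_indicator_of_subset h (fun _ => zero_le_one) y)
  filter_upwards [h1, ce_real I μ hA, ce_real I μ hB] with y h1 h2 h3
  rw [h2, h3]
  simpa using h1

theorem key {Ω Y : Type} (I : MeasurableSpace Y) {m0 : MeasurableSpace Y}
    (μ : Measure Y) [IsProbabilityMeasure μ] {m1 : MeasurableSpace Ω} (μ' : Measure Ω)
    [IsProbabilityMeasure μ'] (a1 a2 : Ω → Y) (hI : I ≤ m0) (hS : Sq I μ μ' a1 a2)
    {A B : Set Y} (hA : MeasurableSet A) (hB : MeasurableSet B) (η : ℝ) (hη : 0 ≤ η) :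
    μ'.real {x | a1 x ∈ A ∧ ((μ[A.indicator fun _ => (1 : ℂ) | I]) (a1 x)).re < η ∧ a2 x ∈ B} ≤
      η * μ.real B := by
  set D : Set Y := {y | ((μ[A.indicator fun _ => (1 : ℂ) | I]) y).re < η} with hD
  have hDI : MeasurableSet[I] D := measurableSet_lt (ce_meas I μ _) measurable_const
  have hD0 : MeasurableSet D := hI _ hDI
  have h := hS.2.2 _ _ (bm_ind μ (hD0.inter hA)) (bm_ind μ hB)
  have hE : MeasurableSet (a1 ⁻¹' (D ∩ A) ∩ a2 ⁻¹' B) :=
    (hS.1.measurable (hD0.inter hA)).inter (hS.2.1.measurable hB)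
  have hl : (fun x => (D ∩ A).indicator (fun _ => (1 : ℂ)) (a1 x) *
      B.indicator (fun _ => (1 : ℂ)) (a2 x)) =
      (a1 ⁻¹' (D ∩ A) ∩ a2 ⁻¹' B).indicator fun _ => (1 : ℂ) := by
    funext x
    by_cases h1 : a1 x ∈ D ∩ A <;> by_cases h2 : a2 x ∈ B <;>
      simp only [Set.indicator, Set.mem_inter_iff (a := a1 ⁻¹' (D ∩ A)), Set.mem_preimage, h1, h2] <;>
      simp
  rw [hl, integral_indicator_const _ hE] at h
  have hc : μ[(D ∩ A).indicator fun _ => (1 : ℂ) | I] =ᵐ[μ]
      D.indicator (μ[A.indicator fun _ => (1 : ℂ) | I]) := by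
    rw [← Set.indicator_indicator]
    exact condExp_indicator ((integrable_const (1 : ℂ)).indicator hA) hDI
  have hr : ∫ y, (μ[(D ∩ A).indicator fun _ => (1 : ℂ) | I]) y *
      (μ[B.indicator fun _ => (1 : ℂ) | I]) y ∂μ =
      ((∫ y, D.indicator (μ[A.indicator fun _ => (1 : ℝ) | I]) y *
        (μ[B.indicator fun _ => (1 : ℝ) | I]) y ∂μ : ℝ) : ℂ) := by
    rw [← integral_complex_ofReal]
    refine integral_congr_ae ?_
    filter_upwards [hc, ce_real I μ hA, ce_real I μ hB] with y h1 h2 h3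
    rw [h1, h3]
    by_cases hy : y ∈ D
    · simp [hy, h2]
    · simp [hy]
  rw [hr] at h
  have h' : μ'.real (a1 ⁻¹' (D ∩ A) ∩ a2 ⁻¹' B) =
      ∫ y, D.indicator (μ[A.indicator fun _ => (1 : ℝ) | I]) y *
        (μ[B.indicator fun _ => (1 : ℝ) | I]) y ∂μ := by
    have h2 := congrArg Complex.re h
    simpa using h2
  have hset : {x | a1 x ∈ A ∧ ((μ[A.indicator fun _ => (1 : ℂ) | I]) (a1 x)).re < η ∧ a2 x ∈ B} =
      a1 ⁻¹' (D ∩ A) ∩ a2 ⁻¹' B := by
    ext x
    simp only [hD, Set.mem_ofPred_eq, Set.mem_inter_iff, Set.mem_preimage]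
    tauto
  have nA : 0 ≤ᵐ[μ] μ[A.indicator fun _ => (1 : ℝ) | I] :=
    condExp_nonneg (Eventually.of_forall fun y => Set.indicator_nonneg (fun _ _ => zero_le_one) y)
  have nB : 0 ≤ᵐ[μ] μ[B.indicator fun _ => (1 : ℝ) | I] :=
    condExp_nonneg (Eventually.of_forall fun y => Set.indicator_nonneg (fun _ _ => zero_le_one) y)
  rw [hset, h']
  calc ∫ y, D.indicator (μ[A.indicator fun _ => (1 : ℝ) | I]) y *
        (μ[B.indicator fun _ => (1 : ℝ) | I]) y ∂μ
      ≤ ∫ y, η * (μ[B.indicator fun _ => (1 : ℝ) | I]) y ∂μ := by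
        refine integral_mono_of_nonneg ?_ (integrable_condExp.const_mul η) ?_
        · filter_upwards [nA, nB] with y h1 h2
          refine mul_nonneg ?_ h2
          by_cases hy : y ∈ D
          · simpa [hy] using h1
          · simp [hy]
        · filter_upwards [nB, ce_real I μ hA] with y h1 h2
          refine mul_le_mul_of_nonneg_right ?_ h1
          by_cases hy : y ∈ D
          · have h3 : ((μ[A.indicator fun _ => (1 : ℂ) | I]) y).re < η := hy
            rw [h2] at h3
            simpa [hy] using h3.le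
          · simpa [hy] using hη
    _ = η * μ.real B := by
        rw [integral_const_mul, integral_condExp hI, integral_indicator_const _ hB]
        simp

theorem cell_congr {Y κ : Type} (t : Y → κ → Prop) {K c c' : Finset κ} {y : Y}
    (h : y ∈ cell t K c) (h' : y ∈ cell t K c') : cell t K c = cell t K c' := by
  ext z
  refine forall₂_congr fun i hi => ?_
  rw [← h i hi, ← h' i hi]

theorem level {Ω Y κ : Type} (I : MeasurableSpace Y) {m0 : MeasurableSpace Y}
    (μ : Measure Y) [IsProbabilityMeasure μ] {m1 : MeasurableSpace Ω} (μ' : Measure Ω)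
    [IsProbabilityMeasure μ'] (a1 a2 : Ω → Y) (t t' : Y → κ → Prop) (hI : I ≤ m0)
    (ht : ∀ i, MeasurableSet {y | t y i}) (ht' : ∀ i, MeasurableSet {y | t' y i})
    (hS : Sq I μ μ' a1 a2) (η : ℝ) (hη : 0 ≤ η) (K : Finset κ) :
    μ'.real {x | t (a1 x) = t' (a2 x) ∧ ∃ c, a1 x ∈ cell t K c ∧
      ((μ[(cell t K c).indicator fun _ => (1 : ℂ) | I]) (a1 x)).re < η} ≤ η := by
  classical
  have hsub : {x | t (a1 x) = t' (a2 x) ∧ ∃ c, a1 x ∈ cell t K c ∧
      ((μ[(cell t K c).indicator fun _ => (1 : ℂ) | I]) (a1 x)).re < η} ⊆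
      ⋃ c ∈ K.powerset, {x | a1 x ∈ cell t K c ∧
        ((μ[(cell t K c).indicator fun _ => (1 : ℂ) | I]) (a1 x)).re < η ∧ a2 x ∈ cell t' K c} := by
    rintro x ⟨h1, c, h2, h3⟩
    have h4 : a1 x ∈ cell t K (K.filter (t (a1 x))) := fun i hi => by simp [hi]
    refine Set.mem_iUnion₂.2 ⟨K.filter (t (a1 x)), mem_powerset.2 (filter_subset _ _), h4, ?_, ?_⟩
    · rw [← cell_congr t h2 h4]
      exact h3
    · intro i hi
      rw [← h1]
      exact h4 i hi
  have hd : Set.PairwiseDisjoint (↑K.powerset : Set (Finset κ)) fun c => cell t' K c := by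
    intro c hc c' hc' hne
    refine Set.disjoint_left.2 fun y h1 h2 => hne ?_
    have hc1 : c ⊆ K := mem_powerset.1 hc
    have hc2 : c' ⊆ K := mem_powerset.1 hc'
    ext i
    exact ⟨fun h => (h2 i (hc1 h)).1 ((h1 i (hc1 h)).2 h),
      fun h => (h1 i (hc2 h)).1 ((h2 i (hc2 h)).2 h)⟩
  calc _ ≤ _ := measureReal_mono hsub (measure_ne_top _ _)
    _ ≤ _ := measureReal_biUnion_finset_le _ _
    _ ≤ ∑ c ∈ K.powerset, η * μ.real (cell t' K c) :=
        sum_le_sum fun c _ => key I μ μ' a1 a2 hI hS (cell_meas t ht K c) (cell_meas t' ht' K c) η hη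
    _ = η * ∑ c ∈ K.powerset, μ.real (cell t' K c) := by rw [mul_sum]
    _ ≤ η * 1 := by
        refine mul_le_mul_of_nonneg_left ?_ hη
        simpa using sum_measureReal_le_measureReal_univ (μ := μ)
          (fun c _ => cell_meas t' ht' K c) hd
    _ = η := mul_one η

end At1

theorem xAtM : ∀ {Y κ : Type} [Countable κ] (I : MeasurableSpace Y) {m0 : MeasurableSpace Y}
    (μ : Measure Y) (t : Y → κ → Prop), I ≤ m0 → (∀ i, MeasurableSet {y | t y i}) →
    MeasurableSet (At I μ t) := by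
  intro Y κ _ I m0 μ t hI ht
  have h : At I μ t = ⋃ n : ℕ, ⋂ (K : Finset κ) (c : Finset κ), (cell t K c)ᶜ ∪
      {y | 1 / ((n : ℝ) + 1) ≤ ((μ[(cell t K c).indicator fun _ => (1 : ℂ) | I]) y).re} := by
    ext y
    simp only [At, Set.mem_ofPred_eq, Set.mem_iUnion, Set.mem_iInter, Set.mem_union,
      Set.mem_compl_iff, imp_iff_not_or]
  rw [h]
  refine MeasurableSet.iUnion fun n => MeasurableSet.iInter fun K => MeasurableSet.iInter fun c =>
    (At1.cell_meas t ht K c).compl.union ?_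
  exact hI _ (measurableSet_le measurable_const (At1.ce_meas I μ _))

theorem xAtO : ∀ {Ω Y κ : Type} [Countable κ] (I : MeasurableSpace Y) {m0 : MeasurableSpace Y}
    (μ : Measure Y) [IsProbabilityMeasure μ] {m1 : MeasurableSpace Ω} (μ' : Measure Ω)
    [IsProbabilityMeasure μ'] (a1 a2 : Ω → Y) (t t' : Y → κ → Prop), I ≤ m0 →
    (∀ i, MeasurableSet {y | t y i}) → (∀ i, MeasurableSet {y | t' y i}) → Sq I μ μ' a1 a2 →
    ∀ᵐ x ∂μ', t (a1 x) = t' (a2 x) → a1 x ∈ At I μ t := by
  intro Ω Y κ _ I m0 μ _ m1 μ' _ a1 a2 t t' hI ht ht' hS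
  classical
  have hN : ∀ᵐ y ∂μ, ∀ K K' c : Finset κ, K ⊆ K' →
      ((μ[(cell t K' c).indicator fun _ => (1 : ℂ) | I]) y).re ≤
        ((μ[(cell t K c).indicator fun _ => (1 : ℂ) | I]) y).re := by
    refine ae_all_iff.2 fun K => ae_all_iff.2 fun K' => ae_all_iff.2 fun c => ?_
    by_cases h : K ⊆ K'
    · filter_upwards [At1.ce_mono I μ (At1.cell_meas t ht K' c) (At1.cell_meas t ht K c)
        (fun y hy i hi => hy i (h hi))] with y hy _ using hy
    · exact Eventually.of_forall fun y h' => absurd h' h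
  have hN' := hS.1.quasiMeasurePreserving.ae hN
  set N : Set Ω := {x | ∀ K K' c : Finset κ, K ⊆ K' →
      ((μ[(cell t K' c).indicator fun _ => (1 : ℂ) | I]) (a1 x)).re ≤
        ((μ[(cell t K c).indicator fun _ => (1 : ℂ) | I]) (a1 x)).re} with hNd
  have hbad : μ' (N ∩ {x | ¬ (t (a1 x) = t' (a2 x) → a1 x ∈ At I μ t)}) = 0 := by
    have hb : ∀ n : ℕ, μ' (N ∩ {x | ¬ (t (a1 x) = t' (a2 x) → a1 x ∈ At I μ t)}) ≤
        ENNReal.ofReal (1 / ((n : ℝ) + 1)) := by
      intro n
      set S : Finset κ → Set Ω := fun K => N ∩ {x | t (a1 x) = t' (a2 x) ∧ ∃ c,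
        a1 x ∈ cell t K c ∧
          ((μ[(cell t K c).indicator fun _ => (1 : ℂ) | I]) (a1 x)).re < 1 / ((n : ℝ) + 1)} with hSd
      have hm : Monotone S := by
        rintro K K' hK x ⟨h0, h1, c, h2, h3⟩
        have h4 : a1 x ∈ cell t K' (K'.filter (t (a1 x))) := fun i hi => by simp [hi]
        have h5 : a1 x ∈ cell t K (K'.filter (t (a1 x))) := fun i hi => h4 i (hK hi)
        refine ⟨h0, h1, _, h4, lt_of_le_of_lt (h0 K K' _ hK) ?_⟩
        rw [← At1.cell_congr t h2 h5]
        exact h3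
      have hsub : N ∩ {x | ¬ (t (a1 x) = t' (a2 x) → a1 x ∈ At I μ t)} ⊆ ⋃ K, S K := by
        rintro x ⟨h0, h1⟩
        have h2 : t (a1 x) = t' (a2 x) := by
          by_contra h
          exact h1 fun h' => absurd h' h
        have h3 : ¬ ∀ K c : Finset κ, a1 x ∈ cell t K c → 1 / ((n : ℝ) + 1) ≤
            ((μ[(cell t K c).indicator fun _ => (1 : ℂ) | I]) (a1 x)).re :=
          fun h => h1 fun _ => ⟨n, h⟩
        push Not at h3
        obtain ⟨K, c, h4, h5⟩ := h3
        exact Set.mem_iUnion.2 ⟨K, h0, h2, c, h4, h5⟩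
      refine (measure_mono hsub).trans ?_
      rw [hm.directed_le.measure_iUnion]
      refine iSup_le fun K => (measure_mono Set.inter_subset_right).trans ?_
      rw [← ofReal_measureReal]
      exact ENNReal.ofReal_le_ofReal
        (At1.level I μ μ' a1 a2 t t' hI ht ht' hS _ (by positivity) K)
    have hl : Tendsto (fun n : ℕ => ENNReal.ofReal (1 / ((n : ℝ) + 1))) atTop (𝓝 0) := by
      simpa using ENNReal.tendsto_ofReal tendsto_one_div_add_atTop_nhds_zero_nat
    exact le_antisymm (ge_of_tendsto' hl hb) bot_le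
  filter_upwards [hN', measure_eq_zero_iff_ae_notMem.1 hbad] with x h1 h2
  by_contra h3
  exact h2 ⟨h1, h3⟩

end T4x

end
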