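import Pool.Agent.MP_154433_an.t4.SpecG

/-! Atoms of types: two algebras with commuting projections, and atoms are met. -/

set_option autoImplicit false
set_option linter.unusedVariables false
set_option linter.unusedSectionVars false
set_option warn.classDefReducibility false

open MeasureTheory ProbabilityTheory Filter Topology Function Finset ComplexConjugate
open scoped BigOperators
open Fib27 (BM sup pr Oc Orow F23 LInd Mem)

noncomputable section

namespace T4x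

open T3x

namespace At2

/-- the real conditional probability of a set -/
def rr {Y : Type} (I : MeasurableSpace Y) {m0 : MeasurableSpace Y} (μ : Measure Y) (A : Set Y) :
    Y → ℝ := μ[A.indicator fun _ => (1 : ℝ) | I]

section basic

variable {Y : Type} (I I' J : MeasurableSpace Y) {m0 : MeasurableSpace Y} (μ : Measure Y)
  [IsProbabilityMeasure μ]

theorem int_ind {A : Set Y} (hA : MeasurableSet A) :
    Integrable (A.indicator fun _ => (1 : ℝ)) μ := (integrable_const (1 : ℝ)).indicator hA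

theorem ind_eq (A : Set Y) :
    (A.indicator fun _ => (1 : ℂ)) = Complex.ofRealCLM ∘ (A.indicator fun _ => (1 : ℝ)) := by
  funext y
  by_cases h : y ∈ A <;> simp [h]

theorem cre {A : Set Y} (hA : MeasurableSet A) :
    μ[A.indicator fun _ => (1 : ℂ) | I] =ᵐ[μ] fun y => ((rr I μ A y : ℝ) : ℂ) := by
  rw [ind_eq]
  exact (Complex.ofRealCLM.comp_condExp_comm (int_ind μ hA) (m := I)).symm

theorem rr_nonneg (A : Set Y) : 0 ≤ᵐ[μ] rr I μ A :=
  condExp_nonneg (Eventually.of_forall fun y => Set.indicator_nonneg (fun _ _ => zero_le_one) y)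

theorem rr_le_one (hI : I ≤ m0) {A : Set Y} (hA : MeasurableSet A) :
    ∀ᵐ y ∂μ, rr I μ A y ≤ 1 := by
  have h1 : μ[A.indicator fun _ => (1 : ℝ) | I] ≤ᵐ[μ] μ[fun _ => (1 : ℝ) | I] :=
    condExp_mono (int_ind μ hA) (integrable_const 1)
      (Eventually.of_forall fun y => Set.indicator_le_self' (fun _ _ => zero_le_one) y)
  rw [condExp_const hI] at h1
  exact h1

theorem rr_mono {A B : Set Y} (hA : MeasurableSet A) (hB : MeasurableSet B) (h : A ⊆ B) :
    rr I μ A ≤ᵐ[μ] rr I μ B :=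
  condExp_mono (int_ind μ hA) (int_ind μ hB)
    (Eventually.of_forall fun y =>
      Set.indicator_le_indicator_of_subset h (fun _ => zero_le_one) y)

theorem rr_int (A : Set Y) : Integrable (rr I μ A) μ := integrable_condExp

theorem rr_sm (A : Set Y) : StronglyMeasurable[I] (rr I μ A) := stronglyMeasurable_condExp

theorem rr_integral (hI : I ≤ m0) {A : Set Y} (hA : MeasurableSet A) :
    ∫ y, rr I μ A y ∂μ = μ.real A := by
  unfold rr
  rw [integral_condExp hI, integral_indicator hA]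
  simp

theorem bm_ind {A : Set Y} (hA : MeasurableSet A) : BM μ m0 (A.indicator fun _ => (1 : ℂ)) := by
  refine ⟨(stronglyMeasurable_const.indicator hA).aestronglyMeasurable, 1,
    Eventually.of_forall fun y => ?_⟩
  by_cases h : y ∈ A <;> simp [h]

theorem int_mul {g f : Y → ℝ} (hg : AEStronglyMeasurable g μ) (hb : ∀ᵐ y ∂μ, ‖g y‖ ≤ 1)
    (hf : Integrable f μ) : Integrable (g * f) μ := hf.bdd_mul hg hb

/-- pulling a bounded factor through the projection -/
theorem pull_int (hI : I ≤ m0) {g f : Y → ℝ} (hg : StronglyMeasurable[I] g)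
    (hb : ∀ᵐ y ∂μ, ‖g y‖ ≤ 1) (hf : Integrable f μ) :
    ∫ y, g y * f y ∂μ = ∫ y, g y * (μ[f | I]) y ∂μ := by
  have hi : Integrable (g * f) μ := int_mul μ (hg.mono hI).aestronglyMeasurable hb hf
  have h1 : ∫ y, (μ[g * f | I]) y ∂μ = ∫ y, (g * f) y ∂μ := integral_condExp hI
  have h2 := integral_congr_ae (condExp_mul_of_stronglyMeasurable_left hg hi hf)
  exact (h1.symm.trans h2)

theorem rr_norm (hI : I ≤ m0) {A : Set Y} (hA : MeasurableSet A) :
    ∀ᵐ y ∂μ, ‖rr I μ A y‖ ≤ 1 := by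
  filter_upwards [rr_nonneg I μ A, rr_le_one I μ hI hA] with y h0 h1
  rw [Real.norm_eq_abs, abs_of_nonneg h0]
  exact h1

/-- the real form of the commuting projections -/
theorem rr_comm (hc : ∀ f : Y → ℂ, BM μ m0 f → μ[μ[f | I] | I'] =ᵐ[μ] μ[f | J])
    {A : Set Y} (hA : MeasurableSet A) : μ[rr I μ A | I'] =ᵐ[μ] rr J μ A := by
  have h1 := Complex.ofRealCLM.comp_condExp_comm (rr_int I μ A) (m := I')
  have h2 : μ[Complex.ofRealCLM ∘ rr I μ A | I'] =ᵐ[μ]
      μ[μ[A.indicator fun _ => (1 : ℂ) | I] | I'] := condExp_congr_ae (cre I μ hA).symm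
  have h3 := hc _ (bm_ind μ hA)
  filter_upwards [h1, h2, h3, cre J μ hA] with y a1 a2 a3 a4
  have : (((μ[rr I μ A | I']) y : ℝ) : ℂ) = ((rr J μ A y : ℝ) : ℂ) :=
    a1.trans (a2.trans (a3.trans a4))
  exact Complex.ofReal_injective this

/-- the estimate on one set -/
theorem one_set (hI : I ≤ m0) (hI' : I' ≤ m0) (hJ : J ≤ I')
    (hc : ∀ f : Y → ℂ, BM μ m0 f → μ[μ[f | I] | I'] =ᵐ[μ] μ[f | J])
    {A : Set Y} (hA : MeasurableSet A) {ε η : ℝ} (hε : 0 < ε) (hη : 0 < η) :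
    ε ^ 2 * μ.real {y | ε ≤ rr I μ A y ∧ ε ≤ rr I' μ A y ∧ rr J μ A y < η} ≤ η * μ.real A := by
  have hD : MeasurableSet[J] {y | rr J μ A y < η} :=
    (rr_sm J μ A).measurable measurableSet_Iio
  have hE : MeasurableSet {y | ε ≤ rr I μ A y ∧ ε ≤ rr I' μ A y ∧ rr J μ A y < η} :=
    (hI _ ((rr_sm I μ A).measurable measurableSet_Ici)).inter
      ((hI' _ ((rr_sm I' μ A).measurable measurableSet_Ici)).inter (hI' _ (hJ _ hD)))
  have hg : StronglyMeasurable[I'] ({y | rr J μ A y < η}.indicator (rr I' μ A)) :=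
    (rr_sm I' μ A).indicator (hJ _ hD)
  have hb : ∀ᵐ y ∂μ, ‖{y | rr J μ A y < η}.indicator (rr I' μ A) y‖ ≤ 1 := by
    filter_upwards [rr_norm I' μ hI' hA] with y hy
    exact (norm_indicator_le_norm_self _ _).trans hy
  have h1 := pull_int I' μ hI' hg hb (rr_int I μ A)
  have h2 : ∫ y, {y | rr J μ A y < η}.indicator (rr I' μ A) y * (μ[rr I μ A | I']) y ∂μ ≤
      ∫ y, η * rr I' μ A y ∂μ := by
    refine integral_mono_ae
      (int_mul μ (hg.mono hI').aestronglyMeasurable hb integrable_condExp)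
      ((rr_int I' μ A).const_mul η) ?_
    filter_upwards [rr_comm I I' J μ hc hA, rr_nonneg I' μ A] with y a1 a2
    have a2' : 0 ≤ rr I' μ A y := a2
    show {y | rr J μ A y < η}.indicator (rr I' μ A) y * (μ[rr I μ A | I']) y ≤ η * rr I' μ A y
    rw [a1]
    by_cases h : y ∈ {y | rr J μ A y < η}
    · rw [Set.indicator_of_mem h]
      have h' : rr J μ A y < η := h
      nlinarith
    · rw [Set.indicator_of_notMem h, zero_mul]
      positivity
  have h3 : ∫ y, {y | ε ≤ rr I μ A y ∧ ε ≤ rr I' μ A y ∧ rr J μ A y < η}.indicator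
      (fun _ => ε ^ 2) y ∂μ ≤
      ∫ y, {y | rr J μ A y < η}.indicator (rr I' μ A) y * rr I μ A y ∂μ := by
    refine integral_mono_ae ((integrable_const _).indicator hE)
      (int_mul μ (hg.mono hI').aestronglyMeasurable hb (rr_int I μ A)) ?_
    filter_upwards [rr_nonneg I μ A, rr_nonneg I' μ A] with y a1 a2
    have a1' : 0 ≤ rr I μ A y := a1
    have a2' : 0 ≤ rr I' μ A y := a2
    by_cases h : y ∈ {y | ε ≤ rr I μ A y ∧ ε ≤ rr I' μ A y ∧ rr J μ A y < η}
    · have h' : y ∈ {y | rr J μ A y < η} := h.2.2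
      rw [Set.indicator_of_mem h, Set.indicator_of_mem h', sq]
      exact mul_le_mul h.2.1 h.1 hε.le a2'
    · rw [Set.indicator_of_notMem h]
      exact mul_nonneg (Set.indicator_apply_nonneg fun _ => a2') a1'
  rw [integral_indicator hE] at h3
  rw [integral_const_mul, rr_integral I' μ hI' hA] at h2
  simp only [integral_const, smul_eq_mul, measureReal_restrict_apply_univ] at h3
  linarith

end basic

section cells

variable {Y κ : Type} (t : Y → κ → Prop)

theorem cell_meas {m0 : MeasurableSpace Y} (ht : ∀ i, MeasurableSet {y | t y i})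
    (K c : Finset κ) : MeasurableSet (cell t K c) := by
  have : cell t K c = ⋂ i ∈ K, {y | t y i ↔ i ∈ c} := by
    ext y
    simp [cell]
  rw [this]
  refine K.measurableSet_biInter fun i _ => ?_
  by_cases h : i ∈ c
  · simpa [h] using ht i
  · have := (ht i).compl
    simpa [h, Set.compl_setOf] using this

open Classical in
/-- the trace of the type on a finite set -/
def tr (K : Finset κ) (y : Y) : Finset κ := K.filter (t y)

theorem mem_tr (K : Finset κ) (y : Y) : y ∈ cell t K (tr t K y) := by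
  intro i hi
  simp [tr, hi]

theorem tr_mem (K : Finset κ) (y : Y) : tr t K y ∈ K.powerset := by
  rw [Finset.mem_powerset]
  intro i hi
  simp only [tr, Finset.mem_filter] at hi
  exact hi.1

theorem cell_sub {K K' c c' : Finset κ} (h : K ⊆ K') {y : Y} (hy : y ∈ cell t K c)
    (hy' : y ∈ cell t K' c') : cell t K' c' ⊆ cell t K c := fun z hz i hi =>
  (hz i (h hi)).trans ((hy' i (h hi)).symm.trans (hy i hi))

theorem cell_disj (K : Finset κ) : Set.PairwiseDisjoint (↑K.powerset : Set (Finset κ))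
    (fun c => cell t K c) := by
  intro c hc c' hc' hne
  refine Set.disjoint_left.2 fun y hy hy' => hne ?_
  have h1 : c ⊆ K := Finset.mem_powerset.1 hc
  have h2 : c' ⊆ K := Finset.mem_powerset.1 hc'
  ext i
  exact ⟨fun h => (hy' i (h1 h)).1 ((hy i (h1 h)).2 h),
    fun h => (hy i (h2 h)).1 ((hy' i (h2 h)).2 h)⟩

end cells

section main

variable {Y κ : Type} [Countable κ] (I I' J : MeasurableSpace Y) {m0 : MeasurableSpace Y}
  (μ : Measure Y) [IsProbabilityMeasure μ] (t : Y → κ → Prop)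

/-- the level set of the real conditional probabilities -/
def Lv (I : MeasurableSpace Y) {m0 : MeasurableSpace Y} (μ : Measure Y) (t : Y → κ → Prop)
    (ε : ℝ) : Set Y := {y | ∀ K c : Finset κ, y ∈ cell t K c → ε ≤ rr I μ (cell t K c) y}

theorem Lv_anti {ε ε' : ℝ} (h : ε ≤ ε') : Lv I μ t ε' ⊆ Lv I μ t ε :=
  fun y hy K c hc => h.trans (hy K c hc)

theorem Lv_meas (hI : I ≤ m0) (ht : ∀ i, MeasurableSet {y | t y i}) (ε : ℝ) :
    MeasurableSet (Lv I μ t ε) := by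
  have : Lv I μ t ε = ⋂ K : Finset κ, ⋂ c : Finset κ,
      ((cell t K c)ᶜ ∪ {y | ε ≤ rr I μ (cell t K c) y}) := by
    ext y
    simp only [Lv, Set.mem_setOf_eq, Set.mem_iInter, Set.mem_union, Set.mem_compl_iff,
      imp_iff_not_or]
  rw [this]
  exact MeasurableSet.iInter fun K => MeasurableSet.iInter fun c =>
    (cell_meas t ht K c).compl.union (hI _ ((rr_sm I μ _).measurable measurableSet_Ici))

theorem At_iff (ht : ∀ i, MeasurableSet {y | t y i}) :
    ∀ᵐ y ∂μ, (y ∈ At I μ t ↔ ∃ n : ℕ, y ∈ Lv I μ t (1 / ((n : ℝ) + 1))) := by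
  have h : ∀ᵐ y ∂μ, ∀ K c : Finset κ,
      (μ[(cell t K c).indicator fun _ => (1 : ℂ) | I]) y = ((rr I μ (cell t K c) y : ℝ) : ℂ) :=
    ae_all_iff.2 fun K => ae_all_iff.2 fun c => cre I μ (cell_meas t ht K c)
  filter_upwards [h] with y hy
  simp only [At, Lv, Set.mem_setOf_eq, hy, Complex.ofReal_re]

/-- the points that stay large over two algebras and get small over the third -/
theorem bad_le (hI : I ≤ m0) (hI' : I' ≤ m0) (hJ : J ≤ I')
    (hc : ∀ f : Y → ℂ, BM μ m0 f → μ[μ[f | I] | I'] =ᵐ[μ] μ[f | J])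
    (ht : ∀ i, MeasurableSet {y | t y i}) {ε η : ℝ} (hε : 0 < ε) (hη : 0 < η) :
    μ ((Lv I μ t ε ∩ Lv I' μ t ε) \ Lv J μ t η) ≤ ENNReal.ofReal (η / ε ^ 2) := by
  have hG : ∀ᵐ y ∂μ, ∀ K c K' c' : Finset κ, cell t K' c' ⊆ cell t K c →
      rr J μ (cell t K' c') y ≤ rr J μ (cell t K c) y := by
    refine ae_all_iff.2 fun K => ae_all_iff.2 fun c => ae_all_iff.2 fun K' =>
      ae_all_iff.2 fun c' => ?_
    by_cases h : cell t K' c' ⊆ cell t K c
    · filter_upwards [rr_mono J μ (cell_meas t ht K' c') (cell_meas t ht K c) h] with y hy _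
      exact hy
    · exact Eventually.of_forall fun y h' => absurd h' h
  let B : Finset κ → Set Y := fun K => {y | (∀ K c K' c' : Finset κ, cell t K' c' ⊆ cell t K c →
      rr J μ (cell t K' c') y ≤ rr J μ (cell t K c) y) ∧ y ∈ Lv I μ t ε ∧ y ∈ Lv I' μ t ε ∧
      rr J μ (cell t K (tr t K y)) y < η}
  have hmono : Monotone B := by
    intro K K' h y hy
    exact ⟨hy.1, hy.2.1, hy.2.2.1, lt_of_le_of_lt
      (hy.1 _ _ _ _ (cell_sub t h (mem_tr t K y) (mem_tr t K' y))) hy.2.2.2⟩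
  have hsub : ((Lv I μ t ε ∩ Lv I' μ t ε) \ Lv J μ t η : Set Y) ≤ᵐ[μ] (⋃ K, B K : Set Y) := by
    filter_upwards [hG] with y hy hy'
    obtain ⟨⟨h1, h2⟩, h3⟩ := hy'
    have h4 : ∃ K c : Finset κ, y ∈ cell t K c ∧ rr J μ (cell t K c) y < η := by
      by_contra hcon
      exact h3 fun K c hc' => not_lt.1 fun hlt => hcon ⟨K, c, hc', hlt⟩
    obtain ⟨K, c, h5, h6⟩ := h4
    exact Set.mem_iUnion.2 ⟨K, hy, h1, h2, lt_of_le_of_lt
      (hy _ _ _ _ (cell_sub t (Finset.Subset.refl K) h5 (mem_tr t K y))) h6⟩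
  refine (measure_mono_ae hsub).trans ?_
  rw [hmono.measure_iUnion]
  refine iSup_le fun K => ?_
  rw [ENNReal.le_ofReal_iff_toReal_le (measure_ne_top _ _) (by positivity), le_div_iff₀
    (by positivity)]
  have h1 : B K ⊆ ⋃ c ∈ K.powerset, {y | ε ≤ rr I μ (cell t K c) y ∧
      ε ≤ rr I' μ (cell t K c) y ∧ rr J μ (cell t K c) y < η} := fun y hy =>
    Set.mem_biUnion (tr_mem t K y)
      ⟨hy.2.1 _ _ (mem_tr t K y), hy.2.2.1 _ _ (mem_tr t K y), hy.2.2.2⟩
  have h2 : μ.real (B K) ≤ ∑ c ∈ K.powerset, μ.real {y | ε ≤ rr I μ (cell t K c) y ∧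
      ε ≤ rr I' μ (cell t K c) y ∧ rr J μ (cell t K c) y < η} :=
    (measureReal_mono h1 (measure_ne_top _ _)).trans (measureReal_biUnion_finset_le _ _)
  have h3 : ε ^ 2 * ∑ c ∈ K.powerset, μ.real {y | ε ≤ rr I μ (cell t K c) y ∧
      ε ≤ rr I' μ (cell t K c) y ∧ rr J μ (cell t K c) y < η} ≤
      η * ∑ c ∈ K.powerset, μ.real (cell t K c) := by
    rw [Finset.mul_sum, Finset.mul_sum]
    exact Finset.sum_le_sum fun c _ => one_set I I' J μ hI hI' hJ hc (cell_meas t ht K c) hε hη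
  have h4 : ∑ c ∈ K.powerset, μ.real (cell t K c) ≤ 1 := by
    have := sum_measureReal_le_measureReal_univ (μ := μ) (fun c _ => cell_meas t ht K c)
      (cell_disj t K)
    simpa using this
  have h5 : μ.real (B K) * ε ^ 2 ≤ η := by
    have e2 : 0 < ε ^ 2 := by positivity
    nlinarith
  exact h5

theorem two_lv (hI : I ≤ m0) (hI' : I' ≤ m0) (hJ : J ≤ I')
    (hc : ∀ f : Y → ℂ, BM μ m0 f → μ[μ[f | I] | I'] =ᵐ[μ] μ[f | J])
    (ht : ∀ i, MeasurableSet {y | t y i}) {ε : ℝ} (hε : 0 < ε) :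
    ∀ᵐ y ∂μ, y ∈ Lv I μ t ε → y ∈ Lv I' μ t ε → ∃ n : ℕ, y ∈ Lv J μ t (1 / ((n : ℝ) + 1)) := by
  rw [ae_iff]
  refine le_antisymm ?_ bot_le
  have hlim : Tendsto (fun n : ℕ => ENNReal.ofReal (1 / ((n : ℝ) + 1) / ε ^ 2)) atTop
      (𝓝 (ENNReal.ofReal (0 / ε ^ 2))) :=
    ENNReal.tendsto_ofReal (tendsto_one_div_add_atTop_nhds_zero_nat.div_const _)
  rw [zero_div, ENNReal.ofReal_zero] at hlim
  refine ge_of_tendsto' hlim fun n => ?_
  refine le_trans (measure_mono ?_) (bad_le I I' J μ t hI hI' hJ hc ht hε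
    (η := 1 / ((n : ℝ) + 1)) (by positivity))
  intro y hy
  by_contra hcon
  refine hy fun h1 h2 => ⟨n, ?_⟩
  by_contra h3
  exact hcon ⟨⟨h1, h2⟩, h3⟩

/-- the mass of a rectangle under the relative square -/
theorem rect {Ω : Type} {m1 : MeasurableSpace Ω} (μ' : Measure Ω) [IsProbabilityMeasure μ']
    (a1 a2 : Ω → Y) (hI : I ≤ m0) (hS : Sq I μ μ' a1 a2) {A C : Set Y} (hA : MeasurableSet A)
    (hC : MeasurableSet C) {ε : ℝ} (h : ∀ y ∈ A, ε ≤ rr I μ C y) :
    ε * μ.real A ≤ μ'.real (a1 ⁻¹' A ∩ a2 ⁻¹' C) := by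
  have hm : MeasurableSet (a1 ⁻¹' A ∩ a2 ⁻¹' C) :=
    (hS.1.measurable hA).inter (hS.2.1.measurable hC)
  have h1 := hS.2.2 _ _ (bm_ind μ hA) (bm_ind μ hC)
  have h2 : ∫ x, (A.indicator fun _ => (1 : ℂ)) (a1 x) * (C.indicator fun _ => (1 : ℂ)) (a2 x) ∂μ'
      = ((μ'.real (a1 ⁻¹' A ∩ a2 ⁻¹' C) : ℝ) : ℂ) := by
    have : (fun x => (A.indicator fun _ => (1 : ℂ)) (a1 x) * (C.indicator fun _ => (1 : ℂ)) (a2 x))
        = (a1 ⁻¹' A ∩ a2 ⁻¹' C).indicator fun _ => (1 : ℂ) := by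
      funext x
      by_cases p : a1 x ∈ A <;> by_cases p' : a2 x ∈ C <;> simp [p, p']
    rw [this, integral_indicator hm]
    simp
  have h3 : ∫ y, (μ[A.indicator fun _ => (1 : ℂ) | I]) y * (μ[C.indicator fun _ => (1 : ℂ) | I]) y ∂μ
      = ((∫ y, rr I μ C y * rr I μ A y ∂μ : ℝ) : ℂ) := by
    rw [← integral_complex_ofReal]
    refine integral_congr_ae ?_
    filter_upwards [cre I μ hA, cre I μ hC] with y b1 b2
    rw [b1, b2, mul_comm]
    exact (Complex.ofReal_mul _ _).symm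
  have h4 : μ'.real (a1 ⁻¹' A ∩ a2 ⁻¹' C) = ∫ y, rr I μ C y * rr I μ A y ∂μ :=
    Complex.ofReal_injective (h2.symm.trans (h1.trans h3))
  have h5 := pull_int I μ hI (rr_sm I μ C) (rr_norm I μ hI hC) (int_ind μ hA)
  have h6 : ∫ y, A.indicator (fun _ => ε) y ∂μ ≤
      ∫ y, rr I μ C y * (A.indicator fun _ => (1 : ℝ)) y ∂μ := by
    refine integral_mono ((integrable_const _).indicator hA)
      (int_mul μ ((rr_sm I μ C).mono hI).aestronglyMeasurable (rr_norm I μ hI hC)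
        (int_ind μ hA)) fun y => ?_
    by_cases p : y ∈ A
    · simpa [p] using h y p
    · simp [p]
  rw [integral_indicator hA] at h6
  simp only [integral_const, smul_eq_mul, measureReal_restrict_apply_univ] at h6
  rw [h4, mul_comm]
  exact h6.trans h5.le

theorem met_lv {Ω : Type} {m1 : MeasurableSpace Ω} (μ' : Measure Ω) [IsProbabilityMeasure μ']
    (a1 a2 : Ω → Y) (S : Set Y) (hI : I ≤ m0) (ht : ∀ i, MeasurableSet {y | t y i})
    (hSm : MeasurableSet S) (hS : Sq I μ μ' a1 a2)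
    (h0 : μ' {x | a1 x ∈ S ∧ t (a1 x) = t (a2 x)} = 0) {ε : ℝ} (hε : 0 < ε) :
    μ (S ∩ Lv I μ t ε) = 0 := by
  have hN : MeasurableSet (S ∩ Lv I μ t ε) := hSm.inter (Lv_meas I μ t hI ht ε)
  let T : Finset κ → Set Ω := fun K => ⋃ c ∈ K.powerset,
    (a1 ⁻¹' ((S ∩ Lv I μ t ε) ∩ cell t K c) ∩ a2 ⁻¹' (cell t K c))
  have hpm : ∀ K c : Finset κ, MeasurableSet
      (a1 ⁻¹' ((S ∩ Lv I μ t ε) ∩ cell t K c) ∩ a2 ⁻¹' (cell t K c)) := fun K c =>
    (hS.1.measurable (hN.inter (cell_meas t ht K c))).inter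
      (hS.2.1.measurable (cell_meas t ht K c))
  have hTm : ∀ K, MeasurableSet (T K) := fun K =>
    K.powerset.measurableSet_biUnion fun c _ => hpm K c
  have hT : ∀ K x, x ∈ T K ↔ a1 x ∈ S ∩ Lv I μ t ε ∧ ∀ i ∈ K, (t (a1 x) i ↔ t (a2 x) i) := by
    intro K x
    constructor
    · intro hx
      obtain ⟨c, hc, ⟨h1, h2⟩, h3⟩ := Set.mem_iUnion₂.1 hx
      exact ⟨h1, fun i hi => (h2 i hi).trans (h3 i hi).symm⟩
    · rintro ⟨h1, h2⟩
      exact Set.mem_biUnion (tr_mem t K (a1 x)) ⟨⟨h1, mem_tr t K _⟩,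
        fun i hi => (h2 i hi).symm.trans (mem_tr t K _ i hi)⟩
  have hanti : Antitone T := fun K K' h x hx =>
    (hT K x).2 ⟨((hT K' x).1 hx).1, fun i hi => ((hT K' x).1 hx).2 i (h hi)⟩
  have hlow : ∀ K, ENNReal.ofReal (ε * μ.real (S ∩ Lv I μ t ε)) ≤ μ' (T K) := by
    intro K
    rw [ENNReal.ofReal_le_iff_le_toReal (measure_ne_top _ _)]
    have h1 : μ'.real (T K) = ∑ c ∈ K.powerset,
        μ'.real (a1 ⁻¹' ((S ∩ Lv I μ t ε) ∩ cell t K c) ∩ a2 ⁻¹' (cell t K c)) := by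
      refine measureReal_biUnion_finset ?_ (fun c _ => hpm K c) (fun c _ => measure_ne_top _ _)
      intro c hc c' hc' hne
      exact Set.disjoint_left.2 fun x hx hx' =>
        Set.disjoint_left.1 (cell_disj t K hc hc' hne) hx.2 hx'.2
    have h2 : μ.real (S ∩ Lv I μ t ε) ≤
        ∑ c ∈ K.powerset, μ.real ((S ∩ Lv I μ t ε) ∩ cell t K c) := by
      have hsub : S ∩ Lv I μ t ε ⊆ ⋃ c ∈ K.powerset, ((S ∩ Lv I μ t ε) ∩ cell t K c) :=
        fun y hy => Set.mem_biUnion (tr_mem t K y) ⟨hy, mem_tr t K y⟩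
      exact (measureReal_mono hsub (measure_ne_top _ _)).trans
        (measureReal_biUnion_finset_le _ _)
    have h3 : ε * ∑ c ∈ K.powerset, μ.real ((S ∩ Lv I μ t ε) ∩ cell t K c) ≤ μ'.real (T K) := by
      rw [h1, Finset.mul_sum]
      exact Finset.sum_le_sum fun c _ => rect I μ μ' a1 a2 hI hS
        (hN.inter (cell_meas t ht K c)) (cell_meas t ht K c) fun y hy => hy.1.2 K c hy.2
    exact (mul_le_mul_of_nonneg_left h2 hε.le).trans h3
  have hz : μ' (⋂ K, T K) = 0 := by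
    refine measure_mono_null (fun x hx => ?_) h0
    have hx' := Set.mem_iInter.1 hx
    refine ⟨((hT ∅ x).1 (hx' ∅)).1.1, funext fun i => propext ?_⟩
    exact ((hT {i} x).1 (hx' {i})).2 i (Finset.mem_singleton_self i)
  rw [hanti.measure_iInter (fun K => (hTm K).nullMeasurableSet) ⟨∅, measure_ne_top _ _⟩] at hz
  have h7 : ENNReal.ofReal (ε * μ.real (S ∩ Lv I μ t ε)) ≤ 0 := hz ▸ le_iInf hlow
  have h8 : ε * μ.real (S ∩ Lv I μ t ε) ≤ 0 := ENNReal.ofReal_eq_zero.1 (le_antisymm h7 bot_le)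
  have h9 : μ.real (S ∩ Lv I μ t ε) = 0 :=
    le_antisymm (by nlinarith [measureReal_nonneg (μ := μ) (s := S ∩ Lv I μ t ε)])
      measureReal_nonneg
  exact (measureReal_eq_zero_iff (measure_ne_top _ _)).1 h9

end main

end At2

variable [Grp]

/-- atoms over two algebras with commuting projections are atoms over the intersection -/
theorem xAtT : ∀ {Y κ : Type} [Countable κ] (I I' J : MeasurableSpace Y) {m0 : MeasurableSpace Y}
    (μ : Measure Y) [IsProbabilityMeasure μ] (t : Y → κ → Prop), I ≤ m0 → I' ≤ m0 → J ≤ I →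
    J ≤ I' → (∀ f : Y → ℂ, BM μ m0 f → μ[μ[f | I] | I'] =ᵐ[μ] μ[f | J]) →
    (∀ i, MeasurableSet {y | t y i}) → ∀ᵐ y ∂μ, y ∈ At I μ t → y ∈ At I' μ t → y ∈ At J μ t := by
  intro Y κ _ I I' J m0 μ _ t hI hI' _ hJ hc ht
  have h : ∀ᵐ y ∂μ, ∀ n : ℕ, y ∈ At2.Lv I μ t (1 / ((n : ℝ) + 1)) →
      y ∈ At2.Lv I' μ t (1 / ((n : ℝ) + 1)) → ∃ n : ℕ, y ∈ At2.Lv J μ t (1 / ((n : ℝ) + 1)) :=
    ae_all_iff.2 fun n => At2.two_lv I I' J μ t hI hI' hJ hc ht (by positivity)
  filter_upwards [h, At2.At_iff I μ t ht, At2.At_iff I' μ t ht, At2.At_iff J μ t ht]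
    with y h1 b1 b2 b3 c1 c2
  obtain ⟨n, hn⟩ := b1.1 c1
  obtain ⟨n', hn'⟩ := b2.1 c2
  refine b3.2 (h1 (n + n') (At2.Lv_anti I μ t ?_ hn) (At2.Lv_anti I' μ t ?_ hn'))
  · exact Nat.one_div_le_one_div (Nat.le_add_right n n')
  · exact Nat.one_div_le_one_div (Nat.le_add_left n' n)

/-- atoms are met -/
theorem xAtE : ∀ {Ω Y κ : Type} [Countable κ] (I : MeasurableSpace Y) {m0 : MeasurableSpace Y}
    (μ : Measure Y) [IsProbabilityMeasure μ] {m1 : MeasurableSpace Ω} (μ' : Measure Ω)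
    [IsProbabilityMeasure μ'] (a1 a2 : Ω → Y) (t : Y → κ → Prop) (S : Set Y), I ≤ m0 →
    (∀ i, MeasurableSet {y | t y i}) → MeasurableSet S → Sq I μ μ' a1 a2 →
    μ' {x | a1 x ∈ S ∧ t (a1 x) = t (a2 x)} = 0 → μ (S ∩ At I μ t) = 0 := by
  intro Ω Y κ _ I m0 μ _ m1 μ' _ a1 a2 t S hI ht hSm hS h0
  have h : μ (⋃ n : ℕ, S ∩ At2.Lv I μ t (1 / ((n : ℝ) + 1))) = 0 :=
    measure_iUnion_null fun n => At2.met_lv I μ t μ' a1 a2 S hI ht hSm hS h0 (by positivity)
  refine le_antisymm (le_trans (measure_mono_ae ?_) h.le) bot_le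
  filter_upwards [At2.At_iff I μ t ht] with y b1 c1
  obtain ⟨n, hn⟩ := b1.1 c1.2
  exact Set.mem_iUnion.2 ⟨n, c1.1, hn⟩

end T4x
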