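import Pool.Agent.MP_154433_an.t4.SpecG

/-! Decay of the approximate relations along a direction (row GDec). -/

set_option autoImplicit false
set_option linter.unusedVariables false
set_option warn.classDefReducibility false

open MeasureTheory ProbabilityTheory Filter Topology Function Finset ComplexConjugate
open scoped BigOperators
open Fib27 (BM sup pr)

noncomputable section

namespace T4x

open T3x

namespace GDec

theorem real_le {Ω : Type} {m0 : MeasurableSpace Ω} (μ : Measure Ω) [IsProbabilityMeasure μ]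
    (A : Set Ω) (hA : MeasurableSet A) (g : Ω → ℂ) (hg : BM μ m0 g)
    (h : ∀ᵐ x ∂μ, x ∈ A → ‖g x‖ = 1) : μ.real A ≤ ∫ x, ‖g x‖ ∂μ := by
  rw [← integral_indicator_one hA]
  refine integral_mono_ae ((integrable_const (1 : ℝ)).indicator hA) hg.integrable.norm ?_
  filter_upwards [h] with x hx
  by_cases hxA : x ∈ A
  · rw [Set.indicator_of_mem hxA, hx hxA]; rfl
  · rw [Set.indicator_of_notMem hxA]; exact norm_nonneg _

variable [Grp]

variable {X : Sys} {B : MeasurableSpace X.X} {V : Type} [AddCommGroup V] {sg : Γ →+ AddAut V}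
  {ψ : V → X.X → ℂ}

/-- the part of `ψ a` off the trivial set -/
def off (B : MeasurableSpace X.X) (ψ : V → X.X → ℂ) (a : V) : X.X → ℂ :=
  (Th B X.μ (ψ a))ᶜ.indicator (ψ a)

omit [AddCommGroup V] in
theorem off_eq (a : V) : off B ψ a =
    fun x => (Th B X.μ (ψ a))ᶜ.indicator (fun _ => (1 : ℂ)) x * ψ a x := by
  funext x
  unfold off
  by_cases h : x ∈ (Th B X.μ (ψ a))ᶜ
  · rw [Set.indicator_of_mem h, Set.indicator_of_mem h, one_mul]
  · rw [Set.indicator_of_notMem h, Set.indicator_of_notMem h, zero_mul]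

omit [AddCommGroup V] in
theorem ind_bm (R : Rc) (a : V) :
    BM X.μ B ((Th B X.μ (ψ a))ᶜ.indicator fun _ => (1 : ℂ)) :=
  Fib27.BM.indicator (R.meas B X.μ (ψ a)).compl

theorem off_bm (R : Rc) (hB : Fac X B) (P : PsC X B sg ψ) (a : V) : BM X.μ X.ms (off B ψ a) := by
  rw [off_eq]
  exact ((ind_bm R a).mono hB.le).mul (P.bm a)

theorem off_sh (P : PsC X B sg ψ) (n : Γ) (a : V) :
    (fun y => off B ψ a (X.Tz n y)) =ᵐ[X.μ] off B ψ (sg n a) := by
  filter_upwards [P.shz n a, P.nsh n a] with y h1 h2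
  unfold off
  by_cases h : y ∈ Th B X.μ (ψ (sg n a))
  · rw [Set.indicator_of_notMem (show X.Tz n y ∉ (Th B X.μ (ψ a))ᶜ from fun h' => h' (h2.1 h)),
      Set.indicator_of_notMem (show y ∉ (Th B X.μ (ψ (sg n a)))ᶜ from fun h' => h' h)]
  · rw [Set.indicator_of_mem (show X.Tz n y ∈ (Th B X.μ (ψ a))ᶜ from fun h' => h (h2.2 h')),
      Set.indicator_of_mem (show y ∈ (Th B X.μ (ψ (sg n a)))ᶜ from h), h1]

theorem one (R : Rc) (hB : Fac X B) (P : PsC X B sg ψ) (b a' : V) :
    X.μ.real (Th B X.μ (ψ (b - a')) \ Th B X.μ (ψ a')) ≤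
      ∫ x, ‖(X.μ[fun y => off B ψ b y * conj (ψ a' y) | B]) x‖ ∂X.μ := by
  have b1 := (off_bm R hB P b).mul (P.bm a').conj
  refine real_le X.μ _ (hB.le _ ((R.meas B X.μ _).diff (R.meas B X.μ _))) _
    ((b1.ce B).mono hB.le) ?_
  have e1 : (fun y => off B ψ b y * conj (ψ a' y)) =ᵐ[X.μ]
      fun y => (Th B X.μ (ψ b))ᶜ.indicator (fun _ => (1 : ℂ)) y * ψ (b - a') y := by
    filter_upwards [P.sub b a'] with y hy
    rw [off_eq, hy, mul_assoc]
  filter_upwards [condExp_congr_ae (m := B) e1, Fib27.ce_mul hB.le (ind_bm R b) (P.bm (b - a')),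
    P.nsub b (b - a')] with x h1 h2 h3 hx
  have hb : x ∈ (Th B X.μ (ψ b))ᶜ := fun h => hx.2 (by
    have := h3 h hx.1
    rwa [sub_sub_cancel] at this)
  rw [h1, h2, Set.indicator_of_mem hb, one_mul]
  exact hx.1

theorem two (R : Rc) (hB : Fac X B) (P : PsC X B sg ψ) (n : Γ) (a a' : V) :
    X.μ.real (Th B X.μ (ψ (sg n a - a')) \ Th B X.μ (ψ a')) ≤
      ∫ x, ‖(X.μ[fun y => off B ψ a (X.Tz n y) * conj (ψ a' y) | B]) x‖ ∂X.μ := by
  refine (one R hB P _ a').trans (le_of_eq (integral_congr_ae ?_))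
  have e1 : (fun y => off B ψ a (X.Tz n y) * conj (ψ a' y)) =ᵐ[X.μ]
      fun y => off B ψ (sg n a) y * conj (ψ a' y) := by
    filter_upwards [off_sh P n a] with y hy
    rw [hy]
  filter_upwards [condExp_congr_ae (m := B) e1] with x hx
  rw [hx]

end GDec

open GDec

variable [Grp]

theorem xDec : DecS := by
  intro F R G X B V _ sg ψ hX hB hψ u hu a a'
  have P := G.ps X B V sg ψ hB.1 hψ
  have e : KK X u B = B := le_antisymm (hB.2 u hu) (F.kb.le X u B hX hB.1)
  have b := off_bm R hB.1 P a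
  have w : WM X u B (off B ψ a) :=
    (F.kb.wm X u B hX hB.1 _ (b.memLp 2)).2 (by rw [e]; exact P.off a)
  refine squeeze_zero (fun N => ?_) (fun N => ?_) (w.2 _ (P.bm a').conj)
  · exact mul_nonneg (inv_nonneg.2 (Nat.cast_nonneg N)) (sum_nonneg fun n _ => measureReal_nonneg)
  · exact mul_le_mul_of_nonneg_left (sum_le_sum fun n _ => two R hB.1 P _ a a')
      (inv_nonneg.2 (Nat.cast_nonneg N))

end T4x

end
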