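import Pool.Agent.MP_154433_an.t4.SpecG

/-! A countable invariant group that contains enough partners (commuting maps). -/

set_option autoImplicit false
set_option linter.unusedVariables false
set_option warn.classDefReducibility false

open MeasureTheory ProbabilityTheory Filter Topology Function Finset ComplexConjugate
open scoped BigOperators
open Fib27 (BM sup pr Oc Orow F23 LInd Mem)
open Pool.Agent.MP_154433_an.SG (Uni ufn ucomap)

noncomputable section

namespace T4x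

open T3x

variable [Grp]

namespace GExhL

def stg {G : Type} (S0 : Set G) (N : G → G → Set G) : ℕ → Set G
  | 0 => S0
  | n + 1 => stg S0 N n ∪ ⋃ a ∈ stg S0 N n, ⋃ b ∈ stg S0 N n, N a b

omit [Grp] in
lemma clos {G : Type} (S0 : Set G) (h0 : S0.Countable) (N : G → G → Set G)
    (hN : ∀ a b, (N a b).Countable) :
    ∃ S : Set G, S.Countable ∧ S0 ⊆ S ∧ ∀ a ∈ S, ∀ b ∈ S, N a b ⊆ S := by
  have hc : ∀ n, (stg S0 N n).Countable := fun n => by
    induction n with
    | zero => exact h0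
    | succ n ih => exact ih.union (ih.biUnion fun a _ => ih.biUnion fun b _ => hN a b)
  have hm : Monotone (stg S0 N) := monotone_nat_of_le_succ fun n => Set.subset_union_left
  refine ⟨⋃ n, stg S0 N n, Set.countable_iUnion hc, Set.subset_iUnion (stg S0 N) 0, ?_⟩
  intro a ha b hb x hx
  obtain ⟨n, hn⟩ := Set.mem_iUnion.1 ha
  obtain ⟨m, hm'⟩ := Set.mem_iUnion.1 hb
  refine Set.mem_iUnion.2 ⟨max n m + 1, Or.inr ?_⟩
  exact Set.mem_biUnion (hm (le_max_left n m) hn) (Set.mem_biUnion (hm (le_max_right n m) hm') hx)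

end GExhL

open GExhL

theorem xExh : ExhR := by
  intro fd rc c g
  have hB : c.B2 ≤ c.W.ms := (fd.h.kc c.W _ c.L.nice (fd.lb.fac c.L c.B c.kc.1)).1.le
  have hp : ∀ (q : c.ι) (a : Uni c.X.X), ∃ 𝒢 : Set (c.ι → Uni c.X.X), 𝒢.Countable ∧
      (∀ g' ∈ 𝒢, g' q = a) ∧ ∀ g' : c.ι → Uni c.X.X, g' q = a →
        c.Θ (c.up g') ≤ᵐ[c.W.μ] (⋃ g1 ∈ 𝒢, c.Θ (c.up g1) : Set c.W.X) := by
    intro q a
    obtain ⟨𝒜, h1, h2, h3⟩ := fd.d.ess c.W.μ
      ((fun g' => c.Θ (c.up g')) '' {g' : c.ι → Uni c.X.X | g' q = a}) (by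
        rintro _ ⟨g', _, rfl⟩
        exact hB _ (rc.meas c.B2 c.W.μ _))
    obtain ⟨𝒢0, h4, rfl⟩ := Set.subset_image_iff.1 h1
    obtain ⟨𝒢, h5, h6⟩ := Set.exists_subset_bijOn 𝒢0 fun g' => c.Θ (c.up g')
    refine ⟨𝒢, Set.countable_of_injective_of_countable_image h6.injOn (by rwa [h6.image_eq]),
      fun g' hg' => h4 (h5 hg'), fun g' hg' => ?_⟩
    have h7 := h3 _ ⟨g', hg', rfl⟩
    rw [← h6.image_eq, Set.sUnion_image] at h7
    exact h7
  choose 𝒢 hc hq he using hp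
  let σ : Γ → Uni c.X.X → Uni c.X.X := fun n => ucomap (c.X.Tz n) (c.X.mp n).measurable
  obtain ⟨S, s1, s2, s3⟩ := clos (insert 1 (Set.range g))
    ((Set.countable_range g).insert 1)
    (fun a b => ({a * b, a⁻¹} ∪ Set.range fun n => σ n a) ∪ ⋃ q, ⋃ g' ∈ 𝒢 q a, Set.range g')
    (fun a b => ((Set.to_countable _).union (Set.countable_range _)).union
      (Set.countable_iUnion fun q => (hc q a).biUnion fun g' _ => Set.countable_range g'))
  let 𝒱 : Subgroup (Uni c.X.X) :=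
    { carrier := S
      mul_mem' := fun {a b} ha hb => s3 a ha b hb (Or.inl (Or.inl (Or.inl rfl)))
      one_mem' := s2 (Or.inl rfl)
      inv_mem' := fun {a} ha => s3 a ha a ha (Or.inl (Or.inl (Or.inr rfl))) }
  have hσ : ∀ n, ∀ a ∈ 𝒱, σ n a ∈ 𝒱 := fun n a ha => s3 a ha a ha (Or.inl (Or.inr ⟨n, rfl⟩))
  have hadd : ∀ n m a, σ (n + m) a = σ n (σ m a) := fun n m a =>
    Subtype.ext (funext fun x => by
      show a.1 (c.X.Tz (n + m) x) = a.1 (c.X.Tz m (c.X.Tz n x))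
      rw [add_comm, c.X.add])
  have hzero : ∀ a, σ 0 a = a := fun a =>
    Subtype.ext (funext fun x => by
      show a.1 (c.X.Tz 0 x) = a.1 x
      rw [c.X.zero])
  let s : Γ → 𝒱 ≃* 𝒱 := fun n =>
    { toFun := fun a => ⟨σ n a.1, hσ n a.1 a.2⟩
      invFun := fun a => ⟨σ (-n) a.1, hσ (-n) a.1 a.2⟩
      left_inv := fun a => Subtype.ext (by
        show σ (-n) (σ n a.1) = a.1
        rw [← hadd, neg_add_cancel, hzero])
      right_inv := fun a => Subtype.ext (by
        show σ n (σ (-n) a.1) = a.1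
        rw [← hadd, add_neg_cancel, hzero])
      map_mul' := fun a b => rfl }
  refine ⟨𝒱, s, ⟨s1.to_subtype, fun n m a => Subtype.ext (hadd n m a.1), fun n a x => rfl,
    fun q g' hg' => ?_⟩, fun k => s2 (Or.inr ⟨k, rfl⟩)⟩
  refine (he q (g' q) g' rfl).trans (LE.le.eventuallyLE ?_)
  refine Set.biUnion_subset_biUnion_left fun g1 h1 => ⟨fun k => ?_, hq q _ g1 h1⟩
  exact s3 _ hg' _ hg' (Or.inr (Set.mem_iUnion.2 ⟨q, Set.mem_biUnion h1 ⟨k, rfl⟩⟩))

end T4x

end
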