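import Pool.Agent.MP_154433_an.t4.SpecG

/-! Tuples of the functions `ψ` in the line. -/

set_option autoImplicit false
set_option linter.unusedVariables false
set_option warn.classDefReducibility false

open MeasureTheory ProbabilityTheory Filter Topology Function Finset ComplexConjugate
open scoped BigOperators
open Fib27 (BM sup pr Oc Orow F23 LInd Mem)
open Pool.Agent.MP_154433_an.SG (Uni ufn)

noncomputable section

namespace T4x

open T3x

variable [Grp]

namespace GFf

lemma th_congr {Ω : Type} (β : MeasurableSpace Ω) {m0 : MeasurableSpace Ω} {μ : Measure Ω}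
    {F F' : Ω → ℂ} (h : F =ᵐ[μ] F') : ∀ᵐ w ∂μ, w ∈ Th β μ F ↔ w ∈ Th β μ F' := by
  filter_upwards [condExp_congr_ae (m := β) h] with w e
  simp only [Th, Set.mem_setOf_eq, e]

end GFf

open GFf

theorem xFf : FfR := by
  intro fd rc c V _ _ sg ψ C P Ψ
  have q := fun k => (C.embπ k).mp.quasiMeasurePreserving
  have le2 : c.B2 ≤ c.W.ms := C.kc2.1.le
  have um1 : ∀ k a, Um (c.P k) c.W.μ fun w => ψ a (c.π k w) := fun k a =>
    ⟨(fd.a.bm_comp c.X.ms c.W.μ c.X.μ (c.π k) (ψ a) (C.embπ k).mp (P.bm a)).1,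
      (q k).ae (Ψ.um a).2⟩
  have um3 : ∀ k a, Um c.W.ms c.W.μ fun w => ψ a (c.π k w) := fun k a =>
    ⟨(um1 k a).1.mono (C.facP k).le, (um1 k a).2⟩
  have um : ∀ v, Um c.W.ms c.W.μ (c.FF ψ v) := fun v =>
    ⟨Finset.aestronglyMeasurable_fun_prod _ fun k _ => (um3 k (v k)).1, by
      filter_upwards [ae_all_iff.2 fun k => (um3 k (v k)).2] with w h
      simp only [Ctx.FF, norm_prod, h, Finset.prod_const_one]⟩
  have z := ae_all_iff.2 fun k => (q k).ae P.zero
  have zero : c.FF ψ 0 =ᵐ[c.W.μ] fun _ => 1 := by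
    filter_upwards [z] with w h
    exact Finset.prod_eq_one fun k _ => h k
  have add : ∀ v v', c.FF ψ (v + v') =ᵐ[c.W.μ] fun w => c.FF ψ v w * c.FF ψ v' w := fun v v' => by
    filter_upwards [ae_all_iff.2 fun k => (q k).ae (Ψ.add (v k) (v' k))] with w h
    simp only [Ctx.FF, ← Finset.prod_mul_distrib]
    exact Finset.prod_congr rfl fun k _ => h k
  have sub : ∀ v v', c.FF ψ (v - v') =ᵐ[c.W.μ] fun w => c.FF ψ v w * conj (c.FF ψ v' w) :=
    fun v v' => by
    filter_upwards [ae_all_iff.2 fun k => (q k).ae (P.sub (v k) (v' k))] with w h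
    simp only [Ctx.FF, map_prod, ← Finset.prod_mul_distrib]
    exact Finset.prod_congr rfl fun k _ => h k
  have single : ∀ k a, c.FF ψ (Pi.single k a) =ᵐ[c.W.μ] fun w => ψ a (c.π k w) := fun k a => by
    filter_upwards [z] with w h
    rw [Ctx.FF, Finset.prod_eq_single k (fun j _ hj => by rw [Pi.single_eq_of_ne hj]; exact h j)
      (by simp), Pi.single_eq_same]
  have shz : ∀ (n : Γ) v, c.FF ψ (fun k => sg n (v k)) =ᵐ[c.W.μ]
      fun w => c.FF ψ v (c.W.Tz n w) := fun n v => by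
    filter_upwards [ae_all_iff.2 fun k => (q k).ae (P.shz n (v k)), ae_all_iff.2 fun k =>
      fd.a.keq_fun c.X.ms c.W.μ c.X.μ _ _ (ψ (v k)) ((C.embπ k).mp.comp (fd.t.mp c.W n))
        ((fd.t.mp c.X n).comp (C.embπ k).mp) (fd.t.emb_z _ _ _ n (C.embπ k)) (Ψ.um _).1]
      with w h h'
    exact Finset.prod_congr rfl fun k _ => (h k).trans (h' k).symm
  have tm : ∀ v, MeasurableSet[c.B2] (c.ΘV ψ v) := fun v => rc.meas _ _ _
  have tsh : ∀ n : Γ, ∀ᵐ w ∂c.W.μ, ∀ v,
      w ∈ c.ΘV ψ (fun k => sg n (v k)) ↔ c.W.Tz n w ∈ c.ΘV ψ v := fun n =>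
    ae_all_iff.2 fun v => by
      filter_upwards [th_congr c.B2 (shz n v), fd.t.ce c.W c.B2 n (c.FF ψ v) C.kc2.1
        (Integrable.of_bound (um v).1 1 ((um v).2.mono fun w h => h.le))] with w h h'
      refine h.trans ?_
      simp only [Ctx.ΘV, Th, Set.mem_setOf_eq, h']
  refine ⟨um1, fun k a => ⟨(um1 k a).1.mono le_sup_left, (um1 k a).2⟩, um3, um, zero, add, sub,
    single, shz, tm, ?_, ae_all_iff.2 fun v => ae_all_iff.2 fun v' => ?_,
    ae_all_iff.2 fun v => ae_all_iff.2 fun v' => ?_, tsh, ?_, fun n => ?_,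
    fun gi => ae_all_iff.2 fun k => ae_all_iff.2 fun a => ?_⟩
  · filter_upwards [th_congr c.B2 zero] with w h
    refine h.2 ?_
    simp only [Th, Set.mem_setOf_eq, condExp_const le2, norm_one]
  · filter_upwards [th_congr c.B2 (add v v'), rc.mul c.B2 c.W.μ _ _ le2 (um v) (um v')]
      with w h h' a b
    exact h.2 (h' ⟨a, b⟩)
  · have u : Um c.W.ms c.W.μ fun w => conj (c.FF ψ v' w) :=
      ⟨Complex.continuous_conj.comp_aestronglyMeasurable (um v').1,
        (um v').2.mono fun w h => by simpa using h⟩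
    filter_upwards [th_congr c.B2 (sub v v'), rc.mul c.B2 c.W.μ _ _ le2 (um v) u,
      rc.cj c.B2 c.W.μ _ le2 (um v')] with w h h' h'' a b
    exact h.2 (h' ⟨a, (iff_of_eq h'').2 b⟩)
  · exact MeasurableSet.iInter fun q => MeasurableSet.iInter fun x =>
      MeasurableSet.biUnion (Set.to_countable _) fun v _ => tm v
  · filter_upwards [tsh n] with w h
    simp only [Ctx.UU, Set.mem_iInter, Set.mem_iUnion, Set.mem_setOf_eq, exists_prop]
    refine ⟨fun H q x => ?_, fun H q x => ?_⟩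
    · obtain ⟨v, e, hv⟩ := H q (sg n x)
      refine ⟨fun k => (sg n).symm (v k), by simp [e], (h _).1 ?_⟩
      simpa only [AddEquiv.apply_symm_apply] using hv
    · obtain ⟨v, e, hv⟩ := H q ((sg n).symm x)
      exact ⟨_, by simp [e], (h v).2 hv⟩
  · filter_upwards [th_congr c.B2 (single k a), C.ce gi k (ψ a) (P.bm a)] with w h h'
    refine h.trans ?_
    simp only [Th, Ctx.Nt, Set.mem_setOf_eq, h', not_not]

end T4x

end
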