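import Pool.Agent.MP_154433_an.t4.SpecG

/-! Factors of a context and the maps of the extension. -/

set_option autoImplicit false
set_option linter.unusedVariables false
set_option warn.classDefReducibility false

open MeasureTheory ProbabilityTheory Filter Topology Function Finset ComplexConjugate
open scoped BigOperators
open Fib27 (BM sup pr Oc Orow F23 LInd Mem)
open Pool.Agent.MP_154433_an.SG (Uni ufn)

noncomputable section

namespace T4x

open T3x

variable [Grp]

namespace GHt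

theorem pre_slot (F : Fd) (c : Ctx) (k : c.ι) (A : Set c.X.X) (hA : MeasurableSet[c.B] A) :
    MeasurableSet[c.L.shp c.B] (c.π k ⁻¹' A) :=
  (le_sup_left.trans (F.lb.slot c.L c.B (c.sl k) c.kc.1) : c.B.comap (c.π k) ≤ c.L.shp c.B) _
    ⟨A, hA, rfl⟩

omit [Grp] in
theorem meas_nt {Ω : Type} (B : MeasurableSpace Ω) {m0 : MeasurableSpace Ω} (μ : Measure Ω)
    (g : Ω → ℂ) : MeasurableSet[B] {x | ‖(μ[g | B]) x‖ ≠ 1} :=
  (stronglyMeasurable_condExp (m := B) (μ := μ) (f := g)).norm.measurable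
    (measurableSet_singleton (1 : ℝ)).compl

/-- almost invariant sets have the same preimage in all slots -/
theorem slot_inv (F : Fd) {ν : Wt} {U : Ultrafilter ℕ} {X : Sys} (L : Ln ν U X) (s s' : Slot)
    (D : Set X.X) (hD : MeasurableSet D) (h : ∀ n, X.Tz n ⁻¹' D =ᵐ[X.μ] D) :
    L.π s ⁻¹' D =ᵐ[L.W.μ] L.π s' ⁻¹' D :=
  F.lb.inv L s s' D ⟨hD, fun n _ => h n⟩

end GHt

open GHt in
theorem xCtx : CtxR := by
  intro F c
  have facS : Fac c.W (c.L.shp c.B) := F.lb.fac c.L c.B c.kc.1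
  have kc2 : KC c.W c.B2 := F.h.kc c.W _ c.L.nice facS
  refine ⟨c.kc.1, facS, kc2, F.h.le _ _, F.h.kc c.W2 _ c.L2.nice (F.lb.fac c.L2 c.B2 kc2.1),
    fun k => c.L.emb _, fun k => c.L2.emb _, fun k => (c.lift k).emb,
    fun k => F.t.fpull _ _ _ _ (c.L.emb _) (F.t.top _), fun k => F.lb.slot c.L c.B _ c.kc.1,
    pre_slot F c, fun k g => pre_slot F c k _ (meas_nt c.B c.X.μ g), ?_, fun gi k f hf => ?_⟩
  · obtain ⟨i, j, hij⟩ := Fintype.exists_pair_of_one_lt_card (α := c.ι) (by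
      have := c.three
      omega)
    rcases c.nrm.nz j with hj | hj
    · exact ⟨j, hj⟩
    · have h := c.nrm.cov i (mem_univ _) j (mem_univ _) hij
      by_cases e : (c.sl i).2 = (c.sl j).2
      · have h1 := h.1 e
        rw [hj, sub_zero] at h1
        exact ⟨i, h1⟩
      · exact ⟨i, h.2 e⟩
  · have ne : ({k} : Finset c.ι) ≠ univ := fun e => by
      have h1 := congrArg Finset.card e
      have := c.three
      rw [card_singleton, card_univ] at h1
      omega
    have := gi.line {k} ne (fun _ => f) fun _ _ => hf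
    simp only [prod_singleton] at this
    exact this

open GHt in
theorem xHt : HtR := by
  intro F S G c H
  have embp : Emb H.X1 c.X H.p := H.adm.emb
  have frzT : ∀ n, KEq H.X1.μ H.Xh.ms (H.p2 ∘ H.X1.Tz n) H.p2 := H.emb2.eqv
  refine ⟨embp, fun a => F.t.emb_comp _ _ _ _ _ H.emb1 (H.rp.emb a), fun a A hA => ?_, H.lift.emb,
    fun k => H.L1.emb _, fun k => F.la.slot H.L1 c.L _ H.Lp (c.sl k) embp H.lift, H.adm.kc.1,
    (S.ob H.L1 c.L H.B1 c.B H.p H.Lp c.sl H.i0 c.kc.1 H.adm.kc.1 embp H.adm.le H.lift).2,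
    fun f hf => ?_, fun j k A hA => ?_, frzT⟩
  · exact H.emb1.mp.quasiMeasurePreserving.preimage_ae_eq (H.rp.com a A hA)
  · exact (H.adm.cp _ (F.a.bm_comp c.X.ms H.X1.μ c.X.μ H.p f embp.mp hf)).trans
      (F.a.ce_comp c.B H.X1.μ c.X.μ H.p f embp.mp c.kc.1.le hf.integrable)
  · exact slot_inv F H.L1 (c.sl j) (c.sl k) (H.p2 ⁻¹' A) (H.emb2.mp.measurable hA)
      fun n => frzT n A hA

end T4x

end
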