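import Pool.Agent.MP_154433_an.t4.SpecG

/-! Row GMix: two slots of the line are coupled along the invariant factor of their group. -/

set_option autoImplicit false
set_option linter.unusedVariables false
set_option warn.classDefReducibility false

open MeasureTheory ProbabilityTheory Filter Topology Function Finset ComplexConjugate
open scoped BigOperators
open Fib27 (BM sup pr Oc Orow F23 LInd Mem)

noncomputable section

namespace T4x

open T3x

variable [Grp]

namespace GMixx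

omit [Grp] in
/-- an everywhere bounded measurable version -/
theorem ver {Ω : Type} [m : MeasurableSpace Ω] (μ : Measure Ω) (f : Ω → ℂ) (hf : BM μ m f) :
    ∃ f0 ∈ Bdd Ω, f =ᵐ[μ] f0 := by
  classical
  obtain ⟨h1, C, hC⟩ := hf
  have hm : Measurable (h1.mk f) := h1.stronglyMeasurable_mk.measurable
  refine ⟨fun x => if ‖h1.mk f x‖ ≤ C then h1.mk f x else 0, ⟨?_, max C 0, fun x => ?_⟩, ?_⟩
  · exact Measurable.ite (measurableSet_le hm.norm measurable_const) hm measurable_const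
  · by_cases hx : ‖h1.mk f x‖ ≤ C
    · simp only [if_pos hx]
      exact hx.trans (le_max_left _ _)
    · simp only [if_neg hx, norm_zero]
      exact le_max_right _ _
  · filter_upwards [h1.ae_eq_mk, hC] with x e hx
    rw [e] at hx
    simp only [if_pos hx]
    exact e

omit [Grp] in
theorem bm_of {Ω : Type} [m : MeasurableSpace Ω] (μ : Measure Ω) (f : Ω → ℂ) (hf : f ∈ Bdd Ω) :
    BM μ m f := by
  obtain ⟨h1, C, hC⟩ := hf
  exact ⟨h1.aestronglyMeasurable, C, Eventually.of_forall hC⟩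

theorem fam (X : Sys) (s : Slot) (f : X.X → ℂ) (hf : f ∈ Bdd X.X) :
    (fun z : Lab × X.X => f (X.Tz (rho s z.1) z.2)) ∈ FamS X.ms := by
  obtain ⟨h1, C, hC⟩ := hf
  exact ⟨fun l => h1.comp (X.mp (rho s l)).measurable, C, fun z => hC _⟩

omit [Grp] in
theorem fam_mul {Ω : Type} (B : MeasurableSpace Ω) {F G : Lab × Ω → ℂ} (hF : F ∈ FamS B)
    (hG : G ∈ FamS B) : (fun z => F z * G z) ∈ FamS B := by
  obtain ⟨h1, C, hC⟩ := hF
  obtain ⟨h2, D, hD⟩ := hG
  refine ⟨fun l => (h1 l).mul (h2 l), C * D, fun z => ?_⟩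
  rw [norm_mul]
  exact mul_le_mul (hC z) (hD z) (norm_nonneg _) ((norm_nonneg _).trans (hC z))

end GMixx

open GMixx in
theorem xMixL : MixL := by
  intro fd ν U X L s s' hU erg f g hf hg
  obtain ⟨f0, hf0, ef⟩ := ver X.μ f hf
  obtain ⟨g0, hg0, eg⟩ := ver X.μ g hg
  have hF := fam X s f0 hf0
  have hG := fam X s' g0 hg0
  have h1 := L.lim _ (fam_mul X.ms hF hG)
  have h2 := ((fd.mix ν erg).pair X s s' f0 g0 (bm_of _ _ hf0) (bm_of _ _ hg0)).mono_left hU
  have e := tendsto_nhds_unique h1 h2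
  have a1 : (fun w => f (L.π s w)) =ᵐ[L.W.μ] fun w => f0 (L.π s w) :=
    (L.emb s).mp.quasiMeasurePreserving.ae_eq_comp ef
  have a2 : (fun w => g (L.π s' w)) =ᵐ[L.W.μ] fun w => g0 (L.π s' w) :=
    (L.emb s').mp.quasiMeasurePreserving.ae_eq_comp eg
  have c1 : X.μ[f | Inv X (pg s s')] =ᵐ[X.μ] X.μ[f0 | Inv X (pg s s')] := condExp_congr_ae ef
  have c2 : X.μ[g | Inv X (pg s s')] =ᵐ[X.μ] X.μ[g0 | Inv X (pg s s')] := condExp_congr_ae eg
  refine Eq.trans (integral_congr_ae ?_) (e.trans (integral_congr_ae ?_))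
  · filter_upwards [a1, a2, L.slot s f0 hf0, L.slot s' g0 hg0] with w b1 b2 b3 b4
    rw [b1, b2, b3, b4]
    exact ((L.ch w).mul _ hF _ hG).symm
  · filter_upwards [c1, c2] with x b1 b2
    rw [b1, b2]

end T4x

end
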