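import Pool.Agent.MP_154433_an.t4.SpecG

/-! The property `PQ` passes from `C` to `KK C`. -/

set_option autoImplicit false
set_option linter.unusedVariables false
set_option warn.classDefReducibility false

open MeasureTheory ProbabilityTheory Filter Topology Function Finset ComplexConjugate
open scoped BigOperators
open Fib27 (BM)

noncomputable section

namespace T4x

open T3x

variable [Grp]

namespace GOnhK

omit [Grp] in
lemma lower {Ω : Type} {C m0 : MeasurableSpace Ω} {μ : Measure Ω} [IsProbabilityMeasure μ]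
    (hC : C ≤ m0) {S : Set Ω} (hS : MeasurableSet S) {u f g : Ω → ℂ} (bu : BM μ C u)
    (bf : BM μ m0 f) (bg : BM μ m0 g)
    (h : ∀ᵐ x ∂μ, (x ∈ S → ‖u x‖ = 1 ∧ g x = u x * f x) ∧ (x ∉ S → u x = 0)) :
    ∫ x in S, ‖f x‖ ^ 2 ∂μ ≤ ∫ x, ‖(μ[fun y => g y * conj (f y) | C]) x‖ ∂μ := by
  have bh := bg.mul bf.conj
  have e1 := Fib27.int_mul_ce hC bu.conj bh
  have e2 : ∫ x, conj (u x) * (g x * conj (f x)) ∂μ = ((∫ x in S, ‖f x‖ ^ 2 ∂μ : ℝ) : ℂ) := by
    rw [← integral_indicator hS, ← integral_complex_ofReal]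
    refine integral_congr_ae ?_
    filter_upwards [h] with x ⟨h1, h2⟩
    by_cases e : x ∈ S
    · obtain ⟨k1, k2⟩ := h1 e
      have := Fib27.mul_conj_uni k1
      rw [Set.indicator_of_mem e, k2, ← Complex.normSq_eq_norm_sq, ← Complex.mul_conj]
      linear_combination f x * conj (f x) * this
    · simp [Set.indicator_of_notMem e, h2 e]
  refine (le_abs_self _).trans ?_
  rw [← Real.norm_eq_abs, ← Complex.norm_real, ← e2, ← e1]
  refine (norm_integral_le_integral_norm _).trans (integral_mono_of_nonneg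
    (Eventually.of_forall fun x => norm_nonneg _) integrable_condExp.norm ?_)
  filter_upwards [h] with x ⟨h1, h2⟩
  by_cases e : x ∈ S
  · rw [norm_mul, Complex.norm_conj, (h1 e).1, one_mul]
  · simp [h2 e]

end GOnhK

open GOnhK in
theorem xOnhK : OnhK := by
  intro fd Y u D C α F R d hY hD hC hDC hF hR hd hlim hPQ a
  have hK := fd.kb.fac Y u C hY hC
  have hCK := fd.kb.le Y u C hY hC
  choose S hS hu hn using fun n : ℕ => hPQ (d n a)
  have bF : ∀ a, BM Y.μ Y.ms (F a) := fun a => Fib27.BM.of_uni (hF a).1 (hF a).2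
  have sh : ∀ (n : ℕ) f, BM Y.μ Y.ms f → BM Y.μ Y.ms fun x => f (Y.Tz ((n : ℤ) • u) x) :=
    fun n f => fd.t.bm Y _ ((n : ℤ) • u) f (fd.t.top Y)
  have bG := (bF a).ce (KK Y u C)
  have bu := fun n : ℕ => (bF (d n a)).ce C
  have key : ∀ Q, MeasurableSet[D] Q → (∀ ε : ℝ, 0 < ε → ∀ᶠ N : ℕ in atTop,
      (N : ℝ)⁻¹ * ∑ n ∈ range N, Y.μ.real (Q ∩ S n) ≤ ε) →
      ∀ᵐ x ∂Y.μ, x ∈ Q → (Y.μ[F a | KK Y u C]) x = 0 := by
    intro Q hQ h
    have bQ : BM Y.μ C (Q.indicator fun _ => (1 : ℂ)) := Fib27.BM.indicator (hDC Q hQ)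
    have bf := (bQ.mono hC.le).mul (bF a)
    have wm := fd.ka.weak Y u C hY hC _ bf fun ε hε => ((h ε hε).mono fun N hN =>
      le_trans (mul_le_mul_of_nonneg_left (sum_le_sum fun n _ => ?_) (by positivity)) hN).frequently
    · filter_upwards [(fd.kb.wm Y u C hY hC _ (bf.memLp 2)).1 wm,
        Fib27.ce_mul hK.le (bQ.mono hCK) (bF a)] with x h1 h2 e
      rw [h1, Set.indicator_of_mem e, one_mul] at h2
      exact h2.symm
    have ms := hD.le _ (hQ.inter (hS n))
    rw [← integral_indicator_one ms]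
    refine integral_mono_of_nonneg (Eventually.of_forall fun x => norm_nonneg _)
      ((integrable_const _).indicator ms) ?_
    have e := (condExp_congr_ae (m := C) (f := fun y =>
      Q.indicator (fun _ => (1 : ℂ)) (Y.Tz ((n : ℤ) • u) y) * F a (Y.Tz ((n : ℤ) • u) y) *
        conj (Q.indicator (fun _ => (1 : ℂ)) y * F a y)) (by
      filter_upwards [hd n a] with x hx
      rw [hx]
      by_cases e : x ∈ Q <;> simp [e, mul_assoc])).trans
      (Fib27.ce_mul hC.le ((fd.t.bm Y C ((n : ℤ) • u) _ hC bQ).mul bQ) (bF (d n a)))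
    filter_upwards [e, hu n, (hF (d n a)).2] with x h1 h2 h3
    rw [h1, h2]
    by_cases e1 : x ∈ Q <;> by_cases e2 : x ∈ S n <;> by_cases e3 : Y.Tz ((n : ℤ) • u) x ∈ Q <;>
      simp [-natCast_zsmul, e1, e2, e3, h3]
  have b0 := (bF a).sub (bG.mono hK.le)
  have wm0 := ((fd.kb.wm Y u C hY hC _ (b0.memLp 2)).2
    ((Fib27.perp_sub_ce hK.le (bF a)).ce hK.le b0)).2 _ b0.conj
  have e3 := fun n : ℕ => lower hC.le (hD.le _ (hS n)) (bu n) b0 (sh n _ b0) (by
    have bS : BM Y.μ (KK Y u C) ((S n).indicator fun _ => (1 : ℂ)) :=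
      Fib27.BM.indicator (hCK _ (hDC _ (hS n)))
    have e1 : (fun x => (S n).indicator (fun _ => (1 : ℂ)) x * F a (Y.Tz ((n : ℤ) • u) x)) =ᵐ[Y.μ]
        fun x => (Y.μ[F (d n a) | C]) x * F a x := by
      filter_upwards [hu n, hd n a, (hF a).2] with x h1 h2 h3
      rw [h1]
      by_cases e : x ∈ S n
      · rw [Set.indicator_of_mem e, Set.indicator_of_mem e, h2]
        linear_combination (-F a (Y.Tz ((n : ℤ) • u) x)) * Fib27.mul_conj_uni h3
      · simp [e]
    filter_upwards [e1, condExp_congr_ae (m := KK Y u C) e1,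
      Fib27.ce_mul hK.le bS (sh n _ (bF a)), fd.t.ce Y _ ((n : ℤ) • u) (F a) hK (bF a).integrable,
      Fib27.ce_mul hK.le ((bu n).mono hCK) (bF a), hu n, (hF (d n a)).2]
      with x h1 h2 h3 h4 h5 h6 h7
    rw [h3, h4, h5] at h2
    refine ⟨fun e => ?_, fun e => by rw [h6, Set.indicator_of_notMem e]⟩
    rw [Set.indicator_of_mem e, one_mul] at h1 h2
    exact ⟨by rw [h6, Set.indicator_of_mem e, h7], by rw [h1, h2, mul_sub]⟩)
  have i0 : Integrable (fun x => ‖F a x - (Y.μ[F a | KK Y u C]) x‖ ^ 2) Y.μ :=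
    (b0.memLp 2).integrable_norm_pow two_ne_zero
  set φ := Y.μ[fun x => ‖F a x - (Y.μ[F a | KK Y u C]) x‖ ^ 2 | D] with hφ
  have mφ : Measurable[D] φ := stronglyMeasurable_condExp.measurable
  have k1 : ∀ m : ℕ, ∀ᵐ x ∂Y.μ, x ∈ φ ⁻¹' Set.Ici (1 / (m + 1 : ℝ)) →
      (Y.μ[F a | KK Y u C]) x = 0 := fun m => by
    have hQ : MeasurableSet[D] (φ ⁻¹' Set.Ici (1 / (m + 1 : ℝ))) := mφ measurableSet_Ici
    have p : (0 : ℝ) < 1 / (m + 1 : ℝ) := by positivity
    refine key _ hQ fun ε hε => ?_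
    filter_upwards [wm0.eventually (ge_mem_nhds (mul_pos p hε))] with N hN
    refine le_of_mul_le_mul_left (le_trans ?_ hN) p
    rw [mul_left_comm, mul_sum]
    refine mul_le_mul_of_nonneg_left (sum_le_sum fun n _ => le_trans ?_ (e3 n)) (by positivity)
    have ms := hQ.inter (hS n)
    refine (setIntegral_ge_of_const_le_real (hD.le _ ms) (measure_ne_top _ _)
      (fun x hx => hx.1) integrable_condExp.integrableOn).trans ?_
    rw [setIntegral_condExp hD.le i0 ms]
    exact setIntegral_mono_set i0.integrableOn (Eventually.of_forall fun x => by positivity)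
      (Eventually.of_forall fun x hx => hx.2)
  have hS0 : MeasurableSet[D] (φ ⁻¹' Set.Iic 0) := mφ measurableSet_Iic
  have k2 : ∀ᵐ x ∂Y.μ, x ∈ φ ⁻¹' Set.Iic 0 → (Y.μ[F a | KK Y u C]) x = F a x := by
    have := (setIntegral_eq_zero_iff_of_nonneg_ae (Eventually.of_forall fun x => by positivity)
      i0.integrableOn).1 (le_antisymm ((setIntegral_condExp hD.le i0 hS0).symm.trans_le
        (setIntegral_nonpos (hD.le _ hS0) fun x hx => hx))
        (integral_nonneg fun x => by positivity))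
    filter_upwards [(ae_restrict_iff' (hD.le _ hS0)).1 this] with x hx e
    have := hx e
    simp only [Pi.zero_apply, ne_eq, OfNat.ofNat_ne_zero, not_false_eq_true, pow_eq_zero_iff,
      norm_eq_zero, sub_eq_zero] at this
    exact this.symm
  refine ⟨_, hS0, ?_, ?_⟩
  · filter_upwards [ae_all_iff.2 k1, k2] with x h1 h2
    by_cases e : x ∈ φ ⁻¹' Set.Iic 0
    · rw [Set.indicator_of_mem e, h2 e]
    · obtain ⟨m, hm⟩ := exists_nat_one_div_lt (not_le.1 (show ¬ φ x ≤ 0 from e))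
      rw [Set.indicator_of_notMem e, h1 m hm.le]
  · have k3 := key _ (hS0.inter (hR a)) fun ε hε => by
      filter_upwards [(hlim a).eventually (ge_mem_nhds hε)] with N hN
      refine le_trans (mul_le_mul_of_nonneg_left (sum_le_sum fun n _ => ?_) (by positivity)) hN
      refine ENNReal.toReal_mono (measure_ne_top _ _) (measure_mono_ae ?_)
      filter_upwards [measure_eq_zero_iff_ae_notMem.1 (hn n)] with x hx e
      exact ⟨e.1.2, fun h => hx ⟨e.2, h⟩⟩
    refine measure_eq_zero_iff_ae_notMem.2 ?_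
    filter_upwards [k3, k2, (hF a).2] with x h1 h2 h3 e
    rw [← h2 e.1, h1 e] at h3
    simp at h3

end T4x

end
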