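import Pool.Agent.MP_154433_an.t4.SpecG

/-! Calculus for the functions `ψ`. -/

set_option autoImplicit false

open MeasureTheory Filter ComplexConjugate
open Fib27 (BM)

noncomputable section

namespace T4x

open T3x

namespace GPsc

theorem th_congr {Ω : Type} (β : MeasurableSpace Ω) {m0 : MeasurableSpace Ω} {μ : Measure Ω}
    {F F' : Ω → ℂ} (h : F =ᵐ[μ] F') : ∀ᵐ x ∂μ, x ∈ Th β μ F ↔ x ∈ Th β μ F' := by
  filter_upwards [condExp_congr_ae (m := β) h] with x e
  simp only [Th, Set.mem_ofPred_eq, e]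

variable [Grp] {X : Sys} {B : MeasurableSpace X.X} {V : Type} [AddCommGroup V]
  {sg : Γ →+ AddAut V} {ψ : V → X.X → ℂ}

theorem zero (h : Psi X B sg ψ) : ψ 0 =ᵐ[X.μ] fun _ => 1 := by
  have h1 := h.add 0 0
  rw [add_zero] at h1
  filter_upwards [h1, (h.um 0).2] with x e1 e2
  have : ψ 0 x ≠ 0 := fun e => by simp [e] at e2
  exact (mul_eq_left₀ this).1 e1.symm

theorem neg (h : Psi X B sg ψ) (v : V) : ψ (-v) =ᵐ[X.μ] fun x => conj (ψ v x) := by
  have h1 := h.add v (-v)
  rw [add_neg_cancel] at h1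
  filter_upwards [h1, zero h, (h.um v).2] with x e1 e2 e3
  rw [← Complex.inv_eq_conj e3]
  exact eq_inv_of_mul_eq_one_right (e1.symm.trans e2)

theorem sub (h : Psi X B sg ψ) (v v' : V) :
    ψ (v - v') =ᵐ[X.μ] fun x => ψ v x * conj (ψ v' x) := by
  rw [sub_eq_add_neg]
  filter_upwards [h.add v (-v'), neg h v'] with x e1 e2
  rw [e1, e2]

end GPsc

variable [Grp]

open GPsc in
theorem xPsc : PscR := by
  intro hF hR X B V _ sg ψ hB h
  have bm : ∀ v, BM X.μ X.ms (ψ v) := fun v => BM.of_uni (h.um v).1 (h.um v).2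
  refine ⟨bm, zero h, neg h, sub h, fun κ S v => ?_, h.sh, ?_, fun v v' => ?_,
    fun n v => ?_, fun v => ?_⟩
  · classical
    induction S using Finset.induction_on with
    | empty => simpa using zero h
    | insert k S hk ih =>
      rw [Finset.sum_insert hk]
      filter_upwards [h.add (v k) (∑ k ∈ S, v k), ih] with x e1 e2
      rw [e1, e2, Finset.prod_insert hk]
  · filter_upwards [th_congr B (zero h)] with x e
    rw [e, Th, condExp_const hB.le]
    exact norm_one
  · have u : Um X.ms X.μ fun x => conj (ψ v' x) := ⟨(bm v').conj.1, by simpa using (h.um v').2⟩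
    filter_upwards [th_congr B (sub h v v'), hR.mul B X.μ _ _ hB.le (h.um v) u,
      hR.cj B X.μ _ hB.le (h.um v')] with x e1 e2 e3 a1 a2
    exact e1.2 (e2 ⟨a1, e3.mpr a2⟩)
  · filter_upwards [th_congr B (h.sh n v), hF.t.ce X B n _ hB (bm v).integrable]
      with x e1 e2
    rw [e1, Th, Th, Set.mem_ofPred_eq, Set.mem_ofPred_eq, e2]
  · filter_upwards [condExp_indicator (bm v).integrable (hR.meas B X.μ (ψ v)).compl, h.onn v]
      with x e1 e2
    rw [e1]
    by_cases hx : x ∈ (Th B X.μ (ψ v))ᶜ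
    · rw [Set.indicator_of_mem hx]
      exact norm_eq_zero.1 (e2.resolve_right hx)
    · exact Set.indicator_of_notMem hx _

end T4x

end
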