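import Pool.Agent.MP_154433_an.t4.SpecG

/-! Row RelA: exact relations at the finite level. -/

set_option autoImplicit false
set_option linter.unusedVariables false

open MeasureTheory ProbabilityTheory Filter Topology Function Finset ComplexConjugate
open scoped BigOperators
open Fib27 (BM sup pr Oc Orow F23 LInd Mem)

noncomputable section

namespace T4x

open T3x

variable [Grp]

namespace GRelA

lemma prod {ν : Wt} {U : Ultrafilter ℕ} {X : Sys} (L : Ln ν U X) {ι : Type}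
    (F : ι → Lab × X.X → ℂ) (hF : ∀ k, F k ∈ FamS X.ms) (S : Finset ι) :
    (fun z => ∏ k ∈ S, F k z) ∈ FamS X.ms ∧
      ∀ w, L.hat (fun z => ∏ k ∈ S, F k z) w = ∏ k ∈ S, L.hat (F k) w := by
  classical
  induction S using Finset.induction_on with
  | empty =>
    simp only [prod_empty]
    exact ⟨⟨fun _ => measurable_const, 1, fun _ => norm_one.le⟩, fun w => (L.ch w).const 1⟩
  | insert k S hk ih =>
    simp only [prod_insert hk]
    obtain ⟨m1, C1, b1⟩ := hF k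
    obtain ⟨m2, C2, b2⟩ := ih.1
    refine ⟨⟨fun l => (m1 l).mul (m2 l), C1 * C2, fun z => ?_⟩, fun w => ?_⟩
    · rw [norm_mul]
      exact mul_le_mul (b1 z) (b2 z) (norm_nonneg _) ((norm_nonneg _).trans (b1 z))
    · rw [← ih.2 w]
      exact (L.ch w).mul _ (hF k) _ ih.1

end GRelA

theorem xRelA : RelA := by
  intro F R hG c V _ _ sg ψ hψ v
  have cc := hG.ctx c
  have ps := hG.ps c.X c.B V sg ψ cc.facB hψ
  have ff := hG.ff c V sg ψ hψ
  choose ψ1 m1 b1 e1 using fun a => F.a.rep c.X.ms c.X.μ (ψ a) 1 zero_le_one (hψ.um a).1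
    ((hψ.um a).2.mono fun x hx => hx.le)
  let Fk : c.ι → Lab × c.X.X → ℂ := fun k z => ψ1 (v k) (c.X.Tz (rho (c.sl k) z.1) z.2)
  have hFk : ∀ k, Fk k ∈ FamS c.X.ms := fun k =>
    ⟨fun l => (m1 _).comp (F.t.mp c.X (rho (c.sl k) l)).measurable, 1, fun z => b1 _ _⟩
  obtain ⟨hP, eP⟩ := GRelA.prod c.L Fk hFk univ
  let s : Lab → V := fun l => ∑ k, sg (rho (c.sl k) l) (v k)
  let A : Lab → Set c.X.X := fun l => Th c.B c.X.μ (ψ (s l))
  have mA : ∀ l, MeasurableSet (A l) := fun l => cc.facB.le _ (R.meas c.B c.X.μ _)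
  have e2 : c.FF ψ v =ᵐ[c.W.μ] c.L.hat fun z => ∏ k, Fk k z := by
    filter_upwards [ae_all_iff.2 fun k => (cc.embπ k).mp.quasiMeasurePreserving.ae (e1 (v k)),
      ae_all_iff.2 fun k => c.L.slot (c.sl k) (ψ1 (v k)) ⟨m1 _, 1, b1 _⟩] with w a1 a2
    rw [eP]
    exact prod_congr rfl fun k _ => (a1 k).trans (a2 k)
  have e3 : ∀ l, (fun x => ∏ k, Fk k (l, x)) =ᵐ[c.X.μ] ψ (s l) := fun l => by
    filter_upwards [ps.sum c.ι univ fun k => sg (rho (c.sl k) l) (v k),
      ae_all_iff.2 fun k => ps.shz (rho (c.sl k) l) (v k),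
      ae_all_iff.2 fun k => (F.t.mp c.X (rho (c.sl k) l)).quasiMeasurePreserving.ae (e1 (v k))]
      with x a1 a2 a3
    rw [a1]
    exact prod_congr rfl fun k _ => ((a2 k).trans (a3 k)).symm
  obtain ⟨F1, hF1, eF1⟩ := F.lb.cex c.X c.B cc.facB _ hP
  have hF1' : F1 ∈ FamS c.X.ms := ⟨fun l => (hF1.1 l).mono cc.facB.le le_rfl, hF1.2⟩
  have e4 := (condExp_congr_ae (m := c.L.shp c.B) e2).trans
    (F.lb.ce c.L c.B cc.facB _ hP F1 hF1 eF1)
  have hN : (fun z => ((‖F1 z‖ : ℝ) : ℂ)) ∈ FamS c.X.ms := by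
    obtain ⟨m, C, b⟩ := hF1'
    exact ⟨fun l => Complex.measurable_ofReal.comp (m l).norm, C, fun z => by simpa using b z⟩
  have hI : (fun z : Lab × c.X.X => (A z.1).indicator (fun _ => (1 : ℂ)) z.2) ∈ FamS c.X.ms :=
    ⟨fun l => measurable_const.indicator (mA l), 1, fun z => by
      by_cases h : z.2 ∈ A z.1 <;> simp [h]⟩
  have e5 := F.lb.congr c.L _ hN _ hI fun l => by
    filter_upwards [eF1 l, condExp_congr_ae (m := c.B) (e3 l), hψ.onn (s l)] with x a1 a2 a3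
    rw [a1, a2]
    by_cases h : x ∈ A l
    · rw [Set.indicator_of_mem h, show ‖(c.X.μ[ψ (s l) | c.B]) x‖ = 1 from h]
      simp
    · rw [Set.indicator_of_notMem h, a3.resolve_right h]
      simp
  have e6 : ∀ᵐ w ∂c.W.μ, ((‖(c.W.μ[c.FF ψ v | c.L.shp c.B]) w‖ : ℝ) : ℂ) =
      (c.L.hs A).indicator (fun _ => (1 : ℂ)) w := by
    filter_upwards [e4, e5] with w a1 a2
    rw [a1, ← F.lb.nrm c.L F1 hF1' w, a2, F.lc.hs_ind c.L A mA w]
  refine ⟨?_, ?_⟩
  · filter_upwards [e6] with w a1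
    show (‖(c.W.μ[c.FF ψ v | c.L.shp c.B]) w‖ = 1) = (w ∈ c.L.hs A)
    refine propext ⟨fun h => ?_, fun h => ?_⟩
    · by_contra h'
      rw [Set.indicator_of_notMem h', h] at a1
      simp at a1
    · rw [Set.indicator_of_mem h] at a1
      exact Complex.ofReal_eq_one.1 a1
  · filter_upwards [e6, R.eq (c.L.shp c.B) c.W.μ _ cc.facS.le (ff.um v)] with w a1 a2
    by_cases h : w ∈ Th (c.L.shp c.B) c.W.μ (c.FF ψ v)
    · rw [Set.indicator_of_mem h, ← a2 h]
    · rw [Set.indicator_of_notMem h]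
      by_cases h' : w ∈ c.L.hs A
      · rw [Set.indicator_of_mem h'] at a1
        exact absurd (Complex.ofReal_eq_one.1 a1) h
      · rw [Set.indicator_of_notMem h'] at a1
        simpa using a1

end T4x

end
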