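import Pool.Agent.MP_154433_an.t4.SpecG

/-! Row GStpB: the steps commute in the grid. -/

set_option autoImplicit false
set_option linter.unusedVariables false
set_option warn.classDefReducibility false

open MeasureTheory ProbabilityTheory Filter Topology Function Finset ComplexConjugate
open scoped BigOperators
open Fib27 (BM sup pr Oc Orow F23 LInd Mem)
open Pool.Agent.MP_154433_an.SG (Uni ufn)

noncomputable section

namespace T4x

open T3x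

namespace GStpB

variable {ι V : Type} {R C : ι → (ι → V) → Prop}

lemma core (hf : ∀ (m : ι → ι → V) (j0 j : ι), (∀ k, R k (m k)) → C j0 (fun k => m k j0) →
      C j fun k => m k j) (j0 j : ι) (u : ι → V) (hu : C j0 u) (P : ι → (ι → V) → Prop)
    (h : ∀ k, ∃ v, R k v ∧ v j0 = u k ∧ P k v) :
    ∃ m : ι → ι → V, (∀ k, P k (m k)) ∧ C j fun k => m k j := by
  choose m h1 h2 h3 using h
  refine ⟨m, h3, hf m j0 j h1 ?_⟩
  have : (fun k => m k j0) = u := funext h2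
  rw [this]
  exact hu

lemma colU (hf : ∀ (m : ι → ι → V) (j0 j : ι), (∀ k, R k (m k)) → C j0 (fun k => m k j0) →
      C j fun k => m k j) (hR : ∀ k q y, ∃ v, v q = y ∧ R k v) (j0 j : ι)
    (h0 : ∀ q y, ∃ v, v q = y ∧ C j0 v) (q : ι) (y : V) : ∃ v, v q = y ∧ C j v := by
  obtain ⟨r, hr, hRr⟩ := hR q j y
  obtain ⟨u, hu, hCu⟩ := h0 q (r j0)
  obtain ⟨m, h1, h2⟩ := core hf j0 j u hCu (fun k v => k = q → v j = y) fun k => by
    by_cases hk : k = q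
    · subst hk
      exact ⟨r, hRr, hu.symm, fun _ => hr⟩
    · obtain ⟨v, hv, hRv⟩ := hR k j0 (u k)
      exact ⟨v, hRv, hv, fun h => absurd h hk⟩
  exact ⟨fun k => m k j, h1 q rfl, h2⟩

lemma colS (hf : ∀ (m : ι → ι → V) (j0 j : ι), (∀ k, R k (m k)) → C j0 (fun k => m k j0) →
      C j fun k => m k j) (hR : ∀ k q y, ∃ v, v q = y ∧ R k v) {i1 i2 : ι} (h12 : i1 ≠ i2)
    (j0 j : ι) {r1 r2 u : ι → V} (h1 : R i1 r1) (h2 : R i2 r2) (hu : C j0 u)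
    (e1 : u i1 = r1 j0) (e2 : u i2 = r2 j0) : ∃ v, (v i1 = r1 j ∧ v i2 = r2 j) ∧ C j v := by
  obtain ⟨m, g1, g2⟩ := core hf j0 j u hu
    (fun k v => (k = i1 → v j = r1 j) ∧ (k = i2 → v j = r2 j)) fun k => by
    by_cases hk : k = i1
    · subst hk
      exact ⟨r1, h1, e1.symm, fun _ => rfl, fun h => absurd h h12⟩
    · by_cases hk' : k = i2
      · subst hk'
        exact ⟨r2, h2, e2.symm, fun h => absurd h hk, fun _ => rfl⟩
      · obtain ⟨v, hv, hRv⟩ := hR k j0 (u k)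
        exact ⟨v, hRv, hv, fun h => absurd h hk, fun h => absurd h hk'⟩
  exact ⟨fun k => m k j, ⟨(g1 i1).1 rfl, (g1 i2).2 rfl⟩, g2⟩

variable [Grp]

lemma memU (c : Ctx) {V : Type} (ψ : V → c.X.X → ℂ) (w : c.W.X) :
    w ∈ c.UU ψ ↔ ∀ q y, ∃ v : c.ι → V, v q = y ∧ w ∈ c.ΘV ψ v := by
  simp only [Ctx.UU, Set.mem_iInter, Set.mem_iUnion, Set.mem_ofPred_eq, exists_prop]

lemma memS (c : Ctx) {V : Type} (ψ : V → c.X.X → ℂ) (i1 i2 : c.ι) (a a' : V) (w : c.W.X) :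
    w ∈ c.SV ψ i1 i2 a a' ↔
      w ∈ c.UU ψ ∧ ∃ v : c.ι → V, (v i1 = a ∧ v i2 = a') ∧ w ∈ c.ΘV ψ v := by
  simp only [Ctx.SV, Set.mem_inter_iff, Set.mem_iUnion, Set.mem_ofPred_eq, exists_prop]

/-- an almost invariant set is seen in the same way from all rows -/
lemma rows (hF : Fd) (c : Ctx) (hc : CtxC c) (S : Set c.W.X) (hS : MeasurableSet S)
    (hT : ∀ n : Γ, ∀ᵐ w ∂c.W.μ, w ∈ S ↔ c.W.Tz n w ∈ S) (k k' : c.ι) :
    ∀ᵐ x ∂c.W2.μ, c.A k x ∈ S ↔ c.A k' x ∈ S := by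
  have m1 : AEStronglyMeasurable (S.indicator fun _ => (1 : ℂ)) c.W.μ :=
    (stronglyMeasurable_const.indicator hS).aestronglyMeasurable
  have m2 := (hF.t.inv_iff c.W Set.univ _ m1).2 (fun n _ => by
    filter_upwards [hT n] with w hw
    by_cases h : w ∈ S
    · rw [Set.indicator_of_mem h, Set.indicator_of_mem (hw.1 h)]
    · rw [Set.indicator_of_notMem h, Set.indicator_of_notMem fun h' => h (hw.2 h')])
  have m3 := hF.a.keq_fun (Inv c.W Set.univ) c.W2.μ c.W.μ (c.A k) (c.A k') _ (hc.embA k).mp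
    (hc.embA k').mp (hF.lb.inv c.L2 (c.sl k) (c.sl k')) m2
  filter_upwards [m3] with x hx
  by_cases h : c.A k x ∈ S <;> by_cases h' : c.A k' x ∈ S
  · exact iff_of_true h h'
  · rw [Set.indicator_of_mem h, Set.indicator_of_notMem h'] at hx
    exact absurd hx one_ne_zero
  · rw [Set.indicator_of_notMem h, Set.indicator_of_mem h'] at hx
    exact absurd hx zero_ne_one
  · exact iff_of_false h h'

end GStpB

variable [Grp]

open GStpB in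
theorem xStpB : StpB := by
  intro hF hG c V _ _ sg ψ i1 i2 h12 hψ hfl i3 h13 a b a' b'
  have hc := hG.ctx c
  have hf := hG.ff c V sg ψ hψ
  have hU : ∀ᵐ x ∂c.W2.μ, ∀ k, c.A i1 x ∈ c.UU ψ ↔ c.A k x ∈ c.UU ψ :=
    ae_all_iff.2 fun k => rows hF c hc _ (hc.kc2.1.le _ hf.um') hf.ush i1 k
  have hA : ∀ᵐ x ∂c.W2.μ, ∀ (m : c.ι → c.ι → V) (j0 j : c.ι), (∀ k, c.A k x ∈ c.ΘV ψ (m k)) →
      c.Bc j0 x ∈ c.ΘV ψ (fun k => m k j0) → c.Bc j x ∈ c.ΘV ψ fun k => m k j :=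
    ae_all_iff.2 fun m => ae_all_iff.2 fun j0 => ae_all_iff.2 fun j => hfl m j0 j
  filter_upwards [hU, hA] with x hU hA s1 s2
  rw [memS] at s1 s2
  obtain ⟨u1, r1, ⟨e1, e2⟩, hr1⟩ := s1
  obtain ⟨-, r2, ⟨e3, e4⟩, hr2⟩ := s2
  have hR : ∀ k q y, ∃ v : c.ι → V, v q = y ∧ c.A k x ∈ c.ΘV ψ v :=
    fun k => (memU c ψ _).1 ((hU k).1 u1)
  subst e1 e2 e3 e4
  rw [memS, memS, memU, memU]
  constructor
  · rintro ⟨h0, u, ⟨f1, f2⟩, hu⟩
    exact ⟨colU (R := fun k v => c.A k x ∈ c.ΘV ψ v) (C := fun j v => c.Bc j x ∈ c.ΘV ψ v)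
      hA hR i1 i3 h0, colS (R := fun k v => c.A k x ∈ c.ΘV ψ v)
        (C := fun j v => c.Bc j x ∈ c.ΘV ψ v) hA hR h12 i1 i3 hr1 hr2 hu f1 f2⟩
  · rintro ⟨h0, u, ⟨f1, f2⟩, hu⟩
    exact ⟨colU (R := fun k v => c.A k x ∈ c.ΘV ψ v) (C := fun j v => c.Bc j x ∈ c.ΘV ψ v)
      hA hR i3 i1 h0, colS (R := fun k v => c.A k x ∈ c.ΘV ψ v)
        (C := fun j v => c.Bc j x ∈ c.ΘV ψ v) hA hR h12 i3 i1 hr1 hr2 hu f1 f2⟩

end T4x

end
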