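import Pool.Agent.MP_154433_an.t4.SpecG

/-! Row GTyA: the members of a tuple have the same type. -/

set_option autoImplicit false
set_option linter.unusedVariables false
set_option warn.classDefReducibility false

open MeasureTheory ProbabilityTheory Filter Topology Function Finset ComplexConjugate
open scoped BigOperators
open Fib27 (BM sup pr Oc Orow F23 LInd Mem)
open Pool.Agent.MP_154433_an.SG (Uni ufn)

noncomputable section

namespace T4x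

open T3x

variable [Grp]

namespace GTyA

theorem one_way (fd : Fd) (gc : GC) (zc : ZC) (c : Ctx) (H : c.Hat) (𝒱 : Subgroup (Uni c.X.X))
    (s : Γ → 𝒱 ≃* 𝒱) (cl : c.CL) (ex : c.Exh 𝒱 s) (g : c.ι → Uni c.X.X) (j k : c.ι)
    (hg : ∀ i, g i ∈ 𝒱) (a : ℕ × c.ι) : ∀ᵐ w ∂H.L1.W.μ, H.Lp w ∈ c.Θ (c.up g) →
      H.τ 𝒱 (g j) (H.p1 (H.π j w)) a → H.τ 𝒱 (g k) (H.p1 (H.π k w)) a := by
  have hc := gc.ctx c
  have ht := zc.ht c H
  have hz := zc.zv c 𝒱 s ex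
  have hle : c.B2 ≤ c.W.ms := hc.kc2.1.le
  obtain ⟨LP, hLP⟩ := fd.la.ex H.L1 c.L2 _ (ht.embe a)
  have hs : ∀ i, KEq H.L1.W.μ c.W.ms (c.A i ∘ LP) ((H.e a ∘ H.p1) ∘ H.π i) := fun i =>
    fd.la.slot H.L1 c.L2 _ LP (c.sl i) (ht.embe a) hLP
  have hl := fd.la.comp H.L1 c.L2 c.L _ _ LP (c.Bc a.2) (ht.embe a) (hc.embπ a.2) hLP (c.lift a.2)
  have hu : KEq H.L1.W.μ c.W.ms (c.Bc a.2 ∘ LP) H.Lp :=
    fd.la.uniq H.L1 c.L _ _ _ _ (fd.t.emb_comp _ _ _ _ _ (ht.embe a) (hc.embπ a.2)) ht.embp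
      (ht.com a) hl H.lift
  have h1 : ∀ᵐ w ∂H.L1.W.μ, ∀ h ∈ {g' : c.ι → Uni c.X.X | ∀ k, g' k ∈ 𝒱}, h a.2 = g j →
      H.Lp w ∈ c.Θ (c.up g) → H.e a (H.p1 (H.π j w)) ∈ c.Θ (c.up h) →
      H.e a (H.p1 (H.π k w)) ∈ c.ZV 𝒱 a.2 (g k) := by
    rw [ae_ball_iff hz.cnt]
    intro h hh
    by_cases e : h a.2 = g j
    · have h2 := cl a.2 j k g h (c.ZV 𝒱 a.2 (g k)) e (hz.meas _ _) fun g' e' => by
        have := ex.exh a.2 g' (by rw [e']; exact hg k)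
        rwa [e'] at this
      filter_upwards [hLP.emb.mp.quasiMeasurePreserving.ae h2, hu _ (hle _ (hz.tm g)),
        hs j _ (hle _ (hz.tm h)), hs k _ (hle _ (hz.meas a.2 (g k)))] with w a1 a2 a3 a4 _ b1 b2
      exact a4.mp (a1 ⟨a2.mpr b1, a3.mpr b2⟩)
    · exact Eventually.of_forall fun w e' => absurd e' e
  filter_upwards [h1] with w hw b1 b2
  obtain ⟨h, hh, b3⟩ := Set.mem_iUnion₂.1 b2
  exact hw h hh.1 hh.2 b1 b3

end GTyA

open GTyA in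
theorem xTyA : TyA := by
  intro fd gc zc c H 𝒱 s cl ex g j k hg
  filter_upwards [ae_all_iff.2 (one_way fd gc zc c H 𝒱 s cl ex g j k hg),
    ae_all_iff.2 (one_way fd gc zc c H 𝒱 s cl ex g k j hg)] with w h1 h2 hw
  funext a
  exact propext ⟨h1 a hw, h2 a hw⟩

end T4x

end
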