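import Pool.Agent.MP_154433_an.t4.SpecG

/-! Row GTyB: a set that no sample meets is not met by the line. -/

set_option autoImplicit false
set_option linter.unusedVariables false
set_option warn.classDefReducibility false
set_option linter.unusedSectionVars false

open MeasureTheory ProbabilityTheory Filter Topology Function Finset ComplexConjugate
open scoped BigOperators
open Fib27 (BM sup pr Oc Orow F23 LInd Mem)

noncomputable section

namespace T4x

open T3x

variable [Grp]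

namespace GTyB

variable {Ω : Type} {m m0 : MeasurableSpace Ω} {μ : Measure Ω} [IsProbabilityMeasure μ]

theorem int_ind {E : Set Ω} (hE : MeasurableSet E) :
    ∫ x, E.indicator (fun _ => (1 : ℝ)) x ∂μ = μ.real E := by
  rw [integral_indicator hE]
  simp

/-- where the conditional probability of the complement has modulus one, the set is null -/
theorem full (hm : m ≤ m0) {D E : Set Ω} (hD : MeasurableSet D) (hE : MeasurableSet[m] E)
    {b : Ω → ℂ} (hb : μ[Dᶜ.indicator fun _ => (1 : ℂ) | m] =ᵐ[μ] b)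
    (h1 : ∀ x ∈ E, ‖b x‖ = 1) : ∀ᵐ x ∂μ, x ∈ D → x ∉ E := by
  have hE' : MeasurableSet E := hm E hE
  have hI : BM μ m0 (Dᶜ.indicator fun _ => (1 : ℂ)) := BM.indicator hD.compl
  have hg : BM μ m fun x => E.indicator (fun _ => (1 : ℂ)) x * conj (b x) :=
    (BM.indicator hE).mul ((hI.ce m).congr hb).conj
  have e1 := Fib27.int_ce_mul hm hI hg
  have e2 : ∫ x, (μ[Dᶜ.indicator fun _ => (1 : ℂ) | m]) x *
      (E.indicator (fun _ => (1 : ℂ)) x * conj (b x)) ∂μ = (μ.real E : ℂ) := by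
    rw [← int_ind hE', ← integral_complex_ofReal]
    refine integral_congr_ae ?_
    filter_upwards [hb] with x hx
    rw [hx]
    by_cases h : x ∈ E
    · simp only [Set.indicator_of_mem h, one_mul, Complex.ofReal_one]
      exact Fib27.mul_conj_uni (h1 x h)
    · simp [h]
  have e3 : ‖∫ x, Dᶜ.indicator (fun _ => (1 : ℂ)) x *
      (E.indicator (fun _ => (1 : ℂ)) x * conj (b x)) ∂μ‖ ≤ μ.real (E \ D) := by
    rw [← int_ind (hE'.diff hD)]
    refine norm_integral_le_of_norm_le ((integrable_const _).indicator (hE'.diff hD))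
      (Eventually.of_forall fun x => ?_)
    by_cases h : x ∈ E
    · by_cases h' : x ∈ D
      · simp [h, h']
      · simp [h, h', h1 x h]
    · simp [h]
  rw [← e1, e2, Complex.norm_real, Real.norm_of_nonneg measureReal_nonneg] at e3
  have e4 := measureReal_inter_add_sdiff (μ := μ) (s := E) hD
  have e5 : μ.real (E ∩ D) = 0 := le_antisymm (by linarith) measureReal_nonneg
  rw [measureReal_eq_zero_iff] at e5
  filter_upwards [measure_eq_zero_iff_ae_notMem.1 e5] with x hx h h'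
  exact hx ⟨h', h⟩

/-- independent samples miss a set of positive conditional probability with probability zero -/
theorem miss (hm : m ≤ m0) {D : ℕ → Set Ω} (hD : ∀ i, MeasurableSet (D i)) {b : Ω → ℂ}
    (hb : Measurable[m] b)
    (h : ∀ n, μ[fun x => ∏ i ∈ range n, (D i)ᶜ.indicator (fun _ => (1 : ℂ)) x | m] =ᵐ[μ]
      fun x => b x ^ n) : ∀ᵐ x ∂μ, ‖b x‖ < 1 → ∃ i, x ∈ D i := by
  have key : ∀ r : ℝ, 0 ≤ r → r < 1 → μ ({x | ‖b x‖ ≤ r} ∩ ⋂ i, (D i)ᶜ) = 0 := by
    intro r hr0 hr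
    have hA : MeasurableSet[m] {x | ‖b x‖ ≤ r} :=
      hb (measurableSet_le measurable_norm (measurable_const (a := r)))
    have hle : ∀ n : ℕ, μ.real ({x | ‖b x‖ ≤ r} ∩ ⋂ i, (D i)ᶜ) ≤ r ^ n := by
      intro n
      have hM : MeasurableSet ({x | ‖b x‖ ≤ r} ∩ ⋂ i ∈ range n, (D i)ᶜ) :=
        (hm _ hA).inter (Finset.measurableSet_biInter _ fun i _ => (hD i).compl)
      have hP : BM μ m0 fun x => ∏ i ∈ range n, (D i)ᶜ.indicator (fun _ => (1 : ℂ)) x :=
        BM.pr (ρ := fun i => (D i)ᶜ.indicator fun _ => (1 : ℂ)) fun i _ =>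
          BM.indicator (hD i).compl
      have e1 := Fib27.int_ce_mul hm hP (BM.indicator hA)
      have e2 : ∫ x, (∏ i ∈ range n, (D i)ᶜ.indicator (fun _ => (1 : ℂ)) x) *
          {x | ‖b x‖ ≤ r}.indicator (fun _ => (1 : ℂ)) x ∂μ =
          (μ.real ({x | ‖b x‖ ≤ r} ∩ ⋂ i ∈ range n, (D i)ᶜ) : ℂ) := by
        rw [← int_ind hM, ← integral_complex_ofReal]
        refine integral_congr_ae (Eventually.of_forall fun x => ?_)
        by_cases h1 : x ∈ {x | ‖b x‖ ≤ r} ∩ ⋂ i ∈ range n, (D i)ᶜ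
        · simp only [Set.indicator_of_mem h1, Set.indicator_of_mem h1.1, mul_one,
            Complex.ofReal_one]
          exact prod_eq_one fun i hi => Set.indicator_of_mem (Set.mem_iInter₂.1 h1.2 i hi) _
        · simp only [Set.indicator_of_notMem h1, Complex.ofReal_zero]
          by_cases h2 : x ∈ {x | ‖b x‖ ≤ r}
          · have h3 : ¬ ∀ i ∈ range n, x ∈ (D i)ᶜ := fun h3 => h1 ⟨h2, Set.mem_iInter₂.2 h3⟩
            push Not at h3
            obtain ⟨i, hi, h3⟩ := h3
            rw [prod_eq_zero hi (Set.indicator_of_notMem h3 _), zero_mul]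
          · rw [Set.indicator_of_notMem h2, mul_zero]
      have e3 : ‖∫ x, (μ[fun x => ∏ i ∈ range n, (D i)ᶜ.indicator (fun _ => (1 : ℂ)) x | m]) x *
          {x | ‖b x‖ ≤ r}.indicator (fun _ => (1 : ℂ)) x ∂μ‖ ≤ r ^ n := by
        have := norm_integral_le_of_norm_le_const (μ := μ) (C := r ^ n) (f := fun x =>
          (μ[fun x => ∏ i ∈ range n, (D i)ᶜ.indicator (fun _ => (1 : ℂ)) x | m]) x *
          {x | ‖b x‖ ≤ r}.indicator (fun _ => (1 : ℂ)) x) (by
            filter_upwards [h n] with x hx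
            rw [hx]
            by_cases h2 : x ∈ {x | ‖b x‖ ≤ r}
            · rw [Set.indicator_of_mem h2, mul_one, norm_pow]
              exact pow_le_pow_left₀ (norm_nonneg _) h2 n
            · rw [Set.indicator_of_notMem h2, mul_zero, norm_zero]
              positivity)
        simpa using this
      rw [e1, e2, Complex.norm_real, Real.norm_of_nonneg measureReal_nonneg] at e3
      refine le_trans (measureReal_mono ?_) e3
      exact Set.inter_subset_inter_right _
        fun x hx => Set.mem_iInter₂.2 fun i _ => Set.mem_iInter.1 hx i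
    rw [← measureReal_eq_zero_iff]
    exact le_antisymm (ge_of_tendsto' (tendsto_pow_atTop_nhds_zero_of_lt_one hr0 hr) hle)
      measureReal_nonneg
  have key2 : ∀ k : ℕ, ∀ᵐ x ∂μ, x ∉ {x | ‖b x‖ ≤ 1 - 1 / ((k : ℝ) + 1)} ∩ ⋂ i, (D i)ᶜ := by
    intro k
    have h1 : (0 : ℝ) < 1 / ((k : ℝ) + 1) := Nat.one_div_pos_of_nat
    have h2 : 1 / ((k : ℝ) + 1) ≤ 1 := by
      rw [div_le_one (by positivity)]
      linarith [(Nat.cast_nonneg k : (0 : ℝ) ≤ k)]
    exact measure_eq_zero_iff_ae_notMem.1 (key _ (by linarith) (by linarith))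
  filter_upwards [ae_all_iff.2 key2] with x hx hlt
  obtain ⟨k, hk⟩ := exists_nat_one_div_lt (sub_pos.2 hlt)
  by_contra hno
  push Not at hno
  exact hx k ⟨by show ‖b x‖ ≤ _; linarith, Set.mem_iInter.2 hno⟩

end GTyB

open GTyB in
theorem xTyB : TyB := by
  intro fd gc zc c H q D hD
  have hc := gc.ctx c
  have ht := zc.ht c H
  have hI : BM c.W.μ c.W.ms (Dᶜ.indicator fun _ => (1 : ℂ)) := BM.indicator hD.compl
  have hbd : ∀ᵐ w ∂c.W.μ, ‖(c.W.μ[Dᶜ.indicator fun _ => (1 : ℂ) | c.P q]) w‖ ≤ 1 :=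
    ae_bdd_norm_condExp_of_ae_bdd_norm (Eventually.of_forall fun w => by
      by_cases h : w ∈ D <;> simp [h])
  obtain ⟨b, hb, hb1, eb⟩ := fd.a.fact c.X.ms c.W.μ (c.π q) _ 1
    (hc.embπ q).mp.measurable.comap_le zero_le_one (hI.ce (c.P q)).1 hbd
  have hA : MeasurableSet {x | ‖b x‖ = 1} := measurableSet_eq_fun hb.norm measurable_const
  have h1 : ∀ᵐ w ∂c.W.μ, w ∈ D → w ∉ c.π q ⁻¹' {x | ‖b x‖ = 1} :=
    full (hc.facP q).le hD ((le_sup_left : _ ≤ c.P q) _ ⟨_, hA, rfl⟩) eb fun x hx => hx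
  have he : ∀ a, MeasurePreserving (H.e a) H.Xh.μ c.W.μ := fun a => (H.rp.emb a).mp
  have hp0 : MeasurePreserving (c.π H.i0 ∘ H.e (0, H.i0)) H.Xh.μ c.X.μ :=
    (hc.embπ H.i0).mp.comp (he _)
  have h2 : ∀ᵐ y ∂H.Xh.μ, ‖b (c.π H.i0 (H.e (0, H.i0) y))‖ < 1 → ∃ i, y ∈ H.e (i, q) ⁻¹' D := by
    refine miss (fd.a.pull_le c.X.ms H.Xh.μ c.X.μ _ hp0 le_rfl)
      (fun i => (he _).measurable hD)
      ((hb.comp (comap_measurable (c.π H.i0 ∘ H.e (0, H.i0)))).mono le_sup_left le_rfl) fun n => ?_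
    classical
    have hinj : ∀ i ∈ range n, ∀ j ∈ range n, ((i, q) : ℕ × c.ι) = (j, q) → i = j :=
      fun i _ j _ h => congrArg Prod.fst h
    have h3 : ∀ i : ℕ, (fun y => (c.W.μ[Dᶜ.indicator fun _ => (1 : ℂ) | c.P q]) (H.e (i, q) y))
        =ᵐ[H.Xh.μ] fun y => b (c.π H.i0 (H.e (0, H.i0) y)) := fun i =>
      ((he (i, q)).quasiMeasurePreserving.ae_eq_comp eb).trans
        (fd.a.keq_fun c.X.ms H.Xh.μ c.X.μ _ _ b ((hc.embπ q).mp.comp (he (i, q))) hp0
          (H.rp.com (i, q)) hb.aestronglyMeasurable)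
    have h4 := H.rp.ind ((range n).image fun i => (i, q)) (fun _ => Dᶜ.indicator fun _ => (1 : ℂ))
      fun _ _ => hI
    simp only [prod_image hinj] at h4
    refine h4.trans ?_
    filter_upwards [ae_all_iff.2 h3] with y hy
    exact (prod_congr rfl fun i _ => hy i).trans (by rw [prod_const, card_range])
  filter_upwards [ht.embL.mp.quasiMeasurePreserving.ae h1,
    (H.emb1.mp.comp (ht.embπ q).mp).quasiMeasurePreserving.ae h2, ht.sq q _ hA]
    with w a1 a2 a3 hw
  refine a2 (lt_of_le_of_ne (hb1 _) fun h => a1 hw ?_)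
  exact a3.mpr h

end T4x

end
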