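import Pool.Agent.MP_154433_an.t4.Sec4A
import Pool.Agent.MP_154433_an.t4.GAlgA
import Pool.Agent.MP_154433_an.t4.GAlgB
import Pool.Agent.MP_154433_an.t4.GAlgC
import Pool.Agent.MP_154433_an.t4.GAt1
import Pool.Agent.MP_154433_an.t4.GAt2
import Pool.Agent.MP_154433_an.t4.GBun
import Pool.Agent.MP_154433_an.t4.GExh
import Pool.Agent.MP_154433_an.t4.GFf
import Pool.Agent.MP_154433_an.t4.GFlat
import Pool.Agent.MP_154433_an.t4.GHatA
import Pool.Agent.MP_154433_an.t4.GHatB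
import Pool.Agent.MP_154433_an.t4.GHt
import Pool.Agent.MP_154433_an.t4.GMix
import Pool.Agent.MP_154433_an.t4.GOnhB
import Pool.Agent.MP_154433_an.t4.GOnhC
import Pool.Agent.MP_154433_an.t4.GOnhK
import Pool.Agent.MP_154433_an.t4.GPosB
import Pool.Agent.MP_154433_an.t4.GPsc
import Pool.Agent.MP_154433_an.t4.GPsiA
import Pool.Agent.MP_154433_an.t4.GPsiB
import Pool.Agent.MP_154433_an.t4.GRelA
import Pool.Agent.MP_154433_an.t4.GDec
import Pool.Agent.MP_154433_an.t4.GStpA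
import Pool.Agent.MP_154433_an.t4.GStpB
import Pool.Agent.MP_154433_an.t4.GTyA
import Pool.Agent.MP_154433_an.t4.GTyB
import Pool.Agent.MP_154433_an.t4.GZv

/-! Section 4: all sub-rows. -/

namespace T4x

open T3x

variable [Grp]

theorem sec4 : Sec4A.Rows :=
  ⟨xCtx, xPsc, xFf, xZv, xHt, xExh, xHatA, xHatB, xTyA, xTyB, xMixL, ⟨xAtM, xAtO, xAtT, xAtE⟩, xPosB,
    xPsiA, xPsiB, xBunB, xOnhK, xOnhC, xDec, xRelA, xOnhB, xStpA, xFlat, xStpB, xAlgA, xAlgT,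
    xAlgB, xAlgC⟩

theorem sec4out (hRc : Rc) (hSat : SatAR) : Sec4A.Out := Sec4A.out sec4 hRc hSat

end T4x
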