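import Pool.Agent.MP_154433_an.t4.Asm
import Pool.Agent.MP_154433_an.t4.OneX
import Pool.Agent.MP_154433_an.t4.BasT
import Pool.Agent.MP_154433_an.t4.Met
import Pool.Agent.MP_154433_an.t4.Real
import Pool.Agent.MP_154433_an.t4.Lim
import Pool.Agent.MP_154433_an.t4.RP
import Pool.Agent.MP_154433_an.t4.Line
import Pool.Agent.MP_154433_an.t4.LfB
import Pool.Agent.MP_154433_an.t4.LfA
import Pool.Agent.MP_154433_an.t4.LfC
import Pool.Agent.MP_154433_an.t4.LfD
import Pool.Agent.MP_154433_an.t4.Kf
import Pool.Agent.MP_154433_an.t4.Hf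
import Pool.Agent.MP_154433_an.t4.Prod
import Pool.Agent.MP_154433_an.t4.SatA
import Pool.Agent.MP_154433_an.t4.GI
import Pool.Agent.MP_154433_an.t4.F3
import Pool.Agent.MP_154433_an.t4.R2P
import Pool.Agent.MP_154433_an.t4.F2
import Pool.Agent.MP_154433_an.t4.HG
import Pool.Agent.MP_154433_an.t4.GSp1
import Pool.Agent.MP_154433_an.t4.Full
import Pool.Agent.MP_154433_an.t4.Rep
import Pool.Agent.MP_154433_an.t4.GSpU
import Pool.Agent.MP_154433_an.t4.Sec4
import Pool.Agent.MP_154433_an.t4.Ind2
import Pool.Agent.MP_154433_an.t4.Sat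
import Pool.Agent.MP_154433_an.t4.Ind24
import Pool.Agent.MP_154433_an.t4.IndF
import Pool.Agent.MP_154433_an.t4.Res
import Pool.Agent.MP_154433_an.t4.Gf
import Pool.Agent.MP_154433_an.t4.CptA

/-! Assembly of all rows: the deterministic statement for commuting maps. -/

set_option autoImplicit false

namespace T4x

section

variable [Grp]

theorem basX : Bas := bas_of oneX basT

theorem fdX : Fd := fd_of oneX basX met mix real nice0 limS rp line lfB lfA lfC lfD kfA kfB hf prodS

theorem stepX (alg : AlgS) : StepS :=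
  have fd := fdX
  have o := sec4out rcX satA
  step_of fd rcX selX apxX hgxX ggX (satA fd) alg gi f3 r2p f2 hg gsp1 full rep gspU t5 o.exh o.hat
    o.ty o.pos o.psi o.bun o.stp o.rel o.onh o.algI

end

theorem indX (alg : ∀ G : Grp, @AlgS G) : ∀ G : Grp, @IndS G :=
  ind_of (fun G => @fdX G) (fun G => @ind2 G) (fun G => @satA G) (fun G => @sat G)
    (fun G => @stepX G (alg G)) (fun G => @indF G) res indR

theorem detX (alg : ∀ G : Grp, @AlgS G) (G : Grp) : @DET G :=
  det_of basX fdX (indX alg G) gf cptA cpt top det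

end T4x
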