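import Pool.Agent.MP_154433_an.t4.SpecG

/-! The extension with a frozen second copy. -/

set_option autoImplicit false
set_option linter.unusedVariables false
set_option warn.classDefReducibility false

open MeasureTheory ProbabilityTheory Filter Topology Function Finset ComplexConjugate
open scoped BigOperators
open Fib27 (BM sup pr)

noncomputable section

namespace T4x

open T3x

variable [Grp]

namespace GHatB

/-- the system itself and its frozen copy -/
def two (Y : Sys) (i : Bool) : Sys :=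
  { X := Y.X, μ := Y.μ, Tz := cond i (fun _ x => x) Y.Tz
    mp := by
      cases i
      · exact Y.mp
      · exact fun _ => MeasurePreserving.id _
    zero := by
      cases i
      · exact Y.zero
      · exact fun _ => rfl
    add := by
      cases i
      · exact Y.add
      · exact fun _ _ _ => rfl }

omit [Grp] in
theorem pull_mono {Ω Ω' : Type} {B B' : MeasurableSpace Ω'} {m0 : MeasurableSpace Ω}
    (μ : Measure Ω) (p : Ω → Ω') (h : B ≤ B') : pull μ p B ≤ pull μ p B' :=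
  sup_le_sup_right (MeasurableSpace.comap_mono h) _

omit [Grp] in
theorem fact_bm (b : BasA) {Ω Ω' : Type} {m0 : MeasurableSpace Ω} {m0' : MeasurableSpace Ω'}
    {μ : Measure Ω} {μ' : Measure Ω'} {p : Ω → Ω'} (hp : MeasurePreserving p μ μ') {f : Ω → ℂ}
    (hf : BM μ (pull μ p m0') f) : ∃ f' : Ω' → ℂ, BM μ' m0' f' ∧ f =ᵐ[μ] fun x => f' (p x) := by
  obtain ⟨h1, C, hC⟩ := hf
  obtain ⟨f', a1, a2, a3⟩ := b.fact m0' μ p f (max C 0) hp.measurable.comap_le
    (le_max_right _ _) h1 (hC.mono fun x hx => hx.trans (le_max_left _ _))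
  exact ⟨f', ⟨a1.stronglyMeasurable.aestronglyMeasurable, _, Eventually.of_forall a2⟩, a3⟩

theorem core (F : Fd) (Y Z : Sys) (p1 p2 : Z.X → Y.X) (hN : Nice Y) (hZ : Nice Z)
    (e1 : Emb Z Y p1) (e2 : Emb Z Y.frz p2) (com : KEq Z.μ (Inv Y Set.univ) p1 p2)
    (ind : ∀ f g, BM Y.μ Y.ms f → BM Y.μ Y.ms g →
      Z.μ[fun z => f (p1 z) * g (p2 z) | pull Z.μ p1 (Inv Y Set.univ)] =ᵐ[Z.μ]
        fun z => (Y.μ[f | Inv Y Set.univ]) (p1 z) * (Y.μ[g | Inv Y Set.univ]) (p2 z)) :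
    (∀ f g, BM Y.μ Y.ms f → BM Y.μ Y.ms g →
      ∫ x, f (p1 x) * g (p2 x) ∂Z.μ = ∫ y, (Y.μ[f | Inv Y Set.univ]) y * (Y.μ[g | Inv Y Set.univ]) y ∂Y.μ) ∧
    CP (pull Z.μ p1 Y.ms) (pull Z.μ p1 (Inv Y Set.univ)) (pull Z.μ p2 Y.ms) Z.μ := by
  have hD := F.t.finv Y Set.univ
  have m1 : MeasurePreserving p1 Z.μ Y.μ := e1.mp
  have m2 : MeasurePreserving p2 Z.μ Y.μ := e2.mp
  have l0 : pull Z.μ p1 (Inv Y Set.univ) ≤ Z.ms := F.a.pull_le _ _ _ _ m1 hD.le
  have l0' : pull Z.μ p2 (Inv Y Set.univ) ≤ Z.ms := F.a.pull_le _ _ _ _ m2 hD.le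
  have l1 : pull Z.μ p1 Y.ms ≤ Z.ms := F.a.pull_le _ _ _ _ m1 le_rfl
  have l2 : pull Z.μ p2 Y.ms ≤ Z.ms := F.a.pull_le _ _ _ _ m2 le_rfl
  have e : pull Z.μ p1 (Inv Y Set.univ) = pull Z.μ p2 (Inv Y Set.univ) :=
    F.a.keq_pull _ _ _ _ (le_sup_left.trans l0) (le_sup_left.trans l0') com
  constructor
  · intro f g hf hg
    have h1 := F.a.keq_fun _ _ _ p1 p2 _ m1 m2 com (hg.ce (Inv Y Set.univ)).1
    have h2 := ((hf.ce (Inv Y Set.univ)).mul (hg.ce (Inv Y Set.univ))).mono hD.le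
    rw [← integral_condExp l0, integral_congr_ae (ind f g hf hg), ← m1.map_eq,
      integral_map m1.measurable.aemeasurable (by rw [m1.map_eq]; exact h2.1), m1.map_eq]
    refine integral_congr_ae ?_
    filter_upwards [h1] with z hz
    rw [hz]
  · refine (F.c.cp_iff _ _ _ Z.μ l1 l2 (e.le.trans (pull_mono _ _ hD.le))).2 fun f g hf hg => ?_
    obtain ⟨f0, a1, a2⟩ := fact_bm F.a m1 hf
    obtain ⟨g0, b1, b2⟩ := fact_bm F.a m2 hg
    have h1 := (condExp_congr_ae (m := pull Z.μ p1 (Inv Y Set.univ)) a2).trans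
      (F.a.ce_comp _ _ _ p1 f0 m1 hD.le a1.integrable)
    have h2 := (condExp_congr_ae (m := pull Z.μ p2 (Inv Y Set.univ)) b2).trans
      (F.a.ce_comp _ _ _ p2 g0 m2 hD.le b1.integrable)
    rw [← e] at h2
    have h3 : (fun z => f z * g z) =ᵐ[Z.μ] fun z => f0 (p1 z) * g0 (p2 z) := by
      filter_upwards [a2, b2] with z c1 c2
      rw [c1, c2]
    filter_upwards [h1, h2, (condExp_congr_ae h3).trans (ind f0 g0 a1 b1)] with z c1 c2 c3
    rw [c1, c2, c3]

end GHatB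

open GHatB

theorem xHatB : HatB := by
  intro F Xh Bh hN hK ⟨u, hu⟩
  have hD := F.t.finv Xh Set.univ
  obtain ⟨Z, p, rp⟩ := F.rp Bool (two Xh) Xh (Inv Xh Set.univ) (fun _ => id) false (fun _ => hN) hD
    (fun _ => MeasurePreserving.id _) (fun i n A hA => by
      cases i
      · exact EventuallyEq.rfl
      · exact (hA.2 n trivial).symm)
  have e1 : Emb Z Xh (p false) := rp.emb false
  have e2 : Emb Z Xh.frz (p true) := rp.emb true
  have com : KEq Z.μ (Inv Xh Set.univ) (p false) (p true) := fun A hA => (rp.com true A hA).symm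
  have eD : pull Xh.μ id (Inv Xh Set.univ) = Inv Xh Set.univ := by
    rw [pull, MeasurableSpace.comap_id]
    exact sup_eq_left.2 hD.nl
  obtain ⟨h1, h2⟩ := core F Xh Z (p false) (p true) hN rp.nice e1 e2 com fun f g hf hg => by
    have h := rp.ind univ (fun i => cond i g f) fun i _ => by
      cases i
      · exact hf
      · exact hg
    simp only [Fintype.prod_bool, mul_comm] at h
    rw [← eD]
    nth_rewrite 1 [eD]
    exact h
  have l1 := F.a.pull_le Xh.ms Z.μ Xh.μ (p false) e1.mp le_rfl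
  have l2 := F.a.pull_le Xh.ms Z.μ Xh.μ (p true) e2.mp le_rfl
  have hIB : Inv Xh Set.univ ≤ Bh := fun A hA =>
    hK.2 u hu A (F.kb.inv Xh u Bh hN hK.1 A ⟨hA.1, fun h _ => hA.2 h trivial⟩)
  have e : pull Z.μ (p false) (Inv Xh Set.univ) = pull Z.μ (p true) (Inv Xh Set.univ) :=
    F.a.keq_pull _ _ _ _ (le_sup_left.trans ((pull_mono _ _ hD.le).trans l1))
      (le_sup_left.trans ((pull_mono _ _ hD.le).trans l2)) com
  have h3 := F.c.drop _ _ _ (pull Z.μ (p false) Bh) Z.μ l1 l2 (e.le.trans (pull_mono _ _ hD.le))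
    (pull_mono _ _ hD.le) (pull_mono _ _ hK.1.le) h2
  have h4 : pull Z.μ (p false) Bh ⊔ pull Z.μ (p false) (Inv Xh Set.univ) = pull Z.μ (p false) Bh :=
    sup_eq_left.2 (pull_mono _ _ hIB)
  have h5 := (congrArg (fun D => CP (pull Z.μ (p false) Xh.ms) D
    (pull Z.μ (p false) Bh ⊔ pull Z.μ (p true) Xh.ms) Z.μ) h4).mp h3
  have hC : Fac Z (pull Z.μ (p false) Bh ⊔ pull Z.μ (p true) Xh.ms) :=
    F.t.fsup Z _ _ (F.t.fpull Z Xh _ Bh e1 hK.1) (F.t.fpull Z Xh.frz _ _ e2 (F.t.top _))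
  exact ⟨Z, p false, p true, _, e2, com, h1,
    F.h.adm Z Xh _ Bh _ rp.nice hN e1 hK hC le_sup_left h5, le_sup_right.trans (F.h.le Z _)⟩

end T4x

end
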