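import Pool.Agent.MP_154433_an.t4.SpecG

/-! Families of sets that describe an event of the line. -/

set_option autoImplicit false
set_option linter.unusedVariables false
set_option linter.unusedSectionVars false
set_option warn.classDefReducibility false

open MeasureTheory ProbabilityTheory Filter Topology Function Finset ComplexConjugate
open scoped BigOperators
open Fib27 (BM sup pr Oc Orow F23 LInd Mem)
open Pool.Agent.MP_154433_an.SG (Uni ufn)

noncomputable section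

namespace T4x

open T3x

variable [Grp]

namespace GLn

variable {ν : Wt} {U : Ultrafilter ℕ} {X : Sys}

/-- the family `A` describes the event `E` -/
def Rp (L : Ln ν U X) (A : Lab → Set X.X) (E : Set L.W.X) : Prop :=
  (∀ l, MeasurableSet (A l)) ∧ ∀ᵐ w ∂L.W.μ, w ∈ L.hs A ↔ w ∈ E

theorem hs_meas (fd : Fd) (L : Ln ν U X) {A : Lab → Set X.X} (h : ∀ l, MeasurableSet (A l)) :
    MeasurableSet (L.hs A) := by
  have := fd.lc.hs_meas L X.ms A (fd.t.top X) h
  rwa [fd.lb.top L] at this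

theorem Rp.self (L : Ln ν U X) {A : Lab → Set X.X} (h : ∀ l, MeasurableSet (A l)) :
    Rp L A (L.hs A) := ⟨h, Eventually.of_forall fun _ => Iff.rfl⟩

theorem Rp.of_ae {L : Ln ν U X} {A : Lab → Set X.X} {E : Set L.W.X}
    (h : ∀ l, MeasurableSet (A l)) (e : E =ᵐ[L.W.μ] L.hs A) : Rp L A E :=
  ⟨h, (eventuallyEq_set.1 e).mono fun _ h => h.symm⟩

theorem Rp.ae {L : Ln ν U X} {A : Lab → Set X.X} {E : Set L.W.X} (h : Rp L A E) :
    L.hs A =ᵐ[L.W.μ] E := eventuallyEq_set.2 h.2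

theorem Rp.congr {L : Ln ν U X} {A A' : Lab → Set X.X} {E E' : Set L.W.X} (h : Rp L A E)
    (e : ∀ l, A' l = A l) (e' : ∀ᵐ w ∂L.W.μ, w ∈ E ↔ w ∈ E') : Rp L A' E' := by
  obtain rfl : A' = A := funext e
  refine ⟨h.1, ?_⟩
  filter_upwards [h.2, e'] with w h1 h2 using h1.trans h2

theorem Rp.inter (fd : Fd) {L : Ln ν U X} {A A' : Lab → Set X.X} {E E' : Set L.W.X}
    (h : Rp L A E) (h' : Rp L A' E') : Rp L (fun l => A l ∩ A' l) (E ∩ E') := by
  refine ⟨fun l => (h.1 l).inter (h'.1 l), ?_⟩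
  rw [fd.lc.hs_inter L A A' h.1 h'.1]
  filter_upwards [h.2, h'.2] with w h1 h2 using and_congr h1 h2

theorem Rp.compl (fd : Fd) {L : Ln ν U X} {A : Lab → Set X.X} {E : Set L.W.X} (h : Rp L A E) :
    Rp L (fun l => (A l)ᶜ) Eᶜ := by
  refine ⟨fun l => (h.1 l).compl, ?_⟩
  rw [fd.lc.hs_compl L A h.1]
  filter_upwards [h.2] with w h1 using not_congr h1

theorem Rp.diff (fd : Fd) {L : Ln ν U X} {A A' : Lab → Set X.X} {E E' : Set L.W.X}
    (h : Rp L A E) (h' : Rp L A' E') : Rp L (fun l => A l \ A' l) (E \ E') :=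
  h.inter fd (h'.compl fd)

theorem Rp.union (fd : Fd) {L : Ln ν U X} {A A' : Lab → Set X.X} {E E' : Set L.W.X}
    (h : Rp L A E) (h' : Rp L A' E') : Rp L (fun l => A l ∪ A' l) (E ∪ E') :=
  (((h.compl fd).inter fd (h'.compl fd)).compl fd).congr
    (fun l => by rw [Set.compl_inter, compl_compl, compl_compl])
    (Eventually.of_forall fun w => by rw [Set.compl_inter, compl_compl, compl_compl])

theorem Rp.niff (fd : Fd) {L : Ln ν U X} {A A' : Lab → Set X.X} {E E' : Set L.W.X}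
    (h : Rp L A E) (h' : Rp L A' E') :
    Rp L (fun l => {x | ¬ (x ∈ A l ↔ x ∈ A' l)}) {w | ¬ (w ∈ E ↔ w ∈ E')} :=
  ((h.diff fd h').union fd (h'.diff fd h)).congr
    (fun l => Set.ext fun x => by
      simp only [Set.mem_ofPred_eq, Set.mem_union, Set.mem_sdiff]; tauto)
    (Eventually.of_forall fun w => by
      simp only [Set.mem_ofPred_eq, Set.mem_union, Set.mem_sdiff]; tauto)

theorem Rp.slot (fd : Fd) (L : Ln ν U X) (s : Slot) {A : Set X.X} (h : MeasurableSet A) :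
    Rp L (fun l => X.Tz (rho s l) ⁻¹' A) (L.π s ⁻¹' A) :=
  Rp.of_ae (fun l => (fd.t.mp X _).measurable h) (fd.lc.hs_slot L s A h).symm

theorem Rp.empty (fd : Fd) (L : Ln ν U X) : Rp L (fun _ => ∅) ∅ :=
  (Rp.slot fd L (0, true) MeasurableSet.empty).congr (fun _ => rfl)
    (Eventually.of_forall fun _ => Iff.rfl)

theorem Rp.biUnion (fd : Fd) {L : Ln ν U X} {κ : Type} (F : Finset κ) {A : κ → Lab → Set X.X}
    {E : κ → Set L.W.X} (h : ∀ k, Rp L (A k) (E k)) :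
    Rp L (fun l => ⋃ k ∈ F, A k l) (⋃ k ∈ F, E k) := by
  classical
  induction F using Finset.induction_on with
  | empty => exact (Rp.empty fd L).congr (fun l => by simp) (Eventually.of_forall fun w => by simp)
  | insert a F ha ih =>
    exact ((h a).union fd ih).congr (fun l => Finset.set_biUnion_insert a F _)
      (Eventually.of_forall fun w => by rw [Finset.set_biUnion_insert])

theorem Rp.shift (fd : Fd) {L : Ln ν U X} (n : Γ) {A : Lab → Set X.X} {E : Set L.W.X}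
    (h : Rp L A E) : Rp L (fun l => X.Tz n ⁻¹' A l) (L.W.Tz n ⁻¹' E) := by
  refine ⟨fun l => (fd.t.mp X n).measurable (h.1 l), ?_⟩
  rw [fd.lc.hs_T L n A h.1]
  exact (fd.t.mp L.W n).quasiMeasurePreserving.ae h.2

theorem Rp.lift (fd : Fd) {X' : Sys} {L' : Ln ν U X'} {L : Ln ν U X} {p : X'.X → X.X}
    {Lp : L'.W.X → L.W.X} (hp : Emb X' X p) (hL : IsLift L' L p Lp) {A : Lab → Set X.X}
    {E : Set L.W.X} (h : Rp L A E) : Rp L' (fun l => p ⁻¹' A l) (Lp ⁻¹' E) := by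
  refine ⟨fun l => hp.mp.measurable (h.1 l), ?_⟩
  filter_upwards [eventuallyEq_set.1 (fd.lc.hs_lift L' L p Lp A hp hL h.1),
    hL.emb.mp.quasiMeasurePreserving.ae h.2] with w h1 h2 using h1.trans h2

theorem Rp.lim (fd : Fd) {L : Ln ν U X} {A : Lab → Set X.X} {E : Set L.W.X} (h : Rp L A E) :
    Tendsto (fun M => ν.av2 M fun l => X.μ.real (A l)) U (𝓝 (L.W.μ.real E)) := by
  rw [← measureReal_congr h.ae]
  exact fd.lc.hs_lim L A h.1

theorem real_Tz (fd : Fd) (n : Γ) {A : Set X.X} (h : MeasurableSet A) :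
    X.μ.real (X.Tz n ⁻¹' A) = X.μ.real A :=
  (fd.t.mp X n).measureReal_preimage h.nullMeasurableSet

theorem Tz_neg (fd : Fd) (n : Γ) (x : X.X) : X.Tz (-n) (X.Tz n x) = x := by
  rw [← fd.t.add, neg_add_cancel, fd.t.zero]

theorem Tz_neg' (fd : Fd) (n : Γ) (x : X.X) : X.Tz n (X.Tz (-n) x) = x := by
  rw [← fd.t.add, add_neg_cancel, fd.t.zero]

/-- the limit of a recentred family -/
theorem Rp.lim' (fd : Fd) {L : Ln ν U X} {A B : Lab → Set X.X} {E : Set L.W.X} (h : Rp L A E)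
    (m : Lab → Γ) (e : ∀ l x, X.Tz (m l) x ∈ B l ↔ x ∈ A l) :
    Tendsto (fun M => ν.av2 M fun l => X.μ.real (B l)) U (𝓝 (L.W.μ.real E)) := by
  have : ∀ l, X.μ.real (B l) = X.μ.real (A l) := fun l => by
    rw [← real_Tz fd (-m l) (h.1 l)]
    congr 1
    ext y
    rw [Set.mem_preimage, ← e l, Tz_neg' fd]
  simp only [this]
  exact h.lim fd

theorem Rp.nl (fd : Fd) {L : Ln ν U X} {A B : Lab → Set X.X} {E : Set L.W.X} (h : Rp L A E)
    (m : Lab → Γ) (e : ∀ l x, X.Tz (m l) x ∈ B l ↔ x ∈ A l) (h0 : ∀ᵐ w ∂L.W.μ, w ∉ E) :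
    Nl ν U X B := by
  have := h.lim' fd m e
  rwa [show L.W.μ.real E = 0 by
    rw [Measure.real, measure_eq_zero_iff_ae_notMem.2 h0]; rfl] at this

theorem Rp.of_nl (fd : Fd) {L : Ln ν U X} {A B : Lab → Set X.X} {E : Set L.W.X} (h : Rp L A E)
    (m : Lab → Γ) (e : ∀ l x, X.Tz (m l) x ∈ B l ↔ x ∈ A l) (h0 : Nl ν U X B) : L.W.μ E = 0 := by
  have := tendsto_nhds_unique (h.lim' fd m e) h0
  exact (measureReal_eq_zero_iff (measure_ne_top _ _)).1 this

theorem rec1_mem (fd : Fd) (c : Ctx) {V : Type} (A : V → V → Lab → Set c.X.X) (i1 : c.ι)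
    (l : Lab) (a a' : V) (x : c.X.X) :
    c.X.Tz (rho (c.sl i1) l) x ∈ rec1 c A i1 l a a' ↔ x ∈ A a a' l := by
  unfold rec1
  rw [Set.mem_preimage, Tz_neg fd]

theorem stp_Tz (fd : Fd) (c : Ctx) (i1 i2 : c.ι) (l : Lab) (x : c.X.X) :
    c.X.Tz (stp c i1 i2 l) (c.X.Tz (rho (c.sl i1) l) x) = c.X.Tz (rho (c.sl i2) l) x := by
  rw [← fd.t.add, stp, sub_add_cancel]

theorem rec1_meas (fd : Fd) (c : Ctx) {V : Type} {ψ : V → c.X.X → ℂ} {i1 i2 : c.ι}
    {A : V → V → Lab → Set c.X.X} (h : Desc c ψ i1 i2 A) (l : Lab) (a a' : V) :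
    MeasurableSet (rec1 c A i1 l a a') := (fd.t.mp c.X _).measurable (h.1 a a' l)

theorem desc_rp {c : Ctx} {V : Type} {ψ : V → c.X.X → ℂ} {i1 i2 : c.ι}
    {A : V → V → Lab → Set c.X.X} (h : Desc c ψ i1 i2 A) (a a' : V) :
    Rp c.L (A a a') (c.SV ψ i1 i2 a a') := Rp.of_ae (h.1 a a') (h.2 a a')

theorem th_meas (rc : Rc) (c : Ctx) (g : c.X.X → ℂ) : MeasurableSet (Th c.B c.X.μ g) :=
  c.kc.1.le _ (rc.meas c.B c.X.μ g)

theorem nt_iff (c : Ctx) (k : c.ι) (g : c.X.X → ℂ) (w : c.W.X) :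
    w ∈ c.Nt k g ↔ w ∉ c.L.π (c.sl k) ⁻¹' Th c.B c.X.μ g := Iff.rfl

end GLn

end T4x

end
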