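import Pool.Agent.MP_154433_an.t4.SpecG

set_option autoImplicit false
set_option linter.unusedVariables false
set_option warn.classDefReducibility false

open MeasureTheory ProbabilityTheory Filter Topology Function Finset ComplexConjugate
open scoped BigOperators
open Fib27 (BM sup pr Oc Orow F23 LInd Mem)
open Pool.Agent.MP_154433_an.SG (Uni ufn)

noncomputable section

namespace T4x

open T3x

variable [Grp]

namespace GStpA4

lemma mem_SV (c : Ctx) {V : Type} (ψ : V → c.X.X → ℂ) (i1 i2 : c.ι) (a a' : V) (w : c.W.X) :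
    w ∈ c.SV ψ i1 i2 a a' ↔
      w ∈ c.UU ψ ∧ ∃ v : c.ι → V, (v i1 = a ∧ v i2 = a') ∧ w ∈ c.ΘV ψ v := by
  simp only [Ctx.SV, Set.mem_inter_iff, Set.mem_iUnion, Set.mem_ofPred_eq, exists_prop]

omit [Grp] in
lemma two {ι V : Type} [DecidableEq ι] [AddCommGroup V] (i1 i2 : ι) (h : i1 ≠ i2) (a a' : V) :
    ((Pi.single i1 a : ι → V) + (Pi.single i2 a' : ι → V)) i1 = a ∧
      ((Pi.single i1 a : ι → V) + (Pi.single i2 a' : ι → V)) i2 = a' := by
  constructor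
  · simp [h]
  · simp [h.symm]

end GStpA4

theorem xStpA : StpA := by
  intro fd rc gc c V _ _ sg ψ i1 i2 hne gi hψ
  have cx := gc.ctx c
  have ff := gc.ff c V sg ψ hψ
  have ps := gc.ps c.X c.B V sg ψ cx.facB hψ
  refine ⟨fun a a' b b' => ?_, ?_, fun a a' => ?_, fun v j k => ?_, fun n a a' => ?_⟩
  · filter_upwards [ff.tsub] with w hw hm
    have hm' : w ∈ c.SV ψ i1 i2 a a' ∧ w ∈ c.SV ψ i1 i2 b b' := hm
    obtain ⟨h1, h2⟩ := hm'
    rw [GStpA4.mem_SV] at h1 h2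
    obtain ⟨hu, v, ⟨e1, e2⟩, hv⟩ := h1
    obtain ⟨-, v', ⟨e1', e2'⟩, hv'⟩ := h2
    exact (GStpA4.mem_SV c ψ i1 i2 _ _ w).2 ⟨hu, v - v',
      ⟨by rw [Pi.sub_apply, e1, e1'], by rw [Pi.sub_apply, e2, e2']⟩, hw v v' hv hv'⟩
  · rw [Filter.eventuallyEq_set]
    filter_upwards [ff.t0] with w hw
    rw [GStpA4.mem_SV]
    exact ⟨fun h => h.1, fun h => ⟨h, 0, ⟨rfl, rfl⟩, hw⟩⟩
  · filter_upwards [ff.tadd, ff.tsingle gi] with w hw hs hu h1 h2
    exact (GStpA4.mem_SV c ψ i1 i2 _ _ w).2 ⟨hu, _, GStpA4.two i1 i2 hne a a',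
      hw _ _ ((hs i1 a).2 h1) ((hs i2 a').2 h2)⟩
  · have hcm := rc.cm c.B2 c.P c.W.μ (fun k w => ψ (v k) (c.π k w)) cx.kc2.1.le
      (fun i => (cx.facP i).le) c.three gi.cline (fun k => ff.um2 k (v k))
    filter_upwards [hcm j, hcm k, cx.ce gi j _ (ps.bm (v j)), cx.ce gi k _ (ps.bm (v k))]
      with w h1 h2 e1 e2 hv
    have hv' : w ∈ Th c.B2 c.W.μ (pr (fun k w => ψ (v k) (c.π k w)) univ) := hv
    simp only [Ctx.Nt, Set.mem_ofPred_eq, ne_eq]
    refine not_congr ⟨fun h => ?_, fun h => ?_⟩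
    · have h0 : (c.W.μ[fun w => ψ (v j) (c.π j w) | c.B2]) w ≠ 0 := by
        rw [e1]; intro h0; rw [h0] at h; simp at h
      have := h1 hv' h0 k
      simp only [Th, Set.mem_ofPred_eq] at this
      rwa [e2] at this
    · have h0 : (c.W.μ[fun w => ψ (v k) (c.π k w) | c.B2]) w ≠ 0 := by
        rw [e2]; intro h0; rw [h0] at h; simp at h
      have := h2 hv' h0 j
      simp only [Th, Set.mem_ofPred_eq] at this
      rwa [e1] at this
  · rw [Filter.eventuallyEq_set]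
    filter_upwards [ff.tsh n, ff.ush n] with w hw hu
    rw [Set.mem_preimage, GStpA4.mem_SV, GStpA4.mem_SV, hu]
    refine and_congr_right fun _ => ⟨?_, ?_⟩
    · rintro ⟨v, ⟨e1, e2⟩, hv⟩
      refine ⟨fun k => (sg n).symm (v k), ⟨by simp [e1], by simp [e2]⟩, (hw _).1 ?_⟩
      simpa using hv
    · rintro ⟨v, ⟨e1, e2⟩, hv⟩
      exact ⟨fun k => sg n (v k), ⟨by simp [e1], by simp [e2]⟩, (hw v).2 hv⟩

end T4x

end
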