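import Pool.Agent.MP_154433_an.t4.SpecG

/-! Section 4: the rows of the specification follow from the sub-rows. -/

set_option autoImplicit false
set_option linter.unusedVariables false
set_option warn.classDefReducibility false

open MeasureTheory ProbabilityTheory Filter Topology Function Finset ComplexConjugate
open scoped BigOperators
open Fib27 (BM sup pr Oc Orow F23 LInd Mem)
open Pool.Agent.MP_154433_an.SG (Uni ufn)

noncomputable section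

namespace T4x

open T3x

variable [Grp]

namespace Sec4A

theorem gc (h1 : CtxR) (h2 : PscR) (h3 : FfR) (fd : Fd) (rc : Rc) : GC where
  ctx := h1 fd
  ps := h2 fd rc
  ff := fun c V _ _ sg ψ h => h3 fd rc c V sg ψ (h1 fd c) (h2 fd rc _ _ V sg ψ c.kc.1 h) h

theorem zc (h1 : ZvR) (h2 : HtR) (fd : Fd) (rc : Rc) (sa : SatA) (g : GC) : ZC where
  zv := h1 fd rc g
  ht := h2 fd sa g

theorem hat (hA : HatA) (hB : HatB) (fd : Fd) (g : GC) (c : Ctx) (gi : c.GI) :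
    Nonempty c.Hat := by
  obtain ⟨i0, h0⟩ := (g.ctx c).one
  obtain ⟨Xh, e, Bh, rp, adm, hle⟩ := hA fd g c i0 gi
  obtain ⟨X1, p1, p2, B1, e2, com, ind, adm1, le2⟩ := hB fd Xh Bh adm.nice adm.kc ⟨_, h0⟩
  have adm2 := fd.h.trans X1 Xh c.X B1 Bh c.B p1 _ c.kc.1 adm1 adm
  obtain ⟨L1⟩ := fd.line c.ν c.U X1 adm1.nice
  obtain ⟨Lp, hLp⟩ := fd.la.ex L1 c.L _ adm2.emb
  refine ⟨⟨Xh, e, i0, rp, X1, p1, p2, adm1.emb, e2, com, ind, B1, adm2, fun a => ?_, le2, L1, Lp,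
    hLp⟩⟩
  refine le_trans ?_ adm1.le
  refine sup_le_sup_right ?_ _
  rw [← MeasurableSpace.comap_comp]
  exact MeasurableSpace.comap_mono (le_trans le_sup_left (hle a))

theorem ty (hA : TyA) (hB : TyB) (fd : Fd) (g : GC) (z : ZC) (c : Ctx) (H : c.Hat)
    (𝒱 : Subgroup (Uni c.X.X)) (s : Γ → 𝒱 ≃* 𝒱) (cl : c.CL) (ex : c.Exh 𝒱 s) : H.Ty 𝒱 := by
  have hm : ∀ q u, MeasurableSet (c.ZV 𝒱 q u) := fun q u =>
    (g.ctx c).kc2.1.le _ ((z.zv c 𝒱 s ex).meas q u)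
  refine ⟨hA fd g z c H 𝒱 s cl ex, fun q u _ u' _ => ?_, fun q u _ => hB fd g z c H q _ (hm q u)⟩
  filter_upwards [hB fd g z c H q _ ((hm q u').diff (hm q u))] with w hw h1 h2
  by_contra h3
  obtain ⟨i, hi⟩ := hw ⟨h2, h3⟩
  exact hi.2 (h1 i hi.1)

theorem psi (hA : PsiA) (hB : PsiB) (fd : Fd) (rc : Rc) (g : GC) (z : ZC) (c : Ctx) (H : c.Hat)
    (𝒱 : Subgroup (Uni c.X.X)) (s : Γ → 𝒱 ≃* 𝒱) (g0 : Uni c.X.X) (gi : c.GI) (ex : c.Exh 𝒱 s) :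
    ∃ (HH : 𝒱 → Set H.X1.X) (sg : Γ →+ AddAut (𝒱 →₀ ℤ)) (ψ : (𝒱 →₀ ℤ) → H.X1.X → ℂ),
    (∀ g x, x ∈ HH g ↔ (∃ a, H.τ 𝒱 g0 (H.p2 x) a) ∧
      ∀ a, H.τ 𝒱 g0 (H.p2 x) a → H.τ 𝒱 g.1 (H.p1 x) a) ∧
    (∀ g, MeasurableSet[H.B1] (HH g)) ∧ Psi H.X1 H.B1 sg ψ ∧
    (∀ g x, x ∈ HH g → ψ (Finsupp.single g 1) x = ufn g.1 (H.p x)) ∧
    ∀ g x, x ∉ HH g → ψ (Finsupp.single g 1) x = 1 := by
  obtain ⟨h1, h2, h3, h4⟩ := hA fd g z c H 𝒱 s g0 ex
  have hadd : ∀ n m : Γ, (Finsupp.domCongr (s (n + m)).toEquiv : AddAut (𝒱 →₀ ℤ)) =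
      (Finsupp.domCongr (s n).toEquiv : AddAut (𝒱 →₀ ℤ)) +
        (Finsupp.domCongr (s m).toEquiv : AddAut (𝒱 →₀ ℤ)) := by
    intro n m
    have e : (s (n + m)).toEquiv = (s m).toEquiv.trans (s n).toEquiv :=
      Equiv.ext fun u => ex.sadd n m u
    rw [e, ← Finsupp.domCongr_trans]
    rfl
  refine ⟨H.HH 𝒱 g0, AddMonoidHom.mk' (fun n => (Finsupp.domCongr (s n).toEquiv :
    AddAut (𝒱 →₀ ℤ))) hadd, H.psi 𝒱 g0, fun _ _ => Iff.rfl, h1,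
    ⟨h2, fun v v' => Eventually.of_forall (h3 v v'), h4, hB fd rc g z hA c H 𝒱 s g0 gi ex⟩,
    fun u x hx => ?_, fun u x hx => ?_⟩
  · unfold Ctx.Hat.psi
    rw [Finsupp.prod_single_index (by simp), if_pos hx, zpow_one]
  · unfold Ctx.Hat.psi
    rw [Finsupp.prod_single_index (by simp), if_neg hx, zpow_one]

theorem stp (hA : StpA) (hF : FlatR) (hB : StpB) (fd : Fd) (rc : Rc) (g : GC) (c : Ctx) (V : Type)
    [AddCommGroup V] [Countable V] (sg : Γ →+ AddAut V) (ψ : V → c.X.X → ℂ) (i1 i2 : c.ι)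
    (h12 : i1 ≠ i2) (gi : c.GI) (h : Psi c.X c.B sg ψ) : c.Stp sg ψ i1 i2 := by
  obtain ⟨h1, h2, h3, h4, h5⟩ := hA fd rc g c V sg ψ i1 i2 h12 gi h
  exact ⟨h1, h2, h3, h4, h5, hB fd g c V sg ψ i1 i2 h12 h (hF fd rc g c V sg ψ gi h)⟩

theorem rel (hA : RelA) (hC : DecS) (g : Fd → Rc → GC) : RelR := by
  intro fd rc c V _ _ sg ψ h
  have p := (g fd rc).ps c.X c.B V sg ψ c.kc.1 h
  exact ⟨fun v => (hA fd rc (g fd rc) c V sg ψ h v).1, p.n0, p.nsub, p.nsh,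
    hC fd rc (g fd rc) c.X c.B V sg ψ c.nice c.kc h⟩

/-- all sub-rows -/
structure Rows : Prop where
  ctx : CtxR
  psc : PscR
  ff : FfR
  zv : ZvR
  ht : HtR
  exh : ExhR
  hatA : HatA
  hatB : HatB
  tyA : TyA
  tyB : TyB
  mixL : MixL
  ats : AtS
  posB : PosB
  psiA : PsiA
  psiB : PsiB
  bunB : BunB
  onhK : OnhK
  onhC : OnhC
  dec : DecS
  relA : RelA
  onhB : OnhB
  stpA : StpA
  flat : FlatR
  stpB : StpB
  algA : AlgA
  algT : AlgT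
  algB : AlgB
  algC : AlgC

/-- the rows of section 4 in the specification -/
structure Out : Prop where
  exh : ExhR
  hat : HatR
  ty : TyR
  pos : PosR
  psi : PsiR
  bun : BunR
  onh : OnhR
  stp : StpR
  rel : RelR
  algI : AlgIR

theorem out (r : Rows) (hRc : Rc) (hSat : SatAR) : Out := by
  have G : Fd → Rc → GC := gc r.ctx r.psc r.ff
  have Z : Fd → Rc → ZC := fun fd rc => zc r.zv r.ht fd rc (hSat fd) (G fd rc)
  exact
    { exh := r.exh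
      hat := fun fd c gi => hat r.hatA r.hatB fd (G fd hRc) c gi
      ty := fun fd rc c H 𝒱 s cl ex => ty r.tyA r.tyB fd (G fd rc) (Z fd rc) c H 𝒱 s cl ex
      pos := fun fd rc => r.posB fd (G fd rc) (Z fd rc) r.mixL r.ats
      psi := fun fd rc c H 𝒱 s g0 gi ex _ =>
        psi r.psiA r.psiB fd rc (G fd rc) (Z fd rc) c H 𝒱 s g0 gi ex
      bun := fun fd rc => r.bunB (G fd rc) (Z fd rc) fd rc
      onh := fun fd rc => r.onhB (G fd rc) r.onhK r.onhC r.dec r.relA fd rc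
      stp := fun fd rc c V _ _ sg ψ i1 i2 h12 gi h =>
        stp r.stpA r.flat r.stpB fd rc (G fd rc) c V sg ψ i1 i2 h12 gi h
      rel := rel r.relA r.dec G
      algI := fun fd rc => r.algC (G fd rc) r.algA r.algT r.algB fd rc }

/-- section 4 in one statement: a context with a nontrivial tuple and coherent labels is
impossible -/
theorem step (o : Out) (fd : Fd) (rc : Rc) (sa : SatA) (hgi : GIR) (alg : AlgS) (c : Ctx)
    (cl : c.CL) (g : c.ι → Uni c.X.X) (t5 : c.T5 g) : False := by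
  have gi := hgi fd c
  obtain ⟨𝒱, s, ex, hg⟩ := o.exh fd rc c g
  obtain ⟨H⟩ := o.hat fd c gi
  have ty := o.ty fd rc c H 𝒱 s cl ex
  obtain ⟨j, k, pos⟩ := o.pos fd rc c H 𝒱 s g gi ex ty hg t5
  obtain ⟨c1, V, i1, i2, sg, ψ, hψ, bun⟩ :=
    o.bun fd rc sa o.psi hgi c H 𝒱 s g j k gi ex ty hg pos
  obtain ⟨h1, h2⟩ := o.onh fd rc o.rel c1 V sg ψ hψ
  exact o.algI fd rc o.stp o.rel alg c1 V sg ψ (hgi fd c1) hψ h1 h2 bun

end Sec4A

end T4x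

end
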