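import Pool.Agent.MP_154433_an.t4.Spec

/-! Statements of the sub-rows of section 4 (the bundle of groups). -/

set_option autoImplicit false
set_option linter.unusedVariables false
set_option warn.classDefReducibility false

open MeasureTheory ProbabilityTheory Filter Topology Function Finset ComplexConjugate
open scoped BigOperators
open Fib27 (BM sup pr Oc Orow F23 LInd Mem)
open Pool.Agent.MP_154433_an.SG (Uni ufn)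

noncomputable section

namespace T4x

open T3x

variable [Grp]

/-! ### calculus for the functions `ψ` -/

/-- factors of a context -/
structure CtxC (c : Ctx) : Prop where
  facB : Fac c.X c.B
  facS : Fac c.W (c.L.shp c.B)
  kc2 : KC c.W c.B2
  le2 : c.L.shp c.B ≤ c.B2
  kcβ : KC c.W2 c.β
  embπ : ∀ k, Emb c.W c.X (c.π k)
  embA : ∀ k, Emb c.W2 c.W (c.A k)
  embB : ∀ k, Emb c.W2 c.W (c.Bc k)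
  facP : ∀ k, Fac c.W (c.P k)
  slot : ∀ k, pull c.W.μ (c.π k) c.B ≤ c.L.shp c.B
  /-- preimages of sets of the base -/
  pre : ∀ k (A : Set c.X.X), MeasurableSet[c.B] A → MeasurableSet[c.L.shp c.B] (c.π k ⁻¹' A)
  nt : ∀ k (g : c.X.X → ℂ), MeasurableSet[c.L.shp c.B] (c.Nt k g)
  one : ∃ i1 : c.ι, (c.sl i1).1 ∈ 𝒰
  ce : c.GI → ∀ k (f : c.X.X → ℂ), BM c.X.μ c.X.ms f →
    c.W.μ[fun w => f (c.π k w) | c.B2] =ᵐ[c.W.μ] fun w => (c.X.μ[f | c.B]) (c.π k w)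

/-- the group law and the shift -/
structure PsC (X : Sys) (B : MeasurableSpace X.X) {V : Type} [AddCommGroup V] (sg : Γ →+ AddAut V)
    (ψ : V → X.X → ℂ) : Prop where
  bm : ∀ v, BM X.μ X.ms (ψ v)
  zero : ψ 0 =ᵐ[X.μ] fun _ => 1
  neg : ∀ v, ψ (-v) =ᵐ[X.μ] fun x => conj (ψ v x)
  sub : ∀ v v', ψ (v - v') =ᵐ[X.μ] fun x => ψ v x * conj (ψ v' x)
  sum : ∀ (κ : Type) (S : Finset κ) (v : κ → V),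
    ψ (∑ k ∈ S, v k) =ᵐ[X.μ] fun x => ∏ k ∈ S, ψ (v k) x
  shz : ∀ (n : Γ) v, ψ (sg n v) =ᵐ[X.μ] fun x => ψ v (X.Tz n x)
  n0 : ∀ᵐ x ∂X.μ, x ∈ Th B X.μ (ψ 0)
  nsub : ∀ v v', ∀ᵐ x ∂X.μ, x ∈ Th B X.μ (ψ v) → x ∈ Th B X.μ (ψ v') → x ∈ Th B X.μ (ψ (v - v'))
  nsh : ∀ (n : Γ) v, ∀ᵐ x ∂X.μ, x ∈ Th B X.μ (ψ (sg n v)) ↔ X.Tz n x ∈ Th B X.μ (ψ v)
  /-- the part of `ψ v` off the trivial set has mean zero -/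
  off : ∀ v, X.μ[(Th B X.μ (ψ v))ᶜ.indicator (ψ v) | B] =ᵐ[X.μ] 0

/-- tuples of the functions `ψ` in the line -/
structure FfC (c : Ctx) {V : Type} [AddCommGroup V] (sg : Γ →+ AddAut V) (ψ : V → c.X.X → ℂ) :
    Prop where
  um1 : ∀ k a, Um (c.P k) c.W.μ fun w => ψ a (c.π k w)
  um2 : ∀ k a, Um (c.P k ⊔ c.B2) c.W.μ fun w => ψ a (c.π k w)
  um3 : ∀ k a, Um c.W.ms c.W.μ fun w => ψ a (c.π k w)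
  um : ∀ v, Um c.W.ms c.W.μ (c.FF ψ v)
  zero : c.FF ψ 0 =ᵐ[c.W.μ] fun _ => 1
  add : ∀ v v', c.FF ψ (v + v') =ᵐ[c.W.μ] fun w => c.FF ψ v w * c.FF ψ v' w
  sub : ∀ v v', c.FF ψ (v - v') =ᵐ[c.W.μ] fun w => c.FF ψ v w * conj (c.FF ψ v' w)
  single : ∀ k a, c.FF ψ (Pi.single k a) =ᵐ[c.W.μ] fun w => ψ a (c.π k w)
  shz : ∀ (n : Γ) v, c.FF ψ (fun k => sg n (v k)) =ᵐ[c.W.μ] fun w => c.FF ψ v (c.W.Tz n w)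
  tm : ∀ v, MeasurableSet[c.B2] (c.ΘV ψ v)
  t0 : ∀ᵐ w ∂c.W.μ, w ∈ c.ΘV ψ 0
  tadd : ∀ᵐ w ∂c.W.μ, ∀ v v', w ∈ c.ΘV ψ v → w ∈ c.ΘV ψ v' → w ∈ c.ΘV ψ (v + v')
  tsub : ∀ᵐ w ∂c.W.μ, ∀ v v', w ∈ c.ΘV ψ v → w ∈ c.ΘV ψ v' → w ∈ c.ΘV ψ (v - v')
  tsh : ∀ n : Γ, ∀ᵐ w ∂c.W.μ, ∀ v,
    w ∈ c.ΘV ψ (fun k => sg n (v k)) ↔ c.W.Tz n w ∈ c.ΘV ψ v
  um' : MeasurableSet[c.B2] (c.UU ψ)
  ush : ∀ n : Γ, ∀ᵐ w ∂c.W.μ, w ∈ c.UU ψ ↔ c.W.Tz n w ∈ c.UU ψ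
  tsingle : c.GI → ∀ᵐ w ∂c.W.μ, ∀ k a, w ∈ c.ΘV ψ (Pi.single k a) ↔ w ∉ c.Nt k (ψ a)

structure GC : Prop where
  ctx : ∀ c : Ctx, CtxC c
  ps : ∀ (X : Sys) B (V : Type) [AddCommGroup V] (sg : Γ →+ AddAut V) (ψ : V → X.X → ℂ), Fac X B →
    Psi X B sg ψ → PsC X B sg ψ
  ff : ∀ (c : Ctx) (V : Type) [AddCommGroup V] [Countable V] (sg : Γ →+ AddAut V)
    (ψ : V → c.X.X → ℂ), Psi c.X c.B sg ψ → FfC c sg ψ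

def CtxR : Prop := Fd → ∀ c : Ctx, CtxC c
def PscR : Prop := Fd → Rc → ∀ (X : Sys) B (V : Type) [AddCommGroup V] (sg : Γ →+ AddAut V)
  (ψ : V → X.X → ℂ), Fac X B → Psi X B sg ψ → PsC X B sg ψ
def FfR : Prop := Fd → Rc → ∀ (c : Ctx) (V : Type) [AddCommGroup V] [Countable V] (sg : Γ →+ AddAut V)
  (ψ : V → c.X.X → ℂ), CtxC c → PsC c.X c.B sg ψ → Psi c.X c.B sg ψ → FfC c sg ψ

/-! ### calculus for partners and types -/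

structure ZvC (c : Ctx) (𝒱 : Subgroup (Uni c.X.X)) (s : Γ → 𝒱 ≃* 𝒱) : Prop where
  um : ∀ (g : c.ι → Uni c.X.X) k, Um (c.P k ⊔ c.B2) c.W.μ (c.up g k)
  umP : ∀ g : c.ι → Uni c.X.X, Um c.W.ms c.W.μ (pr (c.up g) univ)
  cnt : {g' : c.ι → Uni c.X.X | ∀ k, g' k ∈ 𝒱}.Countable
  tm : ∀ g : c.ι → Uni c.X.X, MeasurableSet[c.B2] (c.Θ (c.up g))
  meas : ∀ q g, MeasurableSet[c.B2] (c.ZV 𝒱 q g)
  sh : ∀ n q (g : 𝒱), c.ZV 𝒱 q (s n g).1 =ᵐ[c.W.μ] c.W.Tz n ⁻¹' c.ZV 𝒱 q g.1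
  one : ∀ q, ∀ᵐ w ∂c.W.μ, w ∈ c.ZV 𝒱 q 1
  mul : ∀ q g g', ∀ᵐ w ∂c.W.μ, w ∈ c.ZV 𝒱 q g → w ∈ c.ZV 𝒱 q g' → w ∈ c.ZV 𝒱 q (g * g')
  inv : ∀ q g, ∀ᵐ w ∂c.W.μ, w ∈ c.ZV 𝒱 q g → w ∈ c.ZV 𝒱 q g⁻¹
  onn : c.GI → ∀ q g, ∀ᵐ w ∂c.W.μ, w ∈ c.ZV 𝒱 q g →
    ‖(c.X.μ[ufn g | c.B]) (c.π q w)‖ = 0 ∨ ‖(c.X.μ[ufn g | c.B]) (c.π q w)‖ = 1
  /-- nontriviality spreads over a tuple -/
  nt : c.GI → ∀ (g : c.ι → Uni c.X.X) j k, ∀ᵐ w ∂c.W.μ, w ∈ c.Θ (c.up g) →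
    (w ∈ c.Nt j (ufn (g j)) ↔ w ∈ c.Nt k (ufn (g k)))

/-- the maps of the extension -/
structure HtC {c : Ctx} (H : c.Hat) : Prop where
  embp : Emb H.X1 c.X H.p
  embe : ∀ a, Emb H.X1 c.W (H.e a ∘ H.p1)
  com : ∀ a, KEq H.X1.μ c.X.ms (c.π a.2 ∘ H.e a ∘ H.p1) H.p
  embL : Emb H.L1.W c.W H.Lp
  embπ : ∀ k, Emb H.L1.W H.X1 (H.π k)
  sq : ∀ k, KEq H.L1.W.μ c.X.ms (c.π k ∘ H.Lp) (H.p ∘ H.π k)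
  fac1 : Fac H.X1 H.B1
  b2 : pull H.L1.W.μ H.Lp c.B2 ≤ H.L1.B2 H.B1
  ce : ∀ f : c.X.X → ℂ, BM c.X.μ c.X.ms f →
    H.X1.μ[fun x => f (H.p x) | H.B1] =ᵐ[H.X1.μ] fun x => (c.X.μ[f | c.B]) (H.p x)
  /-- the second copy is the same in all slots -/
  frz : ∀ j k, KEq H.L1.W.μ H.Xh.ms (H.p2 ∘ H.π j) (H.p2 ∘ H.π k)
  frzT : ∀ n, KEq H.X1.μ H.Xh.ms (H.p2 ∘ H.X1.Tz n) H.p2

structure ZC : Prop where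
  zv : ∀ (c : Ctx) 𝒱 s, c.Exh 𝒱 s → ZvC c 𝒱 s
  ht : ∀ (c : Ctx) (H : c.Hat), HtC H

def ZvR : Prop := Fd → Rc → GC → ∀ (c : Ctx) 𝒱 s, c.Exh 𝒱 s → ZvC c 𝒱 s
def HtR : Prop := Fd → SatA → GC → ∀ (c : Ctx) (H : c.Hat), HtC H

/-! ### the extension -/

def HatA : Prop := Fd → GC → ∀ (c : Ctx) (i0 : c.ι), c.GI → ∃ (Xh : Sys)
  (e : ℕ × c.ι → Xh.X → c.W.X) (Bh : MeasurableSpace Xh.X),
  IsRP (fun _ : ℕ × c.ι => c.W) c.X c.X.ms (fun a => c.π a.2) (0, i0) Xh e ∧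
  Adm Xh Bh c.X c.B (c.π i0 ∘ e (0, i0)) ∧ ∀ a, pull Xh.μ (e a) c.B2 ≤ Bh

def HatB : Prop := Fd → ∀ (Xh : Sys) (Bh : MeasurableSpace Xh.X), Nice Xh → KC Xh Bh →
  (𝒰 : Set Γ).Nonempty → ∃ (X1 : Sys) (p1 p2 : X1.X → Xh.X) (B1 : MeasurableSpace X1.X), Emb X1 Xh.frz p2 ∧
    KEq X1.μ (Inv Xh Set.univ) p1 p2 ∧ (∀ f g, BM Xh.μ Xh.ms f → BM Xh.μ Xh.ms g →
      ∫ x, f (p1 x) * g (p2 x) ∂X1.μ =
        ∫ y, (Xh.μ[f | Inv Xh Set.univ]) y * (Xh.μ[g | Inv Xh Set.univ]) y ∂Xh.μ) ∧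
    Adm X1 B1 Xh Bh p1 ∧ pull X1.μ p2 Xh.ms ≤ B1

/-! ### types -/

def TyA : Prop := Fd → GC → ZC → ∀ (c : Ctx) (H : c.Hat) 𝒱 s, c.CL → c.Exh 𝒱 s →
  ∀ (g : c.ι → Uni c.X.X) (j k : c.ι), (∀ i, g i ∈ 𝒱) → ∀ᵐ w ∂H.L1.W.μ,
    H.Lp w ∈ c.Θ (c.up g) → H.τ 𝒱 (g j) (H.p1 (H.π j w)) = H.τ 𝒱 (g k) (H.p1 (H.π k w))

/-- a set that no sample meets is not met by the line -/
def TyB : Prop := Fd → GC → ZC → ∀ (c : Ctx) (H : c.Hat) (q : c.ι) (D : Set c.W.X),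
  MeasurableSet D → ∀ᵐ w ∂H.L1.W.μ, H.Lp w ∈ D → ∃ i : ℕ, H.e (i, q) (H.p1 (H.π q w)) ∈ D

/-- two slots are coupled along the invariant factor of their group -/
def MixL : Prop := Fd → ∀ (ν : Wt) (U : Ultrafilter ℕ) (X : Sys) (L : Ln ν U X) (s s' : Slot),
  (U : Filter ℕ) ≤ atTop → ERG ν → ∀ f g : X.X → ℂ, BM X.μ X.ms f → BM X.μ X.ms g →
  ∫ w, f (L.π s w) * g (L.π s' w) ∂L.W.μ =
    ∫ x, (X.μ[f | Inv X (pg s s')]) x * (X.μ[g | Inv X (pg s s')]) x ∂X.μ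

/-- the points whose type has a prescribed trace on a finite set -/
def cell {Y κ : Type} (t : Y → κ → Prop) (K c : Finset κ) : Set Y := {y | ∀ i ∈ K, (t y i ↔ i ∈ c)}

/-- the points whose type is an atom of the conditional law of the type over `I` -/
def At {Y κ : Type} (I : MeasurableSpace Y) {m0 : MeasurableSpace Y} (μ : Measure Y)
    (t : Y → κ → Prop) : Set Y :=
  {y | ∃ n : ℕ, ∀ K c : Finset κ, y ∈ cell t K c →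
    1 / ((n : ℝ) + 1) ≤ ((μ[(cell t K c).indicator fun _ => (1 : ℂ) | I]) y).re}

/-- the pair `a1, a2` has the law of the relative square over `I` -/
def Sq {Ω Y : Type} (I : MeasurableSpace Y) {m0 : MeasurableSpace Y} (μ : Measure Y)
    {m1 : MeasurableSpace Ω} (μ' : Measure Ω) (a1 a2 : Ω → Y) : Prop :=
  MeasurePreserving a1 μ' μ ∧ MeasurePreserving a2 μ' μ ∧ ∀ f g : Y → ℂ, BM μ m0 f → BM μ m0 g →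
    ∫ x, f (a1 x) * g (a2 x) ∂μ' = ∫ y, (μ[f | I]) y * (μ[g | I]) y ∂μ

/-- atoms of types -/
structure AtS : Prop where
  meas : ∀ {Y κ : Type} [Countable κ] (I : MeasurableSpace Y) {m0 : MeasurableSpace Y}
    (μ : Measure Y) (t : Y → κ → Prop), I ≤ m0 → (∀ i, MeasurableSet {y | t y i}) →
    MeasurableSet (At I μ t)
  /-- coincidences happen on atoms -/
  of : ∀ {Ω Y κ : Type} [Countable κ] (I : MeasurableSpace Y) {m0 : MeasurableSpace Y}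
    (μ : Measure Y) [IsProbabilityMeasure μ] {m1 : MeasurableSpace Ω} (μ' : Measure Ω)
    [IsProbabilityMeasure μ'] (a1 a2 : Ω → Y) (t t' : Y → κ → Prop), I ≤ m0 →
    (∀ i, MeasurableSet {y | t y i}) → (∀ i, MeasurableSet {y | t' y i}) → Sq I μ μ' a1 a2 →
    ∀ᵐ x ∂μ', t (a1 x) = t' (a2 x) → a1 x ∈ At I μ t
  /-- atoms over two algebras with commuting projections are atoms over the intersection -/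
  two : ∀ {Y κ : Type} [Countable κ] (I I' J : MeasurableSpace Y) {m0 : MeasurableSpace Y}
    (μ : Measure Y) [IsProbabilityMeasure μ] (t : Y → κ → Prop), I ≤ m0 → I' ≤ m0 → J ≤ I →
    J ≤ I' → (∀ f : Y → ℂ, BM μ m0 f → μ[μ[f | I] | I'] =ᵐ[μ] μ[f | J]) →
    (∀ i, MeasurableSet {y | t y i}) → ∀ᵐ y ∂μ, y ∈ At I μ t → y ∈ At I' μ t → y ∈ At J μ t
  /-- atoms are met -/
  met : ∀ {Ω Y κ : Type} [Countable κ] (I : MeasurableSpace Y) {m0 : MeasurableSpace Y}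
    (μ : Measure Y) [IsProbabilityMeasure μ] {m1 : MeasurableSpace Ω} (μ' : Measure Ω)
    [IsProbabilityMeasure μ'] (a1 a2 : Ω → Y) (t : Y → κ → Prop) (S : Set Y), I ≤ m0 →
    (∀ i, MeasurableSet {y | t y i}) → MeasurableSet S → Sq I μ μ' a1 a2 →
    μ' {x | a1 x ∈ S ∧ t (a1 x) = t (a2 x)} = 0 → μ (S ∩ At I μ t) = 0

def PosB : Prop := Fd → GC → ZC → MixL → AtS → ∀ (c : Ctx) (H : c.Hat) 𝒱 s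
  (g : c.ι → Uni c.X.X), c.GI → c.Exh 𝒱 s → H.Ty 𝒱 → (∀ k, g k ∈ 𝒱) → c.T5 g →
  ∃ j k, H.Pos 𝒱 g j k

/-! ### the functions `ψ` -/

def Ctx.Hat.HH {c : Ctx} (H : c.Hat) (𝒱 : Subgroup (Uni c.X.X)) (g0 : Uni c.X.X) (g : 𝒱) :
    Set H.X1.X :=
  {x | (∃ a, H.τ 𝒱 g0 (H.p2 x) a) ∧ ∀ a, H.τ 𝒱 g0 (H.p2 x) a → H.τ 𝒱 g.1 (H.p1 x) a}

open Classical in
def Ctx.Hat.psi {c : Ctx} (H : c.Hat) (𝒱 : Subgroup (Uni c.X.X)) (g0 : Uni c.X.X)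
    (v : 𝒱 →₀ ℤ) (x : H.X1.X) : ℂ :=
  v.prod fun g n => (if x ∈ H.HH 𝒱 g0 g then ufn g.1 (H.p x) else 1) ^ n

def PsiA : Prop := Fd → GC → ZC → ∀ (c : Ctx) (H : c.Hat) 𝒱 s (g0 : Uni c.X.X), c.Exh 𝒱 s →
  (∀ g, MeasurableSet[H.B1] (H.HH 𝒱 g0 g)) ∧ (∀ v, Um H.X1.ms H.X1.μ (H.psi 𝒱 g0 v)) ∧
  (∀ v v' x, H.psi 𝒱 g0 (v + v') x = H.psi 𝒱 g0 v x * H.psi 𝒱 g0 v' x) ∧
  ∀ n v, H.psi 𝒱 g0 (Finsupp.domCongr (s n).toEquiv v) =ᵐ[H.X1.μ]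
    fun x => H.psi 𝒱 g0 v (H.X1.Tz n x)

def PsiB : Prop := Fd → Rc → GC → ZC → PsiA → ∀ (c : Ctx) (H : c.Hat) 𝒱 s (g0 : Uni c.X.X),
  c.GI → c.Exh 𝒱 s → ∀ v, ∀ᵐ x ∂H.X1.μ, ‖(H.X1.μ[H.psi 𝒱 g0 v | H.B1]) x‖ = 0 ∨
    ‖(H.X1.μ[H.psi 𝒱 g0 v | H.B1]) x‖ = 1

def BunB : Prop := GC → ZC → BunR

/-! ### passing to the hull -/

/-- over `C` every function is determined on a set of `D` and has mean zero off it -/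
def PQ (Y : Sys) (D : MeasurableSpace Y.X) {α : Type} (F : α → Y.X → ℂ) (R : α → Set Y.X)
    (C : MeasurableSpace Y.X) : Prop :=
  ∀ a, ∃ S : Set Y.X, MeasurableSet[D] S ∧ Y.μ[F a | C] =ᵐ[Y.μ] S.indicator (F a) ∧
    Y.μ (S ∩ R a) = 0

def OnhK : Prop := Fd → ∀ (Y : Sys) (u : Γ) (D C : MeasurableSpace Y.X) (α : Type) (F : α → Y.X → ℂ)
  (R : α → Set Y.X) (d : ℕ → α → α), Nice Y → Fac Y D → Fac Y C → D ≤ C →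
  (∀ a, Um Y.ms Y.μ (F a)) → (∀ a, MeasurableSet[D] (R a)) →
  (∀ (n : ℕ) a, F (d n a) =ᵐ[Y.μ] fun y => F a (Y.Tz ((n : ℤ) • u) y) * conj (F a y)) →
  (∀ a, Tendsto (fun N : ℕ => (N : ℝ)⁻¹ * ∑ n ∈ range N, Y.μ.real (R a \ R (d n a)))
    atTop (𝓝 0)) → PQ Y D F R C → PQ Y D F R (KK Y u C)

def OnhC : Prop := Fd → ∀ (Y : Sys) (D : MeasurableSpace Y.X) (α : Type) (F : α → Y.X → ℂ)
  (R : α → Set Y.X) (𝒞 : Set (MeasurableSpace Y.X)), Fac Y D → (∀ a, Um Y.ms Y.μ (F a)) →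
  𝒞.Nonempty → IsChain (· ≤ ·) 𝒞 → (∀ C ∈ 𝒞, Fac Y C ∧ D ≤ C ∧ PQ Y D F R C) →
  PQ Y D F R (sSup 𝒞)

/-- decay along a direction -/
def DecS : Prop := Fd → Rc → GC → ∀ (X : Sys) B (V : Type) [AddCommGroup V] (sg : Γ →+ AddAut V)
  (ψ : V → X.X → ℂ), Nice X → KC X B → Psi X B sg ψ → ∀ u ∈ 𝒰, ∀ a a',
  Tendsto (fun N : ℕ => (N : ℝ)⁻¹ * ∑ n ∈ range N,
    X.μ.real (Th B X.μ (ψ (sg ((n : ℤ) • u) a - a')) \ Th B X.μ (ψ a'))) atTop (𝓝 0)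

/-- exact relations -/
def RelA : Prop := Fd → Rc → GC → ∀ (c : Ctx) (V : Type) [AddCommGroup V] [Countable V]
  (sg : Γ →+ AddAut V) (ψ : V → c.X.X → ℂ), Psi c.X c.B sg ψ → ∀ v : c.ι → V,
  (Th (c.L.shp c.B) c.W.μ (c.FF ψ v) =ᵐ[c.W.μ]
    c.L.hs fun l => Th c.B c.X.μ (ψ (∑ k, sg (rho (c.sl k) l) (v k)))) ∧
  c.W.μ[c.FF ψ v | c.L.shp c.B] =ᵐ[c.W.μ]
    (Th (c.L.shp c.B) c.W.μ (c.FF ψ v)).indicator (c.FF ψ v)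

def OnhB : Prop := GC → OnhK → OnhC → DecS → RelA → OnhR

/-! ### steps -/

def StpA : Prop := Fd → Rc → GC → ∀ (c : Ctx) (V : Type) [AddCommGroup V] [Countable V]
  (sg : Γ →+ AddAut V) (ψ : V → c.X.X → ℂ) (i1 i2 : c.ι), i1 ≠ i2 → c.GI → Psi c.X c.B sg ψ →
  (∀ a a' b b', (c.SV ψ i1 i2 a a' ∩ c.SV ψ i1 i2 b b' : Set c.W.X) ≤ᵐ[c.W.μ]
    c.SV ψ i1 i2 (a - b) (a' - b')) ∧ c.SV ψ i1 i2 0 0 =ᵐ[c.W.μ] c.UU ψ ∧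
  (∀ a a', ∀ᵐ w ∂c.W.μ, w ∈ c.UU ψ → w ∉ c.Nt i1 (ψ a) → w ∉ c.Nt i2 (ψ a') →
    w ∈ c.SV ψ i1 i2 a a') ∧
  (∀ (v : c.ι → V) (j k : c.ι), ∀ᵐ w ∂c.W.μ, w ∈ c.ΘV ψ v →
    (w ∈ c.Nt j (ψ (v j)) ↔ w ∈ c.Nt k (ψ (v k)))) ∧
  ∀ n a a', c.SV ψ i1 i2 (sg n a) (sg n a') =ᵐ[c.W.μ] c.W.Tz n ⁻¹' c.SV ψ i1 i2 a a'

/-- all rows and one column are tuples, hence all columns -/
def FlatM (c : Ctx) {V : Type} (ψ : V → c.X.X → ℂ) : Prop :=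
  ∀ (m : c.ι → c.ι → V) (j0 j : c.ι), ∀ᵐ x ∂c.W2.μ, (∀ k, c.A k x ∈ c.ΘV ψ (m k)) →
    c.Bc j0 x ∈ c.ΘV ψ (fun k => m k j0) → c.Bc j x ∈ c.ΘV ψ fun k => m k j

def FlatR : Prop := Fd → Rc → GC → ∀ (c : Ctx) (V : Type) [AddCommGroup V] [Countable V]
  (sg : Γ →+ AddAut V) (ψ : V → c.X.X → ℂ), c.GI → Psi c.X c.B sg ψ → FlatM c ψ

def StpB : Prop := Fd → GC → ∀ (c : Ctx) (V : Type) [AddCommGroup V] [Countable V]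
  (sg : Γ →+ AddAut V) (ψ : V → c.X.X → ℂ) (i1 i2 : c.ι), i1 ≠ i2 → Psi c.X c.B sg ψ →
  FlatM c ψ → ∀ i3, i1 ≠ i3 → ∀ a b a' b', ∀ᵐ x ∂c.W2.μ, c.A i1 x ∈ c.SV ψ i1 i3 a b →
    c.A i2 x ∈ c.SV ψ i1 i3 a' b' →
    (c.Bc i1 x ∈ c.SV ψ i1 i2 a a' ↔ c.Bc i3 x ∈ c.SV ψ i1 i2 b b')

/-! ### from the line to the finite level -/

/-- the internal sets, recentred at the first slot -/
def rec1 (c : Ctx) {V : Type} (A : V → V → Lab → Set c.X.X) (i1 : c.ι) (l : Lab) (a a' : V) :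
    Set c.X.X := c.X.Tz (-rho (c.sl i1) l) ⁻¹' A a a' l

def stp (c : Ctx) (i1 i2 : c.ι) (l : Lab) : Γ := rho (c.sl i2) l - rho (c.sl i1) l

/-- the sets `A` describe the steps -/
def Desc (c : Ctx) {V : Type} (ψ : V → c.X.X → ℂ) (i1 i2 : c.ι)
    (A : V → V → Lab → Set c.X.X) : Prop :=
  (∀ a a' l, MeasurableSet (A a a' l)) ∧ ∀ a a', c.SV ψ i1 i2 a a' =ᵐ[c.W.μ] c.L.hs (A a a')

def AlgA : Prop := Fd → Rc → GC → ∀ (c : Ctx) (V : Type) [AddCommGroup V] [Countable V]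
  (sg : Γ →+ AddAut V) (ψ : V → c.X.X → ℂ) (i1 i2 : c.ι) (A : V → V → Lab → Set c.X.X),
  c.Stp sg ψ i1 i2 → Desc c ψ i1 i2 A →
  (∀ a a' b b', Nl c.ν c.U c.X fun l =>
    (rec1 c A i1 l a a' ∩ rec1 c A i1 l b b') \ rec1 c A i1 l (a - b) (a' - b')) ∧
  (∀ a a', Nl c.ν c.U c.X fun l => (rec1 c A i1 l 0 0 ∩ Th c.B c.X.μ (ψ a) ∩
    c.X.Tz (stp c i1 i2 l) ⁻¹' Th c.B c.X.μ (ψ a')) \ rec1 c A i1 l a a') ∧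
  (∀ a a', Nl c.ν c.U c.X fun l => rec1 c A i1 l a a' ∩
    {y | ¬ (y ∈ Th c.B c.X.μ (ψ a) ↔ c.X.Tz (stp c i1 i2 l) y ∈ Th c.B c.X.μ (ψ a'))}) ∧
  ∀ n a a', Nl c.ν c.U c.X fun l =>
    {y | ¬ (y ∈ rec1 c A i1 l (sg n a) (sg n a') ↔ c.X.Tz n y ∈ rec1 c A i1 l a a')}

def AlgT : Prop := Fd → Rc → GC → ∀ (c : Ctx) (V : Type) [AddCommGroup V] [Countable V]
  (sg : Γ →+ AddAut V) (ψ : V → c.X.X → ℂ) (i1 i2 : c.ι) (A : V → V → Lab → Set c.X.X),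
  c.Stp sg ψ i1 i2 → Desc c ψ i1 i2 A → ∀ (a : V) (ε : ℝ), 0 < ε → ∃ F : Finset V,
  ∀ᶠ M in (c.U : Filter ℕ),
    (c.ν.av2 M fun l => c.X.μ.real (rec1 c A i1 l 0 0 \ ⋃ a' ∈ F, rec1 c A i1 l a a')) ≤ ε ∧
    (c.ν.av2 M fun l => c.X.μ.real (rec1 c A i1 l 0 0 \ ⋃ a' ∈ F, rec1 c A i1 l a' a)) ≤ ε

def AlgB : Prop := Fd → Rc → GC → ∀ (c : Ctx) (V : Type) [AddCommGroup V] [Countable V]
  (sg : Γ →+ AddAut V) (ψ : V → c.X.X → ℂ) (i1 i2 i3 : c.ι) (A A' : V → V → Lab → Set c.X.X),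
  i1 ≠ i3 → c.Stp sg ψ i1 i2 → c.Stp sg ψ i1 i3 → Desc c ψ i1 i2 A → Desc c ψ i1 i3 A' →
  ∀ a b a' b', ∃ φ : Lab → ℝ, Tendsto (fun M => c.ν.av2 M φ) c.U (𝓝 0) ∧ ∀ l,
    Tendsto (fun M => c.ν.av2 M fun l' => c.X.μ.real {y | y ∈ rec1 c A' i1 l' a b ∧
      y ∈ rec1 c A' i1 l' (sg (stp c i1 i2 l) a') (sg (stp c i1 i2 l) b') ∧
      ¬ (y ∈ rec1 c A i1 l a a' ↔ c.X.Tz (stp c i1 i3 l') y ∈ rec1 c A i1 l b b')}) c.U (𝓝 (φ l))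

def AlgC : Prop := GC → AlgA → AlgT → AlgB → AlgIR

end T4x

end
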